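import Mathlib

/-!
# Realizations of Coxeter systems, roots, reflection orders, Mikado words (MP_d13a5e_al)
-/

open MvPolynomial

namespace RC

/-- A realization `V` of the Coxeter system `(W,S)` as in Soergel and Elias-Williamson: a
representation `ρ` of `W` on `V* = ℝⁿ`, with simple roots `α_s ∈ V*` and simple coroots
`α_s^∨ ∈ V`, both families linearly independent, `⟨α_s, α_t^∨⟩ = -2 cos(π/m_{st})` (`= -2` if
`m_{st} = ∞`, encoded by `M s t = 0`), `s v = v - ⟨v, α_s^∨⟩ α_s`, and `V` is reflection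
faithful: `ρ` is injective and only the reflections of `W` have a fixed space of
codimension `1`. -/
structure Rlz {B W : Type} [Group W] {M : CoxeterMatrix B} (cs : CoxeterSystem M W) where
  n : ℕ
  α : B → Fin n → ℝ
  αc : B → Fin n → ℝ
  li : LinearIndependent ℝ α
  lic : LinearIndependent ℝ αc
  pair : ∀ s t, ∑ i, α s i * αc t i = -2 * Real.cos (Real.pi / (M s t : ℝ))
  ρ : W →* Module.End ℝ (Fin n → ℝ)
  ρs : ∀ s v, ρ (cs.simple s) v = v - (∑ i, v i * αc s i) • α s
  inj : Function.Injective ρ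
  refl : ∀ w, Module.finrank ℝ (LinearMap.range (ρ w - 1)) = 1 → cs.IsReflection w

namespace Rlz

variable {B W : Type} [Group W] {M : CoxeterMatrix B} {cs : CoxeterSystem M W} (V : Rlz cs)

/-- positive roots: the roots `w α_s` which are non-negative combinations of simple roots -/
def PosRoot (v : Fin V.n → ℝ) : Prop :=
  (∃ w s, v = V.ρ w (V.α s)) ∧
    ∃ c : B →₀ ℝ, (∀ s, 0 ≤ c s) ∧ v = c.sum (fun s a => a • V.α s)

/-- `r` is a reflection order on the positive roots: a total order such that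
`u ≺ a u + b v ≺ v` or `v ≺ a u + b v ≺ u` whenever `a, b > 0` and `u ≠ v` and `a u + b v` are
positive roots -/
structure ReflOrder (r : (Fin V.n → ℝ) → (Fin V.n → ℝ) → Prop) : Prop where
  irrefl : ∀ u, V.PosRoot u → ¬ r u u
  trans : ∀ u v w, V.PosRoot u → V.PosRoot v → V.PosRoot w → r u v → r v w → r u w
  total : ∀ u v, V.PosRoot u → V.PosRoot v → u ≠ v → r u v ∨ r v u
  conv : ∀ u v (a b : ℝ), V.PosRoot u → V.PosRoot v → u ≠ v → 0 < a → 0 < b →
    V.PosRoot (a • u + b • v) → (r u (a • u + b • v) ∧ r (a • u + b • v) v) ∨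
      (r v (a • u + b • v) ∧ r (a • u + b • v) u)

/-- `A` is an initial section of the order `r` on the positive roots -/
def InitSec (r : (Fin V.n → ℝ) → (Fin V.n → ℝ) → Prop) (A : Set (Fin V.n → ℝ)) : Prop :=
  (∀ u ∈ A, V.PosRoot u) ∧ ∀ u v, V.PosRoot u → v ∈ A → r u v → u ∈ A

open Classical in
/-- the signed word of the Mikado braid `x_A`, `x = s_1 ⋯ s_k`: the sign of the letter `s_i` is
negative (`false`) iff the root `s_k ⋯ s_{i+1} α_{s_i}` is in `A` -/
noncomputable def mik (A : Set (Fin V.n → ℝ)) : List B → List (B × Bool)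
  | [] => []
  | s :: l => (s, !decide (V.ρ (cs.wordProd l)⁻¹ (V.α s) ∈ A)) :: mik A l

/-- the linear form with coefficients `v` -/
noncomputable def lf {n : ℕ} (v : Fin n → ℝ) : MvPolynomial (Fin n) ℝ := ∑ j, C (v j) * X j

/-- the action of `w` on `R = S(V*)` -/
noncomputable def actR (w : W) : MvPolynomial (Fin V.n) ℝ →ₐ[ℝ] MvPolynomial (Fin V.n) ℝ :=
  aeval (fun i => lf (V.ρ w (Pi.single i 1)))

end Rlz

end RC
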