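import Mathlib
import Pool.Agent.EW.RC.Rz

/-!
# Blocks R0, R1: positivity of roots (Tits) and root facts for a realization (MP_d13a5e_al)
-/

open MvPolynomial

namespace RC

namespace R0

/-- `sin (j θ) / sin θ` as a function of `2 cos θ` -/
noncomputable def Uc (κ : ℝ) : ℕ → ℝ
  | 0 => 0
  | 1 => 1
  | (j + 2) => κ * Uc κ (j + 1) - Uc κ j

theorem Uc_succ (κ : ℝ) (j : ℕ) : Uc κ (j + 2) = κ * Uc κ (j + 1) - Uc κ j := rfl

theorem Uc_sin (θ : ℝ) : ∀ j : ℕ, Uc (2 * Real.cos θ) j * Real.sin θ = Real.sin (j * θ) ∧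
    Uc (2 * Real.cos θ) (j + 1) * Real.sin θ = Real.sin ((j + 1 : ℕ) * θ) := by
  intro j
  induction j with
  | zero => simp [Uc]
  | succ j ih =>
    refine ⟨ih.2, ?_⟩
    rw [Uc_succ, sub_mul, ih.1, mul_assoc, ih.2]
    have e1 : ((j + 1 + 1 : ℕ) : ℝ) * θ = (j + 1 : ℕ) * θ + θ := by push_cast; ring
    have e2 : (j : ℝ) * θ = (j + 1 : ℕ) * θ - θ := by push_cast; ring
    rw [e1, e2, Real.sin_add, Real.sin_sub]
    ring

theorem Uc_two : ∀ j : ℕ, Uc 2 j = j ∧ Uc 2 (j + 1) = (j + 1 : ℕ) := by
  intro j
  induction j with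
  | zero => simp [Uc]
  | succ j ih =>
    refine ⟨ih.2, ?_⟩
    rw [Uc_succ, ih.1, ih.2]
    push_cast
    ring

theorem Uc_nonneg (m k : ℕ) (hm : m ≠ 1) (hk : m = 0 ∨ k ≤ m) :
    0 ≤ Uc (2 * Real.cos (Real.pi / (m : ℝ))) k := by
  by_cases h0 : m = 0
  · rw [h0, Nat.cast_zero, div_zero, Real.cos_zero, mul_one, (Uc_two k).1]
    exact Nat.cast_nonneg k
  · have hk' : k ≤ m := hk.resolve_left h0
    have hm2 : 2 ≤ m := by omega
    have hmR : (2 : ℝ) ≤ m := by exact_mod_cast hm2
    have hkR : (k : ℝ) ≤ m := by exact_mod_cast hk'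
    have hpi := Real.pi_pos
    have hs : 0 < Real.sin (Real.pi / m) := by
      refine Real.sin_pos_of_pos_of_lt_pi (by positivity) ?_
      rw [div_lt_iff₀ (by linarith)]
      nlinarith
    have h1 := (Uc_sin (Real.pi / m) k).1
    have h2 : 0 ≤ Real.sin ((k : ℝ) * (Real.pi / m)) := by
      refine Real.sin_nonneg_of_nonneg_of_le_pi (by positivity) ?_
      rw [mul_div_assoc', div_le_iff₀ (by linarith)]
      nlinarith
    rw [← h1] at h2
    exact nonneg_of_mul_nonneg_left h2 hs

/-- non-negative combinations -/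
def NN {B E : Type} [AddCommGroup E] [Module ℝ E] (a : B → E) (v : E) : Prop :=
  ∃ c : B →₀ ℝ, (∀ t, 0 ≤ c t) ∧ v = c.sum (fun t x => x • a t)

theorem NN.add {B E : Type} [AddCommGroup E] [Module ℝ E] {a : B → E} {v w : E} (hv : NN a v) (hw : NN a w) :
    NN a (v + w) := by
  obtain ⟨c, hc, rfl⟩ := hv
  obtain ⟨d, hd, rfl⟩ := hw
  refine ⟨c + d, fun t => add_nonneg (hc t) (hd t), ?_⟩
  rw [Finsupp.sum_add_index' (fun t => zero_smul ℝ (a t)) (fun t x y => add_smul x y (a t))]

theorem NN.smul {B E : Type} [AddCommGroup E] [Module ℝ E] {a : B → E} {v : E} (hv : NN a v) {x : ℝ}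
    (hx : 0 ≤ x) : NN a (x • v) := by
  obtain ⟨c, hc, rfl⟩ := hv
  refine ⟨x • c, fun t => mul_nonneg hx (hc t), ?_⟩
  rw [Finsupp.sum_smul_index (fun t => zero_smul ℝ (a t)), Finsupp.smul_sum]
  refine Finsupp.sum_congr fun t _ => ?_
  rw [mul_smul]

theorem NN.simple {B E : Type} [AddCommGroup E] [Module ℝ E] (a : B → E) (s : B) : NN a (a s) := by
  classical
  refine ⟨Finsupp.single s 1, fun t => ?_, ?_⟩
  · rw [Finsupp.single_apply]
    split_ifs
    · exact zero_le_one
    · exact le_rfl
  · rw [Finsupp.sum_single_index (zero_smul ℝ (a s)), one_smul]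

section

variable {B W : Type} [Group W] {M : CoxeterMatrix B} (cs : CoxeterSystem M W)
  {E : Type} [AddCommGroup E] [Module ℝ E] (ρ : W →* Module.End ℝ E) (a : B → E) (f : B → E →ₗ[ℝ] ℝ)

/-- the product of the alternating word of length `k` ending with `t` -/
def Al (s t : B) (k : ℕ) : W := cs.wordProd (CoxeterSystem.alternatingWord s t k)

theorem Al_zero (s t : B) : Al cs s t 0 = 1 := rfl

theorem Al_succ (s t : B) (k : ℕ) :
    Al cs s t (k + 1) = cs.simple (if Even k then t else s) * Al cs s t k := by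
  unfold Al
  rw [CoxeterSystem.alternatingWord_succ', CoxeterSystem.wordProd_cons]

theorem Al_succ' (s t : B) (k : ℕ) : Al cs s t (k + 1) = Al cs t s k * cs.simple t := by
  unfold Al
  rw [CoxeterSystem.alternatingWord_succ, CoxeterSystem.wordProd_concat]

theorem len_Al (s t : B) (k : ℕ) : cs.length (Al cs s t k) ≤ k := by
  have h := cs.length_wordProd_le (CoxeterSystem.alternatingWord s t k)
  rwa [CoxeterSystem.length_alternatingWord] at h

theorem Al_split (s t : B) (m j : ℕ) : ∃ L : List B, L.length = j ∧ Al cs s t (m + j) = cs.wordProd L * Al cs s t m := by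
  induction j with
  | zero => exact ⟨[], rfl, by rw [CoxeterSystem.wordProd_nil, one_mul, add_zero]⟩
  | succ j ih =>
    obtain ⟨L, hL, hL2⟩ := ih
    refine ⟨(if Even (m + j) then t else s) :: L, by rw [List.length_cons, hL], ?_⟩
    rw [← add_assoc, Al_succ, hL2, CoxeterSystem.wordProd_cons, mul_assoc]

theorem act_Al (hρ : ∀ s v, ρ (cs.simple s) v = v - f s v • a s) {s t : B} {κ : ℝ}
    (hss : f s (a s) = 2) (htt : f t (a t) = 2) (hst : f t (a s) = -κ) (hts : f s (a t) = -κ) (k : ℕ) :
    ρ (Al cs s t k) (a s) = (if Even k then Uc κ (k + 1) else Uc κ k) • a s +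
      (if Even k then Uc κ k else Uc κ (k + 1)) • a t := by
  induction k with
  | zero =>
    rw [Al_zero, map_one, Module.End.one_apply, if_pos Even.zero, if_pos Even.zero]
    simp [Uc]
  | succ k ih =>
    rw [Al_succ, map_mul, Module.End.mul_apply, ih]
    by_cases hk : Even k
    · have hk' : ¬ Even (k + 1) := by
        rw [Nat.even_add_one]
        exact not_not.2 hk
      rw [if_pos hk, if_pos hk, if_pos hk, if_neg hk', if_neg hk', hρ, map_add, map_smul, map_smul, hst, htt,
        Uc_succ]
      simp only [smul_eq_mul]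
      module
    · have hk' : Even (k + 1) := by
        rw [Nat.even_add_one]
        exact hk
      rw [if_neg hk, if_neg hk, if_neg hk, if_pos hk', if_pos hk', hρ, map_add, map_smul, map_smul, hts, hss,
        Uc_succ]
      simp only [smul_eq_mul]
      module

end

end R0

section Tits

variable {B W : Type} [Group W] {M : CoxeterMatrix B} (cs : CoxeterSystem M W)

/-- R0. Positivity of roots: if `ℓ(w s) > ℓ(w)` then `w α_s` is a non-negative combination of
simple roots. -/
theorem tits {E : Type} [AddCommGroup E] [Module ℝ E] (ρ : W →* Module.End ℝ E) (a : B → E)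
    (f : B → E →ₗ[ℝ] ℝ) (hρ : ∀ s v, ρ (cs.simple s) v = v - f s v • a s)
    (hf : ∀ s t, f t (a s) = -2 * Real.cos (Real.pi / (M s t : ℝ)))
    (w : W) (s : B) (h : cs.length w < cs.length (w * cs.simple s)) :
    ∃ c : B →₀ ℝ, (∀ t, 0 ≤ c t) ∧ ρ w (a s) = c.sum (fun t x => x • a t) := by
  classical
  suffices H : ∀ n : ℕ, ∀ w : W, cs.length w = n → ∀ s : B, cs.length w < cs.length (w * cs.simple s) →
      R0.NN a (ρ w (a s)) from H _ w rfl s h
  clear h w s
  intro n
  induction n using Nat.strong_induction_on with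
  | _ n ih =>
    intro w hn s h
    by_cases hw : w = 1
    · rw [hw, map_one, Module.End.one_apply]
      exact R0.NN.simple a s
    obtain ⟨t, ht⟩ := cs.exists_rightDescent_of_ne_one hw
    have hst : s ≠ t := by
      rintro rfl
      exact absurd ht (not_lt.2 h.le)
    have ht' : cs.length (w * cs.simple t) + 1 = cs.length w := cs.isRightDescent_iff.1 ht
    -- the maximal decomposition
    let P : ℕ → Prop := fun k => 1 ≤ k ∧ ∃ v : W, w = v * R0.Al cs s t k ∧ cs.length w = cs.length v + k
    have hP1 : P 1 := by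
      refine ⟨le_rfl, w * cs.simple t, ?_, ht'.symm⟩
      rw [R0.Al_succ, R0.Al_zero, if_pos Even.zero, mul_one, mul_assoc, cs.simple_mul_simple_self, mul_one]
    have hPb : ∀ k, P k → k ≤ cs.length w := by
      rintro k ⟨-, v, -, h1⟩
      omega
    obtain ⟨k, ⟨hk1, v, hwv, hlv⟩, hmax⟩ : ∃ k, P k ∧ ∀ j, P j → j ≤ k := by
      refine ⟨Nat.findGreatest P (cs.length w), Nat.findGreatest_spec (hPb 1 hP1) hP1, fun j hj => ?_⟩
      exact Nat.le_findGreatest (hPb j hj) hj
    obtain ⟨k, rfl⟩ : ∃ k', k = k' + 1 := ⟨k - 1, by omega⟩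
    -- the next letter
    have hq : cs.length v < cs.length (v * cs.simple (if Even (k + 1) then t else s)) := by
      rcases cs.length_mul_simple v (if Even (k + 1) then t else s) with h1 | h1
      · omega
      · exfalso
        have h2 := hmax (k + 2) ⟨by omega, v * cs.simple (if Even (k + 1) then t else s), by
          rw [R0.Al_succ, mul_assoc, ← mul_assoc (cs.simple _) (cs.simple _), cs.simple_mul_simple_self, one_mul,
            ← hwv], by omega⟩
        omega
    -- the first letter
    have hp : cs.length v < cs.length (v * cs.simple (if Even k then t else s)) := by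
      rcases cs.length_mul_simple v (if Even k then t else s) with h1 | h1
      · omega
      · exfalso
        have h2 : w = (v * cs.simple (if Even k then t else s)) * R0.Al cs s t k := by
          rw [hwv, R0.Al_succ, mul_assoc]
        have h3 := cs.length_mul_le (v * cs.simple (if Even k then t else s)) (R0.Al cs s t k)
        rw [← h2] at h3
        have h4 := R0.len_Al cs s t k
        omega
    have hvs : R0.NN a (ρ v (a s)) ∧ R0.NN a (ρ v (a t)) := by
      have hv : cs.length v < n := by omega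
      by_cases hk : Even k
      · have hk' : ¬ Even (k + 1) := by
          rw [Nat.even_add_one]
          exact not_not.2 hk
        rw [if_neg hk'] at hq
        rw [if_pos hk] at hp
        exact ⟨ih _ hv v rfl s hq, ih _ hv v rfl t hp⟩
      · have hk' : Even (k + 1) := by
          rw [Nat.even_add_one]
          exact hk
        rw [if_pos hk'] at hq
        rw [if_neg hk] at hp
        exact ⟨ih _ hv v rfl s hp, ih _ hv v rfl t hq⟩
    -- `k + 1 < m`
    have hMs : M t s = M s t := M.symmetric t s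
    have hkm : M s t = 0 ∨ k + 1 < M s t := by
      by_contra hcon
      rw [not_or] at hcon
      obtain ⟨m, hm⟩ : ∃ m, M s t = m + 1 := ⟨M s t - 1, by omega⟩
      obtain ⟨L, hL, hL2⟩ := R0.Al_split cs s t (m + 1) (k - m)
      have e1 : m + 1 + (k - m) = k + 1 := by omega
      rw [e1] at hL2
      have e2 : R0.Al cs s t (m + 1) = R0.Al cs t s (m + 1) := by
        have h5 := cs.wordProd_braidWord_eq s t
        unfold CoxeterSystem.braidWord at h5
        rw [hMs, hm] at h5
        exact h5
      have e3 : w * cs.simple s = v * (cs.wordProd L * R0.Al cs s t m) := by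
        rw [hwv, hL2, e2, R0.Al_succ', mul_assoc v, mul_assoc, mul_assoc (R0.Al cs s t m), cs.simple_mul_simple_self,
          mul_one]
      have h5 := cs.length_mul_le v (cs.wordProd L * R0.Al cs s t m)
      have h6 := cs.length_mul_le (cs.wordProd L) (R0.Al cs s t m)
      have h7 := cs.length_wordProd_le L
      have h8 := R0.len_Al cs s t m
      rw [← e3] at h5
      omega
    have hM1 : M s t ≠ 1 := M.off_diagonal s t hst
    have hss : ∀ u : B, f u (a u) = 2 := by
      intro u
      rw [hf, M.diagonal u]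
      simp
    have hact := R0.act_Al cs ρ a f hρ (s := s) (t := t) (κ := 2 * Real.cos (Real.pi / (M s t : ℝ)))
      (hss s) (hss t) (by rw [hf]; ring) (by rw [hf, hMs]; ring) (k + 1)
    have hU1 : 0 ≤ R0.Uc (2 * Real.cos (Real.pi / (M s t : ℝ))) (k + 1) :=
      R0.Uc_nonneg _ _ hM1 (by omega)
    have hU2 : 0 ≤ R0.Uc (2 * Real.cos (Real.pi / (M s t : ℝ))) (k + 1 + 1) :=
      R0.Uc_nonneg _ _ hM1 (by omega)
    rw [hwv, map_mul, Module.End.mul_apply, hact, map_add, map_smul, map_smul]
    refine (hvs.1.smul ?_).add (hvs.2.smul ?_)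
    · split_ifs
      · exact hU2
      · exact hU1
    · split_ifs
      · exact hU1
      · exact hU2

end Tits

end RC
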