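import Mathlib
import Pool.Agent.EW.RC.R0

/-!
# Block R1: root facts for a realization (MP_d13a5e_al)
-/

open MvPolynomial

namespace RC

namespace Rlz

variable {B W : Type} [Group W] {M : CoxeterMatrix B} {cs : CoxeterSystem M W} (V : Rlz cs)

/-- `⟨v, α_s^∨⟩` -/
noncomputable def fc (s : B) : (Fin V.n → ℝ) →ₗ[ℝ] ℝ where
  toFun v := ∑ i, v i * V.αc s i
  map_add' u v := by simp [add_mul, Finset.sum_add_distrib]
  map_smul' c v := by simp [Finset.mul_sum, mul_assoc]

theorem fc_α (s t : B) : V.fc t (V.α s) = -2 * Real.cos (Real.pi / (M s t : ℝ)) := V.pair s t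

theorem ρ_simple (s : B) (v : Fin V.n → ℝ) :
    V.ρ (cs.simple s) v = v - V.fc s v • V.α s := V.ρs s v

theorem ρ_mul (w w' : W) (v : Fin V.n → ℝ) : V.ρ (w * w') v = V.ρ w (V.ρ w' v) := by
  rw [map_mul]; rfl

theorem ρ_one (v : Fin V.n → ℝ) : V.ρ 1 v = v := by
  rw [map_one]; rfl

theorem ρ_inv_self (w : W) (v : Fin V.n → ℝ) : V.ρ w⁻¹ (V.ρ w v) = v := by
  rw [← V.ρ_mul, inv_mul_cancel, V.ρ_one]

theorem ρ_self_inv (w : W) (v : Fin V.n → ℝ) : V.ρ w (V.ρ w⁻¹ v) = v := by
  rw [← V.ρ_mul, mul_inv_cancel, V.ρ_one]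

theorem fc_self (s : B) : V.fc s (V.α s) = 2 := by
  rw [V.fc_α, M.diagonal s]
  simp

theorem ρ_simple_self (s : B) : V.ρ (cs.simple s) (V.α s) = -V.α s := by
  rw [V.ρ_simple, V.fc_self, two_smul]
  abel

theorem ρ_simple_self' (w : W) (s : B) :
    V.ρ (w * cs.simple s) (V.α s) = -V.ρ w (V.α s) := by
  rw [V.ρ_mul, V.ρ_simple_self, map_neg]

theorem α_ne (s : B) : V.α s ≠ 0 := V.li.ne_zero s

theorem ρ_α_ne (w : W) (s : B) : V.ρ w (V.α s) ≠ 0 := by
  intro h
  have h1 := V.ρ_inv_self w (V.α s)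
  rw [h, map_zero] at h1
  exact V.α_ne s h1.symm

theorem ne_zero_of_pos {v : Fin V.n → ℝ} (h : V.PosRoot v) : v ≠ 0 := by
  obtain ⟨⟨w, s, rfl⟩, _⟩ := h
  exact V.ρ_α_ne w s

/-- the linear combination of simple roots -/
noncomputable def lc : (B →₀ ℝ) →ₗ[ℝ] (Fin V.n → ℝ) := Finsupp.linearCombination ℝ V.α

theorem lc_inj : Function.Injective V.lc := V.li

theorem lc_apply (c : B →₀ ℝ) : V.lc c = c.sum (fun s a => a • V.α s) :=
  Finsupp.linearCombination_apply ℝ c

theorem lc_single (s : B) (a : ℝ) : V.lc (Finsupp.single s a) = a • V.α s :=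
  Finsupp.linearCombination_single ℝ a s

theorem not_pos_neg {v : Fin V.n → ℝ} (h : V.PosRoot v) (h' : V.PosRoot (-v)) : False := by
  obtain ⟨_, c, hc, hcv⟩ := id h
  obtain ⟨_, d, hd, hdv⟩ := h'
  rw [← V.lc_apply] at hcv hdv
  have h1 : V.lc (c + d) = 0 := by
    rw [map_add, ← hcv, ← hdv]
    simp
  have h2 : c + d = 0 := V.lc_inj (by rw [h1, map_zero])
  have h3 : c = 0 := by
    ext t
    have := DFunLike.congr_fun h2 t
    simp only [Finsupp.coe_add, Pi.add_apply, Finsupp.coe_zero, Pi.zero_apply] at this ⊢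
    linarith [hc t, hd t]
  rw [h3, map_zero] at hcv
  exact V.ne_zero_of_pos h hcv

theorem pos_of_lt (w : W) (s : B) (h : cs.length w < cs.length (w * cs.simple s)) :
    V.PosRoot (V.ρ w (V.α s)) :=
  ⟨⟨w, s, rfl⟩, tits cs V.ρ V.α V.fc V.ρ_simple V.fc_α w s h⟩

theorem neg_of_lt (w : W) (s : B) (h : cs.length (w * cs.simple s) < cs.length w) :
    V.PosRoot (-V.ρ w (V.α s)) := by
  rw [← V.ρ_simple_self']
  apply V.pos_of_lt
  rwa [cs.simple_mul_simple_cancel_right]

/-- (1) -/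
theorem pos_iff (w : W) (s : B) :
    V.PosRoot (V.ρ w (V.α s)) ↔ cs.length w < cs.length (w * cs.simple s) := by
  refine ⟨fun h => ?_, V.pos_of_lt w s⟩
  by_contra h1
  have h2 : cs.length (w * cs.simple s) < cs.length w := by
    have := cs.length_mul_simple_ne w s
    omega
  exact V.not_pos_neg h (V.neg_of_lt w s h2)

theorem neg_iff (w : W) (s : B) :
    V.PosRoot (-V.ρ w (V.α s)) ↔ cs.length (w * cs.simple s) < cs.length w := by
  refine ⟨fun h => ?_, V.neg_of_lt w s⟩
  by_contra h1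
  have h2 : cs.length w < cs.length (w * cs.simple s) := by
    have := cs.length_mul_simple_ne w s
    omega
  exact V.not_pos_neg (V.pos_of_lt w s h2) h

theorem pos_or_neg (w : W) (s : B) :
    V.PosRoot (V.ρ w (V.α s)) ∨ V.PosRoot (-V.ρ w (V.α s)) := by
  rw [V.pos_iff, V.neg_iff]
  have := cs.length_mul_simple_ne w s
  omega

/-- the combination of coroot functionals -/
noncomputable def lcc : (B →₀ ℝ) →ₗ[ℝ] ((Fin V.n → ℝ) →ₗ[ℝ] ℝ) :=
  Finsupp.linearCombination ℝ V.fc

theorem lcc_single (s : B) (a : ℝ) : V.lcc (Finsupp.single s a) = a • V.fc s :=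
  Finsupp.linearCombination_single ℝ a s

theorem lcc_α (x : B →₀ ℝ) (s : B) : V.lcc x (V.α s) = V.fc s (V.lc x) := by
  induction x using Finsupp.induction_linear with
  | zero => simp
  | add x y hx hy => rw [map_add, LinearMap.add_apply, hx, hy, map_add, map_add]
  | single t a =>
    rw [lcc_single, lc_single, LinearMap.smul_apply, map_smul, V.fc_α, V.fc_α, M.symmetric s t]

theorem exists_lc (w : W) (s : B) : ∃ x : B →₀ ℝ, V.lc x = V.ρ w (V.α s) ∧
    ∀ v, V.lcc x v = V.fc s (V.ρ w⁻¹ v) := by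
  induction w using cs.simple_induction_left with
  | one =>
    refine ⟨Finsupp.single s 1, ?_, fun v => ?_⟩
    · rw [lc_single, one_smul, V.ρ_one]
    · rw [lcc_single, one_smul, inv_one, V.ρ_one]
  | mul_simple_left w t ih =>
    obtain ⟨x, h1, h2⟩ := ih
    refine ⟨x - Finsupp.single t (V.fc t (V.lc x)), ?_, fun v => ?_⟩
    · rw [map_sub, lc_single, V.ρ_mul, V.ρ_simple, h1]
    · rw [map_sub, LinearMap.sub_apply, lcc_single, mul_inv_rev, cs.inv_simple, V.ρ_mul,
        V.ρ_simple t v, ← h2, map_sub, map_smul, V.lcc_α, LinearMap.smul_apply, smul_eq_mul,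
        smul_eq_mul, mul_comm]

/-- the coroot functional of the root `w α_s` -/
noncomputable def rfn (w : W) (s : B) : (Fin V.n → ℝ) →ₗ[ℝ] ℝ := (V.fc s).comp (V.ρ w⁻¹)

theorem rfn_apply (w : W) (s : B) (v : Fin V.n → ℝ) : V.rfn w s v = V.fc s (V.ρ w⁻¹ v) := rfl

theorem rfn_self (w : W) (s : B) : V.rfn w s (V.ρ w (V.α s)) = 2 := by
  rw [rfn_apply, V.ρ_inv_self, V.fc_self]

theorem rfn_smul {w w' : W} {s s' : B} {c : ℝ} (h : V.ρ w (V.α s) = c • V.ρ w' (V.α s'))
    (v : Fin V.n → ℝ) : V.rfn w s v = c * V.rfn w' s' v := by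
  obtain ⟨x, hx1, hx2⟩ := V.exists_lc w s
  obtain ⟨y, hy1, hy2⟩ := V.exists_lc w' s'
  have h1 : x = c • y := V.lc_inj (by rw [hx1, h, map_smul, hy1])
  rw [rfn_apply, rfn_apply, ← hx2, ← hy2, h1, map_smul, LinearMap.smul_apply, smul_eq_mul]

/-- (2) a root which is a multiple of a root is `±` this root -/
theorem root_smul {w w' : W} {s s' : B} {c : ℝ} (h : V.ρ w (V.α s) = c • V.ρ w' (V.α s')) :
    c = 1 ∨ c = -1 := by
  have h1 := V.rfn_smul h (V.ρ w (V.α s))
  rw [V.rfn_self, h, map_smul, V.rfn_self, smul_eq_mul] at h1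
  have h2 : (c - 1) * (c + 1) = 0 := by linarith
  rcases mul_eq_zero.mp h2 with h3 | h3
  · left; linarith
  · right; linarith

theorem refl_apply (w : W) (s : B) (v : Fin V.n → ℝ) :
    V.ρ (w * cs.simple s * w⁻¹) v = v - V.rfn w s v • V.ρ w (V.α s) := by
  rw [V.ρ_mul, V.ρ_mul, V.ρ_simple, map_sub, V.ρ_self_inv, map_smul, rfn_apply]

/-- (3) the reflection of a root -/
theorem refl_root (w : W) (s : B) : ∃ f : (Fin V.n → ℝ) →ₗ[ℝ] ℝ,
    (∀ v, V.ρ (w * cs.simple s * w⁻¹) v = v - f v • V.ρ w (V.α s)) ∧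
      f (V.ρ w (V.α s)) = 2 :=
  ⟨V.rfn w s, V.refl_apply w s, V.rfn_self w s⟩

/-- (4) proportional roots have the same reflection -/
theorem refl_unique {w w' : W} {s s' : B} {c : ℝ} (h : V.ρ w (V.α s) = c • V.ρ w' (V.α s')) :
    w * cs.simple s * w⁻¹ = w' * cs.simple s' * w'⁻¹ := by
  apply V.inj
  apply LinearMap.ext
  intro v
  rw [V.refl_apply, V.refl_apply, V.rfn_smul h, h, smul_smul]
  rcases V.root_smul h with h1 | h1 <;> simp [h1]

/-- (5) a simple reflection permutes the other positive roots -/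
theorem simple_pos {v : Fin V.n → ℝ} (h : V.PosRoot v) (s : B) (hne : v ≠ V.α s) :
    V.PosRoot (V.ρ (cs.simple s) v) := by
  obtain ⟨⟨w, t, rfl⟩, c, hc, hcv⟩ := h
  have h1 := V.pos_or_neg (cs.simple s * w) t
  rw [V.ρ_mul] at h1
  rcases h1 with h1 | h1
  · exact h1
  · exfalso
    obtain ⟨_, d, hd, hdv⟩ := h1
    rw [← V.lc_apply] at hcv hdv
    set k : ℝ := V.fc s (V.ρ w (V.α t)) with hk
    have h2 : V.lc (c + d - Finsupp.single s k) = 0 := by
      rw [map_sub, map_add, ← hcv, ← hdv, lc_single, V.ρ_simple, ← hk]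
      abel
    have h3 : c + d - Finsupp.single s k = 0 := V.lc_inj (by rw [h2, map_zero])
    have h4 : c = Finsupp.single s (c s) := by
      ext u
      rcases eq_or_ne u s with rfl | hu
      · simp
      · have := DFunLike.congr_fun h3 u
        rw [Finsupp.single_eq_of_ne hu]
        simp only [Finsupp.coe_sub, Finsupp.coe_add, Pi.sub_apply, Pi.add_apply,
          Finsupp.single_eq_of_ne hu, Finsupp.coe_zero, Pi.zero_apply] at this
        linarith [hc u, hd u]
    have h5 : V.ρ w (V.α t) = c s • V.ρ 1 (V.α s) := by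
      rw [V.ρ_one, hcv, ← lc_single, ← h4]
    rcases V.root_smul h5 with h6 | h6
    · rw [h6, one_smul, V.ρ_one] at h5
      exact hne h5
    · linarith [hc s]

theorem inv_aux : ∀ (n : ℕ) (w : W) (s : B) (y : W), cs.length y = n →
    V.PosRoot (V.ρ w (V.α s)) → V.PosRoot (-V.ρ y⁻¹ (V.ρ w (V.α s))) →
    cs.length (w * cs.simple s * w⁻¹ * y) < cs.length y := by
  intro n
  induction n with
  | zero =>
    intro w s y hy h h'
    rw [cs.length_eq_zero_iff] at hy
    subst hy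
    rw [inv_one, V.ρ_one] at h'
    exact (V.not_pos_neg h h').elim
  | succ n ih =>
    intro w s y hy h h'
    have hy1 : y ≠ 1 := by
      rintro rfl
      rw [cs.length_one] at hy
      omega
    obtain ⟨t, ht⟩ := cs.exists_leftDescent_of_ne_one hy1
    rw [cs.isLeftDescent_iff] at ht
    by_cases hb : V.ρ w (V.α s) = V.α t
    · have h1 : w * cs.simple s * w⁻¹ = 1 * cs.simple t * 1⁻¹ := by
        apply V.refl_unique (c := 1)
        rw [V.ρ_one, one_smul, hb]
      rw [h1, one_mul, inv_one, mul_one]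
      omega
    · have h1 := V.simple_pos h t hb
      rw [← V.ρ_mul] at h1
      have h2 := ih (cs.simple t * w) s (cs.simple t * y) (by omega) h1
      have h3 : V.ρ (cs.simple t * y)⁻¹ (V.ρ (cs.simple t * w) (V.α s)) =
          V.ρ y⁻¹ (V.ρ w (V.α s)) := by
        rw [← V.ρ_mul, ← V.ρ_mul]
        congr 2
        rw [mul_inv_rev, mul_assoc, inv_mul_cancel_left]
      rw [h3] at h2
      have h4 := h2 h'
      have h5 : w * cs.simple s * w⁻¹ * y = cs.simple t *
          (cs.simple t * w * cs.simple s * (cs.simple t * w)⁻¹ * (cs.simple t * y)) := by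
        rw [mul_inv_rev, cs.inv_simple]
        simp only [← mul_assoc]
        rw [cs.simple_mul_simple_self, one_mul, mul_assoc (w * cs.simple s * w⁻¹),
          cs.simple_mul_simple_self, mul_one]
      rw [h5]
      have h6 := cs.length_mul_le (cs.simple t)
        (cs.simple t * w * cs.simple s * (cs.simple t * w)⁻¹ * (cs.simple t * y))
      rw [cs.length_simple] at h6
      omega

/-- (6) `ℓ(t y) < ℓ(y)` iff `y⁻¹ β < 0`, for the reflection `t` of the positive root `β` -/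
theorem inv_iff (w : W) (s : B) (h : V.PosRoot (V.ρ w (V.α s))) (y : W) :
    cs.length (w * cs.simple s * w⁻¹ * y) < cs.length y ↔
      V.PosRoot (-V.ρ y⁻¹ (V.ρ w (V.α s))) := by
  refine ⟨fun h1 => ?_, V.inv_aux _ w s y rfl h⟩
  have h2 := V.pos_or_neg (y⁻¹ * w) s
  rw [V.ρ_mul] at h2
  rcases h2 with h2 | h2
  · exfalso
    have h3 : V.ρ (w * cs.simple s * w⁻¹ * y)⁻¹ (V.ρ w (V.α s)) =
        -V.ρ y⁻¹ (V.ρ w (V.α s)) := by
      have e : (w * cs.simple s * w⁻¹ * y)⁻¹ = y⁻¹ * (w * cs.simple s * w⁻¹) := by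
        rw [mul_inv_rev, mul_inv_rev, mul_inv_rev, inv_inv, cs.inv_simple]
        simp only [mul_assoc]
      rw [e, V.ρ_mul, V.refl_apply, V.rfn_self, two_smul, ← map_neg]
      congr 1
      abel
    have h4 := V.inv_aux _ w s (w * cs.simple s * w⁻¹ * y) rfl h (by rwa [h3, neg_neg])
    have h5 : w * cs.simple s * w⁻¹ * (w * cs.simple s * w⁻¹ * y) = y := by
      simp only [← mul_assoc]
      rw [inv_mul_cancel_right, mul_assoc w, cs.simple_mul_simple_self, mul_one,
        mul_inv_cancel, one_mul]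
    rw [h5] at h4
    omega
  · exact h2

end Rlz

end RC
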