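import Mathlib
import Pool.Agent.EW.RC.R1

/-!
# Blocks C0, C1, C2: combinatorics of Mikado braids (MP_d13a5e_al)
-/

open MvPolynomial

namespace RC

variable {B W : Type} [Group W] {M : CoxeterMatrix B} {cs : CoxeterSystem M W}

/-- the alternating positive word `s t s ⋯` with `m` letters -/
def alt (s t : B) : ℕ → List (B × Bool)
  | 0 => []
  | m + 1 => (s, true) :: alt t s m

/-- equality of words in the Artin braid group -/
inductive BEq (M : CoxeterMatrix B) : List (B × Bool) → List (B × Bool) → Prop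
  | refl (u) : BEq M u u
  | symm {u v} : BEq M u v → BEq M v u
  | trans {u v w} : BEq M u v → BEq M v w → BEq M u w
  | cancel (p q : List (B × Bool)) (s : B) (ε : Bool) :
      BEq M (p ++ [(s, ε), (s, !ε)] ++ q) (p ++ q)
  | braid (p q : List (B × Bool)) (s t : B) : M s t ≠ 0 →
      BEq M (p ++ alt s t (M s t) ++ q) (p ++ alt t s (M s t) ++ q)

namespace Rlz

variable (V : Rlz cs)

/-- `Ã = A ∪ -(Φ⁺ ∖ A)` -/
def til (A : Set (Fin V.n → ℝ)) (v : Fin V.n → ℝ) : Prop :=
  v ∈ A ∨ (V.PosRoot (-v) ∧ -v ∉ A)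

open Classical in
/-- the signed word of an arbitrary word -/
noncomputable def mikT (A : Set (Fin V.n → ℝ)) : List B → List (B × Bool)
  | [] => []
  | s :: l => (s, !decide (V.til A (V.ρ (cs.wordProd l)⁻¹ (V.α s)))) :: mikT A l

theorem til_of_pos (A : Set (Fin V.n → ℝ)) {v : Fin V.n → ℝ} (h : V.PosRoot v) :
    V.til A v ↔ v ∈ A := by
  unfold til
  constructor
  · rintro (h1 | h1)
    · exact h1
    · exact (V.not_pos_neg h h1.1).elim
  · exact fun h1 => Or.inl h1

theorem til_of_neg {A : Set (Fin V.n → ℝ)} (hA : ∀ u ∈ A, V.PosRoot u) {v : Fin V.n → ℝ}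
    (h : V.PosRoot (-v)) : V.til A v ↔ -v ∉ A := by
  unfold til
  constructor
  · rintro (h1 | h1)
    · exact (V.not_pos_neg (hA v h1) h).elim
    · exact h1.2
  · exact fun h1 => Or.inr ⟨h, h1⟩

theorem til_neg {A : Set (Fin V.n → ℝ)} (hA : ∀ u ∈ A, V.PosRoot u) {v : Fin V.n → ℝ}
    (h : V.PosRoot v ∨ V.PosRoot (-v)) : V.til A (-v) ↔ ¬ V.til A v := by
  rcases h with h | h
  · rw [V.til_of_pos A h, V.til_of_neg hA (by rwa [neg_neg]), neg_neg]
  · rw [V.til_of_pos A h, V.til_of_neg hA h, not_not]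

theorem mikT_eq_mik (A : Set (Fin V.n → ℝ)) (l : List B) (hl : cs.IsReduced l) :
    V.mikT A l = V.mik A l := by
  induction l with
  | nil => rfl
  | cons s l ih =>
    have h1 : cs.IsReduced l := by
      have := hl.drop 1
      simpa using this
    have hpos : V.PosRoot (V.ρ (cs.wordProd l)⁻¹ (V.α s)) := by
      rw [V.pos_iff, ← cs.length_inv ((cs.wordProd l)⁻¹ * cs.simple s), mul_inv_rev, inv_inv,
        cs.inv_simple, ← cs.wordProd_cons, hl.eq, cs.length_inv, h1.eq]
      simp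
    rw [mikT, mik, ih h1]
    congr 3
    rw [V.til_of_pos A hpos]

end Rlz

end RC
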