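import Mathlib
import Pool.Agent.EW.RC.C0

/-!
# Block C1: path independence (MP_d13a5e_al)
-/

open MvPolynomial

namespace RC

/-! ### products of alternating words -/

namespace C1

variable {G : Type*}

/-- `f 0 * f 1 * ⋯ * f (n - 1)` -/
def asc [Monoid G] (f : ℕ → G) : ℕ → G
  | 0 => 1
  | n + 1 => asc f n * f n

/-- `f (n - 1) * ⋯ * f 1 * f 0` -/
def dsc [Monoid G] (f : ℕ → G) : ℕ → G
  | 0 => 1
  | n + 1 => f n * dsc f n

theorem asc_add [Monoid G] (f : ℕ → G) (a b : ℕ) :
    asc f (a + b) = asc f a * asc (fun i => f (a + i)) b := by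
  induction b with
  | zero => simp [asc]
  | succ b ih => rw [← add_assoc, asc, ih, asc, mul_assoc]

theorem dsc_add [Monoid G] (f : ℕ → G) (a b : ℕ) :
    dsc f (a + b) = dsc (fun i => f (a + i)) b * dsc f a := by
  induction b with
  | zero => simp [dsc]
  | succ b ih => rw [← add_assoc, dsc, ih, dsc, mul_assoc]

theorem asc_succ' [Monoid G] (f : ℕ → G) (n : ℕ) :
    asc f (n + 1) = f 0 * asc (fun i => f (i + 1)) n := by
  rw [add_comm, asc_add]
  have h1 : asc f 1 = f 0 := by simp [asc]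
  rw [h1]
  congr 2
  funext i
  rw [add_comm]

theorem dsc_congr [Monoid G] {f g : ℕ → G} {n : ℕ} (h : ∀ i, i < n → f i = g i) :
    dsc f n = dsc g n := by
  induction n with
  | zero => rfl
  | succ n ih => rw [dsc, dsc, ih fun i hi => h i (by omega), h n (by omega)]

theorem dsc_inv [Group G] (f : ℕ → G) (n : ℕ) : dsc (fun i => (f i)⁻¹) n = (asc f n)⁻¹ := by
  induction n with
  | zero => simp [asc, dsc]
  | succ n ih => rw [asc, dsc, ih, mul_inv_rev]

theorem asc_dsc_one [Monoid G] {f : ℕ → G} (h : ∀ i, f i * f i = 1) (n : ℕ) :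
    asc f n * dsc f n = 1 := by
  induction n with
  | zero => simp [asc, dsc]
  | succ n ih =>
    rw [asc, dsc, mul_assoc, ← mul_assoc (f n), h n, one_mul, ih]

theorem per_add {G : Type*} {f : ℕ → G} (hf : ∀ k, f (k + 2) = f k) (k l : ℕ) :
    f (k + 2 * l) = f k := by
  induction l with
  | zero => rfl
  | succ l ih => rw [show k + 2 * (l + 1) = k + 2 * l + 2 by ring, hf, ih]

theorem dsc_eq_asc [Monoid G] {f : ℕ → G} (hf : ∀ k, f (k + 2) = f k) (c n : ℕ) :
    dsc (fun i => f (c + i)) n = asc (fun i => f (c + n + 1 + i)) n := by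
  induction n with
  | zero => rfl
  | succ n ih =>
    rw [dsc, ih, asc_succ']
    congr 1
    · rw [show c + (n + 1) + 1 + 0 = c + n + 2 by ring, hf]
    · congr 1
      funext i
      rw [show c + (n + 1) + 1 + (i + 1) = c + n + 1 + i + 2 by ring, hf]

theorem asc_two_mul [Monoid G] {f : ℕ → G} (hf : ∀ k, f (k + 2) = f k) (c m : ℕ) :
    asc (fun i => f (c + i)) (m + m) = (f c * f (c + 1)) ^ m := by
  induction m with
  | zero => simp [asc]
  | succ m ih =>
    rw [show m + 1 + (m + 1) = m + m + 1 + 1 by ring, asc, asc, ih, pow_succ, mul_assoc]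
    congr 2
    · rw [← two_mul, per_add hf]
    · rw [show c + (m + m + 1) = c + 1 + 2 * m by ring, per_add hf]

theorem two_halves [Monoid G] {f : ℕ → G} (hf : ∀ k, f (k + 2) = f k) (m : ℕ) :
    (f 1 * f 2) ^ m = asc (fun i => f (i + 1)) m * dsc f m := by
  have h1 := asc_two_mul hf 1 m
  rw [asc_add] at h1
  have h2 := dsc_eq_asc hf 0 m
  have e1 : (fun i => f (1 + i)) = fun i => f (i + 1) := by
    funext i
    rw [add_comm]
  have e2 : (fun i => f (1 + (m + i))) = fun i => f (0 + m + 1 + i) := by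
    funext i
    congr 1
    ring
  have e3 : (fun i => f (0 + i)) = f := by
    funext i
    rw [zero_add]
  rw [e1, e2, ← h2, e3] at h1
  exact h1.symm

theorem path_eq [Group G] {f : ℕ → G} (hf : ∀ k, f (k + 2) = f k) (j n : ℕ)
    (hbr : asc f (j + n) = asc (fun i => f (i + 1)) (j + n)) :
    dsc (fun k => if k < j then (f k)⁻¹ else f k) (j + n) =
      dsc (fun k => if k < n then f (k + 1) else (f (k + 1))⁻¹) (n + j) := by
  have hbrc : ∀ c, asc (fun i => f (c + i)) (j + n) = asc (fun i => f (c + 1 + i)) (j + n) := by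
    intro c
    rcases Nat.even_or_odd' c with ⟨l, rfl | rfl⟩
    · have e1 : (fun i => f (2 * l + i)) = f := by
        funext i
        rw [add_comm, per_add hf]
      have e2 : (fun i => f (2 * l + 1 + i)) = fun i => f (i + 1) := by
        funext i
        rw [show 2 * l + 1 + i = i + 1 + 2 * l by ring, per_add hf]
      rw [e1, e2, hbr]
    · have e1 : (fun i => f (2 * l + 1 + 1 + i)) = f := by
        funext i
        rw [show 2 * l + 1 + 1 + i = i + 2 * (l + 1) by ring, per_add hf]
      have e2 : (fun i => f (2 * l + 1 + i)) = fun i => f (i + 1) := by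
        funext i
        rw [show 2 * l + 1 + i = i + 1 + 2 * l by ring, per_add hf]
      rw [e1, e2, hbr]
  have hL : dsc (fun k => if k < j then (f k)⁻¹ else f k) (j + n) =
      asc (fun i => f (j + n + 1 + i)) n * (asc f j)⁻¹ := by
    rw [dsc_add]
    congr 1
    · rw [← dsc_eq_asc hf]
      refine dsc_congr fun i _ => ?_
      simp
    · rw [← dsc_inv]
      exact dsc_congr fun i hi => by simp [hi]
  have hR : dsc (fun k => if k < n then f (k + 1) else (f (k + 1))⁻¹) (n + j) =
      (asc (fun i => f (n + 1 + i)) j)⁻¹ * asc (fun i => f (n + 2 + i)) n := by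
    rw [dsc_add]
    congr 1
    · rw [← dsc_inv]
      refine dsc_congr fun i _ => ?_
      simp only [add_lt_iff_neg_left, not_lt_zero, if_false]
      congr 2
      ring
    · have h1 := dsc_eq_asc hf 1 n
      rw [show 1 + n + 1 = n + 2 by ring] at h1
      rw [← h1]
      refine dsc_congr fun i hi => ?_
      rw [if_pos hi, add_comm]
  rw [hL, hR, eq_inv_mul_iff_mul_eq, ← mul_assoc, mul_inv_eq_iff_eq_mul]
  have h1 : asc (fun i => f (n + 1 + i)) j * asc (fun i => f (j + n + 1 + i)) n =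
      asc (fun i => f (n + 1 + i)) (j + n) := by
    rw [asc_add]
    congr 2
    funext i
    congr 1
    ring
  have h2 : asc (fun i => f (n + 2 + i)) n * asc f j = asc (fun i => f (n + 2 + i)) (j + n) := by
    rw [add_comm j n, asc_add]
    congr 2
    funext i
    rw [show n + 2 + (n + i) = i + 2 * (n + 1) by ring, per_add hf]
  rw [h1, h2]
  exact hbrc (n + 1)

end C1

variable {B W : Type} [Group W] {M : CoxeterMatrix B} {cs : CoxeterSystem M W}

/-! ### the braid group acting on words -/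

namespace C1

theorem BEq.cons (x : B × Bool) {u v : List (B × Bool)} (h : BEq M u v) :
    BEq M (x :: u) (x :: v) := by
  induction h with
  | refl u => exact BEq.refl _
  | symm _ ih => exact ih.symm
  | trans _ _ ih1 ih2 => exact ih1.trans ih2
  | cancel p q s ε => exact BEq.cancel (x :: p) q s ε
  | braid p q s t hst => exact BEq.braid (x :: p) q s t hst

/-- words up to braid equivalence -/
def st (M : CoxeterMatrix B) : Setoid (List (B × Bool)) :=
  ⟨BEq M, BEq.refl, BEq.symm, BEq.trans⟩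

/-- left multiplication by a letter -/
def lm (M : CoxeterMatrix B) (x : B × Bool) : Quotient (st M) → Quotient (st M) :=
  Quotient.map (fun u => x :: u) fun _ _ h => BEq.cons x h

theorem lm_lm (s : B) (ε : Bool) (q : Quotient (st M)) : lm M (s, ε) (lm M (s, !ε) q) = q := by
  induction q using Quotient.ind with
  | _ u =>
    apply Quotient.sound
    exact BEq.cancel [] u s ε

/-- the generators as permutations -/
def gen (M : CoxeterMatrix B) (s : B) : Equiv.Perm (Quotient (st M)) where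
  toFun := lm M (s, true)
  invFun := lm M (s, false)
  left_inv q := lm_lm s false q
  right_inv q := lm_lm s true q

/-- the value of a letter -/
def val (M : CoxeterMatrix B) (x : B × Bool) : Equiv.Perm (Quotient (st M)) :=
  if x.2 then gen M x.1 else (gen M x.1)⁻¹

theorem val_apply (x : B × Bool) (q : Quotient (st M)) : val M x q = lm M x q := by
  obtain ⟨s, ε⟩ := x
  cases ε <;> rfl

theorem prod_val (u w : List (B × Bool)) :
    (u.map (val M)).prod (Quotient.mk (st M) w) = Quotient.mk (st M) (u ++ w) := by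
  induction u with
  | nil => rfl
  | cons x u ih =>
    rw [List.map_cons, List.prod_cons, Equiv.Perm.mul_apply, ih, val_apply]
    rfl

theorem beq_of_prod {u v : List (B × Bool)}
    (h : (u.map (val M)).prod = (v.map (val M)).prod) : BEq M u v := by
  have h1 := congrArg (fun e : Equiv.Perm (Quotient (st M)) => e (Quotient.mk (st M) [])) h
  simp only [prod_val, List.append_nil] at h1
  exact Quotient.exact h1

/-- the letters `t, s, t, s, …` -/
def ct (s t : B) (k : ℕ) : B := if Even k then t else s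

theorem ct_zero (s t : B) : ct s t 0 = t := by simp [ct]

theorem ct_succ (s t : B) (k : ℕ) : ct s t (k + 1) = ct t s k := by
  unfold ct
  by_cases h : Even k
  · rw [if_pos h, if_neg (by rwa [Nat.even_add_one, not_not])]
  · rw [if_neg h, if_pos (by rwa [Nat.even_add_one])]

theorem ct_per (s t : B) (k : ℕ) : ct s t (k + 2) = ct s t k := by
  rw [show k + 2 = k + 1 + 1 by ring, ct_succ, ct_succ]

theorem prod_alt (s t : B) (n : ℕ) :
    ((alt s t n).map (val M)).prod = asc (fun k => gen M (ct t s k)) n := by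
  induction n generalizing s t with
  | zero => rfl
  | succ n ih =>
    rw [alt, List.map_cons, List.prod_cons, ih, asc_succ']
    congr 1
    congr 1
    funext k
    rw [ct_succ]

theorem gen_braid {s t : B} (h : M s t ≠ 0) :
    asc (fun k => gen M (ct s t k)) (M s t) = asc (fun k => gen M (ct s t (k + 1))) (M s t) := by
  have h1 : (fun k => gen M (ct s t (k + 1))) = fun k => gen M (ct t s k) := by
    funext k
    rw [ct_succ]
  rw [h1, ← prod_alt, ← prod_alt]
  apply Equiv.ext
  intro q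
  induction q using Quotient.ind with
  | _ w =>
    rw [prod_val, prod_val]
    exact (Quotient.sound (s := st M) (BEq.braid [] w s t h)).symm

end C1

namespace Rlz

variable (V : Rlz cs)

/-! ### roots of a rank two subgroup -/

theorem C1.nn_comb {u v : Fin V.n → ℝ} {a b : ℝ} (ha : 0 ≤ a) (hb : 0 ≤ b)
    (hu : ∃ c : B →₀ ℝ, (∀ s, 0 ≤ c s) ∧ u = c.sum (fun s a => a • V.α s))
    (hv : ∃ c : B →₀ ℝ, (∀ s, 0 ≤ c s) ∧ v = c.sum (fun s a => a • V.α s)) :
    ∃ c : B →₀ ℝ, (∀ s, 0 ≤ c s) ∧ a • u + b • v = c.sum (fun s a => a • V.α s) := by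
  obtain ⟨c, hc, huc⟩ := hu
  obtain ⟨c', hc', hvc⟩ := hv
  refine ⟨a • c + b • c', fun s => add_nonneg (mul_nonneg ha (hc s)) (mul_nonneg hb (hc' s)), ?_⟩
  have h1 : Finsupp.linearCombination ℝ V.α c = u := by
    rw [huc]
    rfl
  have h2 : Finsupp.linearCombination ℝ V.α c' = v := by
    rw [hvc]
    rfl
  change _ = Finsupp.linearCombination ℝ V.α (a • c + b • c')
  rw [map_add, map_smul, map_smul, h1, h2]

/-- the combinations of two vectors in the plane of a dihedral group -/
noncomputable def C1.E {N : ℕ} (θ : ℝ) (b a : Fin N → ℝ) (k : ℕ) : Fin N → ℝ :=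
  (Real.sin ((k + 1) * θ) / Real.sin θ) • b + (Real.sin (k * θ) / Real.sin θ) • a

open RC.C1 in
theorem C1.root_form {s t : B} {θ : ℝ} (hθ : Real.sin θ ≠ 0) (hst : θ = Real.pi / (M s t : ℝ))
    (n : ℕ) : V.ρ (asc (fun k => cs.simple (ct s t k)) n) (V.α (ct s t n)) =
      C1.E θ (V.α t) (V.α s) n := by
  induction n generalizing s t with
  | zero =>
    rw [asc, V.ρ_one, ct_zero, C1.E]
    simp [div_self hθ]
  | succ n ih =>
    have hts : θ = Real.pi / (M t s : ℝ) := by rw [hst, M.symmetric s t]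
    rw [asc_succ', V.ρ_mul]
    have h1 : (fun i => cs.simple (ct s t (i + 1))) = fun i => cs.simple (ct t s i) := by
      funext i
      rw [ct_succ]
    rw [h1, ct_succ, ih hts, ct_zero, C1.E, C1.E, map_add, map_smul, map_smul, V.ρ_simple,
      V.ρ_simple, V.fc_α, V.fc_α, M.diagonal t, ← hst, Nat.cast_one, div_one, Real.cos_pi]
    have h2 : Real.sin ((((n + 1 : ℕ) : ℝ) + 1) * θ) =
        2 * Real.cos θ * Real.sin ((n + 1) * θ) - Real.sin (n * θ) := by
      have e1 : (((n + 1 : ℕ) : ℝ) + 1) * θ = (n + 1) * θ + θ := by push_cast; ring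
      have e2 : (n : ℝ) * θ = (n + 1) * θ - θ := by ring
      rw [e1, e2, Real.sin_add, Real.sin_sub]
      ring
    rw [h2]
    push_cast
    module

theorem C1.E_swap {N : ℕ} {θ : ℝ} {m : ℕ} (hm : (m : ℝ) * θ = Real.pi) (b a : Fin N → ℝ) {k : ℕ}
    (hk : k < m) : C1.E θ a b k = C1.E θ b a (m - 1 - k) := by
  have h0 : ((m - 1 - k : ℕ) : ℝ) = m - 1 - k := by
    rw [Nat.cast_sub (by omega), Nat.cast_sub (by omega)]
    push_cast
    ring
  unfold C1.E
  rw [h0]
  have e1 : ((m : ℝ) - 1 - k + 1) * θ = Real.pi - k * θ := by rw [← hm]; ring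
  have e2 : ((m : ℝ) - 1 - k) * θ = Real.pi - (k + 1) * θ := by rw [← hm]; ring
  rw [e1, e2, Real.sin_pi_sub, Real.sin_pi_sub, add_comm]

theorem C1.sin_pos' {θ : ℝ} {m : ℕ} (hθ : 0 < θ) (hm : (m : ℝ) * θ = Real.pi) {x : ℝ}
    (h0 : 0 < x) (h1 : x < m) : 0 < Real.sin (x * θ) := by
  apply Real.sin_pos_of_pos_of_lt_pi (by positivity)
  rw [← hm]
  exact mul_lt_mul_of_pos_right h1 hθ

/-- The roots `E b a k`, `k < m`, in `A` form an initial segment, if `b ∈ A` or `b, a ∉ A`. -/
theorem C1.pattern {r} (hr : V.ReflOrder r) {A : Set (Fin V.n → ℝ)} (hA : V.InitSec r A)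
    {b a : Fin V.n → ℝ} {θ : ℝ} {m : ℕ} (hθ : 0 < θ) (hm : (m : ℝ) * θ = Real.pi) (hm2 : 2 ≤ m)
    (hli : ∀ x y : ℝ, x • b + y • a = 0 → y = 0)
    (hpos : ∀ k, k < m → V.PosRoot (C1.E θ b a k))
    (hcase : b ∈ A ∨ (b ∉ A ∧ a ∉ A)) :
    ∃ j ≤ m, ∀ k, k < m → (C1.E θ b a k ∈ A ↔ k < j) := by
  classical
  have hm0 : (0 : ℝ) < m := by
    have : 0 < m := by omega
    exact_mod_cast this
  have hm2' : (2 : ℝ) ≤ m := by exact_mod_cast hm2
  have hs1 : 0 < Real.sin θ := by
    have := C1.sin_pos' hθ hm (x := 1) one_pos (by linarith)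
    rwa [one_mul] at this
  have hE0 : C1.E θ b a 0 = b := by
    unfold C1.E
    simp [div_self hs1.ne']
  have hEm : C1.E θ b a (m - 1) = a := by
    have h1 := C1.E_swap hm b a (k := 0) (by omega)
    rw [Nat.sub_zero] at h1
    rw [← h1]
    unfold C1.E
    simp [div_self hs1.ne']
  have hb : V.PosRoot b := by
    rw [← hE0]
    exact hpos 0 (by omega)
  have ha : V.PosRoot a := by
    rw [← hEm]
    exact hpos _ (by omega)
  have hab : b ≠ a := by
    intro h
    have h1 := hli 1 (-1) (by rw [h, one_smul, neg_one_smul, add_neg_cancel])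
    norm_num at h1
  rcases hcase with hbA | ⟨hbA, haA⟩
  · -- initial segment
    have hinit : ∀ k l, k < l → l < m → C1.E θ b a l ∈ A → C1.E θ b a k ∈ A := by
      intro k l hkl hl hlA
      rcases Nat.eq_zero_or_pos k with rfl | hk
      · rwa [hE0]
      have hk' : (1 : ℝ) ≤ k := by exact_mod_cast hk
      have hkl' : (k : ℝ) + 1 ≤ l := by exact_mod_cast hkl
      have hl' : (l : ℝ) < m := by exact_mod_cast hl
      have sk : 0 < Real.sin (k * θ) := C1.sin_pos' hθ hm (by linarith) (by linarith)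
      have sl : 0 < Real.sin (l * θ) := C1.sin_pos' hθ hm (by linarith) hl'
      have slk : 0 < Real.sin ((l - k) * θ) := C1.sin_pos' hθ hm (by linarith) (by linarith)
      have hne : b ≠ C1.E θ b a l := by
        intro h
        have h1 := hli (Real.sin ((l + 1) * θ) / Real.sin θ - 1) (Real.sin (l * θ) / Real.sin θ) (by
          unfold C1.E at h
          rw [sub_smul, one_smul, sub_add_eq_add_sub, ← h, sub_self])
        rw [div_eq_zero_iff] at h1
        rcases h1 with h1 | h1
        · exact sl.ne' h1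
        · exact hs1.ne' h1
      have hcomb : C1.E θ b a k = (Real.sin ((l - k) * θ) / Real.sin (l * θ)) • b +
          (Real.sin (k * θ) / Real.sin (l * θ)) • C1.E θ b a l := by
        unfold C1.E
        have key : Real.sin ((l - k) * θ) * Real.sin θ + Real.sin (k * θ) * Real.sin ((l + 1) * θ) =
            Real.sin (l * θ) * Real.sin ((k + 1) * θ) := by
          have e1 : ((l : ℝ) - k) * θ = l * θ - k * θ := by ring
          have e2 : ((l : ℝ) + 1) * θ = l * θ + θ := by ring
          have e3 : ((k : ℝ) + 1) * θ = k * θ + θ := by ring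
          rw [e1, e2, e3, Real.sin_sub, Real.sin_add, Real.sin_add]
          ring
        rw [smul_add, smul_smul, smul_smul, ← add_assoc, ← add_smul]
        congr 2
        · rw [div_mul_div_comm, div_add_div _ _ sl.ne' (mul_ne_zero sl.ne' hs1.ne'),
            div_eq_div_iff hs1.ne' (mul_ne_zero sl.ne' (mul_ne_zero sl.ne' hs1.ne'))]
          linear_combination (-Real.sin (l * θ) * Real.sin θ) * key
        · rw [div_mul_div_comm, mul_comm (Real.sin (l * θ)) (Real.sin θ),
            mul_div_mul_right _ _ sl.ne']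
      have hcv := hr.conv b (C1.E θ b a l) _ _ hb (hpos l hl) hne (div_pos slk sl)
        (div_pos sk sl) (by rw [← hcomb]; exact hpos k (by omega))
      rw [← hcomb] at hcv
      rcases hcv with ⟨-, h4⟩ | ⟨-, h4⟩
      · exact hA.2 _ _ (hpos k (by omega)) hlA h4
      · exact hA.2 _ _ (hpos k (by omega)) hbA h4
    have hex : ∃ j, m ≤ j ∨ C1.E θ b a j ∉ A := ⟨m, Or.inl le_rfl⟩
    refine ⟨Nat.find hex, Nat.find_min' hex (Or.inl le_rfl), fun k hk => ⟨fun h => ?_, fun h => ?_⟩⟩
    · by_contra hcon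
      rw [not_lt] at hcon
      rcases Nat.find_spec hex with h1 | h1
      · omega
      · rcases hcon.lt_or_eq with h2 | h2
        · exact h1 (hinit _ _ h2 hk h)
        · rw [h2] at h1
          exact h1 h
    · have h1 := Nat.find_min hex h
      push Not at h1
      exact h1.2
  · -- no root in `A`
    refine ⟨0, Nat.zero_le _, fun k hk => ⟨fun h => ?_, fun h => absurd h (Nat.not_lt_zero k)⟩⟩
    exfalso
    rcases Nat.eq_zero_or_pos k with rfl | hk0
    · rw [hE0] at h
      exact hbA h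
    rcases eq_or_ne k (m - 1) with rfl | hkm
    · rw [hEm] at h
      exact haA h
    have hk' : (1 : ℝ) ≤ k := by exact_mod_cast hk0
    have hkm' : (k : ℝ) + 1 < m := by
      have : k + 1 < m := by omega
      exact_mod_cast this
    have sk : 0 < Real.sin (k * θ) := C1.sin_pos' hθ hm (by linarith) (by linarith)
    have sk1 : 0 < Real.sin ((k + 1) * θ) := C1.sin_pos' hθ hm (by linarith) hkm'
    have hcv := hr.conv b a _ _ hb ha hab (div_pos sk1 hs1) (div_pos sk hs1) (hpos k hk)
    rcases hcv with ⟨h3, -⟩ | ⟨h3, -⟩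
    · exact hbA (hA.2 _ _ hb h h3)
    · exact haA (hA.2 _ _ ha h h3)

section action

open RC.C1

variable {G : Type} [Group G]

open Classical in
/-- the signed letter at `v` -/
noncomputable def C1.xs (A : Set (Fin V.n → ℝ)) (g : B → G) (v : W) (s : B) : G :=
  if V.til A (V.ρ v⁻¹ (V.α s)) then (g s)⁻¹ else g s

/-- the action of a generator -/
noncomputable def C1.T (A : Set (Fin V.n → ℝ)) (g : B → G) (s : B) : Function.End (W × G) :=
  fun p => (cs.simple s * p.1, C1.xs V A g p.1 s * p.2)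

theorem C1.T_apply (A : Set (Fin V.n → ℝ)) (g : B → G) (s : B) (v : W) (x : G) :
    C1.T V A g s (v, x) = (cs.simple s * v, C1.xs V A g v s * x) := rfl

theorem C1.T_sq {A : Set (Fin V.n → ℝ)} (hA : ∀ u ∈ A, V.PosRoot u) (g : B → G) (s : B) :
    C1.T V A g s * C1.T V A g s = 1 := by
  funext p
  obtain ⟨v, x⟩ := p
  change C1.T V A g s (C1.T V A g s (v, x)) = (v, x)
  rw [C1.T_apply, C1.T_apply, cs.simple_mul_simple_cancel_left]
  have h1 : V.ρ (cs.simple s * v)⁻¹ (V.α s) = -V.ρ v⁻¹ (V.α s) := by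
    rw [mul_inv_rev, cs.inv_simple, V.ρ_mul, V.ρ_simple, V.fc_α, M.diagonal s, Nat.cast_one,
      div_one, Real.cos_pi]
    rw [show (-2 * -1 : ℝ) = 2 by norm_num, two_smul, sub_add_cancel_left, map_neg]
  have h2 : V.til A (V.ρ (cs.simple s * v)⁻¹ (V.α s)) ↔ ¬ V.til A (V.ρ v⁻¹ (V.α s)) := by
    rw [h1, V.til_neg hA (V.pos_or_neg v⁻¹ s)]
  unfold C1.xs
  by_cases h3 : V.til A (V.ρ v⁻¹ (V.α s))
  · rw [if_pos h3, if_neg (by rw [h2]; exact not_not.2 h3), mul_inv_cancel_left]
  · rw [if_neg h3, if_pos (h2.2 h3), inv_mul_cancel_left]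

theorem C1.dsc_apply (A : Set (Fin V.n → ℝ)) (g : B → G) (c : ℕ → B) (v : W) (x : G) (n : ℕ) :
    dsc (fun k => C1.T V A g (c k)) n (v, x) = (dsc (fun k => cs.simple (c k)) n * v,
      dsc (fun k => C1.xs V A g (dsc (fun k => cs.simple (c k)) k * v) (c k)) n * x) := by
  induction n with
  | zero =>
    change (v, x) = _
    simp [dsc]
  | succ n ih =>
    rw [dsc, dsc, dsc]
    change C1.T V A g (c n) (dsc (fun k => C1.T V A g (c k)) n (v, x)) = _
    rw [ih, C1.T_apply, mul_assoc, mul_assoc]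

theorem C1.dsc_simple_inv (c : ℕ → B) (n : ℕ) :
    (dsc (fun k => cs.simple (c k)) n)⁻¹ = asc (fun k => cs.simple (c k)) n := by
  have h1 : (fun k => cs.simple (c k)) = fun k => (cs.simple (c k))⁻¹ := by
    funext k
    rw [cs.inv_simple]
  rw [inv_eq_iff_eq_inv, ← dsc_inv, ← h1]

/-- the first components -/
theorem C1.dsc_simple (s t : B) :
    dsc (fun k => cs.simple (ct s t k)) (M s t) = dsc (fun k => cs.simple (ct t s k)) (M s t) := by
  have hper : ∀ k, cs.simple (ct s t (k + 2)) = cs.simple (ct s t k) := fun k => by rw [ct_per]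
  have h1 := two_halves (f := fun k => cs.simple (ct s t k)) hper (M s t)
  have h2 := asc_dsc_one (f := fun k => cs.simple (ct s t (k + 1)))
    (fun i => cs.simple_mul_simple_self _) (M s t)
  have e1 : ct s t 1 = s := by rw [show (1 : ℕ) = 0 + 1 by rfl, ct_succ, ct_zero]
  have e2 : ct s t 2 = t := by rw [show (2 : ℕ) = 0 + 2 by rfl, ct_per, ct_zero]
  simp only [e1, e2, cs.simple_mul_simple_pow] at h1
  have h3 := mul_left_cancel (h1.symm.trans h2.symm)
  rw [h3]
  congr 1
  funext k
  rw [ct_succ]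

theorem C1.E_map (w : W) (θ : ℝ) (b a : Fin V.n → ℝ) (k : ℕ) :
    V.ρ w (C1.E θ b a k) = C1.E θ (V.ρ w b) (V.ρ w a) k := by
  unfold C1.E
  rw [map_add, map_smul, map_smul]

theorem C1.half {r} (hr : V.ReflOrder r) {A : Set (Fin V.n → ℝ)} (hA : V.InitSec r A)
    {g : B → G} (s t : B) (hst : s ≠ t) (hm0 : M s t ≠ 0)
    (hg : asc (fun k => g (ct s t k)) (M s t) = asc (fun k => g (ct s t (k + 1))) (M s t))
    {v : W} (hvs : V.PosRoot (V.ρ v⁻¹ (V.α s))) (hvt : V.PosRoot (V.ρ v⁻¹ (V.α t)))
    (hcase : V.ρ v⁻¹ (V.α t) ∈ A ∨ (V.ρ v⁻¹ (V.α t) ∉ A ∧ V.ρ v⁻¹ (V.α s) ∉ A)) :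
    dsc (fun k => C1.xs V A g (dsc (fun k => cs.simple (ct s t k)) k * v) (ct s t k)) (M s t) =
      dsc (fun k => C1.xs V A g (dsc (fun k => cs.simple (ct t s k)) k * v) (ct t s k)) (M s t) := by
  obtain ⟨m, hm⟩ : ∃ m, m = M s t := ⟨_, rfl⟩
  have hm1 : M s t ≠ 1 := M.off_diagonal s t hst
  have hm2 : 2 ≤ m := by omega
  have hmpos : (0 : ℝ) < m := by
    have : 0 < m := by omega
    exact_mod_cast this
  obtain ⟨θ, hθ⟩ : ∃ θ, θ = Real.pi / (m : ℝ) := ⟨_, rfl⟩
  have hθ0 : 0 < θ := by rw [hθ]; exact div_pos Real.pi_pos hmpos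
  have hmθ : (m : ℝ) * θ = Real.pi := by rw [hθ]; field_simp
  have hm2' : (2 : ℝ) ≤ m := by exact_mod_cast hm2
  have hs1 : 0 < Real.sin θ := by
    have := C1.sin_pos' hθ0 hmθ (x := 1) one_pos (by linarith)
    rwa [one_mul] at this
  have hroot : ∀ k, V.ρ (dsc (fun k => cs.simple (ct s t k)) k * v)⁻¹ (V.α (ct s t k)) =
      C1.E θ (V.ρ v⁻¹ (V.α t)) (V.ρ v⁻¹ (V.α s)) k := by
    intro k
    rw [mul_inv_rev, C1.dsc_simple_inv, V.ρ_mul, C1.root_form V hs1.ne' (by rw [hθ, hm]),
      C1.E_map]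
  have hroot' : ∀ k, V.ρ (dsc (fun k => cs.simple (ct t s k)) k * v)⁻¹ (V.α (ct t s k)) =
      C1.E θ (V.ρ v⁻¹ (V.α s)) (V.ρ v⁻¹ (V.α t)) k := by
    intro k
    rw [mul_inv_rev, C1.dsc_simple_inv, V.ρ_mul,
      C1.root_form V hs1.ne' (by rw [hθ, hm, M.symmetric s t]), C1.E_map]
  generalize hb : V.ρ v⁻¹ (V.α t) = b at *
  generalize ha : V.ρ v⁻¹ (V.α s) = a at *
  have hcoef : ∀ k : ℕ, k < m → 0 ≤ Real.sin ((k + 1) * θ) / Real.sin θ ∧
      0 ≤ Real.sin (k * θ) / Real.sin θ := by
    intro k hk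
    have hk' : (k : ℝ) + 1 ≤ m := by exact_mod_cast hk
    have hk0 : (0 : ℝ) ≤ k := Nat.cast_nonneg k
    refine ⟨div_nonneg (Real.sin_nonneg_of_nonneg_of_le_pi (by positivity) ?_) hs1.le,
      div_nonneg (Real.sin_nonneg_of_nonneg_of_le_pi (by positivity) ?_) hs1.le⟩
    · rw [← hmθ]
      exact mul_le_mul_of_nonneg_right hk' hθ0.le
    · rw [← hmθ]
      exact mul_le_mul_of_nonneg_right (by linarith) hθ0.le
  have hposE : ∀ k, k < m → V.PosRoot (C1.E θ b a k) := by
    intro k hk
    refine ⟨⟨_, _, (hroot k).symm⟩, ?_⟩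
    obtain ⟨h1, h2⟩ := hcoef k hk
    exact C1.nn_comb V h1 h2 hvt.2 hvs.2
  have hli : ∀ x y : ℝ, x • b + y • a = 0 → y = 0 := by
    intro x y h
    have h1 : V.ρ v⁻¹ (x • V.α t + y • V.α s) = 0 := by
      rw [map_add, map_smul, map_smul, hb, ha, h]
    have h2 : x • V.α t + y • V.α s = 0 := by
      have h3 := congrArg (V.ρ v) h1
      rw [map_zero, ← V.ρ_mul, mul_inv_cancel, V.ρ_one] at h3
      exact h3
    have h3 : LinearIndependent ℝ ![V.α t, V.α s] := by
      have h4 := V.li.comp ![t, s] (by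
        intro i j hij
        fin_cases i <;> fin_cases j
        · rfl
        · exact absurd hij.symm hst
        · exact absurd hij hst
        · rfl)
      convert h4 using 1
      funext i
      fin_cases i <;> rfl
    exact ((LinearIndependent.pair_iff.1 h3) x y h2).2
  obtain ⟨j, hj, hpat⟩ := C1.pattern V hr hA hθ0 hmθ hm2 hli hposE hcase
  obtain ⟨n, hn⟩ := Nat.exists_eq_add_of_le hj
  have hper : ∀ k, g (ct s t (k + 2)) = g (ct s t k) := fun k => by rw [ct_per]
  have hpe := path_eq (f := fun k => g (ct s t k)) hper j n (by rw [← hn, hm]; exact hg)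
  rw [← hm]
  have hL : dsc (fun k => C1.xs V A g (dsc (fun k => cs.simple (ct s t k)) k * v) (ct s t k)) m =
      dsc (fun k => if k < j then (g (ct s t k))⁻¹ else g (ct s t k)) (j + n) := by
    rw [← hn]
    refine dsc_congr fun k hk => ?_
    have h1 : V.til A (V.ρ (dsc (fun k => cs.simple (ct s t k)) k * v)⁻¹ (V.α (ct s t k))) ↔
        k < j := by
      rw [hroot, V.til_of_pos A (hposE k hk), hpat k hk]
    unfold C1.xs
    by_cases h2 : k < j
    · rw [if_pos (h1.2 h2), if_pos h2]
    · rw [if_neg (fun h => h2 (h1.1 h)), if_neg h2]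
  have hR : dsc (fun k => C1.xs V A g (dsc (fun k => cs.simple (ct t s k)) k * v) (ct t s k)) m =
      dsc (fun k => if k < n then g (ct s t (k + 1)) else (g (ct s t (k + 1)))⁻¹) (n + j) := by
    rw [add_comm n j, ← hn]
    refine dsc_congr fun k hk => ?_
    have h1 : V.til A (V.ρ (dsc (fun k => cs.simple (ct t s k)) k * v)⁻¹ (V.α (ct t s k))) ↔
        ¬ k < n := by
      rw [hroot', C1.E_swap hmθ b a hk, V.til_of_pos A (hposE _ (by omega)), hpat _ (by omega)]
      omega
    unfold C1.xs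
    rw [ct_succ]
    by_cases h2 : k < n
    · rw [if_neg (fun h => (h1.1 h) h2), if_pos h2]
    · rw [if_pos (h1.2 h2), if_neg h2]
  rw [hL, hR]
  exact hpe

theorem C1.halves {r} (hr : V.ReflOrder r) {A : Set (Fin V.n → ℝ)} (hA : V.InitSec r A)
    {g : B → G} (hg : ∀ s t : B, M s t ≠ 0 →
      asc (fun k => g (ct s t k)) (M s t) = asc (fun k => g (ct s t (k + 1))) (M s t))
    (s t : B) (hst : s ≠ t) (hm0 : M s t ≠ 0)
    {v : W} (hvs : V.PosRoot (V.ρ v⁻¹ (V.α s))) (hvt : V.PosRoot (V.ρ v⁻¹ (V.α t))) (x : G) :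
    dsc (fun k => C1.T V A g (ct s t k)) (M s t) (v, x) =
      dsc (fun k => C1.T V A g (ct t s k)) (M s t) (v, x) := by
  rw [C1.dsc_apply, C1.dsc_apply, C1.dsc_simple s t]
  congr 2
  by_cases hb : V.ρ v⁻¹ (V.α t) ∈ A
  · exact C1.half V hr hA s t hst hm0 (hg s t hm0) hvs hvt (Or.inl hb)
  · by_cases ha : V.ρ v⁻¹ (V.α s) ∈ A
    · have h1 := C1.half V hr hA (g := g) t s hst.symm (by rwa [M.symmetric t s])
        (hg t s (by rwa [M.symmetric t s])) hvt hvs (Or.inl ha)
      rw [M.symmetric t s] at h1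
      exact h1.symm
    · exact C1.half V hr hA s t hst hm0 (hg s t hm0) hvs hvt (Or.inr ⟨hb, ha⟩)

theorem C1.liftable {r} (hr : V.ReflOrder r) {A : Set (Fin V.n → ℝ)} (hA : V.InitSec r A)
    {g : B → G} (hg : ∀ s t : B, M s t ≠ 0 →
      asc (fun k => g (ct s t k)) (M s t) = asc (fun k => g (ct s t (k + 1))) (M s t)) :
    M.IsLiftable (C1.T V A g) := by
  intro s t
  have hsq := C1.T_sq V hA.1 g
  by_cases hst : s = t
  · subst hst
    rw [M.diagonal s, pow_one, hsq]
  by_cases hm0 : M s t = 0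
  · rw [hm0, pow_zero]
  have hone : (C1.T V A g t * C1.T V A g s) ^ M s t * (C1.T V A g s * C1.T V A g t) ^ M s t = 1 := by
    apply pow_mul_pow_eq_one
    rw [mul_assoc, ← mul_assoc (C1.T V A g s), hsq, one_mul, hsq]
  suffices h : ∀ (n : ℕ) (v : W), cs.length v = n → ∀ x : G,
      ((C1.T V A g s * C1.T V A g t) ^ M s t) (v, x) = (v, x) by
    funext p
    exact h _ p.1 rfl p.2
  intro n
  induction n using Nat.strong_induction_on with
  | _ n ih =>
    intro v hv x
    have hinv : ∀ v' : W, cs.length v' < n → ∀ y : G,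
        ((C1.T V A g t * C1.T V A g s) ^ M s t) (v', y) = (v', y) := by
      intro v' hv' y
      have h1 := ih _ hv' v' rfl y
      have h2 := congrFun hone (v', y)
      change ((C1.T V A g t * C1.T V A g s) ^ M s t)
        (((C1.T V A g s * C1.T V A g t) ^ M s t) (v', y)) = (v', y) at h2
      rwa [h1] at h2
    by_cases h1 : cs.length (cs.simple s * v) < cs.length v
    · obtain ⟨y, hy⟩ : ∃ y, C1.T V A g s (cs.simple s * v, y) = (v, x) := by
        refine ⟨(C1.xs V A g (cs.simple s * v) s)⁻¹ * x, ?_⟩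
        rw [C1.T_apply, cs.simple_mul_simple_cancel_left, mul_inv_cancel_left]
      have h2 := congrFun (mul_pow_mul (C1.T V A g s) (C1.T V A g t) (M s t))
        (cs.simple s * v, y)
      change ((C1.T V A g s * C1.T V A g t) ^ M s t) (C1.T V A g s (cs.simple s * v, y)) =
        C1.T V A g s (((C1.T V A g t * C1.T V A g s) ^ M s t) (cs.simple s * v, y)) at h2
      rw [hinv _ (by omega) y, hy] at h2
      exact h2
    by_cases h3 : cs.length (cs.simple t * v) < cs.length v
    · obtain ⟨y, hy⟩ : ∃ y, C1.T V A g t (cs.simple t * v, y) = (v, x) := by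
        refine ⟨(C1.xs V A g (cs.simple t * v) t)⁻¹ * x, ?_⟩
        rw [C1.T_apply, cs.simple_mul_simple_cancel_left, mul_inv_cancel_left]
      have hy' : C1.T V A g t (v, x) = (cs.simple t * v, y) := by
        have h4 := congrFun (hsq t) (cs.simple t * v, y)
        change C1.T V A g t (C1.T V A g t (cs.simple t * v, y)) = (cs.simple t * v, y) at h4
        rwa [hy] at h4
      have h2 := congrFun (mul_pow_mul (C1.T V A g t) (C1.T V A g s) (M s t)) (v, x)
      change ((C1.T V A g t * C1.T V A g s) ^ M s t) (C1.T V A g t (v, x)) =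
        C1.T V A g t (((C1.T V A g s * C1.T V A g t) ^ M s t) (v, x)) at h2
      rw [hy', hinv _ (by omega) y] at h2
      have h5 := congrArg (C1.T V A g t) h2
      rw [hy] at h5
      have h6 := congrFun (hsq t) (((C1.T V A g s * C1.T V A g t) ^ M s t) (v, x))
      change C1.T V A g t (C1.T V A g t (((C1.T V A g s * C1.T V A g t) ^ M s t) (v, x))) = _ at h6
      rw [h6] at h5
      exact h5.symm
    · have hvs : V.PosRoot (V.ρ v⁻¹ (V.α s)) := by
        rw [V.pos_iff, ← cs.length_inv (v⁻¹ * cs.simple s), mul_inv_rev, inv_inv, cs.inv_simple,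
          cs.length_inv]
        exact lt_of_le_of_ne (not_lt.1 h1) (cs.length_simple_mul_ne v s).symm
      have hvt : V.PosRoot (V.ρ v⁻¹ (V.α t)) := by
        rw [V.pos_iff, ← cs.length_inv (v⁻¹ * cs.simple t), mul_inv_rev, inv_inv, cs.inv_simple,
          cs.length_inv]
        exact lt_of_le_of_ne (not_lt.1 h3) (cs.length_simple_mul_ne v t).symm
      have hper : ∀ k, C1.T V A g (ct s t (k + 2)) = C1.T V A g (ct s t k) :=
        fun k => by rw [ct_per]
      have h4 := two_halves (f := fun k => C1.T V A g (ct s t k)) hper (M s t)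
      have e1 : ct s t 1 = s := by rw [show (1 : ℕ) = 0 + 1 by rfl, ct_succ, ct_zero]
      have e2 : ct s t 2 = t := by rw [show (2 : ℕ) = 0 + 2 by rfl, ct_per, ct_zero]
      simp only [e1, e2] at h4
      have h5 := asc_dsc_one (f := fun k => C1.T V A g (ct s t (k + 1))) (fun i => hsq _) (M s t)
      rw [h4]
      change asc (fun i => C1.T V A g (ct s t (i + 1))) (M s t)
        (dsc (fun k => C1.T V A g (ct s t k)) (M s t) (v, x)) = (v, x)
      rw [C1.halves V hr hA hg s t hst hm0 hvs hvt x]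
      have e3 : (fun k => C1.T V A g (ct t s k)) = fun k => C1.T V A g (ct s t (k + 1)) := by
        funext k
        rw [ct_succ]
      rw [e3]
      exact congrFun h5 (v, x)

theorem C1.lift_word {A : Set (Fin V.n → ℝ)} {g : B → G} (hl : M.IsLiftable (C1.T V A g))
    (l : List B) : cs.lift ⟨C1.T V A g, hl⟩ (cs.wordProd l) (1, 1) = (cs.wordProd l,
      ((V.mikT A l).map fun x => if x.2 then g x.1 else (g x.1)⁻¹).prod) := by
  induction l with
  | nil =>
    rw [cs.wordProd_nil, map_one]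
    rfl
  | cons s l ih =>
    rw [cs.wordProd_cons, map_mul, cs.lift_apply_simple]
    change C1.T V A g s (cs.lift ⟨C1.T V A g, hl⟩ (cs.wordProd l) (1, 1)) = _
    rw [ih, C1.T_apply, mikT, List.map_cons, List.prod_cons]
    congr 2
    unfold C1.xs
    by_cases h : V.til A (V.ρ (cs.wordProd l)⁻¹ (V.α s))
    · simp [h]
    · simp [h]

end action

open RC.C1 in
/-- C1. The signed word depends only on the element, up to braid equivalence. -/
theorem mikT_indep {r} (hr : V.ReflOrder r) {A : Set (Fin V.n → ℝ)} (hA : V.InitSec r A)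
    (l l' : List B) (h : cs.wordProd l = cs.wordProd l') :
    BEq M (V.mikT A l) (V.mikT A l') := by
  have hl := C1.liftable V hr hA (g := gen M) (fun s t hst => gen_braid hst)
  have h1 := C1.lift_word V hl l
  have h2 := C1.lift_word V hl l'
  rw [h] at h1
  have h3 := congrArg Prod.snd (h1.symm.trans h2)
  exact beq_of_prod h3

end Rlz

end RC
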