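import Mathlib
import Pool.Agent.EW.RC.C0

/-!
# Block C2: invariance under the last reflection (MP_d13a5e_al)
-/

open MvPolynomial

namespace RC

variable {B W : Type} [Group W] {M : CoxeterMatrix B} {cs : CoxeterSystem M W}

namespace Rlz

variable (V : Rlz cs)

theorem C2.add_ne_zero {u v : Fin V.n → ℝ} (hu : V.PosRoot u)
    (hv : ∃ c : B →₀ ℝ, (∀ s, 0 ≤ c s) ∧ v = c.sum (fun s a => a • V.α s)) : u + v ≠ 0 := by
  intro h
  obtain ⟨-, c, hc, huc⟩ := id hu
  obtain ⟨c', hc', hvc⟩ := hv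
  have h1 : Finsupp.linearCombination ℝ V.α c = u := by
    rw [huc]
    rfl
  have h2 : Finsupp.linearCombination ℝ V.α c' = v := by
    rw [hvc]
    rfl
  have h3 : Finsupp.linearCombination ℝ V.α (c + c') = 0 := by
    rw [map_add, h1, h2, h]
  have h4 : c + c' = 0 := (linearIndependent_iff.1 V.li) _ h3
  have h5 : c = 0 := by
    ext s
    have h6 := DFunLike.congr_fun h4 s
    rw [Finsupp.add_apply, Finsupp.zero_apply] at h6
    have h7 := hc s
    have h8 := hc' s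
    rw [Finsupp.zero_apply]
    linarith
  rw [h5, map_zero] at h1
  exact V.ne_zero_of_pos hu h1.symm

theorem C2.nn_add {u v : Fin V.n → ℝ}
    (hu : ∃ c : B →₀ ℝ, (∀ s, 0 ≤ c s) ∧ u = c.sum (fun s a => a • V.α s))
    (hv : ∃ c : B →₀ ℝ, (∀ s, 0 ≤ c s) ∧ v = c.sum (fun s a => a • V.α s)) :
    ∃ c : B →₀ ℝ, (∀ s, 0 ≤ c s) ∧ u + v = c.sum (fun s a => a • V.α s) := by
  obtain ⟨c, hc, huc⟩ := hu
  obtain ⟨c', hc', hvc⟩ := hv
  refine ⟨c + c', fun s => add_nonneg (hc s) (hc' s), ?_⟩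
  have h1 : Finsupp.linearCombination ℝ V.α c = u := by
    rw [huc]
    rfl
  have h2 : Finsupp.linearCombination ℝ V.α c' = v := by
    rw [hvc]
    rfl
  change _ = Finsupp.linearCombination ℝ V.α (c + c')
  rw [map_add, h1, h2]

theorem C2.nn_smul {u : Fin V.n → ℝ} {a : ℝ} (ha : 0 ≤ a)
    (hu : ∃ c : B →₀ ℝ, (∀ s, 0 ≤ c s) ∧ u = c.sum (fun s a => a • V.α s)) :
    ∃ c : B →₀ ℝ, (∀ s, 0 ≤ c s) ∧ a • u = c.sum (fun s a => a • V.α s) := by
  obtain ⟨c, hc, huc⟩ := hu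
  refine ⟨a • c, fun s => mul_nonneg ha (hc s), ?_⟩
  have h1 : Finsupp.linearCombination ℝ V.α c = u := by
    rw [huc]
    rfl
  change _ = Finsupp.linearCombination ℝ V.α (a • c)
  rw [map_smul, h1]

/-- the case of a positive root -/
theorem C2.til_refl_pos {r} (hr : V.ReflOrder r) {A : Set (Fin V.n → ℝ)} (hA : V.InitSec r A)
    {w : W} {s : B} (hβ : V.ρ w (V.α s) ∈ A) (hmax : ∀ v ∈ A, ¬ r (V.ρ w (V.α s)) v)
    {w' : W} {s' : B} (h1 : V.ρ w' (V.α s') ≠ V.ρ w (V.α s))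
    (h2 : V.ρ w' (V.α s') ≠ -V.ρ w (V.α s)) (hpos : V.PosRoot (V.ρ w' (V.α s'))) :
    V.til A (V.ρ (w * cs.simple s * w⁻¹) (V.ρ w' (V.α s'))) ↔ V.til A (V.ρ w' (V.α s')) := by
  obtain ⟨f, hf, hf2⟩ := V.refl_root w s
  have hroot : V.ρ (w * cs.simple s * w⁻¹) (V.ρ w' (V.α s')) =
      V.ρ (w * cs.simple s * w⁻¹ * w') (V.α s') := (V.ρ_mul _ _ _).symm
  have hδpn := V.pos_or_neg (w * cs.simple s * w⁻¹ * w') s'
  rw [← hroot] at hδpn
  have hδ : V.ρ (w * cs.simple s * w⁻¹) (V.ρ w' (V.α s')) =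
      V.ρ w' (V.α s') - f (V.ρ w' (V.α s')) • V.ρ w (V.α s) := hf _
  have hprop : ∀ c : ℝ, V.ρ w' (V.α s') ≠ c • V.ρ w (V.α s) := by
    intro c hc
    rcases V.root_smul hc with h | h
    · rw [h, one_smul] at hc
      exact h1 hc
    · rw [h, neg_one_smul] at hc
      exact h2 hc
  generalize hg : V.ρ w' (V.α s') = γ at *
  generalize hd : V.ρ (w * cs.simple s * w⁻¹) γ = δ at *
  generalize hb : V.ρ w (V.α s) = β at *
  generalize hc : f γ = c at *
  clear hroot hf hd hg hb hc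
  have hβp : V.PosRoot β := hA.1 β hβ
  rw [V.til_of_pos A hpos]
  have hγβ : γ = δ + c • β := by rw [hδ]; abel
  have hAiff : ∀ u, V.PosRoot u → r u β → u ∈ A := fun u hu h => hA.2 u β hu hβ h
  have hAnot : ∀ u, r β u → u ∉ A := fun u h hu => hmax u hu h
  rcases eq_or_ne c 0 with h0 | h0
  · rw [h0, zero_smul, sub_zero] at hδ
    rw [hδ, V.til_of_pos A hpos]
  rcases hδpn with hδp | hδn
  · rw [V.til_of_pos A hδp]
    have hδβ : δ ≠ β := by
      intro h
      apply hprop (1 + c)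
      rw [add_smul, one_smul, hγβ, h]
    rcases lt_or_gt_of_ne h0 with hneg | hc0
    · -- `δ = γ + (-c) β`
      have hδe : δ = (1 : ℝ) • γ + (-c) • β := by
        rw [one_smul, hδ, neg_smul, sub_eq_add_neg]
      have hcv := hr.conv γ β 1 (-c) hpos hβp h1 one_pos (by linarith) (by rwa [← hδe])
      rw [← hδe] at hcv
      rcases hcv with ⟨h3, h4⟩ | ⟨h3, h4⟩
      · have h5 := hAiff δ hδp h4
        exact ⟨fun _ => hA.2 γ δ hpos h5 h3, fun _ => h5⟩
      · exact ⟨fun h => absurd h (hAnot δ h3),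
          fun h => absurd h (hAnot γ (hr.trans β δ γ hβp hδp hpos h3 h4))⟩
    · have hγe : γ = (1 : ℝ) • δ + c • β := by rw [one_smul, ← hγβ]
      have hcv := hr.conv δ β 1 c hδp hβp hδβ one_pos hc0 (by rwa [← hγe])
      rw [← hγe] at hcv
      rcases hcv with ⟨h3, h4⟩ | ⟨h3, h4⟩
      · have h5 := hAiff γ hpos h4
        exact ⟨fun _ => h5, fun _ => hA.2 δ γ hδp h5 h3⟩
      · exact ⟨fun h => absurd h (hAnot δ (hr.trans β γ δ hβp hpos hδp h3 h4)),
          fun h => absurd h (hAnot γ h3)⟩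
  · rw [V.til_of_neg hA.1 hδn]
    have hsum : γ + -δ = c • β := by rw [hδ]; abel
    have hc0 : 0 < c := by
      rcases lt_or_gt_of_ne h0 with hneg | hc0
      · exfalso
        refine C2.add_ne_zero V hpos (C2.nn_add V hδn.2 (C2.nn_smul V (a := -c) (by linarith) hβp.2)) ?_
        rw [← add_assoc, hsum, neg_smul, add_neg_cancel]
      · exact hc0
    have hne : γ ≠ -δ := by
      intro h
      rw [← h, ← two_smul ℝ γ] at hsum
      apply hprop (c / 2)
      rw [div_eq_inv_mul, mul_smul, ← hsum, smul_smul]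
      norm_num
    have hβe : β = c⁻¹ • γ + c⁻¹ • (-δ) := by
      rw [← smul_add, hsum, smul_smul, inv_mul_cancel₀ h0, one_smul]
    have hcv := hr.conv γ (-δ) c⁻¹ c⁻¹ hpos hδn hne (inv_pos.2 hc0) (inv_pos.2 hc0)
      (by rwa [← hβe])
    rw [← hβe] at hcv
    rcases hcv with ⟨h3, h4⟩ | ⟨h3, h4⟩
    · exact ⟨fun _ => hAiff γ hpos h3, fun _ => hAnot _ h4⟩
    · exact ⟨fun h => absurd (hAiff _ hδn h3) h, fun h => absurd h (hAnot _ h4)⟩

/-- C2. Invariance under the reflection of the last root. -/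
theorem til_refl {r} (hr : V.ReflOrder r) {A : Set (Fin V.n → ℝ)} (hA : V.InitSec r A)
    {w : W} {s : B} (hβ : V.ρ w (V.α s) ∈ A) (hmax : ∀ v ∈ A, ¬ r (V.ρ w (V.α s)) v)
    {w' : W} {s' : B} (h1 : V.ρ w' (V.α s') ≠ V.ρ w (V.α s))
    (h2 : V.ρ w' (V.α s') ≠ -V.ρ w (V.α s)) :
    V.til A (V.ρ (w * cs.simple s * w⁻¹) (V.ρ w' (V.α s'))) ↔ V.til A (V.ρ w' (V.α s')) := by
  rcases V.pos_or_neg w' s' with hp | hn
  · exact C2.til_refl_pos V hr hA hβ hmax h1 h2 hp
  · -- replace the root by its negative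
    have hneg : V.ρ (w' * cs.simple s') (V.α s') = -V.ρ w' (V.α s') := by
      rw [V.ρ_mul, V.ρ_simple]
      have h3 : V.fc s' (V.α s') = 2 := by
        rw [V.fc_α, M.diagonal s', Nat.cast_one, div_one, Real.cos_pi]
        norm_num
      rw [h3, two_smul, sub_add_cancel_left, map_neg]
    have hn' : V.PosRoot (V.ρ (w' * cs.simple s') (V.α s')) := by rwa [hneg]
    have h4 := C2.til_refl_pos V hr hA hβ hmax (w' := w' * cs.simple s') (s' := s')
      (by
        rw [hneg]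
        intro h
        apply h2
        rw [← h, neg_neg])
      (by
        rw [hneg]
        intro h
        exact h1 (neg_injective h)) hn'
    rw [hneg, map_neg, V.til_neg hA.1 (V.pos_or_neg w' s')] at h4
    have h5 : V.PosRoot (V.ρ (w * cs.simple s * w⁻¹) (V.ρ w' (V.α s'))) ∨
        V.PosRoot (-V.ρ (w * cs.simple s * w⁻¹) (V.ρ w' (V.α s'))) := by
      rw [← V.ρ_mul]
      exact V.pos_or_neg _ _
    rw [V.til_neg hA.1 h5] at h4
    exact not_iff_not.1 h4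

end Rlz

end RC
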