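import Mathlib
import Pool.Agent.EW.RC.C1
import Pool.Agent.EW.RC.C2

/-!
# Block C3: the induction principle (MP_d13a5e_al)
-/

open MvPolynomial

namespace RC

variable {B W : Type} [Group W] {M : CoxeterMatrix B} {cs : CoxeterSystem M W}

namespace Rlz

variable (V : Rlz cs)

/-- the root of the letter `s` in front of the word `Y` -/
noncomputable def c3rt (Y : List B) (s : B) : Fin V.n → ℝ := V.ρ (cs.wordProd Y)⁻¹ (V.α s)

theorem c3_suffix {X Y : List B} (h : cs.IsReduced (X ++ Y)) : cs.IsReduced Y := by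
  have h1 := h.drop X.length
  rwa [List.drop_left] at h1

theorem c3_pos {Y : List B} {s : B} (h : cs.IsReduced (s :: Y)) : V.PosRoot (V.c3rt Y s) := by
  unfold c3rt
  rw [V.pos_iff]
  have hY : cs.IsReduced Y := c3_suffix (X := [s]) h
  have h1 : cs.length (cs.wordProd Y)⁻¹ = Y.length := by
    rw [cs.length_inv]
    exact hY
  have h2 : cs.length ((cs.wordProd Y)⁻¹ * cs.simple s) = Y.length + 1 := by
    rw [← cs.length_inv, mul_inv_rev, inv_inv, cs.inv_simple, ← cs.wordProd_cons]
    exact h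
  omega

theorem c3_ne {X Y : List B} {s t : B} (h : cs.IsReduced (t :: (X ++ s :: Y))) :
    V.c3rt (X ++ s :: Y) t ≠ V.c3rt Y s := by
  intro heq
  unfold c3rt at heq
  have h1 := V.refl_unique (c := 1) (heq.trans (one_smul ℝ _).symm)
  rw [inv_inv, inv_inv] at h1
  have h2 : cs.wordProd (t :: (X ++ s :: Y)) = cs.wordProd (X ++ Y) := by
    have h3 : cs.simple t * cs.wordProd (X ++ s :: Y) =
        cs.wordProd (X ++ s :: Y) * ((cs.wordProd Y)⁻¹ * cs.simple s * cs.wordProd Y) := by
      rw [← h1]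
      group
    rw [cs.wordProd_cons, h3, cs.wordProd_append, cs.wordProd_cons, cs.wordProd_append]
    have h4 : cs.simple s * cs.simple s = 1 := cs.simple_mul_simple_self s
    calc cs.wordProd X * (cs.simple s * cs.wordProd Y) *
          ((cs.wordProd Y)⁻¹ * cs.simple s * cs.wordProd Y)
        = cs.wordProd X * (cs.simple s * cs.simple s) * cs.wordProd Y := by group
      _ = cs.wordProd X * cs.wordProd Y := by rw [h4, mul_one]
  have h5 : cs.length (cs.wordProd (t :: (X ++ s :: Y))) ≤ (X ++ Y).length := by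
    rw [h2]
    exact cs.length_wordProd_le _
  have h6 : cs.length (cs.wordProd (t :: (X ++ s :: Y))) = (t :: (X ++ s :: Y)).length := h
  rw [h6] at h5
  simp only [List.length_cons, List.length_append] at h5
  omega

/-- the roots of a word -/
noncomputable def c3rts : List B → List (Fin V.n → ℝ)
  | [] => []
  | s :: l => V.c3rt l s :: c3rts l

theorem c3_mem_rts {v : Fin V.n → ℝ} : ∀ {l : List B}, v ∈ V.c3rts l →
    ∃ X s Y, l = X ++ s :: Y ∧ v = V.c3rt Y s
  | [], h => by simp [c3rts] at h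
  | s :: l, h => by
    rw [c3rts, List.mem_cons] at h
    rcases h with h | h
    · exact ⟨[], s, l, rfl, h⟩
    · obtain ⟨X, t, Y, h1, h2⟩ := c3_mem_rts h
      exact ⟨s :: X, t, Y, by rw [h1]; rfl, h2⟩

open Classical in
theorem c3_congr {A A' : Set (Fin V.n → ℝ)} : ∀ {l : List B},
    (∀ v ∈ V.c3rts l, (v ∈ A ↔ v ∈ A')) → V.mik A l = V.mik A' l
  | [], _ => rfl
  | s :: l, h => by
    have h1 := h (V.c3rt l s) (by rw [c3rts]; exact List.mem_cons_self ..)
    have h2 := c3_congr (l := l) (fun v hv => h v (by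
      rw [c3rts]
      exact List.mem_cons_of_mem _ hv))
    rw [mik, mik, h2]
    unfold c3rt at h1
    rw [decide_eq_decide.2 h1]

theorem c3_max {r : (Fin V.n → ℝ) → (Fin V.n → ℝ) → Prop} (hr : V.ReflOrder r) :
    ∀ L : List (Fin V.n → ℝ), L ≠ [] → (∀ v ∈ L, V.PosRoot v) →
      ∃ β ∈ L, ∀ v ∈ L, ¬ r β v
  | [], h, _ => absurd rfl h
  | a :: L, _, hL => by
    have ha : V.PosRoot a := hL a (List.mem_cons_self ..)
    by_cases hne : L = []
    · subst hne
      refine ⟨a, List.mem_cons_self .., fun v hv => ?_⟩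
      rw [List.mem_singleton] at hv
      rw [hv]
      exact hr.irrefl a ha
    · obtain ⟨β, hβ, hmax⟩ := c3_max hr L hne (fun v hv => hL v (List.mem_cons_of_mem _ hv))
      have hβp := hL β (List.mem_cons_of_mem _ hβ)
      by_cases hab : r β a
      · refine ⟨a, List.mem_cons_self .., fun v hv hav => ?_⟩
        rcases List.mem_cons.1 hv with rfl | hv
        · exact hr.irrefl _ ha hav
        · exact hmax v hv (hr.trans _ _ _ hβp ha (hL v (List.mem_cons_of_mem _ hv)) hab hav)
      · refine ⟨β, List.mem_cons_of_mem _ hβ, fun v hv => ?_⟩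
        rcases List.mem_cons.1 hv with rfl | hv
        · exact hab
        · exact hmax v hv

theorem c3_til {A : Set (Fin V.n → ℝ)} {v : Fin V.n → ℝ} (hv : V.PosRoot v) :
    V.til A v ↔ v ∈ A := by
  unfold til
  constructor
  · rintro (h | ⟨h, -⟩)
    · exact h
    · exact (V.not_pos_neg hv h).elim
  · exact Or.inl

open Classical in
/-- the three words -/
theorem c3_words {r} (hr : V.ReflOrder r) {A' A'' : Set (Fin V.n → ℝ)} (hA' : V.InitSec r A')
    {s : B} {Y : List B} (hβ : V.c3rt Y s ∈ A') (hmax : ∀ v ∈ A', ¬ r (V.c3rt Y s) v)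
    (hA'' : ∀ v, v ∈ A'' ↔ v ∈ A' ∧ v ≠ V.c3rt Y s) (hY : cs.IsReduced (s :: Y))
    (hYne : ∀ v ∈ V.c3rts Y, v ≠ V.c3rt Y s) :
    ∀ X : List B, cs.IsReduced (X ++ s :: Y) → ∃ X' : List (B × Bool),
      V.mik A' (X ++ s :: Y) = X' ++ (s, false) :: V.mik A' Y ∧
      V.mik A'' (X ++ s :: Y) = X' ++ (s, true) :: V.mik A' Y ∧
      V.mikT A' (X ++ Y) = X' ++ V.mik A' Y
  | [], _ => by
    refine ⟨[], ?_, ?_, ?_⟩
    · rw [List.nil_append, List.nil_append, mik]
      have h1 : decide (V.ρ (cs.wordProd Y)⁻¹ (V.α s) ∈ A') = true := decide_eq_true hβ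
      rw [h1]
      rfl
    · rw [List.nil_append, List.nil_append, mik]
      have h1 : decide (V.ρ (cs.wordProd Y)⁻¹ (V.α s) ∈ A'') = false := by
        apply decide_eq_false
        intro h
        exact ((hA'' _).1 h).2 rfl
      rw [h1, V.c3_congr (A := A'') (A' := A') (l := Y) (fun v hv => by
        rw [hA'']
        exact ⟨fun h => h.1, fun h => ⟨h, hYne v hv⟩⟩)]
      rfl
    · rw [List.nil_append, List.nil_append]
      exact V.mikT_eq_mik A' Y (c3_suffix (X := [s]) hY)
  | t :: X, hX => by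
    have hX1 : cs.IsReduced (X ++ s :: Y) := c3_suffix (X := [t]) hX
    obtain ⟨X', h1, h2, h3⟩ := c3_words hr hA' hβ hmax hA'' hY hYne X hX1
    have hne : V.c3rt (X ++ s :: Y) t ≠ V.c3rt Y s := V.c3_ne hX
    have hp : V.PosRoot (V.c3rt (X ++ s :: Y) t) := V.c3_pos hX
    have hpβ : V.PosRoot (V.c3rt Y s) := hA'.1 _ hβ
    have hne2 : V.c3rt (X ++ s :: Y) t ≠ -V.c3rt Y s := by
      intro h
      rw [h] at hp
      exact V.not_pos_neg hpβ hp
    have htil := V.til_refl hr hA' (w := (cs.wordProd Y)⁻¹) (s := s) hβ hmax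
      (w' := (cs.wordProd (X ++ s :: Y))⁻¹) (s' := t) hne hne2
    have hw : V.ρ ((cs.wordProd Y)⁻¹ * cs.simple s * (cs.wordProd Y)⁻¹⁻¹)
        (V.ρ (cs.wordProd (X ++ s :: Y))⁻¹ (V.α t)) = V.ρ (cs.wordProd (X ++ Y))⁻¹ (V.α t) := by
      rw [← V.ρ_mul]
      congr 2
      rw [cs.wordProd_append, cs.wordProd_cons, cs.wordProd_append]
      have h4 : (cs.simple s)⁻¹ = cs.simple s := cs.inv_simple s
      have h5 : cs.simple s * cs.simple s = 1 := cs.simple_mul_simple_self s
      rw [mul_inv_rev, mul_inv_rev, mul_inv_rev, h4]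
      calc (cs.wordProd Y)⁻¹ * cs.simple s * (cs.wordProd Y)⁻¹⁻¹ *
            ((cs.wordProd Y)⁻¹ * cs.simple s * (cs.wordProd X)⁻¹)
          = (cs.wordProd Y)⁻¹ * (cs.simple s * cs.simple s) * (cs.wordProd X)⁻¹ := by group
        _ = (cs.wordProd Y)⁻¹ * (cs.wordProd X)⁻¹ := by rw [h5, mul_one]
    rw [hw] at htil
    have htil2 : V.til A' (V.ρ (cs.wordProd (X ++ Y))⁻¹ (V.α t)) ↔
        V.ρ (cs.wordProd (X ++ s :: Y))⁻¹ (V.α t) ∈ A' := htil.trans (V.c3_til hp)
    have hdec : (V.ρ (cs.wordProd (X ++ s :: Y))⁻¹ (V.α t) ∈ A'') ↔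
        V.ρ (cs.wordProd (X ++ s :: Y))⁻¹ (V.α t) ∈ A' := by
      rw [hA'']
      exact ⟨fun h => h.1, fun h => ⟨h, hne⟩⟩
    refine ⟨(t, !decide (V.ρ (cs.wordProd (X ++ s :: Y))⁻¹ (V.α t) ∈ A')) :: X', ?_, ?_, ?_⟩
    · rw [List.cons_append, mik, h1]
      rfl
    · rw [List.cons_append, mik, h2, decide_eq_decide.2 hdec]
      rfl
    · rw [List.cons_append, mikT, h3, decide_eq_decide.2 htil2]
      rfl

/-- the number of negative letters -/
noncomputable def c3cnt (u : List (B × Bool)) : ℕ := (u.filter (fun x => !x.2)).length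

open Classical in
theorem c3_base {A : Set (Fin V.n → ℝ)} : ∀ {l : List B},
    (∀ v ∈ V.c3rts l, v ∉ A) → V.mik A l = l.map (fun s => (s, true))
  | [], _ => rfl
  | s :: l, h => by
    have h1 := h (V.c3rt l s) (by rw [c3rts]; exact List.mem_cons_self ..)
    have h2 := c3_base (l := l) (fun v hv => h v (by
      rw [c3rts]
      exact List.mem_cons_of_mem _ hv))
    rw [mik, h2]
    have h3 : decide (V.ρ (cs.wordProd l)⁻¹ (V.α s) ∈ A) = false := decide_eq_false h1
    rw [h3]
    rfl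

theorem c3_rts_pos : ∀ {l : List B}, cs.IsReduced l → ∀ v ∈ V.c3rts l, V.PosRoot v
  | [], _, v, hv => by simp [c3rts] at hv
  | s :: l, h, v, hv => by
    rw [c3rts, List.mem_cons] at hv
    rcases hv with rfl | hv
    · exact V.c3_pos h
    · exact c3_rts_pos (c3_suffix (X := [s]) h) v hv

theorem c3_rts_ne {Y : List B} {s : B} (h : cs.IsReduced (s :: Y)) :
    ∀ v ∈ V.c3rts Y, v ≠ V.c3rt Y s := by
  intro v hv heq
  obtain ⟨X, t, Z, rfl, rfl⟩ := V.c3_mem_rts hv
  exact V.c3_ne h heq.symm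

/-- C3. The induction principle for Mikado braids. -/
theorem mik_induction (Pr : List (B × Bool) → Prop)
    (inv : ∀ u v, BEq M u v → Pr u → Pr v)
    (base : ∀ l, cs.IsReduced l → Pr (l.map (fun s => (s, true))))
    (flip : ∀ u s v, Pr (u ++ (s, true) :: v) → Pr (u ++ v) → Pr (u ++ (s, false) :: v))
    {r} (hr : V.ReflOrder r) {A : Set (Fin V.n → ℝ)} (hA : V.InitSec r A) (l : List B)
    (hl : cs.IsReduced l) : Pr (V.mik A l) := by
  classical
  suffices H : ∀ n m : ℕ, ∀ (A : Set (Fin V.n → ℝ)), V.InitSec r A → ∀ l : List B,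
      cs.IsReduced l → l.length = n → c3cnt (V.mik A l) = m → Pr (V.mik A l) from
    H _ _ A hA l hl rfl rfl
  intro n
  induction n using Nat.strong_induction_on with
  | _ n ihn =>
  intro m
  induction m using Nat.strong_induction_on with
  | _ m ihm =>
  intro A hA l hl hn hm
  by_cases hemp : (V.c3rts l).filter (fun v => decide (v ∈ A)) = []
  · rw [V.c3_base (l := l) (A := A) (fun v hv hvA => by
      have h1 : v ∈ (V.c3rts l).filter (fun v => decide (v ∈ A)) :=
        List.mem_filter.2 ⟨hv, decide_eq_true hvA⟩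
      rw [hemp] at h1
      simp at h1)]
    exact base l hl
  · obtain ⟨β, hβ, hmax⟩ := V.c3_max hr _ hemp (fun v hv =>
      V.c3_rts_pos hl v (List.mem_filter.1 hv).1)
    have hβA : β ∈ A := of_decide_eq_true (List.mem_filter.1 hβ).2
    obtain ⟨X, s, Y, hlX, hβs⟩ := V.c3_mem_rts (List.mem_filter.1 hβ).1
    subst hlX
    have hβp : V.PosRoot β := hA.1 _ hβA
    let A' : Set (Fin V.n → ℝ) := {v | v ∈ A ∧ (v = β ∨ r v β)}
    let A'' : Set (Fin V.n → ℝ) := {v | v ∈ A ∧ r v β}
    have hA' : V.InitSec r A' := by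
      refine ⟨fun u hu => hA.1 u hu.1, fun u v hu hv huv => ⟨hA.2 u v hu hv.1 huv, Or.inr ?_⟩⟩
      rcases hv.2 with rfl | h
      · exact huv
      · exact hr.trans _ _ _ hu (hA.1 _ hv.1) hβp huv h
    have hA''i : V.InitSec r A'' := by
      refine ⟨fun u hu => hA.1 u hu.1, fun u v hu hv huv => ⟨hA.2 u v hu hv.1 huv, ?_⟩⟩
      exact hr.trans _ _ _ hu (hA.1 _ hv.1) hβp huv hv.2
    have hA'' : ∀ v, v ∈ A'' ↔ v ∈ A' ∧ v ≠ V.c3rt Y s := by
      intro v
      rw [← hβs]
      constructor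
      · intro h
        refine ⟨⟨h.1, Or.inr h.2⟩, ?_⟩
        rintro rfl
        exact hr.irrefl _ hβp h.2
      · rintro ⟨⟨h1, h2⟩, h3⟩
        exact ⟨h1, h2.resolve_left h3⟩
    have hcongr : V.mik A (X ++ s :: Y) = V.mik A' (X ++ s :: Y) := by
      apply V.c3_congr
      intro v hv
      constructor
      · intro h
        refine ⟨h, ?_⟩
        by_cases hvβ : v = β
        · exact Or.inl hvβ
        · right
          have h1 := hmax v (List.mem_filter.2 ⟨hv, decide_eq_true h⟩)
          rcases hr.total v β (hA.1 _ h) hβp hvβ with h2 | h2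
          · exact h2
          · exact absurd h2 h1
      · exact fun h => h.1
    have hmax' : ∀ v ∈ A', ¬ r (V.c3rt Y s) v := by
      intro v hv hrv
      rw [← hβs] at hrv
      rcases hv.2 with rfl | h
      · exact hr.irrefl _ hβp hrv
      · exact hr.irrefl _ hβp (hr.trans _ _ _ hβp (hA.1 _ hv.1) hβp hrv h)
    have hYr : cs.IsReduced (s :: Y) := c3_suffix hl
    obtain ⟨X', h1, h2, h3⟩ := V.c3_words hr hA' (s := s) (Y := Y)
      (by rw [← hβs]; exact ⟨hβA, Or.inl rfl⟩) hmax' hA'' hYr (V.c3_rts_ne hYr) X hl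
    rw [hcongr, h1]
    apply flip
    · rw [← h2]
      refine ihm _ ?_ A'' hA''i _ hl hn rfl
      rw [← hm, hcongr, h1, h2]
      unfold c3cnt
      rw [List.filter_append, List.filter_append, List.filter_cons_of_neg (by simp),
        List.filter_cons_of_pos (by simp), List.length_append, List.length_append,
        List.length_cons]
      omega
    · rw [← h3]
      obtain ⟨l'', hl'', hprod⟩ := cs.exists_isReduced (cs.wordProd (X ++ Y))
      have hlen : l''.length < n := by
        have h4 : l''.length ≤ (X ++ Y).length := by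
          rw [← hl''.eq, ← hprod]
          exact cs.length_wordProd_le _
        rw [← hn]
        simp only [List.length_cons, List.length_append] at h4 ⊢
        omega
      have h5 := ihn _ hlen _ A' hA' l'' hl'' rfl rfl
      rw [← V.mikT_eq_mik A' l'' hl''] at h5
      exact inv _ _ (V.mikT_indep hr hA' _ _ hprod.symm) h5

end Rlz

end RC
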