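import Mathlib

/-!
# Complexes of graded bimodules and Rouquier complexes (MP_d13a5e_al): definitions

`R = ℝ[x_0,…,x_{n-1}]`, `deg x_i = 2`. A complex of graded `R`-bimodules is encoded by its total
bimodule `⨁ X^k_t` (`k` homological degree, `t` internal degree) with a differential of
bidegree `(1,0)`.
-/

open MvPolynomial

namespace RC

/-- the polynomial ring `ℝ[x_0,…,x_{n-1}]` -/
abbrev P (n : ℕ) : Type := MvPolynomial (Fin n) ℝ

/-- A complex of graded `R`-bimodules, `R = ℝ[x_0,…,x_{n-1}]`: an abelian group `M` with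
commuting left and right `R`-actions which agree on `ℝ`, a direct sum decomposition
`M = ⨁_{k,t} M^k_t`, given by its projections `pr k t`, such that `x_j M^k_t ⊆ M^k_{t+2}` and
`M^k_t x_j ⊆ M^k_{t+2}`, and a bimodule endomorphism `D` with `D² = 0`, `D M^k_t ⊆ M^{k+1}_t`. -/
structure CB (n : ℕ) where
  M : Type
  [ag : AddCommGroup M]
  l : P n →+* AddMonoid.End M
  r : P n →+* AddMonoid.End M
  lr : ∀ f g m, l f (r g m) = r g (l f m)
  lrC : ∀ (c : ℝ) m, l (C c) m = r (C c) m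
  pr : ℤ → ℤ → AddMonoid.End M
  pr_pr : ∀ k t k' t' m, pr k t (pr k' t' m) = if k = k' ∧ t = t' then pr k t m else 0
  pr_fin : ∀ m, {p : ℤ × ℤ | pr p.1 p.2 m ≠ 0}.Finite
  pr_ext : ∀ m, (∀ k t, pr k t m = 0) → m = 0
  pr_lX : ∀ k t j m, pr k (t + 2) (l (X j) m) = l (X j) (pr k t m)
  pr_rX : ∀ k t j m, pr k (t + 2) (r (X j) m) = r (X j) (pr k t m)
  pr_lC : ∀ k t (c : ℝ) m, pr k t (l (C c) m) = l (C c) (pr k t m)
  D : AddMonoid.End M
  D_l : ∀ f m, D (l f m) = l f (D m)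
  D_r : ∀ f m, D (r f m) = r f (D m)
  D_D : ∀ m, D (D m) = 0
  D_pr : ∀ k t m, pr (k + 1) t (D m) = D (pr k t m)

attribute [instance] CB.ag

variable {n : ℕ}

/-- `φ` is a homomorphism of bimodules -/
def IsBi (X Y : CB n) (φ : X.M →+ Y.M) : Prop :=
  (∀ f m, φ (X.l f m) = Y.l f (φ m)) ∧ (∀ f m, φ (X.r f m) = Y.r f (φ m))

/-- `φ` is a homomorphism of bimodules of bidegree `(p,e)`: `φ(X^k_t) ⊆ Y^{k+p}_{t+e}` -/
def Hm (X Y : CB n) (p e : ℤ) (φ : X.M →+ Y.M) : Prop :=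
  IsBi X Y φ ∧ ∀ k t m, Y.pr (k + p) (t + e) (φ m) = φ (X.pr k t m)

/-- `φ` is a morphism of complexes -/
def Ch (X Y : CB n) (φ : X.M →+ Y.M) : Prop :=
  Hm X Y 0 0 φ ∧ ∀ m, Y.D (φ m) = φ (X.D m)

/-- `φ` is null-homotopic -/
def Nul (X Y : CB n) (φ : X.M →+ Y.M) : Prop :=
  ∃ h : X.M →+ Y.M, Hm X Y (-1) 0 h ∧ ∀ m, φ m = Y.D (h m) + h (X.D m)

/-- `X` and `Y` are homotopy equivalent -/
def HE (X Y : CB n) : Prop :=
  ∃ (f : X.M →+ Y.M) (g : Y.M →+ X.M), Ch X Y f ∧ Ch Y X g ∧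
    Nul X X (g.comp f - AddMonoidHom.id _) ∧ Nul Y Y (f.comp g - AddMonoidHom.id _)

/-- `X` is contractible: its identity is null-homotopic -/
def Contractible (X : CB n) : Prop := Nul X X (AddMonoidHom.id _)

/-- `X` is minimal: it has no nonzero contractible direct summand -/
def Minimal (X : CB n) : Prop :=
  ∀ (Y : CB n) (i : Y.M →+ X.M) (p : X.M →+ Y.M), Ch Y X i → Ch X Y p → (∀ y, p (i y) = y) →
    Contractible Y → ∀ y : Y.M, y = 0

/-! ### reflections -/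

/-- A reflection of `R`: the algebra automorphism `σ` with `σ(x_i) = x_i - c_i α`, where `α` is a
nonzero linear form with `σ(α) = -α`. -/
structure Refl (n : ℕ) where
  σ : P n →ₐ[ℝ] P n
  α : P n
  c : Fin n → ℝ
  lin : α.IsHomogeneous 1
  ne : α ≠ 0
  σX : ∀ i, σ (X i) = X i - C (c i) * α
  σα : σ α = -α

namespace Refl

variable (ρ : Refl n)

theorem half : (C (1/2 : ℝ) : P n) * 2 = 1 := by
  have h2 : (2 : P n) = C 2 := (map_ofNat (C : ℝ →+* P n) 2).symm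
  rw [h2, ← C_mul]
  norm_num

theorem σC (c : ℝ) : ρ.σ (C c) = C c := ρ.σ.commutes c

theorem σσ (f : P n) : ρ.σ (ρ.σ f) = f := by
  induction f using MvPolynomial.induction_on with
  | C a => rw [σC, σC]
  | add p q hp hq => rw [map_add, map_add, hp, hq]
  | mul_X p i hp =>
    rw [map_mul, map_mul, hp, ρ.σX, map_sub, map_mul, ρ.σX, ρ.σα, σC]
    ring

theorem dvd (f : P n) : ρ.α ∣ f - ρ.σ f := by
  induction f using MvPolynomial.induction_on with
  | C a => rw [σC, sub_self]; exact dvd_zero _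
  | add p q hp hq =>
    rw [map_add, add_sub_add_comm]
    exact dvd_add hp hq
  | mul_X p i hp =>
    rw [map_mul, ρ.σX]
    have : p * X i - ρ.σ p * (X i - C (ρ.c i) * ρ.α) =
      (p - ρ.σ p) * X i + ρ.α * (C (ρ.c i) * ρ.σ p) := by ring
    rw [this]
    exact dvd_add (Dvd.dvd.mul_right hp _) (Dvd.intro _ rfl)

/-- the invariant part `(f + σ f)/2` of `f` -/
noncomputable def pl (f : P n) : P n := C (1/2) * (f + ρ.σ f)

/-- `(f - σ f)/(2α)` -/
noncomputable def mi (f : P n) : P n := C (1/2) * (ρ.dvd f).choose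

theorem mi_spec (f : P n) : ρ.α * ρ.mi f = C (1/2) * (f - ρ.σ f) := by
  have h := (ρ.dvd f).choose_spec
  unfold mi
  linear_combination (-(C (1/2 : ℝ) : P n)) * h

/-- `f = f₊ + f₋ α` -/
theorem pl_add_mi (f : P n) : f = ρ.pl f + ρ.mi f * ρ.α := by
  have h := ρ.mi_spec f
  unfold pl
  have h2 : (C (1/2 : ℝ) : P n) * 2 = 1 := half
  linear_combination (-f) * h2 - h

theorem mi_unique {f h : P n} (e : ρ.α * h = C (1/2) * (f - ρ.σ f)) : ρ.mi f = h := by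
  apply mul_left_cancel₀ ρ.ne
  rw [mi_spec, e]

theorem σ_pl (f : P n) : ρ.σ (ρ.pl f) = ρ.pl f := by
  unfold pl
  rw [map_mul, map_add, σσ, σC]
  ring

theorem σ_mi (f : P n) : ρ.σ (ρ.mi f) = ρ.mi f := by
  symm
  apply mi_unique
  have h := congrArg ρ.σ (ρ.mi_spec f)
  rw [map_mul, map_mul, map_sub, σσ, ρ.σα, σC] at h
  linear_combination -h

theorem pl_add (f g : P n) : ρ.pl (f + g) = ρ.pl f + ρ.pl g := by
  unfold pl
  rw [map_add]
  ring

theorem mi_add (f g : P n) : ρ.mi (f + g) = ρ.mi f + ρ.mi g := by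
  apply mi_unique
  rw [mul_add, mi_spec, mi_spec, map_add]
  ring

theorem pl_mul (f g : P n) :
    ρ.pl (f * g) = ρ.pl f * ρ.pl g + ρ.α * ρ.α * (ρ.mi f * ρ.mi g) := by
  have h2 : (C (1/2 : ℝ) : P n) * 2 = 1 := half
  have e : ρ.α * ρ.α * (ρ.mi f * ρ.mi g) = (ρ.α * ρ.mi f) * (ρ.α * ρ.mi g) := by ring
  rw [e, mi_spec, mi_spec]
  unfold pl
  rw [map_mul]
  linear_combination (-(C (1/2 : ℝ) * (f * g + ρ.σ f * ρ.σ g))) * h2

theorem mi_mul (f g : P n) : ρ.mi (f * g) = ρ.mi f * ρ.pl g + ρ.pl f * ρ.mi g := by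
  apply mi_unique
  have h2 : (C (1/2 : ℝ) : P n) * 2 = 1 := half
  have e : ρ.α * (ρ.mi f * ρ.pl g + ρ.pl f * ρ.mi g) =
    (ρ.α * ρ.mi f) * ρ.pl g + ρ.pl f * (ρ.α * ρ.mi g) := by ring
  rw [e, mi_spec, mi_spec]
  unfold pl
  rw [map_mul]
  linear_combination (C (1/2 : ℝ) * (f * g - ρ.σ f * ρ.σ g)) * h2

theorem pl_C (c : ℝ) : ρ.pl (C c) = C c := by
  unfold pl
  rw [σC]
  have h2 : (C (1/2 : ℝ) : P n) * 2 = 1 := half
  linear_combination (C c) * h2

theorem mi_C (c : ℝ) : ρ.mi (C c) = 0 := by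
  apply mi_unique
  rw [σC, mul_zero, sub_self, mul_zero]

theorem pl_one : ρ.pl 1 = 1 := by
  have := ρ.pl_C 1
  simpa using this

theorem mi_one : ρ.mi 1 = 0 := by
  have := ρ.mi_C 1
  simpa using this

theorem pl_zero : ρ.pl 0 = 0 := by
  have := ρ.pl_C 0
  simpa using this

theorem mi_zero : ρ.mi 0 = 0 := by
  have := ρ.mi_C 0
  simpa using this

theorem mi_X (j : Fin n) : ρ.mi (X j) = C (ρ.c j / 2) := by
  apply mi_unique
  rw [ρ.σX]
  have : (C (ρ.c j / 2) : P n) = C (1/2) * C (ρ.c j) := by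
    rw [← C_mul]; congr 1; ring
  rw [this]; ring

theorem pl_X (j : Fin n) : ρ.pl (X j) = X j - C (ρ.c j / 2) * ρ.α := by
  have h := ρ.pl_add_mi (X j)
  rw [mi_X] at h
  linear_combination -h

theorem pl_of_inv {f : P n} (h : ρ.σ f = f) : ρ.pl f = f := by
  unfold pl
  rw [h]
  have h2 : (C (1/2 : ℝ) : P n) * 2 = 1 := half
  linear_combination f * h2

theorem mi_of_inv {f : P n} (h : ρ.σ f = f) : ρ.mi f = 0 := by
  apply mi_unique
  rw [h, mul_zero, sub_self, mul_zero]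

theorem pl_α : ρ.pl ρ.α = 0 := by
  unfold pl
  rw [ρ.σα, add_neg_cancel, mul_zero]

theorem mi_α : ρ.mi ρ.α = 1 := by
  apply mi_unique
  rw [ρ.σα]
  have h2 : (C (1/2 : ℝ) : P n) * 2 = 1 := half
  linear_combination (-ρ.α) * h2

end Refl

end RC
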