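import Mathlib
import Pool.Agent.EW.RC.Defs

/-!
# Rouquier complexes (MP_d13a5e_al): the functors
-/

open MvPolynomial

namespace RC

variable {n : ℕ}

theorem hcomp_mul_succ {σ : Type*} {f : MvPolynomial σ ℝ} {k : ℕ} (hf : f.IsHomogeneous k)
    (g : MvPolynomial σ ℝ) (d : ℕ) :
    homogeneousComponent (d + k) (f * g) = f * homogeneousComponent d g := by
  classical
  conv_lhs => rw [← sum_homogeneousComponent g]
  rw [Finset.mul_sum, map_sum]
  have h : ∀ i ∈ Finset.range (g.totalDegree + 1),
      homogeneousComponent (d + k) (f * homogeneousComponent i g) =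
        if i = d then f * homogeneousComponent d g else 0 := by
    intro i _
    have h1 : (f * homogeneousComponent i g).IsHomogeneous (k + i) :=
      hf.mul (homogeneousComponent_isHomogeneous i g)
    rw [homogeneousComponent_of_mem h1]
    by_cases hid : i = d
    · subst hid; simp [add_comm]
    · rw [if_neg hid, if_neg]; omega
  rw [Finset.sum_congr rfl h, Finset.sum_ite_eq']
  split_ifs with h2
  · rfl
  · rw [homogeneousComponent_eq_zero d g (by simpa using h2)]; simp

theorem hcomp_mul_lt {σ : Type*} {f : MvPolynomial σ ℝ} {k : ℕ} (hf : f.IsHomogeneous k)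
    (g : MvPolynomial σ ℝ) (d : ℕ) (hd : d < k) :
    homogeneousComponent d (f * g) = 0 := by
  classical
  conv_lhs => rw [← sum_homogeneousComponent g]
  rw [Finset.mul_sum, map_sum]
  apply Finset.sum_eq_zero
  intro i _
  have h1 : (f * homogeneousComponent i g).IsHomogeneous (k + i) :=
    hf.mul (homogeneousComponent_isHomogeneous i g)
  rw [homogeneousComponent_of_mem h1, if_neg]; omega

theorem CB.pr_rC (X : CB n) (k t : ℤ) (c : ℝ) (m : X.M) :
    X.pr k t (X.r (C c) m) = X.r (C c) (X.pr k t m) := by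
  rw [← X.lrC, X.pr_lC, X.lrC]

theorem CB.l_mul (X : CB n) (f g : P n) (m : X.M) : X.l (f * g) m = X.l f (X.l g m) := by
  rw [map_mul]; rfl

theorem CB.r_mul (X : CB n) (f g : P n) (m : X.M) : X.r (f * g) m = X.r f (X.r g m) := by
  rw [map_mul]; rfl

theorem CB.l_add (X : CB n) (f g : P n) (m : X.M) : X.l (f + g) m = X.l f m + X.l g m := by
  rw [map_add]; rfl

theorem CB.r_add (X : CB n) (f g : P n) (m : X.M) : X.r (f + g) m = X.r f m + X.r g m := by
  rw [map_add]; rfl

theorem CB.l_sub (X : CB n) (f g : P n) (m : X.M) : X.l (f - g) m = X.l f m - X.l g m := by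
  rw [map_sub]; rfl

theorem CB.r_sub (X : CB n) (f g : P n) (m : X.M) : X.r (f - g) m = X.r f m - X.r g m := by
  rw [map_sub]; rfl

theorem CB.l_neg (X : CB n) (f : P n) (m : X.M) : X.l (-f) m = - X.l f m := by
  rw [map_neg]; rfl

theorem CB.r_neg (X : CB n) (f : P n) (m : X.M) : X.r (-f) m = - X.r f m := by
  rw [map_neg]; rfl

theorem CB.l_zero (X : CB n) (m : X.M) : X.l 0 m = 0 := by
  rw [map_zero]; rfl

theorem CB.r_zero (X : CB n) (m : X.M) : X.r 0 m = 0 := by
  rw [map_zero]; rfl

theorem CB.l_one (X : CB n) (m : X.M) : X.l 1 m = m := by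
  rw [map_one]; rfl

theorem CB.r_one (X : CB n) (m : X.M) : X.r 1 m = m := by
  rw [map_one]; rfl

theorem CB.l_sum (X : CB n) {ι : Type*} (s : Finset ι) (f : ι → P n) (m : X.M) :
    X.l (∑ i ∈ s, f i) m = ∑ i ∈ s, X.l (f i) m := by
  classical
  induction s using Finset.induction_on with
  | empty => rw [Finset.sum_empty, Finset.sum_empty, X.l_zero]
  | insert a s ha ih => rw [Finset.sum_insert ha, Finset.sum_insert ha, X.l_add, ih]

theorem CB.r_sum (X : CB n) {ι : Type*} (s : Finset ι) (f : ι → P n) (m : X.M) :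
    X.r (∑ i ∈ s, f i) m = ∑ i ∈ s, X.r (f i) m := by
  classical
  induction s using Finset.induction_on with
  | empty => rw [Finset.sum_empty, Finset.sum_empty, X.r_zero]
  | insert a s ha ih => rw [Finset.sum_insert ha, Finset.sum_insert ha, X.r_add, ih]

/-- multiplication by a monomial of degree `d` on the right raises the internal degree by `2d` -/
theorem CB.pr_r_mono (X : CB n) (d : ℕ) : ∀ (s : Fin n →₀ ℕ), s.degree = d → ∀ (a : ℝ) (k t : ℤ)
    (m : X.M), X.pr k (t + 2 * d) (X.r (monomial s a) m) = X.r (monomial s a) (X.pr k t m) := by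
  induction d with
  | zero =>
    intro s hs a k t m
    rw [Finsupp.degree_eq_zero_iff] at hs
    subst hs
    have : (monomial 0 a : P n) = C a := rfl
    rw [this]
    simp [X.pr_rC]
  | succ d ih =>
    intro s hs a k t m
    obtain ⟨j, hj⟩ : ∃ j, s j ≠ 0 := by
      by_contra hcon
      push Not at hcon
      have : s = 0 := Finsupp.ext hcon
      rw [this] at hs
      simp at hs
    obtain ⟨s', rfl⟩ : ∃ s', s = s' + Finsupp.single j 1 := by
      refine ⟨s - Finsupp.single j 1, ?_⟩
      ext i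
      by_cases hi : i = j
      · subst hi; simp; omega
      · simp [Ne.symm hi]
    have hs' : s'.degree = d := by
      rw [map_add] at hs
      simpa using hs
    have e : t + 2 * ((d + 1 : ℕ) : ℤ) = (t + 2) + 2 * d := by push_cast; ring
    rw [monomial_add_single, pow_one, X.r_mul, X.r_mul, e, ih s' hs', X.pr_rX]

theorem CB.pr_l_mono (X : CB n) (d : ℕ) : ∀ (s : Fin n →₀ ℕ), s.degree = d → ∀ (a : ℝ) (k t : ℤ)
    (m : X.M), X.pr k (t + 2 * d) (X.l (monomial s a) m) = X.l (monomial s a) (X.pr k t m) := by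
  induction d with
  | zero =>
    intro s hs a k t m
    rw [Finsupp.degree_eq_zero_iff] at hs
    subst hs
    have : (monomial 0 a : P n) = C a := rfl
    rw [this]
    simp [X.pr_lC]
  | succ d ih =>
    intro s hs a k t m
    obtain ⟨j, hj⟩ : ∃ j, s j ≠ 0 := by
      by_contra hcon
      push Not at hcon
      have : s = 0 := Finsupp.ext hcon
      rw [this] at hs
      simp at hs
    obtain ⟨s', rfl⟩ : ∃ s', s = s' + Finsupp.single j 1 := by
      refine ⟨s - Finsupp.single j 1, ?_⟩
      ext i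
      by_cases hi : i = j
      · subst hi; simp; omega
      · simp [Ne.symm hi]
    have hs' : s'.degree = d := by
      rw [map_add] at hs
      simpa using hs
    have e : t + 2 * ((d + 1 : ℕ) : ℤ) = (t + 2) + 2 * d := by push_cast; ring
    rw [monomial_add_single, pow_one, X.l_mul, X.l_mul, e, ih s' hs', X.pr_lX]

theorem CB.pr_r_homog (X : CB n) {f : P n} {d : ℕ} (hf : f.IsHomogeneous d) (k t : ℤ) (m : X.M) :
    X.pr k (t + 2 * d) (X.r f m) = X.r f (X.pr k t m) := by
  classical
  rw [f.as_sum]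
  rw [X.r_sum, X.r_sum, map_sum]
  apply Finset.sum_congr rfl
  intro s hs
  apply X.pr_r_mono
  have h := hf (mem_support_iff.mp hs)
  rw [← h]
  rw [Finsupp.weight_apply, Finsupp.degree_eq_sum]
  simp [Finsupp.sum_fintype]

theorem CB.pr_l_homog (X : CB n) {f : P n} {d : ℕ} (hf : f.IsHomogeneous d) (k t : ℤ) (m : X.M) :
    X.pr k (t + 2 * d) (X.l f m) = X.l f (X.pr k t m) := by
  classical
  rw [f.as_sum]
  rw [X.l_sum, X.l_sum, map_sum]
  apply Finset.sum_congr rfl
  intro s hs
  apply X.pr_l_mono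
  have h := hf (mem_support_iff.mp hs)
  rw [← h]
  rw [Finsupp.weight_apply, Finsupp.degree_eq_sum]
  simp [Finsupp.sum_fintype]

/-- multiplication by a linear form on the right raises the internal degree by `2` -/
theorem CB.pr_r_lin (X : CB n) {f : P n} (hf : f.IsHomogeneous 1) (k t : ℤ) (m : X.M) :
    X.pr k (t + 2) (X.r f m) = X.r f (X.pr k t m) := by
  have := X.pr_r_homog hf k t m
  simpa using this

theorem CB.pr_l_lin (X : CB n) {f : P n} (hf : f.IsHomogeneous 1) (k t : ℤ) (m : X.M) :
    X.pr k (t + 2) (X.l f m) = X.l f (X.pr k t m) := by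
  have := X.pr_l_homog hf k t m
  simpa using this

theorem CB.r_ma (X : CB n) (f : P n) (a b : X.M) : X.r f (a + b) = X.r f a + X.r f b :=
  map_add _ _ _

theorem CB.l_ma (X : CB n) (f : P n) (a b : X.M) : X.l f (a + b) = X.l f a + X.l f b :=
  map_add _ _ _

theorem CB.D_ma (X : CB n) (a b : X.M) : X.D (a + b) = X.D a + X.D b := map_add _ _ _

theorem CB.pr_ma (X : CB n) (k t : ℤ) (a b : X.M) :
    X.pr k t (a + b) = X.pr k t a + X.pr k t b := map_add _ _ _

theorem CB.r_ms (X : CB n) (f : P n) (a b : X.M) : X.r f (a - b) = X.r f a - X.r f b :=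
  map_sub _ _ _

theorem CB.l_ms (X : CB n) (f : P n) (a b : X.M) : X.l f (a - b) = X.l f a - X.l f b :=
  map_sub _ _ _

theorem CB.D_ms (X : CB n) (a b : X.M) : X.D (a - b) = X.D a - X.D b := map_sub _ _ _

theorem CB.pr_ms (X : CB n) (k t : ℤ) (a b : X.M) :
    X.pr k t (a - b) = X.pr k t a - X.pr k t b := map_sub _ _ _

theorem CB.r_mn (X : CB n) (f : P n) (a : X.M) : X.r f (-a) = -X.r f a := map_neg _ _

theorem CB.l_mn (X : CB n) (f : P n) (a : X.M) : X.l f (-a) = -X.l f a := map_neg _ _

theorem CB.D_mn (X : CB n) (a : X.M) : X.D (-a) = -X.D a := map_neg _ _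

theorem CB.pr_mn (X : CB n) (k t : ℤ) (a : X.M) : X.pr k t (-a) = -X.pr k t a := map_neg _ _

theorem CB.r_mz (X : CB n) (f : P n) : X.r f 0 = 0 := map_zero _

theorem CB.l_mz (X : CB n) (f : P n) : X.l f 0 = 0 := map_zero _

theorem CB.D_mz (X : CB n) : X.D 0 = 0 := map_zero _

theorem CB.pr_mz (X : CB n) (k t : ℤ) : X.pr k t 0 = 0 := map_zero _

/-- an action from a function -/
def mkAct {M : Type} [AddCommGroup M] (act : P n → M → M)
    (hd : ∀ f a b, act f (a + b) = act f a + act f b) (h1 : ∀ a, act 1 a = a)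
    (hm : ∀ f g a, act (f * g) a = act f (act g a))
    (ha : ∀ f g a, act (f + g) a = act f a + act g a) : P n →+* AddMonoid.End M where
  toFun f := AddMonoidHom.mk' (act f) (hd f)
  map_one' := AddMonoidHom.ext h1
  map_mul' f g := AddMonoidHom.ext (hm f g)
  map_zero' := AddMonoidHom.ext fun a => by
    have := ha 0 0 a
    rw [add_zero] at this
    exact left_eq_add.mp this
  map_add' f g := AddMonoidHom.ext (ha f g)

@[simp] theorem mkAct_apply {M : Type} [AddCommGroup M] (act : P n → M → M)
    (hd : ∀ f a b, act f (a + b) = act f a + act f b) (h1 : ∀ a, act 1 a = a)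
    (hm : ∀ f g a, act (f * g) a = act f (act g a))
    (ha : ∀ f g a, act (f + g) a = act f a + act g a) (f : P n) (a : M) :
    mkAct act hd h1 hm ha f a = act f a := rfl

/-- an endomorphism from a function -/
def mkEnd {M : Type} [AddCommGroup M] (f : M → M) (hf : ∀ a b, f (a + b) = f a + f b) :
    AddMonoid.End M := AddMonoidHom.mk' f hf

@[simp] theorem mkEnd_apply {M : Type} [AddCommGroup M] (f : M → M)
    (hf : ∀ a b, f (a + b) = f a + f b) (a : M) : mkEnd f hf a = f a := rfl

end RC
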