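import Mathlib
import Pool.Agent.EW.RC.Defs2

/-!
# Rouquier complexes (MP_d13a5e_al): the functors `Th`, `Phi`, `shD`, `op`, the unit and the
Rouquier complexes
-/

open MvPolynomial

namespace RC

variable {n : ℕ}

/-- `1` for a positive letter, `-1` for a negative letter -/
def sg (ε : Bool) : ℤ := if ε then 1 else -1

@[simp] theorem sg_true : sg true = 1 := rfl
@[simp] theorem sg_false : sg false = -1 := rfl

/-- opposite complex: left and right actions are exchanged -/
def op (X : CB n) : CB n where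
  M := X.M
  l := X.r
  r := X.l
  lr f g m := (X.lr g f m).symm
  lrC c m := (X.lrC c m).symm
  pr := X.pr
  pr_pr := X.pr_pr
  pr_fin := X.pr_fin
  pr_ext := X.pr_ext
  pr_lX := X.pr_rX
  pr_rX := X.pr_lX
  pr_lC := X.pr_rC
  D := X.D
  D_l := X.D_r
  D_r := X.D_l
  D_D := X.D_D
  D_pr := X.D_pr

/-- `X` with the grading `(X(a)[b])^k_t = X^{k+b}_{t+a}` and the differential `-D` -/
def shD (a b : ℤ) (X : CB n) : CB n where
  M := X.M
  l := X.l
  r := X.r
  lr := X.lr
  lrC := X.lrC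
  pr k t := X.pr (k + b) (t + a)
  pr_pr k t k' t' m := by
    rw [X.pr_pr]
    simp
  pr_fin m := by
    have h := X.pr_fin m
    refine Set.Finite.subset (h.image (fun p => (p.1 - b, p.2 - a))) ?_
    rintro ⟨k, t⟩ hp
    exact ⟨(k + b, t + a), hp, by simp⟩
  pr_ext m h := by
    apply X.pr_ext
    intro k t
    have := h (k - b) (t - a)
    simpa using this
  pr_lX k t j m := by
    rw [add_right_comm]; exact X.pr_lX _ _ _ _
  pr_rX k t j m := by
    rw [add_right_comm]; exact X.pr_rX _ _ _ _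
  pr_lC k t c m := X.pr_lC _ _ _ _
  D := -X.D
  D_l f m := by
    change -X.D (X.l f m) = X.l f (-X.D m)
    rw [X.D_l, map_neg]
  D_r f m := by
    change -X.D (X.r f m) = X.r f (-X.D m)
    rw [X.D_r, map_neg]
  D_D m := by
    change -X.D (-X.D m) = 0
    rw [map_neg, X.D_D, neg_zero, neg_zero]
  D_pr k t m := by
    change X.pr (k + 1 + b) (t + a) (-X.D m) = -X.D (X.pr (k + b) (t + a) m)
    rw [map_neg, add_right_comm, X.D_pr]

/-- the right action on `X ⊗_{R^s} R = X ⊗ 1 ⊕ X ⊗ α` -/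
noncomputable def thr (ρ : Refl n) (X : CB n) (f : P n) (a b : X.M) : X.M × X.M :=
  (X.r (ρ.pl f) a + X.r (ρ.α * ρ.α * ρ.mi f) b, X.r (ρ.mi f) a + X.r (ρ.pl f) b)

theorem thr_add (ρ : Refl n) (X : CB n) (f : P n) (a b a' b' : X.M) :
    thr ρ X f (a + a') (b + b') = thr ρ X f a b + thr ρ X f a' b' := by
  unfold thr
  ext
  · simp only [X.r_ma, Prod.fst_add]; abel
  · simp only [X.r_ma, Prod.snd_add]; abel

theorem thr_mul (ρ : Refl n) (X : CB n) (f g : P n) (a b : X.M) :
    thr ρ X (f * g) a b = thr ρ X f (thr ρ X g a b).1 (thr ρ X g a b).2 := by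
  unfold thr
  ext
  · simp only [ρ.pl_mul, ρ.mi_mul, X.r_ma, ← X.r_mul]
    simp only [X.r_add, mul_add]
    have e1 : ρ.α * ρ.α * ρ.mi f * ρ.mi g = ρ.α * ρ.α * (ρ.mi f * ρ.mi g) := by ring
    have e2 : ρ.pl f * (ρ.α * ρ.α * ρ.mi g) = ρ.α * ρ.α * (ρ.pl f * ρ.mi g) := by ring
    have e3 : ρ.α * ρ.α * ρ.mi f * ρ.pl g = ρ.α * ρ.α * (ρ.mi f * ρ.pl g) := by ring
    rw [e1, e2, e3]
    abel
  · simp only [ρ.pl_mul, ρ.mi_mul, X.r_ma, ← X.r_mul]
    simp only [X.r_add]
    have e1 : ρ.mi f * (ρ.α * ρ.α * ρ.mi g) = ρ.α * ρ.α * (ρ.mi f * ρ.mi g) := by ring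
    rw [e1]
    abel

theorem thr_addl (ρ : Refl n) (X : CB n) (f g : P n) (a b : X.M) :
    thr ρ X (f + g) a b = thr ρ X f a b + thr ρ X g a b := by
  unfold thr
  ext
  · simp only [ρ.pl_add, ρ.mi_add, X.r_add, mul_add, Prod.fst_add]; abel
  · simp only [ρ.pl_add, ρ.mi_add, X.r_add, Prod.snd_add]; abel

theorem thr_one (ρ : Refl n) (X : CB n) (a b : X.M) : thr ρ X 1 a b = (a, b) := by
  unfold thr
  rw [ρ.pl_one, ρ.mi_one, mul_zero, X.r_zero, X.r_zero, X.r_one, X.r_one, add_zero, zero_add]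

theorem thr_C (ρ : Refl n) (X : CB n) (c : ℝ) (a b : X.M) :
    thr ρ X (C c) a b = (X.r (C c) a, X.r (C c) b) := by
  unfold thr
  rw [ρ.pl_C, ρ.mi_C, mul_zero, X.r_zero, X.r_zero, add_zero, zero_add]

theorem thr_l (ρ : Refl n) (X : CB n) (f g : P n) (a b : X.M) :
    thr ρ X g (X.l f a) (X.l f b) = (X.l f (thr ρ X g a b).1, X.l f (thr ρ X g a b).2) := by
  unfold thr
  simp only [X.l_ma, X.lr]

theorem thr_D (ρ : Refl n) (X : CB n) (g : P n) (a b : X.M) :
    thr ρ X g (X.D a) (X.D b) = (X.D (thr ρ X g a b).1, X.D (thr ρ X g a b).2) := by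
  unfold thr
  simp only [X.D_ma, X.D_r]

theorem Refl.pl_lin (ρ : Refl n) (j : Fin n) : (ρ.pl (X j)).IsHomogeneous 1 := by
  rw [ρ.pl_X]
  have h1 := (isHomogeneous_C (Fin n) (ρ.c j / 2)).mul ρ.lin
  rw [zero_add] at h1
  exact (isHomogeneous_X ℝ j).sub h1

theorem thr_pr (ρ : Refl n) (X : CB n) (k t : ℤ) (j : Fin n) (a b : X.M) :
    thr ρ X (MvPolynomial.X j) (X.pr k (t + 1) a) (X.pr k (t - 1) b) =
      (X.pr k (t + 2 + 1) (thr ρ X (MvPolynomial.X j) a b).1,
        X.pr k (t + 2 - 1) (thr ρ X (MvPolynomial.X j) a b).2) := by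
  unfold thr
  have e0 : t + 2 + 1 = t + 1 + 2 := by ring
  have e1 : t + 2 - 1 = t - 1 + 2 := by ring
  have e2 : t + 1 + 2 = (t - 1) + 2 + 2 := by ring
  have e3 : t - 1 + 2 = t + 1 := by ring
  refine Prod.ext ?_ ?_
  · simp only [X.pr_ma]
    rw [e0, X.pr_r_lin (ρ.pl_lin j)]
    congr 1
    rw [ρ.mi_X, X.r_mul, X.r_mul, X.r_mul, X.r_mul, e2, X.pr_r_lin ρ.lin, X.pr_r_lin ρ.lin,
      X.pr_rC]
  · simp only [X.pr_ma]
    rw [e1, X.pr_r_lin (ρ.pl_lin j)]
    congr 1
    rw [ρ.mi_X, e3, X.pr_rC]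

/-- `X ⊗_{R^s} R(1)`, elements `(a, b) = a ⊗ 1 + b ⊗ α` -/
noncomputable def Th (ρ : Refl n) (X : CB n) : CB n where
  M := X.M × X.M
  l := mkAct (fun f m => (X.l f m.1, X.l f m.2))
    (fun f a b => Prod.ext (X.l_ma _ _ _) (X.l_ma _ _ _))
    (fun a => Prod.ext (X.l_one _) (X.l_one _))
    (fun f g a => Prod.ext (X.l_mul _ _ _) (X.l_mul _ _ _))
    (fun f g a => Prod.ext (X.l_add _ _ _) (X.l_add _ _ _))
  r := mkAct (fun f m => thr ρ X f m.1 m.2) (fun f a b => thr_add ρ X f _ _ _ _)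
    (fun a => thr_one ρ X a.1 a.2) (fun f g a => thr_mul ρ X f g a.1 a.2)
    (fun f g a => thr_addl ρ X f g a.1 a.2)
  lr f g m := (thr_l ρ X f g m.1 m.2).symm
  lrC c m := by
    simp only [mkAct_apply]
    rw [thr_C, X.lrC, X.lrC]
  pr k t := mkEnd (fun m => (X.pr k (t + 1) m.1, X.pr k (t - 1) m.2))
    (fun a b => Prod.ext (X.pr_ma _ _ _ _) (X.pr_ma _ _ _ _))
  pr_pr k t k' t' m := by
    simp only [mkEnd_apply]
    rw [X.pr_pr, X.pr_pr]
    by_cases h : k = k' ∧ t = t'
    · simp [h]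
    · simp [h]
  pr_fin m := by
    have h1 := (X.pr_fin m.1).image (fun p => ((p.1, p.2 - 1) : ℤ × ℤ))
    have h2 := (X.pr_fin m.2).image (fun p => ((p.1, p.2 + 1) : ℤ × ℤ))
    refine Set.Finite.subset (h1.union h2) ?_
    rintro ⟨k, t⟩ hp
    by_cases h : X.pr k (t + 1) m.1 = 0
    · right
      refine ⟨(k, t - 1), ?_, by simp⟩
      intro h'
      exact hp (Prod.ext h h')
    · left
      exact ⟨(k, t + 1), h, by simp⟩
  pr_ext m h := by
    refine Prod.ext (X.pr_ext _ fun k t => ?_) (X.pr_ext _ fun k t => ?_)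
    · have := congrArg Prod.fst (h k (t - 1))
      simpa using this
    · have := congrArg Prod.snd (h k (t + 1))
      simpa using this
  pr_lX k t j m := by
    simp only [mkAct_apply, mkEnd_apply]
    refine Prod.ext ?_ ?_
    · simp only
      rw [← X.pr_lX]; congr 2; ring
    · simp only
      rw [← X.pr_lX]; congr 2; ring
  pr_rX k t j m := (thr_pr ρ X k t j m.1 m.2).symm
  pr_lC k t c m := Prod.ext (X.pr_lC _ _ _ _) (X.pr_lC _ _ _ _)
  D := mkEnd (fun m => (X.D m.1, X.D m.2)) (fun a b => Prod.ext (X.D_ma _ _) (X.D_ma _ _))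
  D_l f m := Prod.ext (X.D_l _ _) (X.D_l _ _)
  D_r f m := (thr_D ρ X f m.1 m.2).symm
  D_D m := Prod.ext (X.D_D _) (X.D_D _)
  D_pr k t m := Prod.ext (X.D_pr _ _ _) (X.D_pr _ _ _)

/-- `X ⊗ F_s` (`ε = true`, `F_s = (B_s → R(1))`) and `X ⊗ E_s` (`ε = false`,
`E_s = (R(-1) → B_s)`), with `B_s` in homological degree `0`. The element `(a, b, c)` is
`(a ⊗ 1 + b ⊗ α) + c`. The map `B_s → R(1)` is the multiplication `f ⊗ g ↦ f g`, the map
`R(-1) → B_s` is `1 ↦ (α ⊗ 1 + 1 ⊗ α)/2`. -/
noncomputable def Phi (ρ : Refl n) (ε : Bool) (X : CB n) : CB n where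
  M := X.M × X.M × X.M
  l := mkAct (fun f m => (X.l f m.1, X.l f m.2.1, X.l f m.2.2))
    (fun f a b => Prod.ext (X.l_ma _ _ _) (Prod.ext (X.l_ma _ _ _) (X.l_ma _ _ _)))
    (fun a => Prod.ext (X.l_one _) (Prod.ext (X.l_one _) (X.l_one _)))
    (fun f g a => Prod.ext (X.l_mul _ _ _) (Prod.ext (X.l_mul _ _ _) (X.l_mul _ _ _)))
    (fun f g a => Prod.ext (X.l_add _ _ _) (Prod.ext (X.l_add _ _ _) (X.l_add _ _ _)))
  r := mkAct (fun f m => ((thr ρ X f m.1 m.2.1).1, (thr ρ X f m.1 m.2.1).2, X.r f m.2.2))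
    (fun f a b => by
      have h := thr_add ρ X f a.1 a.2.1 b.1 b.2.1
      have h1 := congrArg Prod.fst h
      have h2 := congrArg Prod.snd h
      exact Prod.ext h1 (Prod.ext h2 (X.r_ma _ _ _)))
    (fun a => by
      have h := thr_one ρ X a.1 a.2.1
      have h1 := congrArg Prod.fst h
      have h2 := congrArg Prod.snd h
      exact Prod.ext h1 (Prod.ext h2 (X.r_one _)))
    (fun f g a => by
      have h := thr_mul ρ X f g a.1 a.2.1
      have h1 := congrArg Prod.fst h
      have h2 := congrArg Prod.snd h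
      exact Prod.ext h1 (Prod.ext h2 (X.r_mul _ _ _)))
    (fun f g a => by
      have h := thr_addl ρ X f g a.1 a.2.1
      have h1 := congrArg Prod.fst h
      have h2 := congrArg Prod.snd h
      exact Prod.ext h1 (Prod.ext h2 (X.r_add _ _ _)))
  lr f g m := by
    have h := (thr_l ρ X f g m.1 m.2.1).symm
    have h1 := congrArg Prod.fst h
    have h2 := congrArg Prod.snd h
    exact Prod.ext h1 (Prod.ext h2 (X.lr _ _ _))
  lrC c m := by
    simp only [mkAct_apply]
    rw [thr_C, X.lrC, X.lrC, X.lrC]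
  pr k t := mkEnd (fun m => (X.pr k (t + 1) m.1, X.pr k (t - 1) m.2.1,
      X.pr (k - sg ε) (t + sg ε) m.2.2))
    (fun a b => Prod.ext (X.pr_ma _ _ _ _) (Prod.ext (X.pr_ma _ _ _ _) (X.pr_ma _ _ _ _)))
  pr_pr k t k' t' m := by
    simp only [mkEnd_apply]
    rw [X.pr_pr, X.pr_pr, X.pr_pr]
    by_cases h : k = k' ∧ t = t'
    · simp [h]
    · simp [h]
  pr_fin m := by
    have h1 := (X.pr_fin m.1).image (fun p => ((p.1, p.2 - 1) : ℤ × ℤ))
    have h2 := (X.pr_fin m.2.1).image (fun p => ((p.1, p.2 + 1) : ℤ × ℤ))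
    have h3 := (X.pr_fin m.2.2).image (fun p => ((p.1 + sg ε, p.2 - sg ε) : ℤ × ℤ))
    refine Set.Finite.subset ((h1.union h2).union h3) ?_
    rintro ⟨k, t⟩ hp
    by_cases h : X.pr k (t + 1) m.1 = 0
    · by_cases h' : X.pr k (t - 1) m.2.1 = 0
      · right
        refine ⟨(k - sg ε, t + sg ε), ?_, by simp⟩
        intro h''
        exact hp (Prod.ext h (Prod.ext h' h''))
      · left; right
        exact ⟨(k, t - 1), h', by simp⟩
    · left; left
      exact ⟨(k, t + 1), h, by simp⟩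
  pr_ext m h := by
    refine Prod.ext (X.pr_ext _ fun k t => ?_) (Prod.ext (X.pr_ext _ fun k t => ?_)
      (X.pr_ext _ fun k t => ?_))
    · have := congrArg Prod.fst (h k (t - 1))
      simpa using this
    · have := congrArg (fun p => p.2.1) (h k (t + 1))
      simpa using this
    · have := congrArg (fun p => p.2.2) (h (k + sg ε) (t - sg ε))
      simpa using this
  pr_lX k t j m := by
    simp only [mkAct_apply, mkEnd_apply]
    refine Prod.ext ?_ (Prod.ext ?_ ?_)
    · simp only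
      rw [← X.pr_lX]; congr 2; ring
    · simp only
      rw [← X.pr_lX]; congr 2; ring
    · simp only
      rw [← X.pr_lX]; congr 2; ring
  pr_rX k t j m := by
    have h := (thr_pr ρ X k t j m.1 m.2.1).symm
    have h1 := congrArg Prod.fst h
    have h2 := congrArg Prod.snd h
    refine Prod.ext h1 (Prod.ext h2 ?_)
    simp only [mkAct_apply, mkEnd_apply]
    rw [← X.pr_rX]; congr 2; ring
  pr_lC k t c m := Prod.ext (X.pr_lC _ _ _ _) (Prod.ext (X.pr_lC _ _ _ _) (X.pr_lC _ _ _ _))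
  D := mkEnd (fun m => bif ε then (X.D m.1, X.D m.2.1, m.1 + X.r ρ.α m.2.1 - X.D m.2.2)
      else (X.D m.1 + X.r (C (1/2) * ρ.α) m.2.2, X.D m.2.1 + X.r (C (1/2)) m.2.2, -X.D m.2.2))
    (fun a b => by
      cases ε
      · refine Prod.ext ?_ (Prod.ext ?_ ?_)
        · simp only [cond_false, Prod.fst_add, Prod.snd_add, X.D_ma, X.r_ma]; abel
        · simp only [cond_false, Prod.fst_add, Prod.snd_add, X.D_ma, X.r_ma]; abel
        · simp only [cond_false, Prod.snd_add, X.D_ma]; abel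
      · refine Prod.ext ?_ (Prod.ext ?_ ?_)
        · simp only [cond_true, Prod.fst_add, X.D_ma]
        · simp only [cond_true, Prod.fst_add, Prod.snd_add, X.D_ma]
        · simp only [cond_true, Prod.fst_add, Prod.snd_add, X.D_ma, X.r_ma]; abel)
  D_l f m := by
    cases ε
    · refine Prod.ext ?_ (Prod.ext ?_ ?_)
      · simp only [cond_false, mkAct_apply, mkEnd_apply, X.D_l, X.l_ma, X.lr]
      · simp only [cond_false, mkAct_apply, mkEnd_apply, X.D_l, X.l_ma, X.lr]
      · simp only [cond_false, mkAct_apply, mkEnd_apply, X.D_l, X.l_mn]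
    · refine Prod.ext ?_ (Prod.ext ?_ ?_)
      · simp only [cond_true, mkAct_apply, mkEnd_apply, X.D_l]
      · simp only [cond_true, mkAct_apply, mkEnd_apply, X.D_l]
      · simp only [cond_true, mkAct_apply, mkEnd_apply, X.D_l, X.l_ma, X.l_ms, X.lr]
  D_r f m := by
    have h := thr_D ρ X f m.1 m.2.1
    cases ε
    · refine Prod.ext ?_ (Prod.ext ?_ ?_)
      · simp only [cond_false, mkAct_apply, mkEnd_apply]
        simp only [thr, X.D_ma, X.D_r, X.r_ma, ← X.r_mul]
        have e1 : C (1/2) * ρ.α * f =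
          ρ.pl f * (C (1/2) * ρ.α) + ρ.α * ρ.α * ρ.mi f * C (1/2) := by
          have := ρ.pl_add_mi f
          linear_combination (C (1/2) * ρ.α) * this
        rw [e1, X.r_add]
        abel
      · simp only [cond_false, mkAct_apply, mkEnd_apply]
        simp only [thr, X.D_ma, X.D_r, X.r_ma, ← X.r_mul]
        have e1 : C (1/2) * f = ρ.mi f * (C (1/2) * ρ.α) + ρ.pl f * C (1/2) := by
          have := ρ.pl_add_mi f
          linear_combination (C (1/2)) * this
        rw [e1, X.r_add]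
        abel
      · simp only [cond_false, mkAct_apply, mkEnd_apply, X.D_r, X.r_mn]
    · refine Prod.ext ?_ (Prod.ext ?_ ?_)
      · simp only [cond_true, mkAct_apply, mkEnd_apply]
        simp only [thr, X.D_ma, X.D_r]
      · simp only [cond_true, mkAct_apply, mkEnd_apply]
        simp only [thr, X.D_ma, X.D_r]
      · simp only [cond_true, mkAct_apply, mkEnd_apply]
        simp only [thr, X.D_r, X.r_ma, X.r_ms, ← X.r_mul]
        have e1 : X.r (f * ρ.α) m.2.1 = X.r (ρ.α * ρ.α * ρ.mi f) m.2.1 +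
            X.r (ρ.α * ρ.pl f) m.2.1 := by
          rw [← X.r_add]
          congr 2
          have := ρ.pl_add_mi f
          linear_combination ρ.α * this
        have e2 : X.r f m.1 = X.r (ρ.pl f) m.1 + X.r (ρ.α * ρ.mi f) m.1 := by
          rw [← X.r_add]
          congr 2
          have := ρ.pl_add_mi f
          linear_combination this
        rw [e1, e2]
        abel
  D_D m := by
    cases ε
    · refine Prod.ext ?_ (Prod.ext ?_ ?_)
      · simp only [cond_false, mkEnd_apply, X.D_ma, X.D_D, X.D_r, X.r_mn, zero_add]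
        exact add_neg_cancel _
      · simp only [cond_false, mkEnd_apply, X.D_ma, X.D_D, X.D_r, X.r_mn, zero_add]
        exact add_neg_cancel _
      · simp only [cond_false, mkEnd_apply, X.D_mn, X.D_D]
        simp
    · refine Prod.ext ?_ (Prod.ext ?_ ?_)
      · simp only [cond_true, mkEnd_apply, X.D_D]
        rfl
      · simp only [cond_true, mkEnd_apply, X.D_D]
        rfl
      · simp only [cond_true, mkEnd_apply, X.D_ms, X.D_ma, X.D_D, X.D_r]
        simp
  D_pr k t m := by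
    cases ε
    · refine Prod.ext ?_ (Prod.ext ?_ ?_)
      · simp only [cond_false, mkEnd_apply, X.pr_ma, X.D_pr, sg_false]
        have e : t + 1 = (t + -1) + 2 := by ring
        have e' : k + 1 = k - -1 := by ring
        have h : X.pr (k + 1) (t + 1) (X.r (C (1/2) * ρ.α) m.2.2) =
            X.r (C (1/2) * ρ.α) (X.pr (k - -1) (t + -1) m.2.2) := by
          rw [X.r_mul, X.pr_rC, e, X.pr_r_lin ρ.lin, X.r_mul, e']
        rw [h]
      · simp only [cond_false, mkEnd_apply, X.pr_ma, X.D_pr, sg_false]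
        have h : X.pr (k + 1) (t - 1) (X.r (C (1/2)) m.2.2) =
            X.r (C (1/2)) (X.pr (k - -1) (t + -1) m.2.2) := by
          rw [X.pr_rC]; congr 2 <;> ring
        rw [h]
      · simp only [cond_false, mkEnd_apply, X.pr_mn, sg_false]
        rw [← X.D_pr]
        congr 2 <;> ring
    · refine Prod.ext ?_ (Prod.ext ?_ ?_)
      · simp only [cond_true, mkEnd_apply, X.D_pr]
      · simp only [cond_true, mkEnd_apply, X.D_pr]
      · simp only [cond_true, mkEnd_apply, X.pr_ma, X.pr_ms, sg_true]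
        have e1 : k + 1 - 1 = k := by ring
        have e2 : t + 1 = t - 1 + 2 := by ring
        have e3 : k + 1 - 1 = k - 1 + 1 := by ring
        have h1 : X.pr (k + 1 - 1) (t + 1) (X.r ρ.α m.2.1) =
            X.r ρ.α (X.pr k (t - 1) m.2.1) := by
          rw [e1, e2, X.pr_r_lin ρ.lin]
        have h2 : X.pr (k + 1 - 1) (t + 1) (X.D m.2.2) = X.D (X.pr (k - 1) (t + 1) m.2.2) := by
          rw [e3, X.D_pr]
        have h3 : X.pr (k + 1 - 1) (t + 1) m.1 = X.pr k (t + 1) m.1 := by rw [e1]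
        rw [h1, h2, h3]

/-- the bimodule `R` in homological degree `0` -/
noncomputable def unit (n : ℕ) : CB n where
  M := P n
  l := mkAct (fun f m => f * m) (fun f a b => mul_add f a b) (fun a => one_mul a)
    (fun f g a => mul_assoc f g a) (fun f g a => add_mul f g a)
  r := mkAct (fun f m => f * m) (fun f a b => mul_add f a b) (fun a => one_mul a)
    (fun f g a => mul_assoc f g a) (fun f g a => add_mul f g a)
  lr f g m := by simp only [mkAct_apply]; ring
  lrC c m := rfl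
  pr k t := mkEnd (fun m => if k = 0 ∧ 0 ≤ t ∧ t % 2 = 0 then
      homogeneousComponent (t / 2).toNat m else 0) (fun a b => by
        split_ifs
        · rw [map_add]
        · rw [add_zero])
  pr_pr k t k' t' m := by
    simp only [mkEnd_apply]
    by_cases h : k = 0 ∧ 0 ≤ t ∧ t % 2 = 0
    · rw [if_pos h]
      by_cases h' : k' = 0 ∧ 0 ≤ t' ∧ t' % 2 = 0
      · rw [if_pos h', homogeneousComponent_of_mem (homogeneousComponent_isHomogeneous _ _)]
        by_cases ht : t = t'
        · subst ht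
          rw [if_pos rfl, if_pos ⟨h.1.trans h'.1.symm, rfl⟩, if_pos h]
        · rw [if_neg (by omega), if_neg (fun hc => ht hc.2)]
      · rw [if_neg h', map_zero]
        by_cases hc : k = k' ∧ t = t'
        · exact absurd ⟨hc.1 ▸ h.1, hc.2 ▸ h.2⟩ h'
        · rw [if_neg hc]
    · rw [if_neg h]
      split_ifs <;> rfl
  pr_fin m := by
    refine Set.Finite.subset (Set.Finite.image (fun i : ℕ => ((0, 2 * (i : ℤ)) : ℤ × ℤ))
      (Finset.range (m.totalDegree + 1)).finite_toSet) ?_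
    rintro ⟨k, t⟩ hp
    simp only [mkEnd_apply, Set.mem_ofPred_eq] at hp
    by_cases h : k = 0 ∧ 0 ≤ t ∧ t % 2 = 0
    · rw [if_pos h] at hp
      refine ⟨(t / 2).toNat, ?_, ?_⟩
      · by_contra hcon
        apply hp
        apply homogeneousComponent_eq_zero
        simpa using hcon
      · refine Prod.ext h.1.symm ?_
        simp only
        omega
    · rw [if_neg h] at hp
      exact absurd rfl hp
  pr_ext m h := by
    rw [← sum_homogeneousComponent m]
    apply Finset.sum_eq_zero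
    intro i _
    have := h 0 (2 * i)
    simp only [mkEnd_apply] at this
    rw [if_pos ⟨trivial, by omega, by omega⟩] at this
    have e : (2 * (i : ℤ) / 2).toNat = i := by omega
    rw [e] at this
    exact this
  pr_lX k t j m := by
    simp only [mkAct_apply, mkEnd_apply]
    by_cases h : k = 0 ∧ 0 ≤ t ∧ t % 2 = 0
    · rw [if_pos h, if_pos (by omega)]
      have e : ((t + 2) / 2).toNat = (t / 2).toNat + 1 := by omega
      rw [e, hcomp_mul_succ (isHomogeneous_X ℝ j)]
    · rw [if_neg h, mul_zero]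
      split_ifs with h'
      · have e : ((t + 2) / 2).toNat = 0 := by omega
        rw [e, hcomp_mul_lt (isHomogeneous_X ℝ j) _ _ (by norm_num)]
      · rfl
  pr_rX k t j m := by
    simp only [mkAct_apply, mkEnd_apply]
    by_cases h : k = 0 ∧ 0 ≤ t ∧ t % 2 = 0
    · rw [if_pos h, if_pos (by omega)]
      have e : ((t + 2) / 2).toNat = (t / 2).toNat + 1 := by omega
      rw [e, hcomp_mul_succ (isHomogeneous_X ℝ j)]
    · rw [if_neg h, mul_zero]
      split_ifs with h'
      · have e : ((t + 2) / 2).toNat = 0 := by omega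
        rw [e, hcomp_mul_lt (isHomogeneous_X ℝ j) _ _ (by norm_num)]
      · rfl
  pr_lC k t c m := by
    simp only [mkAct_apply, mkEnd_apply]
    split_ifs
    · rw [homogeneousComponent_C_mul]
    · rw [mul_zero]
  D := 0
  D_l f m := by simp
  D_r f m := by simp
  D_D m := rfl
  D_pr k t m := by simp

/-- `X ⊗ F_w` for a word `w = s_1^{ε_1} ⋯ s_k^{ε_k}`: the letters are applied from left to
right -/
noncomputable def Fon (X : CB n) (w : List (Refl n × Bool)) : CB n :=
  w.foldl (fun Y a => Phi a.1 a.2 Y) X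

/-- the Rouquier complex `F_w` of a word `w = s_1^{ε_1} ⋯ s_k^{ε_k}` -/
noncomputable def F (w : List (Refl n × Bool)) : CB n := Fon (unit n) w

/-- the functor `F_s ⊗ X` or `E_s ⊗ X` (mirror image of `Phi`) -/
noncomputable def La (ρ : Refl n) (ε : Bool) (X : CB n) : CB n := op (Phi ρ ε (op X))

/-- the Bott-Samelson bimodule `B_{s_1} ⊗ ⋯ ⊗ B_{s_k}` -/
noncomputable def BSc (w : List (Refl n)) : CB n := w.foldl (fun Y a => Th a Y) (unit n)

/-- the functor `Phi` on maps -/
def phiMap {X Y : CB n} (φ : X.M →+ Y.M) : X.M × X.M × X.M →+ Y.M × Y.M × Y.M :=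
  AddMonoidHom.mk' (fun m => (φ m.1, φ m.2.1, φ m.2.2)) (by
    intro a b; ext <;> simp)

@[simp] theorem phiMap_apply {X Y : CB n} (φ : X.M →+ Y.M) (m : X.M × X.M × X.M) :
    phiMap φ m = (φ m.1, φ m.2.1, φ m.2.2) := rfl

end RC
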