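import Mathlib
import Pool.Agent.EW.RC.Defs3

/-!
# Block H00: components (MP_d13a5e_al)
-/

open MvPolynomial

namespace RC

variable {n : ℕ} {X Y Z : CB n}

theorem isBi_of_gen {φ : X.M →+ Y.M}
    (hl : ∀ (j : Fin n) m, φ (X.l (MvPolynomial.X j) m) = Y.l (MvPolynomial.X j) (φ m))
    (hc : ∀ (c : ℝ) m, φ (X.l (C c) m) = Y.l (C c) (φ m))
    (hr : ∀ (j : Fin n) m, φ (X.r (MvPolynomial.X j) m) = Y.r (MvPolynomial.X j) (φ m)) :
    IsBi X Y φ := by
  constructor
  · intro f
    induction f using MvPolynomial.induction_on with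
    | C a => exact hc a
    | add p q hp hq =>
      intro m
      rw [X.l_add, map_add, hp, hq, Y.l_add]
    | mul_X p i hp =>
      intro m
      rw [X.l_mul, hp, hl, Y.l_mul]
  · intro f
    induction f using MvPolynomial.induction_on with
    | C a =>
      intro m
      rw [← X.lrC, hc, Y.lrC]
    | add p q hp hq =>
      intro m
      rw [X.r_add, map_add, hp, hq, Y.r_add]
    | mul_X p i hp =>
      intro m
      rw [X.r_mul, hp, hr, Y.r_mul]

/-- every element is the sum of its homogeneous components -/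
theorem CB.exists_sum (X : CB n) (m : X.M) :
    ∃ s : Finset (ℤ × ℤ), ∑ p ∈ s, X.pr p.1 p.2 m = m ∧ ∀ p ∉ s, X.pr p.1 p.2 m = 0 := by
  classical
  refine ⟨(X.pr_fin m).toFinset, ?_, ?_⟩
  · rw [← sub_eq_zero]
    apply X.pr_ext
    intro k t
    rw [X.pr_ms, map_sum]
    have h1 : ∀ p ∈ (X.pr_fin m).toFinset, X.pr k t (X.pr p.1 p.2 m) =
        if (k, t) = p then X.pr k t m else 0 := by
      intro p _
      rw [X.pr_pr]
      by_cases h : k = p.1 ∧ t = p.2
      · rw [if_pos h, if_pos (Prod.ext h.1 h.2)]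
      · rw [if_neg h, if_neg]
        intro h'
        exact h ⟨congrArg Prod.fst h', congrArg Prod.snd h'⟩
    rw [Finset.sum_congr rfl h1, Finset.sum_ite_eq]
    split_ifs with h
    · exact sub_self _
    · rw [Set.Finite.mem_toFinset] at h
      have h2 : X.pr k t m = 0 := by
        by_contra hne
        exact h hne
      rw [h2, sub_zero]
  · intro p hp
    rw [Set.Finite.mem_toFinset] at hp
    by_contra hne
    exact hp hne

/-- additive maps which agree on homogeneous elements are equal -/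
theorem CB.hom_ext (X : CB n) {N : Type} [AddCommGroup N] {f g : X.M →+ N}
    (h : ∀ k t m, f (X.pr k t m) = g (X.pr k t m)) : f = g := by
  apply AddMonoidHom.ext
  intro m
  obtain ⟨s, hs, _⟩ := X.exists_sum m
  rw [← hs, map_sum, map_sum]
  exact Finset.sum_congr rfl fun p _ => h p.1 p.2 m

/-- the component of bidegree `(p,e)` of a bimodule homomorphism -/
theorem exists_hcomp {φ : X.M →+ Y.M} (hφ : IsBi X Y φ) (p e : ℤ) :
    ∃ ψ : X.M →+ Y.M, Hm X Y p e ψ ∧
      ∀ k t m, ψ (X.pr k t m) = Y.pr (k + p) (t + e) (φ (X.pr k t m)) := by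
  classical
  have hfin : ∀ m : X.M, (Function.support fun q : ℤ × ℤ =>
      Y.pr (q.1 + p) (q.2 + e) (φ (X.pr q.1 q.2 m))).Finite := by
    intro m
    refine (X.pr_fin m).subset ?_
    intro q hq h0
    apply hq
    change Y.pr (q.1 + p) (q.2 + e) (φ (X.pr q.1 q.2 m)) = 0
    rw [h0, map_zero, map_zero]
  let ψ : X.M →+ Y.M := AddMonoidHom.mk'
    (fun m => ∑ᶠ q : ℤ × ℤ, Y.pr (q.1 + p) (q.2 + e) (φ (X.pr q.1 q.2 m)))
    (fun a b => by
      rw [← finsum_add_distrib (hfin a) (hfin b)]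
      apply finsum_congr
      intro q
      rw [map_add, map_add, map_add])
  have hψ : ∀ m, ψ m = ∑ᶠ q : ℤ × ℤ, Y.pr (q.1 + p) (q.2 + e) (φ (X.pr q.1 q.2 m)) :=
    fun _ => rfl
  have hψpr : ∀ k t m, ψ (X.pr k t m) = Y.pr (k + p) (t + e) (φ (X.pr k t m)) := by
    intro k t m
    rw [hψ, finsum_eq_single _ ((k, t) : ℤ × ℤ)]
    · rw [X.pr_pr, if_pos ⟨rfl, rfl⟩]
    · intro q hq
      rw [X.pr_pr, if_neg, map_zero, map_zero]
      intro h
      exact hq (Prod.ext h.1 h.2)
  refine ⟨ψ, ⟨isBi_of_gen ?_ ?_ ?_, ?_⟩, hψpr⟩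
  · intro j
    have h : ψ.comp (X.l (MvPolynomial.X j)) =
        (AddMonoidHom.comp (Y.l (MvPolynomial.X j)) ψ : X.M →+ Y.M) := by
      apply X.hom_ext
      intro k t m
      change ψ (X.l (MvPolynomial.X j) (X.pr k t m)) = Y.l (MvPolynomial.X j) (ψ (X.pr k t m))
      rw [← X.pr_lX, hψpr, hψpr, X.pr_lX, hφ.1, ← Y.pr_lX]
      congr 2
      ring
    intro m
    exact DFunLike.congr_fun h m
  · intro c
    have h : ψ.comp (X.l (C c)) =
        (AddMonoidHom.comp (Y.l (C c)) ψ : X.M →+ Y.M) := by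
      apply X.hom_ext
      intro k t m
      change ψ (X.l (C c) (X.pr k t m)) = Y.l (C c) (ψ (X.pr k t m))
      rw [← X.pr_lC, hψpr, hψpr, X.pr_lC, hφ.1, ← Y.pr_lC]
    intro m
    exact DFunLike.congr_fun h m
  · intro j
    have h : ψ.comp (X.r (MvPolynomial.X j)) =
        (AddMonoidHom.comp (Y.r (MvPolynomial.X j)) ψ : X.M →+ Y.M) := by
      apply X.hom_ext
      intro k t m
      change ψ (X.r (MvPolynomial.X j) (X.pr k t m)) = Y.r (MvPolynomial.X j) (ψ (X.pr k t m))
      rw [← X.pr_rX, hψpr, hψpr, X.pr_rX, hφ.2, ← Y.pr_rX]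
      congr 2
      ring
    intro m
    exact DFunLike.congr_fun h m
  · intro k t
    have h : AddMonoidHom.comp (Y.pr (k + p) (t + e)) ψ = ψ.comp (X.pr k t) := by
      apply X.hom_ext
      intro k' t' m
      change Y.pr (k + p) (t + e) (ψ (X.pr k' t' m)) = ψ (X.pr k t (X.pr k' t' m))
      rw [hψpr, Y.pr_pr, X.pr_pr]
      by_cases hk : k = k' ∧ t = t'
      · obtain ⟨rfl, rfl⟩ := hk
        rw [if_pos ⟨rfl, rfl⟩, if_pos ⟨rfl, rfl⟩, hψpr]
      · rw [if_neg hk, map_zero, if_neg]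
        rintro ⟨h1, h2⟩
        exact hk ⟨by omega, by omega⟩
    intro m
    exact DFunLike.congr_fun h m

end RC
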