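import Mathlib
import Pool.Agent.EW.RC.H00

/-!
# Block H0: morphisms, null-homotopic morphisms, homotopy equivalences (MP_d13a5e_al)
-/

open MvPolynomial

namespace RC

variable {n : ℕ} {X Y Z : CB n}

theorem IsBi.id (X : CB n) : IsBi X X (AddMonoidHom.id _) :=
  ⟨fun _ _ => rfl, fun _ _ => rfl⟩

theorem IsBi.zero (X Y : CB n) : IsBi X Y 0 := by
  refine ⟨fun f m => ?_, fun f m => ?_⟩
  · simp only [AddMonoidHom.zero_apply, Y.l_mz]
  · simp only [AddMonoidHom.zero_apply, Y.r_mz]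

theorem IsBi.comp {φ : X.M →+ Y.M} {ψ : Y.M →+ Z.M} (hφ : IsBi X Y φ) (hψ : IsBi Y Z ψ) :
    IsBi X Z (ψ.comp φ) := by
  refine ⟨fun f m => ?_, fun f m => ?_⟩
  · simp only [AddMonoidHom.comp_apply, hφ.1, hψ.1]
  · simp only [AddMonoidHom.comp_apply, hφ.2, hψ.2]

theorem IsBi.add {φ ψ : X.M →+ Y.M} (hφ : IsBi X Y φ) (hψ : IsBi X Y ψ) : IsBi X Y (φ + ψ) := by
  refine ⟨fun f m => ?_, fun f m => ?_⟩
  · simp only [AddMonoidHom.add_apply, hφ.1, hψ.1, Y.l_ma]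
  · simp only [AddMonoidHom.add_apply, hφ.2, hψ.2, Y.r_ma]

theorem IsBi.neg {φ : X.M →+ Y.M} (hφ : IsBi X Y φ) : IsBi X Y (-φ) := by
  refine ⟨fun f m => ?_, fun f m => ?_⟩
  · simp only [AddMonoidHom.neg_apply, hφ.1, Y.l_mn]
  · simp only [AddMonoidHom.neg_apply, hφ.2, Y.r_mn]

theorem IsBi.sub {φ ψ : X.M →+ Y.M} (hφ : IsBi X Y φ) (hψ : IsBi X Y ψ) : IsBi X Y (φ - ψ) := by
  rw [sub_eq_add_neg]
  exact hφ.add hψ.neg

theorem IsBi.sum {ι : Type*} (s : Finset ι) {φ : ι → (X.M →+ Y.M)}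
    (h : ∀ i ∈ s, IsBi X Y (φ i)) : IsBi X Y (∑ i ∈ s, φ i) := by
  classical
  induction s using Finset.induction_on with
  | empty => rw [Finset.sum_empty]; exact IsBi.zero X Y
  | insert a s ha ih =>
    rw [Finset.sum_insert ha]
    exact (h a (Finset.mem_insert_self a s)).add
      (ih fun i hi => h i (Finset.mem_insert_of_mem hi))

theorem Hm.id (X : CB n) : Hm X X 0 0 (AddMonoidHom.id _) := by
  refine ⟨IsBi.id X, fun k t m => ?_⟩
  rw [add_zero, add_zero]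
  rfl

theorem Hm.zero (X Y : CB n) (p e : ℤ) : Hm X Y p e 0 := by
  refine ⟨IsBi.zero X Y, fun k t m => ?_⟩
  simp only [AddMonoidHom.zero_apply, Y.pr_mz]

theorem Hm.D (X : CB n) : Hm X X 1 0 X.D := by
  refine ⟨⟨X.D_l, X.D_r⟩, fun k t m => ?_⟩
  rw [add_zero]
  exact X.D_pr k t m

theorem Hm.comp {p e q f : ℤ} {φ : X.M →+ Y.M} {ψ : Y.M →+ Z.M} (hφ : Hm X Y p e φ)
    (hψ : Hm Y Z q f ψ) : Hm X Z (p + q) (e + f) (ψ.comp φ) := by
  refine ⟨hφ.1.comp hψ.1, fun k t m => ?_⟩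
  rw [← add_assoc, ← add_assoc]
  simp only [AddMonoidHom.comp_apply]
  rw [hψ.2, hφ.2]

theorem Hm.comp' {p e q f p' e' : ℤ} {φ : X.M →+ Y.M} {ψ : Y.M →+ Z.M} (hφ : Hm X Y p e φ)
    (hψ : Hm Y Z q f ψ) (hp : p + q = p') (he : e + f = e') : Hm X Z p' e' (ψ.comp φ) := by
  subst hp
  subst he
  exact hφ.comp hψ

theorem Hm.add {p e : ℤ} {φ ψ : X.M →+ Y.M} (hφ : Hm X Y p e φ) (hψ : Hm X Y p e ψ) :
    Hm X Y p e (φ + ψ) := by
  refine ⟨hφ.1.add hψ.1, fun k t m => ?_⟩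
  simp only [AddMonoidHom.add_apply, Y.pr_ma, hφ.2, hψ.2]

theorem Hm.neg {p e : ℤ} {φ : X.M →+ Y.M} (hφ : Hm X Y p e φ) : Hm X Y p e (-φ) := by
  refine ⟨hφ.1.neg, fun k t m => ?_⟩
  simp only [AddMonoidHom.neg_apply, Y.pr_mn, hφ.2]

theorem Hm.sub {p e : ℤ} {φ ψ : X.M →+ Y.M} (hφ : Hm X Y p e φ) (hψ : Hm X Y p e ψ) :
    Hm X Y p e (φ - ψ) := by
  rw [sub_eq_add_neg]
  exact hφ.add hψ.neg

theorem Hm.sum {p e : ℤ} {ι : Type*} (s : Finset ι) {φ : ι → (X.M →+ Y.M)}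
    (h : ∀ i ∈ s, Hm X Y p e (φ i)) : Hm X Y p e (∑ i ∈ s, φ i) := by
  classical
  induction s using Finset.induction_on with
  | empty => rw [Finset.sum_empty]; exact Hm.zero X Y p e
  | insert a s ha ih =>
    rw [Finset.sum_insert ha]
    exact (h a (Finset.mem_insert_self a s)).add
      (ih fun i hi => h i (Finset.mem_insert_of_mem hi))

theorem Ch.id (X : CB n) : Ch X X (AddMonoidHom.id _) :=
  ⟨Hm.id X, fun _ => rfl⟩

theorem Ch.comp {φ : X.M →+ Y.M} {ψ : Y.M →+ Z.M} (hφ : Ch X Y φ) (hψ : Ch Y Z ψ) :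
    Ch X Z (ψ.comp φ) := by
  refine ⟨hφ.1.comp' hψ.1 (add_zero 0) (add_zero 0), fun m => ?_⟩
  simp only [AddMonoidHom.comp_apply]
  rw [hψ.2, hφ.2]

theorem Ch.sub {φ ψ : X.M →+ Y.M} (hφ : Ch X Y φ) (hψ : Ch X Y ψ) : Ch X Y (φ - ψ) := by
  refine ⟨hφ.1.sub hψ.1, fun m => ?_⟩
  simp only [AddMonoidHom.sub_apply, Y.D_ms, hφ.2, hψ.2]

theorem Nul.zero (X Y : CB n) : Nul X Y 0 := by
  refine ⟨0, Hm.zero X Y _ _, fun m => ?_⟩
  simp only [AddMonoidHom.zero_apply, Y.D_mz, add_zero]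

theorem Nul.add {φ ψ : X.M →+ Y.M} (hφ : Nul X Y φ) (hψ : Nul X Y ψ) : Nul X Y (φ + ψ) := by
  obtain ⟨h, hh, h1⟩ := hφ
  obtain ⟨h', hh', h2⟩ := hψ
  refine ⟨h + h', hh.add hh', fun m => ?_⟩
  simp only [AddMonoidHom.add_apply, Y.D_ma, h1, h2]
  abel

theorem Nul.neg {φ : X.M →+ Y.M} (hφ : Nul X Y φ) : Nul X Y (-φ) := by
  obtain ⟨h, hh, h1⟩ := hφ
  refine ⟨-h, hh.neg, fun m => ?_⟩
  simp only [AddMonoidHom.neg_apply, Y.D_mn, h1]
  abel

theorem Nul.sub {φ ψ : X.M →+ Y.M} (hφ : Nul X Y φ) (hψ : Nul X Y ψ) : Nul X Y (φ - ψ) := by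
  rw [sub_eq_add_neg]
  exact hφ.add hψ.neg

theorem Nul.comp_right {φ : X.M →+ Y.M} {ψ : Y.M →+ Z.M} (hφ : Nul X Y φ) (hψ : Ch Y Z ψ) :
    Nul X Z (ψ.comp φ) := by
  obtain ⟨h, hh, h1⟩ := hφ
  refine ⟨ψ.comp h, hh.comp' hψ.1 (add_zero _) (add_zero _), fun m => ?_⟩
  simp only [AddMonoidHom.comp_apply, h1, map_add, hψ.2]

theorem Nul.comp_left {φ : X.M →+ Y.M} {ψ : Y.M →+ Z.M} (hφ : Ch X Y φ) (hψ : Nul Y Z ψ) :
    Nul X Z (ψ.comp φ) := by
  obtain ⟨h, hh, h1⟩ := hψ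
  refine ⟨h.comp φ, hφ.1.comp' hh (zero_add _) (zero_add _), fun m => ?_⟩
  simp only [AddMonoidHom.comp_apply, h1, hφ.2]

theorem HE.refl (X : CB n) : HE X X := by
  refine ⟨AddMonoidHom.id _, AddMonoidHom.id _, Ch.id X, Ch.id X, ?_, ?_⟩
  · rw [AddMonoidHom.comp_id, sub_self]
    exact Nul.zero X X
  · rw [AddMonoidHom.comp_id, sub_self]
    exact Nul.zero X X

theorem HE.symm (h : HE X Y) : HE Y X := by
  obtain ⟨f, g, hf, hg, h1, h2⟩ := h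
  exact ⟨g, f, hg, hf, h2, h1⟩

theorem HE.trans (h : HE X Y) (h' : HE Y Z) : HE X Z := by
  obtain ⟨f, g, hf, hg, h1, h2⟩ := h
  obtain ⟨f', g', hf', hg', h3, h4⟩ := h'
  refine ⟨f'.comp f, g.comp g', hf.comp hf', hg'.comp hg, ?_, ?_⟩
  · have e : (g.comp g').comp (f'.comp f) - AddMonoidHom.id _ =
        g.comp ((g'.comp f' - AddMonoidHom.id _).comp f) +
          (g.comp f - AddMonoidHom.id _) := by
      ext x
      simp only [AddMonoidHom.sub_apply, AddMonoidHom.add_apply, AddMonoidHom.comp_apply,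
        AddMonoidHom.id_apply, map_sub]
      abel
    rw [e]
    exact (Nul.comp_right (Nul.comp_left hf h3) hg).add h1
  · have e : (f'.comp f).comp (g.comp g') - AddMonoidHom.id _ =
        f'.comp ((f.comp g - AddMonoidHom.id _).comp g') +
          (f'.comp g' - AddMonoidHom.id _) := by
      ext x
      simp only [AddMonoidHom.sub_apply, AddMonoidHom.add_apply, AddMonoidHom.comp_apply,
        AddMonoidHom.id_apply, map_sub]
      abel
    rw [e]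
    exact (Nul.comp_right (Nul.comp_left hg' h2) hf').add h4

theorem HE.of_iso (f : X.M →+ Y.M) (g : Y.M →+ X.M) (hf : Ch X Y f)
    (h1 : ∀ x, g (f x) = x) (h2 : ∀ y, f (g y) = y) : HE X Y := by
  have hinj : ∀ a b : X.M, f a = f b → a = b := by
    intro a b hab
    rw [← h1 a, ← h1 b, hab]
  have hg : Ch Y X g := by
    refine ⟨⟨⟨fun p m => ?_, fun p m => ?_⟩, fun k t m => ?_⟩, fun m => ?_⟩
    · apply hinj
      rw [h2, hf.1.1.1, h2]
    · apply hinj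
      rw [h2, hf.1.1.2, h2]
    · apply hinj
      have h3 := hf.1.2 (k + 0) (t + 0) (g m)
      rw [h2, ← h3, h2]
      simp only [add_zero]
    · apply hinj
      rw [h2, ← hf.2, h2]
  refine ⟨f, g, hf, hg, ?_, ?_⟩
  · have e : g.comp f - AddMonoidHom.id _ = 0 := by
      ext x
      simp only [AddMonoidHom.sub_apply, AddMonoidHom.comp_apply, AddMonoidHom.id_apply, h1,
        sub_self, AddMonoidHom.zero_apply]
    rw [e]
    exact Nul.zero X X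
  · have e : f.comp g - AddMonoidHom.id _ = 0 := by
      ext x
      simp only [AddMonoidHom.sub_apply, AddMonoidHom.comp_apply, AddMonoidHom.id_apply, h2,
        sub_self, AddMonoidHom.zero_apply]
    rw [e]
    exact Nul.zero Y Y

end RC
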