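import Mathlib
import Pool.Agent.EW.RC.H0

/-!
# Block H1: the functors `Phi`, `La`, `Fon`, `shD` on morphisms (MP_d13a5e_al)
-/

open MvPolynomial

namespace RC

variable {n : ℕ} {X Y : CB n} (ρ : Refl n) (ε : Bool)

/-- the functor on homotopies -/
private def hoMap50 {X Y : CB n} (φ : X.M →+ Y.M) : X.M × X.M × X.M →+ Y.M × Y.M × Y.M :=
  AddMonoidHom.mk' (fun m => (φ m.1, φ m.2.1, -φ m.2.2)) (by
    intro a b
    refine Prod.ext ?_ (Prod.ext ?_ ?_)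
    · simp
    · simp
    · simp only [Prod.snd_add, map_add, neg_add])

theorem phiMap_Hm {φ : X.M →+ Y.M} (h : Hm X Y 0 0 φ) :
    Hm (Phi ρ ε X) (Phi ρ ε Y) 0 0 (phiMap φ) := by
  have h2 : ∀ k t m, Y.pr k t (φ m) = φ (X.pr k t m) := fun k t m => by
    have := h.2 k t m
    rwa [add_zero, add_zero] at this
  refine ⟨⟨fun f m => ?_, fun f m => ?_⟩, fun k t m => ?_⟩
  · exact Prod.ext (h.1.1 f m.1) (Prod.ext (h.1.1 f m.2.1) (h.1.1 f m.2.2))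
  · refine Prod.ext ?_ (Prod.ext ?_ ?_)
    · change φ (X.r (ρ.pl f) m.1 + X.r (ρ.α * ρ.α * ρ.mi f) m.2.1) =
        Y.r (ρ.pl f) (φ m.1) + Y.r (ρ.α * ρ.α * ρ.mi f) (φ m.2.1)
      rw [map_add, h.1.2, h.1.2]
    · change φ (X.r (ρ.mi f) m.1 + X.r (ρ.pl f) m.2.1) =
        Y.r (ρ.mi f) (φ m.1) + Y.r (ρ.pl f) (φ m.2.1)
      rw [map_add, h.1.2, h.1.2]
    · exact h.1.2 f m.2.2
  · rw [add_zero, add_zero]
    exact Prod.ext (h2 k (t + 1) m.1) (Prod.ext (h2 k (t - 1) m.2.1)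
      (h2 (k - sg ε) (t + sg ε) m.2.2))

theorem phiMap_Ch {φ : X.M →+ Y.M} (h : Ch X Y φ) :
    Ch (Phi ρ ε X) (Phi ρ ε Y) (phiMap φ) := by
  refine ⟨phiMap_Hm ρ ε h.1, fun m => ?_⟩
  cases ε
  · refine Prod.ext ?_ (Prod.ext ?_ ?_)
    · change Y.D (φ m.1) + Y.r (C (1/2) * ρ.α) (φ m.2.2) = φ (X.D m.1 + X.r (C (1/2) * ρ.α) m.2.2)
      rw [map_add, h.2, h.1.1.2]
    · change Y.D (φ m.2.1) + Y.r (C (1/2)) (φ m.2.2) = φ (X.D m.2.1 + X.r (C (1/2)) m.2.2)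
      rw [map_add, h.2, h.1.1.2]
    · change -Y.D (φ m.2.2) = φ (-X.D m.2.2)
      rw [map_neg, h.2]
  · refine Prod.ext ?_ (Prod.ext ?_ ?_)
    · exact h.2 m.1
    · exact h.2 m.2.1
    · change φ m.1 + Y.r ρ.α (φ m.2.1) - Y.D (φ m.2.2) = φ (m.1 + X.r ρ.α m.2.1 - X.D m.2.2)
      rw [map_sub, map_add, h.2, h.1.1.2]

theorem phiMap_Nul {φ : X.M →+ Y.M} (h : Nul X Y φ) :
    Nul (Phi ρ ε X) (Phi ρ ε Y) (phiMap φ) := by
  obtain ⟨k, hk, h1⟩ := h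
  refine ⟨hoMap50 k, ⟨⟨fun f m => ?_, fun f m => ?_⟩, fun a t m => ?_⟩, fun m => ?_⟩
  · refine Prod.ext (hk.1.1 f m.1) (Prod.ext (hk.1.1 f m.2.1) ?_)
    change -k (X.l f m.2.2) = Y.l f (-k m.2.2)
    rw [hk.1.1, Y.l_mn]
  · refine Prod.ext ?_ (Prod.ext ?_ ?_)
    · change k (X.r (ρ.pl f) m.1 + X.r (ρ.α * ρ.α * ρ.mi f) m.2.1) =
        Y.r (ρ.pl f) (k m.1) + Y.r (ρ.α * ρ.α * ρ.mi f) (k m.2.1)
      rw [map_add, hk.1.2, hk.1.2]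
    · change k (X.r (ρ.mi f) m.1 + X.r (ρ.pl f) m.2.1) =
        Y.r (ρ.mi f) (k m.1) + Y.r (ρ.pl f) (k m.2.1)
      rw [map_add, hk.1.2, hk.1.2]
    · change -k (X.r f m.2.2) = Y.r f (-k m.2.2)
      rw [hk.1.2, Y.r_mn]
  · have h3 : ∀ (a a' t t' : ℤ) (m : X.M), a' = a + -1 → t' = t →
        Y.pr a' t' (k m) = k (X.pr a t m) := by
      intro a a' t t' m ha ht
      have := hk.2 a t m
      rw [add_zero] at this
      rw [ha, ht]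
      exact this
    refine Prod.ext ?_ (Prod.ext ?_ ?_)
    · exact h3 a (a + -1) (t + 1) (t + 0 + 1) m.1 rfl (by ring)
    · exact h3 a (a + -1) (t - 1) (t + 0 - 1) m.2.1 rfl (by ring)
    · change Y.pr (a + -1 - sg ε) (t + 0 + sg ε) (-k m.2.2) = -k (X.pr (a - sg ε) (t + sg ε) m.2.2)
      rw [Y.pr_mn, h3 (a - sg ε) (a + -1 - sg ε) (t + sg ε) (t + 0 + sg ε) m.2.2 (by ring) (by ring)]
  · cases ε
    · refine Prod.ext ?_ (Prod.ext ?_ ?_)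
      · change φ m.1 = (Y.D (k m.1) + Y.r (C (1/2) * ρ.α) (-k m.2.2)) +
          k (X.D m.1 + X.r (C (1/2) * ρ.α) m.2.2)
        rw [map_add, hk.1.2, h1, Y.r_mn]
        abel
      · change φ m.2.1 = (Y.D (k m.2.1) + Y.r (C (1/2)) (-k m.2.2)) +
          k (X.D m.2.1 + X.r (C (1/2)) m.2.2)
        rw [map_add, hk.1.2, h1, Y.r_mn]
        abel
      · change φ m.2.2 = -Y.D (-k m.2.2) + -k (-X.D m.2.2)
        rw [map_neg k, h1, Y.D_mn, neg_neg, neg_neg]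
    · refine Prod.ext ?_ (Prod.ext ?_ ?_)
      · exact h1 m.1
      · exact h1 m.2.1
      · change φ m.2.2 = (k m.1 + Y.r ρ.α (k m.2.1) - Y.D (-k m.2.2)) +
          -k (m.1 + X.r ρ.α m.2.1 - X.D m.2.2)
        rw [map_sub, map_add, hk.1.2, h1, Y.D_mn]
        abel

theorem HE.phi (h : HE X Y) : HE (Phi ρ ε X) (Phi ρ ε Y) := by
  obtain ⟨f, g, hf, hg, h1, h2⟩ := h
  refine ⟨phiMap f, phiMap g, phiMap_Ch ρ ε hf, phiMap_Ch ρ ε hg, ?_, ?_⟩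
  · obtain ⟨k, hk, h3⟩ := phiMap_Nul ρ ε h1
    exact ⟨k, hk, fun m => h3 m⟩
  · obtain ⟨k, hk, h3⟩ := phiMap_Nul ρ ε h2
    exact ⟨k, hk, fun m => h3 m⟩

theorem HE.op (h : HE X Y) : HE (op X) (op Y) := by
  obtain ⟨f, g, hf, hg, ⟨k1, a1, b1⟩, ⟨k2, a2, b2⟩⟩ := h
  exact ⟨f, g, ⟨⟨⟨hf.1.1.2, hf.1.1.1⟩, hf.1.2⟩, hf.2⟩, ⟨⟨⟨hg.1.1.2, hg.1.1.1⟩, hg.1.2⟩, hg.2⟩,
    ⟨k1, ⟨⟨a1.1.2, a1.1.1⟩, a1.2⟩, b1⟩, ⟨k2, ⟨⟨a2.1.2, a2.1.1⟩, a2.2⟩, b2⟩⟩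

theorem HE.of_op (h : HE (RC.op X) (RC.op Y)) : HE X Y := by
  obtain ⟨f, g, hf, hg, ⟨k1, a1, b1⟩, ⟨k2, a2, b2⟩⟩ := h
  exact ⟨f, g, ⟨⟨⟨hf.1.1.2, hf.1.1.1⟩, hf.1.2⟩, hf.2⟩, ⟨⟨⟨hg.1.1.2, hg.1.1.1⟩, hg.1.2⟩, hg.2⟩,
    ⟨k1, ⟨⟨a1.1.2, a1.1.1⟩, a1.2⟩, b1⟩, ⟨k2, ⟨⟨a2.1.2, a2.1.1⟩, a2.2⟩, b2⟩⟩

theorem HE.la (h : HE X Y) : HE (La ρ ε X) (La ρ ε Y) := by
  exact (h.op.phi ρ ε).op

theorem HE.fon (h : HE X Y) (w : List (Refl n × Bool)) : HE (Fon X w) (Fon Y w) := by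
  induction w generalizing X Y with
  | nil => exact h
  | cons a w ih => exact ih (h.phi a.1 a.2)

theorem Fon_append (X : CB n) (u v : List (Refl n × Bool)) :
    Fon X (u ++ v) = Fon (Fon X u) v := by
  unfold Fon
  rw [List.foldl_append]

private theorem shD_Ch50 (a b : ℤ) {f : X.M →+ Y.M} (hf : Ch X Y f) :
    Ch (shD a b X) (shD a b Y) f := by
  refine ⟨⟨hf.1.1, fun k t m => ?_⟩, fun m => ?_⟩
  · rw [add_zero, add_zero]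
    have := hf.1.2 (k + b) (t + a) m
    rw [add_zero, add_zero] at this
    exact this
  · change -Y.D (f m) = f (-X.D m)
    rw [map_neg, hf.2]

private theorem shD_Nul50 (a b : ℤ) {f : X.M →+ Y.M} (hf : Nul X Y f) :
    Nul (shD a b X) (shD a b Y) f := by
  obtain ⟨h, hh, h1⟩ := hf
  refine ⟨-h, ⟨hh.neg.1, fun k t m => ?_⟩, fun m => ?_⟩
  · change Y.pr (k + -1 + b) (t + 0 + a) _ = (-h) (X.pr (k + b) (t + a) m)
    have h2 := hh.neg.2 (k + b) (t + a) m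
    have e1 : k + -1 + b = k + b + -1 := by ring
    have e2 : t + 0 + a = t + a + 0 := by ring
    rw [e1, e2]
    exact h2
  · change f m = -Y.D (-(h m)) + -(h (-X.D m))
    rw [h1, map_neg h, Y.D_mn, neg_neg, neg_neg]

theorem HE.shD (a b : ℤ) (h : HE X Y) : HE (shD a b X) (RC.shD a b Y) := by
  obtain ⟨f, g, hf, hg, h1, h2⟩ := h
  refine ⟨f, g, shD_Ch50 a b hf, shD_Ch50 a b hg, ?_, ?_⟩
  · exact shD_Nul50 a b h1
  · exact shD_Nul50 a b h2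

/-- isomorphism `(z, y) ↦ (z, -y)` -/
theorem shD_phi (a b : ℤ) (X : CB n) : HE (Phi ρ ε (RC.shD a b X)) (RC.shD a b (Phi ρ ε X)) := by
  refine HE.of_iso (hoMap50 (X := X) (Y := X) (AddMonoidHom.id _))
    (hoMap50 (X := X) (Y := X) (AddMonoidHom.id _)) ⟨⟨⟨fun f m => ?_, fun f m => ?_⟩,
    fun k t m => ?_⟩, fun m => ?_⟩ (fun m => ?_) (fun m => ?_)
  · exact Prod.ext rfl (Prod.ext rfl (X.l_mn f _).symm)
  · exact Prod.ext rfl (Prod.ext rfl (X.r_mn f _).symm)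
  · rw [add_zero, add_zero]
    have e1 : t + a + 1 = t + 1 + a := by ring
    have e2 : t + a - 1 = t - 1 + a := by ring
    have e3 : k + b - sg ε = k - sg ε + b := by ring
    have e4 : t + a + sg ε = t + sg ε + a := by ring
    have c1 : ∀ z : X.M, X.pr (k + b) (t + a + 1) z = X.pr (k + b) (t + 1 + a) z := fun z => by
      rw [e1]
    have c2 : ∀ z : X.M, X.pr (k + b) (t + a - 1) z = X.pr (k + b) (t - 1 + a) z := fun z => by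
      rw [e2]
    have c3 : ∀ z : X.M, X.pr (k + b - sg ε) (t + a + sg ε) (-z) =
        -X.pr (k - sg ε + b) (t + sg ε + a) z := fun z => by rw [e3, e4, X.pr_mn]
    exact Prod.ext (c1 _) (Prod.ext (c2 _) (c3 _))
  · cases ε
    · have c1 : ∀ y z : X.M, -(X.D y + X.r (C (1/2) * ρ.α) (-z)) =
          -X.D y + X.r (C (1/2) * ρ.α) z := fun y z => by
        rw [X.r_mn]
        abel
      have c2 : ∀ y z : X.M, -(X.D y + X.r (C (1/2)) (-z)) = -X.D y + X.r (C (1/2)) z :=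
        fun y z => by
          rw [X.r_mn]
          abel
      have c3 : ∀ z : X.M, -(-X.D (-z)) = -(-(-X.D z)) := fun z => by rw [X.D_mn]
      exact Prod.ext (c1 _ _) (Prod.ext (c2 _ _) (c3 _))
    · have c3 : ∀ x y z : X.M, -(x + X.r ρ.α y - X.D (-z)) = -(x + X.r ρ.α y - (-X.D z)) :=
        fun x y z => by rw [X.D_mn]
      exact Prod.ext rfl (Prod.ext rfl (c3 _ _ _))
  · exact Prod.ext rfl (Prod.ext rfl (neg_neg _))
  · exact Prod.ext rfl (Prod.ext rfl (neg_neg _))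

theorem shD_fon (a b : ℤ) (X : CB n) (w : List (Refl n × Bool)) :
    HE (Fon (RC.shD a b X) w) (RC.shD a b (Fon X w)) := by
  induction w generalizing X with
  | nil => exact HE.refl _
  | cons x w ih =>
    exact ((shD_phi x.1 x.2 a b X).fon w).trans (ih (Phi x.1 x.2 X))

end RC
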