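import Mathlib
import Pool.Agent.EW.RC.H1

/-!
# Block H5a: split sequences
(MP_d13a5e_al)
-/

open MvPolynomial

namespace RC

variable {n : ℕ} {X Y B C Z A : CB n}

/-- a short exact sequence of complexes which splits in the category of bigraded bimodules -/
def SES (C Z A : CB n) : Prop :=
  ∃ (ι : C.M →+ Z.M) (π : Z.M →+ A.M) (σ : A.M →+ Z.M) (τ : Z.M →+ C.M),
    Ch C Z ι ∧ Ch Z A π ∧ Hm A Z 0 0 σ ∧ Hm Z C 0 0 τ ∧ (∀ c, π (ι c) = 0) ∧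
    (∀ a, π (σ a) = a) ∧ (∀ c, τ (ι c) = c) ∧ (∀ a, τ (σ a) = 0) ∧
    (∀ z, σ (π z) + ι (τ z) = z)

theorem SES.phi (ρ : Refl n) (ε : Bool) (h : SES C Z A) :
    SES (Phi ρ ε C) (Phi ρ ε Z) (Phi ρ ε A) := by
  obtain ⟨ι, π, σ, τ, hι, hπ, hσ, hτ, h1, h2, h3, h4, h5⟩ := h
  refine ⟨phiMap ι, phiMap π, phiMap σ, phiMap τ, phiMap_Ch ρ ε hι, phiMap_Ch ρ ε hπ,
    phiMap_Hm ρ ε hσ, phiMap_Hm ρ ε hτ, ?_, ?_, ?_, ?_, ?_⟩
  · intro c
    exact Prod.ext (h1 _) (Prod.ext (h1 _) (h1 _))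
  · intro c
    exact Prod.ext (h2 _) (Prod.ext (h2 _) (h2 _))
  · intro c
    exact Prod.ext (h3 _) (Prod.ext (h3 _) (h3 _))
  · intro c
    exact Prod.ext (h4 _) (Prod.ext (h4 _) (h4 _))
  · intro c
    exact Prod.ext (h5 _) (Prod.ext (h5 _) (h5 _))

theorem SES.fon (h : SES C Z A) (w : List (Refl n × Bool)) :
    SES (Fon C w) (Fon Z w) (Fon A w) := by
  induction w generalizing C Z A with
  | nil => exact h
  | cons a w ih => exact ih (h.phi a.1 a.2)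

namespace H5a

/-- `c ↦ (0, 0, c)` -/
def iC (X : CB n) : X.M →+ X.M × X.M × X.M :=
  AddMonoidHom.mk' (fun c => (0, 0, c)) (by intro a b; ext <;> simp)

/-- `(a, b, c) ↦ c` -/
def pC (X : CB n) : X.M × X.M × X.M →+ X.M :=
  AddMonoidHom.mk' (fun m => m.2.2) (by intro a b; rfl)

/-- `(a, b) ↦ (a, b, 0)` -/
def iT (X : CB n) : X.M × X.M →+ X.M × X.M × X.M :=
  AddMonoidHom.mk' (fun m => (m.1, m.2, 0)) (by intro a b; ext <;> simp)

/-- `(a, b, c) ↦ (a, b)` -/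
def pT (X : CB n) : X.M × X.M × X.M →+ X.M × X.M :=
  AddMonoidHom.mk' (fun m => (m.1, m.2.1)) (by intro a b; rfl)

variable (ρ : Refl n) (ε : Bool) (X : CB n)

theorem Hm_iC {a b : ℤ} (ha : a = sg ε) (hb : b = -sg ε) :
    Hm (shD a b X) (Phi ρ ε X) 0 0 (iC X) := by
  subst ha hb
  refine ⟨⟨fun f m => ?_, fun f m => ?_⟩, fun k t m => ?_⟩
  · refine Prod.ext ?_ (Prod.ext ?_ ?_)
    · exact (X.l_mz f).symm
    · exact (X.l_mz f).symm
    · rfl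
  · refine Prod.ext ?_ (Prod.ext ?_ ?_)
    · change (0 : X.M) = X.r (ρ.pl f) 0 + X.r (ρ.α * ρ.α * ρ.mi f) 0
      rw [X.r_mz, X.r_mz, add_zero]
    · change (0 : X.M) = X.r (ρ.mi f) 0 + X.r (ρ.pl f) 0
      rw [X.r_mz, X.r_mz, add_zero]
    · rfl
  · refine Prod.ext ?_ (Prod.ext ?_ ?_)
    · exact X.pr_mz _ _
    · exact X.pr_mz _ _
    · change X.pr (k + 0 - sg ε) (t + 0 + sg ε) m = X.pr (k + -sg ε) (t + sg ε) m
      rw [add_zero, add_zero, sub_eq_add_neg]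

theorem Hm_pC {a b : ℤ} (ha : a = sg ε) (hb : b = -sg ε) :
    Hm (Phi ρ ε X) (shD a b X) 0 0 (pC X) := by
  subst ha hb
  refine ⟨⟨fun f m => rfl, fun f m => rfl⟩, fun k t m => ?_⟩
  change X.pr (k + 0 + -sg ε) (t + 0 + sg ε) m.2.2 = X.pr (k - sg ε) (t + sg ε) m.2.2
  rw [add_zero, add_zero, sub_eq_add_neg]

theorem Hm_iT : Hm (Th ρ X) (Phi ρ ε X) 0 0 (iT X) := by
  refine ⟨⟨fun f m => ?_, fun f m => ?_⟩, fun k t m => ?_⟩
  · exact Prod.ext rfl (Prod.ext rfl (X.l_mz f).symm)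
  · exact Prod.ext rfl (Prod.ext rfl (X.r_mz f).symm)
  · refine Prod.ext ?_ (Prod.ext ?_ ?_)
    · change X.pr (k + 0) (t + 0 + 1) m.1 = X.pr k (t + 1) m.1
      rw [add_zero, add_zero]
    · change X.pr (k + 0) (t + 0 - 1) m.2 = X.pr k (t - 1) m.2
      rw [add_zero, add_zero]
    · exact X.pr_mz _ _

theorem Hm_pT : Hm (Phi ρ ε X) (Th ρ X) 0 0 (pT X) := by
  refine ⟨⟨fun f m => rfl, fun f m => rfl⟩, fun k t m => ?_⟩
  refine Prod.ext ?_ ?_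
  · change X.pr (k + 0) (t + 0 + 1) m.1 = X.pr k (t + 1) m.1
    rw [add_zero, add_zero]
  · change X.pr (k + 0) (t + 0 - 1) m.2.1 = X.pr k (t - 1) m.2.1
    rw [add_zero, add_zero]

end H5a

open H5a in
theorem SES_pos (ρ : Refl n) (X : CB n) : SES (shD 1 (-1) X) (Phi ρ true X) (Th ρ X) := by
  refine ⟨iC X, pT X, iT X, pC X, ⟨Hm_iC ρ true X rfl rfl, fun m => ?_⟩,
    ⟨Hm_pT ρ true X, fun m => rfl⟩, Hm_iT ρ true X, Hm_pC ρ true X rfl rfl, fun c => rfl,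
    fun a => rfl, fun c => rfl, fun a => rfl, fun z => ?_⟩
  · refine Prod.ext ?_ (Prod.ext ?_ ?_)
    · exact X.D_mz
    · exact X.D_mz
    · change (0 : X.M) + X.r ρ.α 0 - X.D m = -X.D m
      rw [X.r_mz, add_zero, zero_sub]
  · refine Prod.ext ?_ (Prod.ext ?_ ?_)
    · exact add_zero (z.1 : X.M)
    · exact add_zero (z.2.1 : X.M)
    · exact zero_add (z.2.2 : X.M)

open H5a in
theorem SES_neg (ρ : Refl n) (X : CB n) : SES (Th ρ X) (Phi ρ false X) (shD (-1) 1 X) := by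
  refine ⟨iT X, pC X, iC X, pT X, ⟨Hm_iT ρ false X, fun m => ?_⟩,
    ⟨Hm_pC ρ false X rfl rfl, fun m => rfl⟩, Hm_iC ρ false X rfl rfl, Hm_pT ρ false X,
    fun c => rfl, fun a => rfl, fun c => rfl, fun a => rfl, fun z => ?_⟩
  · refine Prod.ext ?_ (Prod.ext ?_ ?_)
    · change X.D m.1 + X.r (C (1/2) * ρ.α) 0 = X.D m.1
      rw [X.r_mz, add_zero]
    · change X.D m.2 + X.r (C (1/2)) 0 = X.D m.2
      rw [X.r_mz, add_zero]
    · change -X.D 0 = (0 : X.M)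
      rw [X.D_mz, neg_zero]
  · refine Prod.ext ?_ (Prod.ext ?_ ?_)
    · exact zero_add (z.1 : X.M)
    · exact zero_add (z.2.1 : X.M)
    · exact add_zero (z.2.2 : X.M)

end RC
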