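import Mathlib
import Pool.Agent.EW.RC.H5a

/-!
# Block H5: vanishing of `Hom` in the homotopy category, split sequences, the flip
(MP_d13a5e_al)
-/

open MvPolynomial

namespace RC

variable {n : ℕ} {X Y B C Z A : CB n}

/-- `Hom(X, B(m)[-k]) = 0` in the homotopy category (for `B` in homological degree `0`) -/
def Van (X B : CB n) (k m : ℤ) : Prop :=
  ∀ f : X.M →+ B.M, Hm X B (-k) m f → (∀ x, f (X.D x) = 0) →
    ∃ h : X.M →+ B.M, Hm X B (-k - 1) m h ∧ ∀ x, f x = h (X.D x)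

theorem Van.of_HE {k m : ℤ} (h : HE X Y) (hY : Van Y B k m) : Van X B k m := by
  obtain ⟨f0, g0, hf0, hg0, ⟨h0, hh0, e0⟩, -⟩ := h
  intro f hf hfD
  obtain ⟨ψ, hψ, eψ⟩ := hY (f.comp g0) (hg0.1.comp' hf (zero_add _) (zero_add _))
    (fun y => by rw [AddMonoidHom.comp_apply, ← hg0.2, hfD])
  refine ⟨ψ.comp f0 - f.comp h0, (hf0.1.comp' hψ (zero_add _) (zero_add _)).sub
    (hh0.comp' hf (by ring) (zero_add _)), fun x => ?_⟩
  have e1 := e0 x
  rw [AddMonoidHom.sub_apply, AddMonoidHom.comp_apply, AddMonoidHom.id_apply] at e1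
  have e2 : f (g0 (f0 x)) - f x = f (X.D (h0 x)) + f (h0 (X.D x)) := by
    rw [← map_sub, e1, map_add]
  rw [hfD, zero_add] at e2
  have e3 := eψ (f0 x)
  rw [AddMonoidHom.comp_apply, hf0.2] at e3
  rw [AddMonoidHom.sub_apply, AddMonoidHom.comp_apply, AddMonoidHom.comp_apply, ← e3, ← e2]
  abel

theorem H5.Hm_shD (a b : ℤ) {p e : ℤ} {f : X.M →+ B.M} :
    Hm (shD a b X) B p e f ↔ Hm X B (p - b) (e - a) f := by
  constructor
  · rintro ⟨h1, h2⟩
    refine ⟨⟨h1.1, h1.2⟩, fun k t x => ?_⟩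
    have h3 : B.pr (k - b + p) (t - a + e) (f x) = f (X.pr (k - b + b) (t - a + a) x) :=
      h2 (k - b) (t - a) x
    rw [sub_add_cancel, sub_add_cancel] at h3
    rw [← h3]
    have e1 : k + (p - b) = k - b + p := by ring
    have e2 : t + (e - a) = t - a + e := by ring
    rw [e1, e2]
  · rintro ⟨h1, h2⟩
    have h3 : ∀ (k t : ℤ) (x : X.M), B.pr (k + p) (t + e) (f x) =
        f (X.pr (k + b) (t + a) x) := by
      intro k t x
      rw [← h2]
      have e1 : k + b + (p - b) = k + p := by ring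
      have e2 : t + a + (e - a) = t + e := by ring
      rw [e1, e2]
    exact ⟨⟨h1.1, h1.2⟩, h3⟩

theorem Van_shD (a b : ℤ) {k m : ℤ} : Van (shD a b X) B k m ↔ Van X B (k + b) (m - a) := by
  constructor
  · intro h f hf hfD
    have h1 : ∀ x : X.M, f (-X.D x) = 0 := by
      intro x
      rw [map_neg, hfD, neg_zero]
    obtain ⟨g, hg, eg⟩ := h f ((H5.Hm_shD a b).2 (by
        have e : -k - b = -(k + b) := by ring
        rw [e]; exact hf)) h1
    have h2 := (H5.Hm_shD a b).1 hg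
    have e : -k - 1 - b = -(k + b) - 1 := by ring
    rw [e] at h2
    have h3 : ∀ (g : X.M →+ B.M) (x : X.M), f x = g (-X.D x) → f x = (-g) (X.D x) := by
      intro g x h
      rw [h, map_neg]
      rfl
    exact ⟨-g, h2.neg, fun x => h3 g x (eg x)⟩
  · intro h f hf hfD
    have h1 := (H5.Hm_shD a b).1 hf
    have e : -k - b = -(k + b) := by ring
    rw [e] at h1
    have h2 : ∀ (f : X.M →+ B.M) (x : X.M), f (-X.D x) = 0 → f (X.D x) = 0 := by
      intro f x h
      rw [map_neg, neg_eq_zero] at h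
      exact h
    obtain ⟨g, hg, eg⟩ := h f h1 (fun x => h2 f x (hfD x))
    have e' : -k - 1 - b = -(k + b) - 1 := by ring
    have h3 : Hm X B (-k - 1 - b) (m - a) (-g) := by
      rw [e']
      exact hg.neg
    have h4 : ∀ (f g : X.M →+ B.M) (x : X.M), f x = g (X.D x) → f x = (-g) (-X.D x) := by
      intro f g x h
      rw [map_neg, AddMonoidHom.neg_apply, neg_neg, h]
    exact ⟨-g, (H5.Hm_shD a b).2 h3, fun x => h4 f g x (eg x)⟩

theorem Van.quot {k m : ℤ} (h : SES C Z A) (hZ : Van Z B k m) (hC : Van C B (k + 1) m) :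
    Van A B k m := by
  obtain ⟨ι, π, σ, τ, hι, hπ, hσ, hτ, h1, h2, h3, h4, h5⟩ := h
  intro f hf hfD
  obtain ⟨g, hg, eg⟩ := hZ (f.comp π) (hπ.1.comp' hf (zero_add _) (zero_add _))
    (fun z => by rw [AddMonoidHom.comp_apply, ← hπ.2, hfD])
  obtain ⟨g', hg', eg'⟩ := hC (g.comp ι) (hι.1.comp' hg (by ring) (zero_add _))
    (fun c => by
      rw [AddMonoidHom.comp_apply, ← hι.2, ← eg, AddMonoidHom.comp_apply, h1, map_zero])
  have hu : Hm Z B (-k - 1) m (g - (g'.comp τ).comp Z.D) :=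
    hg.sub ((Hm.D Z).comp' (hτ.comp' hg' rfl rfl) (by ring) (by ring))
  have u1 : ∀ z, (g - (g'.comp τ).comp Z.D) (Z.D z) = f (π z) := by
    intro z
    rw [AddMonoidHom.sub_apply, ← eg, AddMonoidHom.comp_apply]
    change f (π z) - g' (τ (Z.D (Z.D z))) = f (π z)
    rw [Z.D_D, map_zero, map_zero, sub_zero]
  have u2 : ∀ c, (g - (g'.comp τ).comp Z.D) (ι c) = 0 := by
    intro c
    have e := eg' c
    rw [AddMonoidHom.comp_apply] at e
    rw [AddMonoidHom.sub_apply, e]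
    change g' (C.D c) - g' (τ (Z.D (ι c))) = 0
    rw [hι.2, h3, sub_self]
  have u3 : ∀ z, (g - (g'.comp τ).comp Z.D) z = (g - (g'.comp τ).comp Z.D) (σ (π z)) := by
    intro z
    conv_lhs => rw [← h5 z]
    rw [map_add, u2, add_zero]
  refine ⟨(g - (g'.comp τ).comp Z.D).comp σ, hσ.comp' hu (zero_add _) (zero_add _),
    fun a => ?_⟩
  rw [AddMonoidHom.comp_apply]
  have e1 := u1 (σ a)
  rw [h2] at e1
  rw [← e1, u3, ← hπ.2, h2]

theorem Van.mid {k m : ℤ} (h : SES C Z A) (hC : Van C B k m) (hA : Van A B k m) :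
    Van Z B k m := by
  obtain ⟨ι, π, σ, τ, hι, hπ, hσ, hτ, h1, h2, h3, h4, h5⟩ := h
  intro f hf hfD
  obtain ⟨g, hg, eg⟩ := hC (f.comp ι) (hι.1.comp' hf (zero_add _) (zero_add _))
    (fun c => by rw [AddMonoidHom.comp_apply, ← hι.2, hfD])
  have hu : Hm Z B (-k) m (f - (g.comp τ).comp Z.D) :=
    hf.sub ((Hm.D Z).comp' (hτ.comp' hg rfl rfl) (by ring) (by ring))
  have u1 : ∀ z, (f - (g.comp τ).comp Z.D) (Z.D z) = 0 := by
    intro z
    rw [AddMonoidHom.sub_apply, hfD]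
    change 0 - g (τ (Z.D (Z.D z))) = 0
    rw [Z.D_D, map_zero, map_zero, sub_zero]
  have u2 : ∀ c, (f - (g.comp τ).comp Z.D) (ι c) = 0 := by
    intro c
    have e := eg c
    rw [AddMonoidHom.comp_apply] at e
    rw [AddMonoidHom.sub_apply, e]
    change g (C.D c) - g (τ (Z.D (ι c))) = 0
    rw [hι.2, h3, sub_self]
  have u3 : ∀ z, (f - (g.comp τ).comp Z.D) z = (f - (g.comp τ).comp Z.D) (σ (π z)) := by
    intro z
    conv_lhs => rw [← h5 z]
    rw [map_add, u2, add_zero]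
  obtain ⟨g', hg', eg'⟩ := hA ((f - (g.comp τ).comp Z.D).comp σ)
    (hσ.comp' hu (zero_add _) (zero_add _)) (fun a => by
      rw [AddMonoidHom.comp_apply]
      have e : A.D a = π (Z.D (σ a)) := by rw [← hπ.2, h2]
      rw [e, ← u3, u1])
  refine ⟨g'.comp π + g.comp τ, (hπ.1.comp' hg' (zero_add _) (zero_add _)).add
    (hτ.comp' hg (zero_add _) (zero_add _)), fun z => ?_⟩
  rw [AddMonoidHom.add_apply, AddMonoidHom.comp_apply, AddMonoidHom.comp_apply, ← hπ.2, ← eg',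
    AddMonoidHom.comp_apply, ← u3, AddMonoidHom.sub_apply]
  change f z = f z - g (τ (Z.D z)) + g (τ (Z.D z))
  rw [sub_add_cancel]

/-- the flip of a letter -/
theorem Van.flip (ρ : Refl n) (w : List (Refl n × Bool)) {k m : ℤ}
    (h1 : Van (Fon (Phi ρ true X) w) B k m) (h2 : Van (Fon X w) B k (m - 1))
    (h3 : Van (Fon X w) B (k + 1) (m + 1)) : Van (Fon (Phi ρ false X) w) B k m := by
  have hT : Van (Fon (Th ρ X) w) B k m := by
    refine Van.quot ((SES_pos ρ X).fon w) h1 ?_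
    refine Van.of_HE (shD_fon 1 (-1) X w) ((Van_shD 1 (-1)).2 ?_)
    rw [add_neg_cancel_right]
    exact h2
  refine Van.mid ((SES_neg ρ X).fon w) hT ?_
  refine Van.of_HE (shD_fon (-1) 1 X w) ((Van_shD (-1) 1).2 ?_)
  rw [sub_neg_eq_add]
  exact h3

end RC
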