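import Mathlib
import Pool.Agent.EW.RC.H1

/-!
# Block H8a: dual complexes (MP_d13a5e_al)
-/

open MvPolynomial

namespace RC

variable {n : ℕ} {X Y B : CB n}

/-- a perfect pairing between the complexes `X` and `Y` -/
structure IsPairing (X Y : CB n) (b : X.M →+ Y.M →+ P n) : Prop where
  left : ∀ f x y, b (X.l f x) y = b x (Y.l f y)
  rx : ∀ f x y, b (X.r f x) y = f * b x y
  ry : ∀ f x y, b x (Y.r f y) = f * b x y
  diff : ∀ x y, b (X.D x) y = b x (Y.D y)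
  gr0 : ∀ k t k' t' x y, k + k' ≠ 0 → b (X.pr k t x) (Y.pr k' t' y) = 0
  gr1 : ∀ k t k' t' x y, (∀ d : ℕ, t + t' ≠ 2 * (d : ℤ)) → b (X.pr k t x) (Y.pr k' t' y) = 0
  gr2 : ∀ k t k' t' x y, ∀ d : ℕ, t + t' = 2 * (d : ℤ) →
    (b (X.pr k t x) (Y.pr k' t' y)).IsHomogeneous d
  perf : ∀ g : X.M →+ P n, (∀ f x, g (X.r f x) = f * g x) → ∃ y, ∀ x, g x = b x y
  perf' : ∀ g : Y.M →+ P n, (∀ f y, g (Y.r f y) = f * g y) → ∃ x, ∀ y, g y = b x y
  nd : ∀ y, (∀ x, b x y = 0) → y = 0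
  nd' : ∀ x, (∀ y, b x y = 0) → x = 0

/-- `X` and `Y` are dual to each other -/
def Dual (X Y : CB n) : Prop := ∃ b, IsPairing X Y b

section Aux67

private theorem flip67 {b : X.M →+ Y.M →+ P n} (h : IsPairing X Y b) :
    IsPairing Y X b.flip where
  left f x y := by
    change b y (Y.l f x) = b (X.l f y) x
    exact (h.left f y x).symm
  rx f x y := by
    change b y (Y.r f x) = f * b y x
    exact h.ry f y x
  ry f x y := by
    change b (X.r f y) x = f * b y x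
    exact h.rx f y x
  diff x y := by
    change b y (Y.D x) = b (X.D y) x
    exact (h.diff y x).symm
  gr0 k t k' t' x y hk := by
    change b (X.pr k' t' y) (Y.pr k t x) = 0
    exact h.gr0 k' t' k t y x (by rwa [add_comm])
  gr1 k t k' t' x y hk := by
    change b (X.pr k' t' y) (Y.pr k t x) = 0
    exact h.gr1 k' t' k t y x (by rwa [add_comm])
  gr2 k t k' t' x y d hk := by
    change (b (X.pr k' t' y) (Y.pr k t x)).IsHomogeneous d
    exact h.gr2 k' t' k t y x d (by rwa [add_comm])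
  perf g hg := h.perf' g hg
  perf' g hg := h.perf g hg
  nd x hx := h.nd' x hx
  nd' y hy := h.nd y hy

variable (ρ : Refl n) {M N : Type} [AddCommGroup M] [AddCommGroup N]

private theorem mi_inv67 {f : P n} (hf : ρ.σ f = f) (u : P n) : ρ.mi (f * u) = f * ρ.mi u := by
  rw [ρ.mi_mul, ρ.mi_of_inv hf, ρ.pl_of_inv hf, zero_mul, zero_add]

private theorem mi_al67 (u : P n) : ρ.mi (ρ.α * u) = ρ.pl u := by
  rw [ρ.mi_mul, ρ.mi_α, ρ.pl_α, zero_mul, add_zero, one_mul]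

private theorem σαα67 (u : P n) (hu : ρ.σ u = u) : ρ.σ (ρ.α * ρ.α * u) = ρ.α * ρ.α * u := by
  rw [map_mul, map_mul, ρ.σα, hu]; ring

private theorem two67 : (C 2 : P n) * C (1/2) = 1 := by
  rw [← C_mul]; norm_num

/-- the pairing -/
private noncomputable def phiPair67 (b : M →+ N →+ P n) :
    (M × M × M) →+ (N × N × N) →+ P n :=
  AddMonoidHom.mk' (fun x => AddMonoidHom.mk' (fun y =>
      C 2 * (ρ.mi (b x.1 y.1) + ρ.α * ρ.mi (b x.1 y.2.1) + ρ.α * ρ.mi (b x.2.1 y.1)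
        + ρ.α * ρ.α * ρ.mi (b x.2.1 y.2.1)) + b x.2.2 y.2.2) (by
        intro y z
        simp only [Prod.fst_add, Prod.snd_add, map_add, ρ.mi_add]
        ring))
    (by
      intro x z
      ext1 y
      simp only [AddMonoidHom.add_apply, AddMonoidHom.mk'_apply, Prod.fst_add, Prod.snd_add,
        map_add, ρ.mi_add]
      ring)

private theorem pa67 (b : M →+ N →+ P n) (x : M × M × M) (y : N × N × N) :
    phiPair67 ρ b x y =
      C 2 * (ρ.mi (b x.1 y.1) + ρ.α * ρ.mi (b x.1 y.2.1) + ρ.α * ρ.mi (b x.2.1 y.1)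
        + ρ.α * ρ.α * ρ.mi (b x.2.1 y.2.1)) + b x.2.2 y.2.2 := rfl

private theorem pflip67 (b : M →+ N →+ P n) (x : M × M × M) (y : N × N × N) :
    phiPair67 ρ b.flip y x = phiPair67 ρ b x y := by
  rw [pa67, pa67]
  simp only [AddMonoidHom.flip_apply]
  ring

private theorem rx67 (b : X.M →+ N →+ P n) (h : ∀ f x y, b (X.r f x) y = f * b x y)
    (f : P n) (x : X.M × X.M × X.M) (y : N × N × N) :
    phiPair67 ρ b ((thr ρ X f x.1 x.2.1).1, (thr ρ X f x.1 x.2.1).2, X.r f x.2.2) y =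
      f * phiPair67 ρ b x y := by
  rw [pa67, pa67]
  simp only [thr, map_add, AddMonoidHom.add_apply, h, ρ.mi_add]
  rw [mi_inv67 ρ (ρ.σ_pl f), mi_inv67 ρ (ρ.σ_pl f), mi_inv67 ρ (ρ.σ_mi f),
    mi_inv67 ρ (ρ.σ_mi f), mi_inv67 ρ (ρ.σ_pl f), mi_inv67 ρ (ρ.σ_pl f),
    mi_inv67 ρ (σαα67 ρ _ (ρ.σ_mi f)), mi_inv67 ρ (σαα67 ρ _ (ρ.σ_mi f))]
  linear_combination (-C 2 * (ρ.mi (b x.1 y.1) + ρ.α * ρ.mi (b x.1 y.2.1)
    + ρ.α * ρ.mi (b x.2.1 y.1) + ρ.α * ρ.α * ρ.mi (b x.2.1 y.2.1))) * ρ.pl_add_mi f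

private theorem chi67 (b : X.M →+ N →+ P n)
    (hperf : ∀ g : X.M →+ P n, (∀ f x, g (X.r f x) = f * g x) → ∃ y, ∀ x, g x = b x y)
    (χ : X.M →+ P n) (hχ : ∀ f x, ρ.σ f = f → χ (X.r f x) = f * χ x)
    (hinv : ∀ x, ρ.σ (χ x) = χ x) :
    ∃ y, ∀ x, χ x = C 2 * ρ.mi (b x y) := by
  obtain ⟨g, hg⟩ : ∃ g : X.M →+ P n, ∀ x, g x = C (1/2) * (χ (X.r ρ.α x) + ρ.α * χ x) :=
    ⟨AddMonoidHom.mk' (fun x => C (1/2) * (χ (X.r ρ.α x) + ρ.α * χ x)) (by
      intro x y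
      simp only [map_add]
      ring), fun x => rfl⟩
  obtain ⟨y, hy⟩ := hperf g (by
    intro f x
    rw [hg, hg]
    have hαα : ρ.σ (ρ.α * ρ.α) = ρ.α * ρ.α := by
      have := σαα67 ρ 1 (map_one _)
      rwa [mul_one] at this
    have e1 : X.r ρ.α (X.r f x) = X.r (ρ.pl f) (X.r ρ.α x) + X.r (ρ.α * ρ.α * ρ.mi f) x := by
      rw [← X.r_mul, ← X.r_mul, ← X.r_add]
      congr 2
      linear_combination ρ.α * ρ.pl_add_mi f
    have e2 : X.r f x = X.r (ρ.pl f) x + X.r (ρ.mi f) (X.r ρ.α x) := by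
      rw [← X.r_mul, ← X.r_add]
      congr 2
      exact ρ.pl_add_mi f
    rw [e1, map_add, hχ _ _ (ρ.σ_pl f), hχ _ _ (σαα67 ρ _ (ρ.σ_mi f)), e2, map_add,
      hχ _ _ (ρ.σ_pl f), hχ _ _ (ρ.σ_mi f)]
    linear_combination (-C (1/2) * (χ (X.r ρ.α x) + ρ.α * χ x)) * ρ.pl_add_mi f)
  refine ⟨y, fun x => ?_⟩
  rw [← hy, hg, mi_inv67 ρ (ρ.σC _), ρ.mi_add, ρ.mi_of_inv (hinv _), mi_al67,
    ρ.pl_of_inv (hinv x), zero_add, ← mul_assoc, two67, one_mul]

private theorem perf67 (b : X.M →+ N →+ P n)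
    (hperf : ∀ g : X.M →+ P n, (∀ f x, g (X.r f x) = f * g x) → ∃ y, ∀ x, g x = b x y)
    (g : X.M × X.M × X.M →+ P n)
    (hg : ∀ f x, g ((thr ρ X f x.1 x.2.1).1, (thr ρ X f x.1 x.2.1).2, X.r f x.2.2) = f * g x) :
    ∃ y : N × N × N, ∀ x, g x = phiPair67 ρ b x y := by
  obtain ⟨g1, hg1⟩ : ∃ g1 : X.M →+ P n, ∀ x, g1 x = g (x, 0, 0) :=
    ⟨AddMonoidHom.mk' (fun x => g (x, 0, 0)) (by
      intro x y
      rw [← map_add]; simp), fun x => rfl⟩
  obtain ⟨g2, hg2⟩ : ∃ g2 : X.M →+ P n, ∀ x, g2 x = g (0, 0, x) :=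
    ⟨AddMonoidHom.mk' (fun x => g (0, 0, x)) (by
      intro x y
      rw [← map_add]; simp), fun x => rfl⟩
  have h1 : ∀ x, g (0, x, 0) = ρ.α * g1 x := by
    intro x
    rw [hg1, ← hg]
    simp only [thr, ρ.pl_α, ρ.mi_α, X.r_zero, X.r_one, X.r_mz, add_zero]
  have h2 : ∀ f x, ρ.σ f = f → g1 (X.r f x) = f * g1 x := by
    intro f x hf
    rw [hg1, hg1, ← hg]
    simp only [thr, ρ.pl_of_inv hf, ρ.mi_of_inv hf, X.r_zero, X.r_mz, add_zero]
  obtain ⟨χ₁, hχ₁⟩ : ∃ χ : X.M →+ P n, ∀ x, χ x = ρ.pl (g1 x) :=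
    ⟨AddMonoidHom.mk' (fun x => ρ.pl (g1 x)) (by
      intro x y
      rw [map_add, ρ.pl_add]), fun x => rfl⟩
  obtain ⟨χ₂, hχ₂⟩ : ∃ χ : X.M →+ P n, ∀ x, χ x = ρ.mi (g1 x) :=
    ⟨AddMonoidHom.mk' (fun x => ρ.mi (g1 x)) (by
      intro x y
      rw [map_add, ρ.mi_add]), fun x => rfl⟩
  obtain ⟨a, ha⟩ := chi67 ρ b hperf χ₁ (by
    intro f x hf
    rw [hχ₁, hχ₁, h2 f x hf, ρ.pl_mul, ρ.pl_of_inv hf, ρ.mi_of_inv hf]
    ring) (fun x => by rw [hχ₁]; exact ρ.σ_pl _)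
  obtain ⟨c, hc⟩ := chi67 ρ b hperf χ₂ (by
    intro f x hf
    rw [hχ₂, hχ₂, h2 f x hf, mi_inv67 ρ hf]) (fun x => by rw [hχ₂]; exact ρ.σ_mi _)
  obtain ⟨d, hd⟩ := hperf g2 (by
    intro f x
    rw [hg2, hg2, ← hg]
    simp only [thr, X.r_mz, add_zero])
  have h3 : ∀ x, g1 x = C 2 * (ρ.mi (b x a) + ρ.α * ρ.mi (b x c)) := by
    intro x
    have ea := ha x
    have ec := hc x
    rw [hχ₁] at ea
    rw [hχ₂] at ec
    linear_combination ρ.pl_add_mi (g1 x) + ea + ρ.α * ec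
  refine ⟨(a, c, d), fun x => ?_⟩
  rw [pa67]
  have h4 : g x = g (x.1, 0, 0) + g (0, x.2.1, 0) + g (0, 0, x.2.2) := by
    rw [← map_add, ← map_add]; simp
  rw [h4, ← hg1, h1, ← hg2, hd, h3, h3]
  ring

private theorem nd67 (b : X.M →+ N →+ P n) (h : ∀ f x y, b (X.r f x) y = f * b x y)
    (hnd : ∀ y, (∀ x, b x y = 0) → y = 0) (y : N × N × N) (hy : ∀ x, phiPair67 ρ b x y = 0) :
    y = 0 := by
  have h0 : y.2.2 = 0 := by
    apply hnd
    intro x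
    have := hy (0, 0, x)
    rw [pa67] at this
    simpa [ρ.mi_zero] using this
  have h1 : ∀ x, ρ.mi (b x y.1) + ρ.α * ρ.mi (b x y.2.1) = 0 := by
    intro x
    have := hy (x, 0, 0)
    rw [pa67] at this
    simp only [map_zero, AddMonoidHom.zero_apply, ρ.mi_zero, mul_zero, add_zero] at this
    have e := two67 (n := n)
    linear_combination C (1/2) * this - (ρ.mi (b x y.1) + ρ.α * ρ.mi (b x y.2.1)) * e
  have h2 : ∀ x, ρ.mi (b x y.2.1) = 0 := by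
    intro x
    have e1 := congrArg ρ.σ (h1 x)
    rw [map_add, map_mul, ρ.σ_mi, ρ.σ_mi, ρ.σα, map_zero] at e1
    have e2 := h1 x
    have e3 : ρ.α * ρ.mi (b x y.2.1) = ρ.α * 0 := by
      have e := two67 (n := n)
      have e4 : (C 2 : P n) = 2 := map_ofNat (C : ℝ →+* P n) 2
      rw [e4] at e
      linear_combination C (1/2) * (e2 - e1) - ρ.α * ρ.mi (b x y.2.1) * e
    exact mul_left_cancel₀ ρ.ne e3
  have h3 : ∀ x, ρ.mi (b x y.1) = 0 := by
    intro x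
    have := h1 x
    rwa [h2, mul_zero, add_zero] at this
  have key : ∀ z : N, (∀ x, ρ.mi (b x z) = 0) → z = 0 := by
    intro z hz
    apply hnd
    intro x
    have e := hz (X.r ρ.α x)
    rw [h, mi_al67] at e
    rw [ρ.pl_add_mi (b x z), e, hz, zero_mul, add_zero]
  exact Prod.ext (key _ h3) (Prod.ext (key _ h2) h0)

private theorem σhom67 {f : P n} {d : ℕ} (hf : f.IsHomogeneous d) :
    (ρ.σ f).IsHomogeneous d := by
  have e : ρ.σ = aeval (fun i => ρ.σ (X i)) := by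
    apply MvPolynomial.algHom_ext
    intro i
    rw [aeval_X]
  rw [e]
  have := hf.aeval (fun i => ρ.σ (X i)) (n := 1) (by
    intro i
    rw [ρ.σX]
    have h1 := (isHomogeneous_C (Fin n) (ρ.c i)).mul ρ.lin
    rw [zero_add] at h1
    exact (isHomogeneous_X ℝ i).sub h1)
  rwa [one_mul] at this

private theorem αmi67 {f : P n} {d : ℕ} (hf : f.IsHomogeneous d) :
    (ρ.α * ρ.mi f).IsHomogeneous d := by
  rw [ρ.mi_spec]
  have := (isHomogeneous_C (Fin n) (1/2 : ℝ)).mul (hf.sub (σhom67 ρ hf))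
  rwa [zero_add] at this

private theorem ααmi67 {f : P n} {d : ℕ} (hf : f.IsHomogeneous d) :
    (ρ.α * ρ.α * ρ.mi f).IsHomogeneous (d + 1) := by
  rw [mul_assoc, add_comm]
  exact ρ.lin.mul (αmi67 ρ hf)

private theorem mi067 {f : P n} (hf : f.IsHomogeneous 0) : ρ.mi f = 0 := by
  have h0 : f.totalDegree = 0 := by
    have := hf.totalDegree_le
    omega
  rw [totalDegree_eq_zero_iff_eq_C] at h0
  rw [h0]
  exact ρ.mi_C _

private theorem mihom67 {f : P n} {d : ℕ} (hf : f.IsHomogeneous (d + 1)) :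
    (ρ.mi f).IsHomogeneous d := by
  have h := αmi67 ρ hf
  have h1 : ∀ j, j ≠ d → homogeneousComponent j (ρ.mi f) = 0 := by
    intro j hj
    have h2 := hcomp_mul_succ ρ.lin (ρ.mi f) j
    rw [homogeneousComponent_of_mem h, if_neg (by omega)] at h2
    rcases mul_eq_zero.mp h2.symm with h3 | h3
    · exact absurd h3 ρ.ne
    · exact h3
  have h2 : ρ.mi f = homogeneousComponent d (ρ.mi f) := by
    conv_lhs => rw [← sum_homogeneousComponent (ρ.mi f)]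
    rw [Finset.sum_eq_single d]
    · intro j _ hj; exact h1 j hj
    · intro hd
      apply homogeneousComponent_eq_zero
      simpa using hd
  rw [h2]
  exact homogeneousComponent_isHomogeneous _ _

private theorem C2hom67 {f : P n} {d : ℕ} (hf : f.IsHomogeneous d) :
    (C 2 * f : P n).IsHomogeneous d := by
  have := (isHomogeneous_C (Fin n) (2 : ℝ)).mul hf
  rwa [zero_add] at this

private theorem left67 {b : X.M →+ Y.M →+ P n} (h : IsPairing X Y b) (f : P n)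
    (x : X.M × X.M × X.M) (y : Y.M × Y.M × Y.M) :
    phiPair67 ρ b (X.l f x.1, X.l f x.2.1, X.l f x.2.2) y =
      phiPair67 ρ b x (Y.l f y.1, Y.l f y.2.1, Y.l f y.2.2) := by
  rw [pa67, pa67]
  simp only [h.left]

private theorem ry67 {b : X.M →+ Y.M →+ P n} (h : IsPairing X Y b) (f : P n)
    (x : X.M × X.M × X.M) (y : Y.M × Y.M × Y.M) :
    phiPair67 ρ b x ((thr ρ Y f y.1 y.2.1).1, (thr ρ Y f y.1 y.2.1).2, Y.r f y.2.2) =
      f * phiPair67 ρ b x y := by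
  rw [← pflip67 ρ b, rx67 ρ b.flip (flip67 h).rx f y x, pflip67]

private theorem diffF67 {b : X.M →+ Y.M →+ P n} (h : IsPairing X Y b)
    (x : X.M × X.M × X.M) (y : Y.M × Y.M × Y.M) :
    phiPair67 ρ b (X.D x.1 + X.r (C (1/2) * ρ.α) x.2.2, X.D x.2.1 + X.r (C (1/2)) x.2.2,
      -X.D x.2.2) y =
    phiPair67 ρ b x (Y.D y.1, Y.D y.2.1, y.1 + Y.r ρ.α y.2.1 - Y.D y.2.2) := by
  have hC : ∀ u, ρ.mi (C (1/2) * u) = C (1/2) * ρ.mi u := fun u => mi_inv67 ρ (ρ.σC _) u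
  have e := two67 (n := n)
  rw [pa67, pa67]
  simp only [map_add, map_sub, map_neg, AddMonoidHom.add_apply, AddMonoidHom.neg_apply,
    h.diff, h.rx, h.ry, ρ.mi_add, mul_assoc, hC, mi_al67]
  have e1 := ρ.pl_add_mi (b x.2.2 y.1)
  have e2 := ρ.pl_add_mi (b x.2.2 y.2.1)
  linear_combination (ρ.pl (b x.2.2 y.1) + ρ.mi (b x.2.2 y.1) * ρ.α
    + ρ.α * (ρ.pl (b x.2.2 y.2.1) + ρ.mi (b x.2.2 y.2.1) * ρ.α)) * e - e1 - ρ.α * e2

private theorem diffT67 {b : X.M →+ Y.M →+ P n} (h : IsPairing X Y b)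
    (x : X.M × X.M × X.M) (y : Y.M × Y.M × Y.M) :
    phiPair67 ρ b (X.D x.1, X.D x.2.1, x.1 + X.r ρ.α x.2.1 - X.D x.2.2) y =
    phiPair67 ρ b x (Y.D y.1 + Y.r (C (1/2) * ρ.α) y.2.2, Y.D y.2.1 + Y.r (C (1/2)) y.2.2,
      -Y.D y.2.2) := by
  rw [← pflip67 ρ b, ← pflip67 ρ b]
  exact (diffF67 ρ (flip67 h) y x).symm

private theorem gr067 (ε : Bool) {b : X.M →+ Y.M →+ P n} (h : IsPairing X Y b)
    (k t k' t' : ℤ) (x : X.M × X.M × X.M) (y : Y.M × Y.M × Y.M) (hk : k + k' ≠ 0) :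
    phiPair67 ρ b (X.pr k (t + 1) x.1, X.pr k (t - 1) x.2.1, X.pr (k - sg ε) (t + sg ε) x.2.2)
      (Y.pr k' (t' + 1) y.1, Y.pr k' (t' - 1) y.2.1,
        Y.pr (k' - sg (!ε)) (t' + sg (!ε)) y.2.2) = 0 := by
  have hs : sg (!ε) = -sg ε := by cases ε <;> rfl
  rw [pa67]
  simp only
  rw [h.gr0 _ _ _ _ _ _ hk, h.gr0 _ _ _ _ _ _ hk, h.gr0 _ _ _ _ _ _ hk,
    h.gr0 _ _ _ _ _ _ hk, h.gr0 _ _ _ _ _ _ (by rw [hs]; omega), ρ.mi_zero]
  ring

private theorem gr167 (ε : Bool) {b : X.M →+ Y.M →+ P n} (h : IsPairing X Y b)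
    (k t k' t' : ℤ) (x : X.M × X.M × X.M) (y : Y.M × Y.M × Y.M)
    (hk : ∀ d : ℕ, t + t' ≠ 2 * (d : ℤ)) :
    phiPair67 ρ b (X.pr k (t + 1) x.1, X.pr k (t - 1) x.2.1, X.pr (k - sg ε) (t + sg ε) x.2.2)
      (Y.pr k' (t' + 1) y.1, Y.pr k' (t' - 1) y.2.1,
        Y.pr (k' - sg (!ε)) (t' + sg (!ε)) y.2.2) = 0 := by
  have hs : sg (!ε) = -sg ε := by cases ε <;> rfl
  have e1 : ρ.mi (b (X.pr k (t + 1) x.1) (Y.pr k' (t' + 1) y.1)) = 0 := by
    by_cases hd : ∀ d : ℕ, (t + 1) + (t' + 1) ≠ 2 * (d : ℤ)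
    · rw [h.gr1 _ _ _ _ _ _ hd, ρ.mi_zero]
    · push Not at hd
      obtain ⟨d, hd⟩ := hd
      have hd0 : d = 0 := by
        by_contra hne
        obtain ⟨e, rfl⟩ := Nat.exists_eq_succ_of_ne_zero hne
        apply hk e
        push_cast at hd
        linarith
      subst hd0
      exact mi067 ρ (h.gr2 _ _ _ _ _ _ 0 hd)
  rw [pa67]
  simp only
  rw [e1, h.gr1 k (t + 1) k' (t' - 1) _ _ (fun d hd => hk d (by linarith)),
    h.gr1 k (t - 1) k' (t' + 1) _ _ (fun d hd => hk d (by linarith)),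
    h.gr1 k (t - 1) k' (t' - 1) _ _ (fun d hd => hk (d + 1) (by push_cast; linarith)),
    h.gr1 _ (t + sg ε) _ (t' + sg (!ε)) _ _ (fun d hd => hk d (by rw [hs] at hd; linarith)),
    ρ.mi_zero]
  ring

private theorem gr267 (ε : Bool) {b : X.M →+ Y.M →+ P n} (h : IsPairing X Y b)
    (k t k' t' : ℤ) (x : X.M × X.M × X.M) (y : Y.M × Y.M × Y.M) (d : ℕ)
    (hk : t + t' = 2 * (d : ℤ)) :
    (phiPair67 ρ b (X.pr k (t + 1) x.1, X.pr k (t - 1) x.2.1, X.pr (k - sg ε) (t + sg ε) x.2.2)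
      (Y.pr k' (t' + 1) y.1, Y.pr k' (t' - 1) y.2.1,
        Y.pr (k' - sg (!ε)) (t' + sg (!ε)) y.2.2)).IsHomogeneous d := by
  have hs : sg (!ε) = -sg ε := by cases ε <;> rfl
  rw [pa67]
  simp only
  refine IsHomogeneous.add (C2hom67 (IsHomogeneous.add (IsHomogeneous.add
    (IsHomogeneous.add ?_ ?_) ?_) ?_)) ?_
  · exact mihom67 ρ (h.gr2 _ _ _ _ _ _ (d + 1) (by push_cast; linarith))
  · exact αmi67 ρ (h.gr2 _ _ _ _ _ _ d (by linarith))
  · exact αmi67 ρ (h.gr2 _ _ _ _ _ _ d (by linarith))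
  · cases d with
    | zero =>
      rw [h.gr1 k (t - 1) k' (t' - 1) _ _ (by
        intro d hd
        push_cast at hk
        omega), ρ.mi_zero, mul_zero]
      exact isHomogeneous_zero _ _ _
    | succ d =>
      exact ααmi67 ρ (h.gr2 _ _ _ _ _ _ d (by push_cast at hk; linarith))
  · exact h.gr2 _ _ _ _ _ _ d (by rw [hs]; linarith)

private theorem perff67 {b : X.M →+ Y.M →+ P n} (h : IsPairing X Y b)
    (g : Y.M × Y.M × Y.M →+ P n)
    (hg : ∀ f x, g ((thr ρ Y f x.1 x.2.1).1, (thr ρ Y f x.1 x.2.1).2, Y.r f x.2.2) = f * g x) :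
    ∃ x : X.M × X.M × X.M, ∀ y, g y = phiPair67 ρ b x y := by
  obtain ⟨x, hx⟩ := perf67 ρ b.flip (flip67 h).perf g hg
  exact ⟨x, fun y => by rw [hx, pflip67]⟩

private theorem ndf67 {b : X.M →+ Y.M →+ P n} (h : IsPairing X Y b) (x : X.M × X.M × X.M)
    (hx : ∀ y, phiPair67 ρ b x y = 0) : x = 0 :=
  nd67 ρ b.flip (flip67 h).rx (flip67 h).nd x (fun y => by
    rw [pflip67]; exact hx y)

private theorem phi67 (ε : Bool) {b : X.M →+ Y.M →+ P n} (h : IsPairing X Y b) :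
    IsPairing (Phi ρ ε X) (Phi ρ (!ε) Y) (phiPair67 ρ b) where
  left f x y := left67 ρ h f x y
  rx f x y := rx67 ρ b h.rx f x y
  ry f x y := ry67 ρ h f x y
  diff x y := by
    cases ε
    · exact diffF67 ρ h x y
    · exact diffT67 ρ h x y
  gr0 k t k' t' x y hk := gr067 ρ ε h k t k' t' x y hk
  gr1 k t k' t' x y hk := gr167 ρ ε h k t k' t' x y hk
  gr2 k t k' t' x y d hk := gr267 ρ ε h k t k' t' x y d hk
  perf g hg := perf67 ρ b h.perf g hg
  perf' g hg := perff67 ρ h g hg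
  nd y hy := nd67 ρ b h.rx h.nd y hy
  nd' x hx := ndf67 ρ h x hx

end Aux67

theorem Dual.symm (h : Dual X Y) : Dual Y X := by
  obtain ⟨b, hb⟩ := h
  exact ⟨b.flip, flip67 hb⟩

theorem Dual.unit (n : ℕ) : Dual (unit n) (RC.unit n) := by
  refine ⟨(AddMonoidHom.mul : P n →+ P n →+ P n), ?_⟩
  have hp : ∀ g : P n →+ P n, (∀ f x, g (f * x) = f * g x) →
      ∃ y : P n, ∀ x : P n, g x = x * y := by
    intro g hg
    exact ⟨g 1, fun x => by rw [← hg, mul_one]⟩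
  have hp' : ∀ g : P n →+ P n, (∀ f x, g (f * x) = f * g x) →
      ∃ y : P n, ∀ x : P n, g x = y * x := by
    intro g hg
    exact ⟨g 1, fun x => by rw [mul_comm, ← hg, mul_one]⟩
  have hz : ∀ (k t k' t' : ℤ) (x y : P n), (¬ (k = 0 ∧ 0 ≤ t ∧ t % 2 = 0) ∨
      ¬ (k' = 0 ∧ 0 ≤ t' ∧ t' % 2 = 0)) →
      (if k = 0 ∧ 0 ≤ t ∧ t % 2 = 0 then homogeneousComponent (t / 2).toNat x else 0) *
      (if k' = 0 ∧ 0 ≤ t' ∧ t' % 2 = 0 then homogeneousComponent (t' / 2).toNat y else 0) = 0 := by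
    intro k t k' t' x y hh
    rcases hh with hh | hh
    · rw [if_neg hh, zero_mul]
    · rw [if_neg hh, mul_zero]
  have h2 : ∀ (k t k' t' : ℤ) (x y : P n) (d : ℕ), t + t' = 2 * (d : ℤ) →
      ((if k = 0 ∧ 0 ≤ t ∧ t % 2 = 0 then homogeneousComponent (t / 2).toNat x else 0) *
      (if k' = 0 ∧ 0 ≤ t' ∧ t' % 2 = 0 then homogeneousComponent (t' / 2).toNat y
        else 0)).IsHomogeneous d := by
    intro k t k' t' x y d hd
    by_cases hh : (¬ (k = 0 ∧ 0 ≤ t ∧ t % 2 = 0) ∨ ¬ (k' = 0 ∧ 0 ≤ t' ∧ t' % 2 = 0))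
    · rw [hz k t k' t' x y hh]
      exact isHomogeneous_zero _ _ _
    · push Not at hh
      obtain ⟨h1, h2⟩ := hh
      rw [if_pos h1, if_pos h2]
      have e3 : d = (t / 2).toNat + (t' / 2).toNat := by omega
      rw [e3]
      exact (homogeneousComponent_isHomogeneous _ _).mul (homogeneousComponent_isHomogeneous _ _)
  have hl : ∀ f x y : P n, (f * x) * y = x * (f * y) := fun f x y => by ring
  have hr : ∀ f x y : P n, x * (f * y) = f * (x * y) := fun f x y => by ring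
  exact {
    left := fun f x y => hl f x y
    rx := fun f x y => mul_assoc (G := P n) f x y
    ry := fun f x y => hr f x y
    diff := fun x y => (zero_mul (M₀ := P n) y).trans (mul_zero (M₀ := P n) x).symm
    gr0 := fun k t k' t' x y hk => hz k t k' t' x y (by omega)
    gr1 := fun k t k' t' x y hk => hz k t k' t' x y (by
      by_contra hc
      push Not at hc
      obtain ⟨⟨_, h2, h3⟩, _, h5, h6⟩ := hc
      exact hk ((t + t') / 2).toNat (by omega))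
    gr2 := fun k t k' t' x y d hk => h2 k t k' t' x y d hk
    perf := fun g hg => hp g hg
    perf' := fun g hg => hp' g hg
    nd := fun y hy => (one_mul (M := P n) y).symm.trans (hy (1 : P n))
    nd' := fun x hx => (mul_one (M := P n) x).symm.trans (hx (1 : P n)) }

theorem Dual.phi (ρ : Refl n) (ε : Bool) (h : Dual X Y) : Dual (Phi ρ ε X) (Phi ρ (!ε) Y) := by
  obtain ⟨b, hb⟩ := h
  exact ⟨phiPair67 ρ b, phi67 ρ ε hb⟩

theorem Dual.F (w : List (Refl n × Bool)) : Dual (F w) (RC.F (w.map (fun a => (a.1, !a.2)))) := by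
  induction w using List.reverseRecOn with
  | nil => exact Dual.unit n
  | append_singleton w a ih =>
    have e1 : RC.F (w ++ [a]) = Phi a.1 a.2 (RC.F w) := by
      unfold RC.F Fon
      rw [List.foldl_append]
      rfl
    have e2 : RC.F ((w ++ [a]).map (fun a => (a.1, !a.2))) =
        Phi a.1 (!a.2) (RC.F (w.map (fun a => (a.1, !a.2)))) := by
      unfold RC.F Fon
      rw [List.map_append, List.foldl_append]
      rfl
    rw [e1, e2]
    exact Dual.phi a.1 a.2 ih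

end RC
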