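import Mathlib
import Pool.Agent.EW.RC.H5
import Pool.Agent.EW.RC.H8a

/-!
# Block H8: duality (MP_d13a5e_al)
-/

open MvPolynomial

namespace RC

variable {n : ℕ} {X Y B : CB n}

/-- `Hom(B(m)[-k], X) = 0` in the homotopy category -/
def Van' (B X : CB n) (k m : ℤ) : Prop :=
  ∀ g : B.M →+ X.M, Hm B X k (-m) g → (∀ b, X.D (g b) = 0) →
    ∃ h : B.M →+ X.M, Hm B X (k - 1) (-m) h ∧ ∀ b, g b = X.D (h b)

private theorem IsPairing.flip' {b : X.M →+ Y.M →+ P n} (hb : IsPairing X Y b) :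
    IsPairing Y X b.flip where
  left f y x := (hb.left f x y).symm
  rx f y x := hb.ry f x y
  ry f y x := hb.rx f x y
  diff y x := (hb.diff x y).symm
  gr0 k t k' t' y x h := hb.gr0 k' t' k t x y (by omega)
  gr1 k t k' t' y x h := hb.gr1 k' t' k t x y (fun d hd => h d (by omega))
  gr2 k t k' t' y x d h := hb.gr2 k' t' k t x y d (by omega)
  perf g hg := hb.perf' g hg
  perf' g hg := hb.perf g hg
  nd x h := hb.nd' x h
  nd' y h := hb.nd y h

private theorem IsPairing.hc {b : X.M →+ Y.M →+ P n} (hb : IsPairing X Y b) (k t k' t' : ℤ)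
    (x : X.M) (y : Y.M) (d : ℕ) (hk : k + k' = 0) (ht : t + t' = 2 * (d : ℤ)) :
    b (X.pr k t x) (Y.pr k' t' y) = homogeneousComponent d (b x (Y.pr k' t' y)) := by
  classical
  obtain ⟨s, hs, hs0⟩ := X.exists_sum x
  have h1 : homogeneousComponent d (b x (Y.pr k' t' y)) =
      ∑ p ∈ s, homogeneousComponent d (b (X.pr p.1 p.2 x) (Y.pr k' t' y)) := by
    conv_lhs => rw [← hs]
    rw [map_sum, AddMonoidHom.finsetSum_apply, map_sum]
  have h2 : ∀ p ∈ s, homogeneousComponent d (b (X.pr p.1 p.2 x) (Y.pr k' t' y)) =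
      if p = (k, t) then b (X.pr k t x) (Y.pr k' t' y) else 0 := by
    rintro ⟨p1, p2⟩ _
    by_cases hp1 : p1 = k
    · by_cases hp2 : p2 = t
      · subst hp1 hp2
        rw [if_pos rfl]
        have h3 := hb.gr2 p1 p2 k' t' x y d ht
        rw [homogeneousComponent_of_mem h3, if_pos rfl]
      · rw [if_neg (fun h => hp2 (Prod.mk.inj h).2)]
        by_cases hd : ∃ d' : ℕ, p2 + t' = 2 * (d' : ℤ)
        · obtain ⟨d', hd'⟩ := hd
          have h3 := hb.gr2 p1 p2 k' t' x y d' hd'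
          rw [homogeneousComponent_of_mem h3, if_neg]
          intro hdd
          subst hdd
          omega
        · push Not at hd
          rw [hb.gr1 p1 p2 k' t' x y hd, map_zero]
    · rw [if_neg (fun h => hp1 (Prod.mk.inj h).1), hb.gr0 p1 p2 k' t' x y (by omega), map_zero]
  rw [h1, Finset.sum_congr rfl h2, Finset.sum_ite_eq']
  split_ifs with h3
  · rfl
  · rw [hs0 (k, t) h3, map_zero, AddMonoidHom.zero_apply]

private theorem IsPairing.hc' {b : X.M →+ Y.M →+ P n} (hb : IsPairing X Y b) (k t k' t' : ℤ)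
    (x : X.M) (y : Y.M) (d : ℕ) (hk : k + k' = 0) (ht : t + t' = 2 * (d : ℤ)) :
    b (X.pr k t x) (Y.pr k' t' y) = homogeneousComponent d (b (X.pr k t x) y) :=
  hb.flip'.hc k' t' k t y x d (by omega) (by omega)

private theorem IsPairing.ext_left {b : X.M →+ Y.M →+ P n} (hb : IsPairing X Y b) {x x' : X.M}
    (h : ∀ y, b x y = b x' y) : x = x' := by
  rw [← sub_eq_zero]
  refine hb.nd' _ fun y => ?_
  rw [map_sub, AddMonoidHom.sub_apply, h y, sub_self]

private theorem exists_adj {X Y B B' : CB n} {β : X.M →+ Y.M →+ P n} {γ : B'.M →+ B.M →+ P n}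
    (hβ : IsPairing X Y β) (hγ : IsPairing B' B γ) {p e : ℤ} {φ : B.M →+ X.M}
    (hφ : Hm B X p e φ) :
    ∃ ψ : Y.M →+ B'.M, Hm Y B' p e ψ ∧ ∀ y b, γ (ψ y) b = β (φ b) y := by
  classical
  have hex : ∀ y : Y.M, ∃ x : B'.M, ∀ b : B.M, β (φ b) y = γ x b := by
    intro y
    exact hγ.perf' ((β.flip y).comp φ) (fun f b => by
      change β (φ (B.r f b)) y = f * β (φ b) y
      rw [hφ.1.2, hβ.rx])
  choose ψ0 hψ0 using hex
  let ψ : Y.M →+ B'.M := AddMonoidHom.mk' ψ0 (fun y1 y2 => hγ.ext_left fun b => by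
    rw [← hψ0, map_add, map_add, AddMonoidHom.add_apply, hψ0, hψ0])
  have hψ : ∀ y b, γ (ψ y) b = β (φ b) y := fun y b => (hψ0 y b).symm
  refine ⟨ψ, ⟨⟨?_, ?_⟩, ?_⟩, hψ⟩
  · intro f y
    refine hγ.ext_left fun b => ?_
    rw [hψ, hγ.left, hψ, hφ.1.1, hβ.left]
  · intro f y
    refine hγ.ext_left fun b => ?_
    rw [hψ, hγ.rx, hψ, hβ.ry]
  · intro k t y
    refine hγ.ext_left fun b => ?_
    have key : γ (B'.pr (k + p) (t + e) (ψ y)) = γ (ψ (Y.pr k t y)) := by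
      refine B.hom_ext fun a c b1 => ?_
      rw [hψ, ← hφ.2]
      by_cases hk : k + p + a = 0
      · by_cases hd : ∃ d : ℕ, t + e + c = 2 * (d : ℤ)
        · obtain ⟨d, hd⟩ := hd
          rw [hγ.hc (k + p) (t + e) a c (ψ y) b1 d hk hd, hψ, ← hφ.2,
            hβ.hc' (a + p) (c + e) k t (φ b1) y d (by omega) (by omega)]
        · push Not at hd
          rw [hγ.gr1 _ _ _ _ _ _ hd, hβ.gr1 _ _ _ _ _ _ (fun d h => hd d (by omega))]
      · rw [hγ.gr0 _ _ _ _ _ _ hk, hβ.gr0 _ _ _ _ _ _ (by omega)]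
    rw [key]

theorem Van'.of_dual {k m : ℤ} (hXY : Dual X Y) (hB : Dual B B) (h : Van Y B (-k) (-m)) :
    Van' B X k m := by
  obtain ⟨β, hβ⟩ := hXY
  obtain ⟨γ, hγ⟩ := hB
  intro g hg hDg
  obtain ⟨g', hg', hgg⟩ := exists_adj hβ hγ hg
  have hg'' : Hm Y B (- -k) (-m) g' := by
    rw [neg_neg]
    exact hg'
  obtain ⟨f, hf, hff⟩ := h g' hg'' (fun y => hγ.ext_left fun b => by
    rw [hgg, ← hβ.diff, hDg, map_zero, map_zero, AddMonoidHom.zero_apply,
      AddMonoidHom.zero_apply])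
  rw [neg_neg] at hf
  obtain ⟨f', hf', hff'⟩ := exists_adj hγ hβ hf
  refine ⟨f', hf', fun b => hβ.ext_left fun y => ?_⟩
  rw [hβ.diff, hff', ← hff, hgg]

end RC
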