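import Mathlib
import Pool.Agent.EW.RC.H8

/-!
# Definitions for the blocks H9 (MP_d13a5e_al)
-/

open MvPolynomial

namespace RC

variable {n : ℕ}

/-- properties of the family of indecomposable objects `B r` (complexes in degree `0`) -/
structure Krs {ι : Type} (B : ι → CB n) : Prop where
  conc : ∀ r k t m, k ≠ 0 → (B r).pr k t m = 0
  D0 : ∀ r m, (B r).D m = 0
  nz : ∀ r, ∃ m : (B r).M, m ≠ 0
  neg : ∀ r q e (φ : (B r).M →+ (B q).M), e < 0 → Hm (B r) (B q) 0 e φ → φ = 0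
  iso : ∀ r q (φ : (B r).M →+ (B q).M), Hm (B r) (B q) 0 0 φ → φ ≠ 0 →
    ∃ ψ : (B q).M →+ (B r).M, Hm (B q) (B r) 0 0 ψ ∧ (∀ x, ψ (φ x) = x) ∧ ∀ y, φ (ψ y) = y

/-- a family `B_r(m_r)[-k_r]`, `r ∈ S`, of objects over `X` with orthogonal projections whose sum
is `e` -/
structure Fam {ι : Type} (B : ι → CB n) (k m : ι → ℤ) (X : CB n) (S : Finset ι)
    (e : X.M →+ X.M) (i : ∀ r, (B r).M →+ X.M) (p : ∀ r, X.M →+ (B r).M) : Prop where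
  hi : ∀ r ∈ S, Hm (B r) X (k r) (-m r) (i r)
  hp : ∀ r ∈ S, Hm X (B r) (-k r) (m r) (p r)
  pi : ∀ r ∈ S, ∀ x, p r (i r x) = x
  orth : ∀ r ∈ S, ∀ q ∈ S, r ≠ q → ∀ x, p q (i r x) = 0
  sum : ∀ x, ∑ r ∈ S, i r (p r x) = e x

end RC
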