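import Mathlib
import Pool.Agent.EW.MN2
import Pool.Agent.EW.RC.Defs3

/-!
# Objects as complexes in degree `0`; Kazhdan-Lusztig objects; signed words (MP_d13a5e_al)
-/

open MvPolynomial

namespace EW

variable [Dat]

open RC FR2

/-- the reflection of `R` given by `s` -/
noncomputable def rfs (s : Sg) : Refl Dat.n where
  σ := act (sw s)
  α := al 1 s
  c := Dat.cor s
  lin := al_homog 1 s
  ne := al_ne_zero trivial 1
  σX i := act_sw_X s i
  σα := act_sw_al s

theorem rmul_zero (O : Obj) (m : O.M) : O.rmul 0 m = 0 := by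
  ext1; funext i
  rw [Obj.rmul_val, map_zero, zero_mul]
  rfl

/-- The object `O`, with its grading shifted by `a`, as a complex in homological degree `0`. -/
noncomputable def oc (O : Obj) (a : ℤ) : CB Dat.n where
  M := O.M
  l := mkAct (fun f m => f • m) (fun f a b => smul_add f a b) (fun a => one_smul _ a)
    (fun f g a => mul_smul f g a) (fun f g a => add_smul f g a)
  r := mkAct (fun f m => O.rmul f m) (fun f a b => map_add _ a b) (fun a => O.rmul_one a)
    (fun f g a => O.rmul_mul f g a) (fun f g a => O.rmul_add f g a)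
  lr f g m := (map_smul (O.rmul g) f m).symm
  lrC c m := (rmul_C O c m).symm
  pr k t := mkEnd (fun m => if k = 0 ∧ 0 ≤ t + a ∧ (t + a) % 2 = 0 then
      cmp O ((t + a) / 2).toNat m else 0) (fun a b => by
        split_ifs
        · rw [map_add]
        · rw [add_zero])
  pr_pr k t k' t' m := by
    simp only [mkEnd_apply]
    by_cases h : k = 0 ∧ 0 ≤ t + a ∧ (t + a) % 2 = 0
    · rw [if_pos h]
      by_cases h' : k' = 0 ∧ 0 ≤ t' + a ∧ (t' + a) % 2 = 0
      · rw [if_pos h']
        by_cases ht : t = t'
        · subst ht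
          rw [if_pos ⟨h.1.trans h'.1.symm, rfl⟩, if_pos h, cmp_self (cmp_mem O _ m)]
        · rw [if_neg (fun hc => ht hc.2), cmp_ne (cmp_mem O _ m) (by omega)]
      · rw [if_neg h', map_zero]
        by_cases hc : k = k' ∧ t = t'
        · exact absurd ⟨hc.1 ▸ h.1, hc.2 ▸ h.2⟩ h'
        · rw [if_neg hc]
    · rw [if_neg h]
      split_ifs <;> rfl
  pr_fin m := by
    obtain ⟨N, hN⟩ := exists_sum O m
    refine Set.Finite.subset (Set.Finite.image (fun i : ℕ => ((0, 2 * (i : ℤ) - a) : ℤ × ℤ))
      (Finset.range N).finite_toSet) ?_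
    rintro ⟨k, t⟩ hp
    simp only [mkEnd_apply, Set.mem_ofPred_eq] at hp
    by_cases h : k = 0 ∧ 0 ≤ t + a ∧ (t + a) % 2 = 0
    · rw [if_pos h] at hp
      refine ⟨((t + a) / 2).toNat, ?_, ?_⟩
      · by_contra hcon
        apply hp
        rw [hN, map_sum]
        apply Finset.sum_eq_zero
        intro i hi
        apply cmp_ne (cmp_mem O _ m)
        rintro rfl
        exact hcon hi
      · refine Prod.ext h.1.symm ?_
        simp only
        omega
    · rw [if_neg h] at hp
      exact absurd rfl hp
  pr_ext m h := by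
    obtain ⟨N, hN⟩ := exists_sum O m
    rw [hN]
    apply Finset.sum_eq_zero
    intro i _
    have := h 0 (2 * i - a)
    simp only [mkEnd_apply] at this
    rw [if_pos ⟨trivial, by omega, by omega⟩] at this
    have e : ((2 * (i : ℤ) - a + a) / 2).toNat = i := by omega
    rw [e] at this
    exact this
  pr_lX k t j m := by
    simp only [mkAct_apply, mkEnd_apply]
    by_cases h : k = 0 ∧ 0 ≤ t + a ∧ (t + a) % 2 = 0
    · rw [if_pos h, if_pos (by omega)]
      have e : ((t + 2 + a) / 2).toNat = ((t + a) / 2).toNat + 1 := by omega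
      rw [e]
      ext1; funext i
      exact EW.hcomp_mul_succ (isHomogeneous_X ℝ j) _ _
    · rw [if_neg h, smul_zero]
      split_ifs with h'
      · have e : ((t + 2 + a) / 2).toNat = 0 := by omega
        rw [e]
        ext1; funext i
        exact EW.hcomp_mul_lt (isHomogeneous_X ℝ j) _ _ (by norm_num)
      · rfl
  pr_rX k t j m := by
    simp only [mkAct_apply, mkEnd_apply]
    by_cases h : k = 0 ∧ 0 ≤ t + a ∧ (t + a) % 2 = 0
    · rw [if_pos h, if_pos (by omega)]
      have e : ((t + 2 + a) / 2).toNat = ((t + a) / 2).toNat + 1 := by omega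
      rw [e]
      ext1; funext i
      exact EW.hcomp_mul_succ (act_lin _ _) _ _
    · rw [if_neg h, map_zero]
      split_ifs with h'
      · have e : ((t + 2 + a) / 2).toNat = 0 := by omega
        rw [e]
        ext1; funext i
        exact EW.hcomp_mul_lt (act_lin _ _) _ _ (by norm_num)
      · rfl
  pr_lC k t c m := by
    simp only [mkAct_apply, mkEnd_apply]
    split_ifs
    · ext1; funext i
      exact homogeneousComponent_C_mul _ _ _
    · rw [smul_zero]
  D := 0
  D_l f m := by simp
  D_r f m := by simp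
  D_D m := rfl
  D_pr k t m := by simp

@[simp] theorem oc_l (O : Obj) (a : ℤ) (f : Rg) (m : O.M) : (oc O a).l f m = f • m := rfl

@[simp] theorem oc_r (O : Obj) (a : ℤ) (f : Rg) (m : O.M) : (oc O a).r f m = O.rmul f m := rfl

@[simp] theorem oc_D (O : Obj) (a : ℤ) (m : O.M) : (oc O a).D m = 0 := rfl

theorem oc_pr (O : Obj) (a k t : ℤ) (m : O.M) : (oc O a).pr k t m =
    if k = 0 ∧ 0 ≤ t + a ∧ (t + a) % 2 = 0 then cmp O ((t + a) / 2).toNat m else 0 := rfl

/-- a chosen Kazhdan-Lusztig object -/
noncomputable def KB (z : Wg) : KLObj z := Classical.choice (full z trivial).ex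

/-- the indecomposable Soergel bimodule `B_z`, as a complex in degree `0` -/
noncomputable def KLB (z : Wg) : CB Dat.n := oc (KB z).O (len z)

/-- the Rouquier complex of a signed word; the head of the list is the last letter -/
noncomputable def Fr : List (Sg × Bool) → CB Dat.n
  | [] => unit Dat.n
  | a :: l => Phi (rfs a.1) a.2 (Fr l)

/-- positive words -/
noncomputable def FP (l : List Sg) : CB Dat.n := Fr (l.map (fun s => (s, true)))

theorem FP_nil : FP [] = unit Dat.n := rfl

theorem FP_cons (s : Sg) (l : List Sg) : FP (s :: l) = Phi (rfs s) true (FP l) := rfl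

/-- the generator `1 ⊗ ⋯ ⊗ 1` of `F_l` -/
noncomputable def cg : (l : List Sg) → (FP l).M
  | [] => (1 : P Dat.n)
  | _ :: l => (cg l, 0, 0)

/-- `f` vanishes outside of the homological degree `k` -/
def Sp {n : ℕ} {X : CB n} {N : Type} [AddCommGroup N] (k : ℤ) (f : X.M →+ N) : Prop :=
  ∀ k' t m, k' ≠ k → f (X.pr k' t m) = 0

end EW
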