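import Mathlib
import Pool.Agent.EW.RC.Oc
import Pool.Agent.EW.RC.H0

/-!
# Block S0a: bimodule maps and degrees (MP_d13a5e_al)
-/

open MvPolynomial

namespace EW

variable [Dat]

open RC FR2

/-- an additive map between the total bimodules which is a bimodule homomorphism is given by a
`BiMap` -/
theorem biMap_of_isBi {O P : Obj} {a b : ℤ} {φ : O.M →+ P.M} (h : IsBi (oc O a) (oc P b) φ) :
    ∃ ψ : O.M →ₗ[Rg] P.M, BiMap ψ ∧ ∀ x, ψ x = φ x := by
  refine ⟨{ toFun := φ, map_add' := fun x y => map_add φ x y,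
            map_smul' := fun f m => h.1 f m }, ?_, fun x => rfl⟩
  intro j m
  exact h.2 (X j) m

theorem isBi_of_biMap {O P : Obj} {a b : ℤ} {ψ : O.M →ₗ[Rg] P.M} (h : BiMap ψ) :
    IsBi (oc O a) (oc P b) ψ.toAddMonoidHom := by
  have hl : ∀ (f : Rg) (m : O.M), ψ (f • m) = f • ψ m := fun f m => map_smul ψ f m
  refine ⟨hl, fun f m => ?_⟩
  have key : ∀ f : Rg, ∀ m : O.M, ψ (O.rmul f m) = P.rmul f (ψ m) := by
    intro f
    induction f using MvPolynomial.induction_on with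
    | C c =>
      intro m
      have h1 : O.rmul (C c) m = (C c : Rg) • m := by
        ext1; funext i; simp
      have h2 : P.rmul (C c) (ψ m) = (C c : Rg) • ψ m := by
        ext1; funext i; simp
      rw [h1, h2, map_smul]
    | add p q hp hq =>
      intro m
      rw [O.rmul_add, P.rmul_add, map_add, hp, hq]
    | mul_X p j hp =>
      intro m
      rw [O.rmul_mul, P.rmul_mul, hp, h]
  exact key f m

/-- the component of degree `c` of `φ m` -/
private theorem cmp_map {O P : Obj} {φ : O.M →ₗ[Rg] P.M} {e : ℤ} (he : DegMap φ e) (m : O.M)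
    {c : ℤ} (hc : 0 ≤ c) : cmp P c.toNat (φ m) =
      if 0 ≤ c - e then φ (cmp O (c - e).toNat m) else 0 := by
  obtain ⟨N, hN⟩ := exists_sum O m
  have h1 : ∀ d ∈ Finset.range N, cmp P c.toNat (φ (cmp O d m)) =
      if (d : ℤ) = c - e then φ (cmp O d m) else 0 := by
    intro d _
    obtain ⟨k1, k2⟩ := he d (cmp O d m) (cmp_mem O d m)
    by_cases hd : (d : ℤ) + e < 0
    · rw [k2 hd, map_zero]
      split_ifs <;> rfl
    · rw [not_lt] at hd
      obtain ⟨j, hj⟩ := Int.eq_ofNat_of_zero_le hd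
      have k3 := k1 j hj.symm
      by_cases hdc : (d : ℤ) = c - e
      · rw [if_pos hdc]
        have : c.toNat = j := by omega
        rw [this, cmp_self k3]
      · rw [if_neg hdc]
        exact cmp_ne k3 (by omega)
  have h2 : cmp P c.toNat (φ m) =
      ∑ d ∈ Finset.range N, if (d : ℤ) = c - e then φ (cmp O d m) else 0 := by
    conv_lhs => rw [hN, map_sum, map_sum]
    exact Finset.sum_congr rfl h1
  rw [h2]
  by_cases h0 : 0 ≤ c - e
  · rw [if_pos h0]
    obtain ⟨j, hj⟩ := Int.eq_ofNat_of_zero_le h0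
    have hj' : (c - e).toNat = j := by omega
    rw [hj']
    have h3 : ∀ d : ℕ, ((d : ℤ) = c - e) ↔ d = j := fun d => by omega
    simp only [h3]
    rw [Finset.sum_ite_eq']
    split_ifs with hm
    · rfl
    · have h4 : cmp O j m = 0 := by
        conv_lhs => rw [hN, map_sum]
        apply Finset.sum_eq_zero
        intro d hd
        apply cmp_ne (cmp_mem O d m)
        rintro rfl
        exact hm hd
      rw [h4, map_zero]
  · rw [if_neg h0]
    apply Finset.sum_eq_zero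
    intro d _
    rw [if_neg (by omega)]

/-- degrees: `DegMap φ e` corresponds to bidegree `(0, a - b + 2e)` -/
theorem hm_of_degMap {O P : Obj} {a b : ℤ} {ψ : O.M →ₗ[Rg] P.M} (h : BiMap ψ) {e : ℤ}
    (he : DegMap ψ e) : Hm (oc O a) (oc P b) 0 (a - b + 2 * e) ψ.toAddMonoidHom := by
  refine ⟨isBi_of_biMap h, fun k t m => ?_⟩
  change (if k + 0 = 0 ∧ 0 ≤ t + (a - b + 2 * e) + b ∧ (t + (a - b + 2 * e) + b) % 2 = 0 then
    cmp P ((t + (a - b + 2 * e) + b) / 2).toNat (ψ m) else 0) =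
    ψ (if k = 0 ∧ 0 ≤ t + a ∧ (t + a) % 2 = 0 then cmp O ((t + a) / 2).toNat m else 0)
  by_cases hk : k = 0
  · by_cases hpar : (t + a) % 2 = 0
    · by_cases h1 : 0 ≤ t + (a - b + 2 * e) + b
      · rw [if_pos ⟨by omega, h1, by omega⟩, cmp_map he m (by omega)]
        by_cases h2 : 0 ≤ t + a
        · rw [if_pos (by omega), if_pos ⟨hk, h2, hpar⟩]
          have e1 : ((t + (a - b + 2 * e) + b) / 2 - e).toNat = ((t + a) / 2).toNat := by omega
          rw [e1]
        · rw [if_neg (by omega), if_neg (fun h' => h2 h'.2.1), map_zero]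
      · rw [if_neg (fun h' => h1 h'.2.1)]
        by_cases h2 : 0 ≤ t + a
        · rw [if_pos ⟨hk, h2, hpar⟩]
          exact ((he _ _ (cmp_mem O ((t + a) / 2).toNat m)).2 (by omega)).symm
        · rw [if_neg (fun h' => h2 h'.2.1), map_zero]
    · rw [if_neg (fun h' => hpar (by omega)), if_neg (fun h' => hpar h'.2.2), map_zero]
  · rw [if_neg (fun h' => hk (by omega)), if_neg (fun h' => hk h'.1), map_zero]

theorem degMap_of_hm {O P : Obj} {a b : ℤ} {ψ : O.M →ₗ[Rg] P.M} {e : ℤ}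
    (h : Hm (oc O a) (oc P b) 0 (a - b + 2 * e) ψ.toAddMonoidHom) : DegMap ψ e := by
  intro i m hm
  have h1 := h.2 0 (2 * i - a) m
  change (if (0 : ℤ) + 0 = 0 ∧ 0 ≤ 2 * (i : ℤ) - a + (a - b + 2 * e) + b ∧
    (2 * (i : ℤ) - a + (a - b + 2 * e) + b) % 2 = 0 then
    cmp P ((2 * (i : ℤ) - a + (a - b + 2 * e) + b) / 2).toNat (ψ m) else 0) =
    ψ (if (0 : ℤ) = 0 ∧ 0 ≤ 2 * (i : ℤ) - a + a ∧ (2 * (i : ℤ) - a + a) % 2 = 0 then
      cmp O ((2 * (i : ℤ) - a + a) / 2).toNat m else 0) at h1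
  rw [if_pos (⟨rfl, by omega, by omega⟩ :
    (0 : ℤ) = 0 ∧ 0 ≤ 2 * (i : ℤ) - a + a ∧ (2 * (i : ℤ) - a + a) % 2 = 0)] at h1
  have e1 : ((2 * (i : ℤ) - a + a) / 2).toNat = i := by omega
  rw [e1, cmp_self hm] at h1
  refine ⟨fun j hj => ?_, fun hneg => ?_⟩
  · rw [if_pos ⟨by omega, by omega, by omega⟩] at h1
    have e2 : ((2 * (i : ℤ) - a + (a - b + 2 * e) + b) / 2).toNat = j := by omega
    rw [e2] at h1
    rw [← h1]
    exact cmp_mem P j (ψ m)
  · rw [if_neg (by omega)] at h1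
    exact h1.symm

/-- a homogeneous homomorphism of bidegree `(0,e)` with `e - a + b` odd vanishes -/
theorem hm_odd {O P : Obj} {a b e : ℤ} {φ : O.M →+ P.M} (h : Hm (oc O a) (oc P b) 0 e φ)
    (ho : (e - a + b) % 2 ≠ 0) : φ = 0 := by
  ext1 m
  obtain ⟨N, hN⟩ := exists_sum O m
  rw [hN, map_sum, AddMonoidHom.zero_apply]
  apply Finset.sum_eq_zero
  intro i _
  have h1 := h.2 0 (2 * i - a) m
  change (if (0 : ℤ) + 0 = 0 ∧ 0 ≤ 2 * (i : ℤ) - a + e + b ∧
    (2 * (i : ℤ) - a + e + b) % 2 = 0 then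
    cmp P ((2 * (i : ℤ) - a + e + b) / 2).toNat (φ m) else 0) =
    φ (if (0 : ℤ) = 0 ∧ 0 ≤ 2 * (i : ℤ) - a + a ∧ (2 * (i : ℤ) - a + a) % 2 = 0 then
      cmp O ((2 * (i : ℤ) - a + a) / 2).toNat m else 0) at h1
  rw [if_pos (⟨rfl, by omega, by omega⟩ :
    (0 : ℤ) = 0 ∧ 0 ≤ 2 * (i : ℤ) - a + a ∧ (2 * (i : ℤ) - a + a) % 2 = 0)] at h1
  have e1 : ((2 * (i : ℤ) - a + a) / 2).toNat = i := by omega
  rw [e1, if_neg (fun h' => ho (by omega))] at h1
  exact h1.symm

end EW
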