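import Mathlib
import Pool.Agent.EW.RC.Oc
import Pool.Agent.EW.RC.S0a

/-!
# Block S0: the Bott-Samelson object inside of `F_l` (MP_d13a5e_al)
-/

open MvPolynomial

namespace EW

variable [Dat]

open RC FR2

/-- the generator of `BS l` -/
noncomputable def bg : (l : List Sg) → (BS l).M
  | [] => (⟨fun _ => 1, trivial⟩ : Re.M)
  | s :: l => el s (bg l) 0

/-- components of an element of `θ_s O` -/
private theorem exists_c1_6 (s : Sg) (O : Obj) : ∃ φ : (theta s O).M →ₗ[Rg] O.M,
    ∀ a b : O.M, φ (el s a b) = a := by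
  obtain ⟨φ, h⟩ := exists_lin_of_el (s := s) (O := O) trivial (LinearMap.id : O.M →ₗ[Rg] O.M) 0
  exact ⟨φ, fun a b => by rw [h]; simp⟩

private theorem exists_c2_6 (s : Sg) (O : Obj) : ∃ φ : (theta s O).M →ₗ[Rg] O.M,
    ∀ a b : O.M, φ (el s a b) = b := by
  obtain ⟨φ, h⟩ := exists_lin_of_el (s := s) (O := O) trivial (0 : O.M →ₗ[Rg] O.M) LinearMap.id
  exact ⟨φ, fun a b => by rw [h]; simp⟩

/-- right multiplication on `θ_s O` -/
private theorem rmul_el6 (s : Sg) {O : Obj} (f : Rg) (a b : O.M) :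
    (theta s O).rmul f (el s a b) =
      el s (O.rmul ((rfs s).pl f) a + O.rmul (al 1 s * al 1 s * (rfs s).mi f) b)
        (O.rmul ((rfs s).mi f) a + O.rmul ((rfs s).pl f) b) := by
  have hpl : act (sw s) ((rfs s).pl f) = (rfs s).pl f := (rfs s).σ_pl f
  have hmi : act (sw s) ((rfs s).mi f) = (rfs s).mi f := (rfs s).σ_mi f
  have hf : f = (rfs s).pl f + (rfs s).mi f * al 1 s := (rfs s).pl_add_mi f
  have h1 : (theta s O).rmul f (el s a b) =
      (theta s O).rmul ((rfs s).pl f) (el s a b) +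
        (theta s O).rmul ((rfs s).mi f) ((theta s O).rmul (al 1 s) (el s a b)) := by
    rw [← Obj.rmul_mul, ← Obj.rmul_add, ← hf]
  rw [h1, rmul_el_inv trivial hpl, rmul_el_al trivial, rmul_el_inv trivial hmi, ← el_add,
    ← Obj.rmul_mul, mul_comm ((rfs s).mi f) (al 1 s * al 1 s),
    add_comm (O.rmul ((rfs s).pl f) b)]

private theorem unit_pr6 (k t : ℤ) (m : P Dat.n) (hk : k ≠ 0) :
    (RC.unit Dat.n).pr k t m = (0 : P Dat.n) := by
  change (if k = 0 ∧ 0 ≤ t ∧ t % 2 = 0 then homogeneousComponent (t / 2).toNat m else 0) = 0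
  rw [if_neg (fun h => hk h.1)]

private theorem el_zero6 (s : Sg) (O : Obj) : el s (0 : O.M) 0 = 0 := by
  ext1
  funext p
  rw [el_val]
  change (0 : Rg) + _ * 0 = 0
  rw [mul_zero, add_zero]

private theorem emb_step6 (s : Sg) (O : Obj) (X : CB Dat.n) (e : O.M →+ X.M)
    (hl : ∀ (f : Rg) (m : O.M), e (f • m) = X.l f (e m))
    (hr : ∀ (f : Rg) (m : O.M), e (O.rmul f m) = X.r f (e m)) {g : O.M} {c : X.M}
    (hg : e g = c) (hk : ∀ m k t, k ≠ 0 → X.pr k t (e m) = 0) :
    ∃ e' : (theta s O).M →+ (Phi (rfs s) true X).M,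
      IsBi (oc (theta s O) 0) (Phi (rfs s) true X) e' ∧ e' (el s g 0) = (c, 0, 0) ∧
      ∀ m k t, k ≠ 0 → (Phi (rfs s) true X).pr k t (e' m) = 0 := by
  obtain ⟨c1, h1⟩ := exists_c1_6 s O
  obtain ⟨c2, h2⟩ := exists_c2_6 s O
  refine ⟨AddMonoidHom.mk' (fun m => ((e (c1 m), e (c2 m), 0) : X.M × X.M × X.M))
    (fun a b => Prod.ext ?_ (Prod.ext ?_ ?_)), ⟨?_, ?_⟩, ?_, ?_⟩
  · exact (congrArg e (map_add c1 a b)).trans (map_add e _ _)
  · exact (congrArg e (map_add c2 a b)).trans (map_add e _ _)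
  · exact (add_zero (0 : X.M)).symm
  · intro f m
    have k1 : ∀ m : (theta s O).M, e (c1 (f • m)) = X.l f (e (c1 m)) := by
      intro m
      rw [map_smul]
      exact hl f (c1 m)
    have k2 : ∀ m : (theta s O).M, e (c2 (f • m)) = X.l f (e (c2 m)) := by
      intro m
      rw [map_smul]
      exact hl f (c2 m)
    exact Prod.ext (k1 m) (Prod.ext (k2 m) (map_zero (X.l f)).symm)
  · intro f m
    obtain ⟨a, b, rfl⟩ := el_surj m
    have k1 : e (c1 ((theta s O).rmul f (el s a b))) =
        X.r ((rfs s).pl f) (e (c1 (el s a b))) +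
          X.r ((rfs s).α * (rfs s).α * (rfs s).mi f) (e (c2 (el s a b))) := by
      rw [rmul_el6, h1, h1, h2, map_add]
      exact congrArg₂ (· + ·) (hr _ _) (hr _ _)
    have k2 : e (c2 ((theta s O).rmul f (el s a b))) =
        X.r ((rfs s).mi f) (e (c1 (el s a b))) + X.r ((rfs s).pl f) (e (c2 (el s a b))) := by
      rw [rmul_el6, h1, h2, h2, map_add]
      exact congrArg₂ (· + ·) (hr _ _) (hr _ _)
    exact Prod.ext k1 (Prod.ext k2 (map_zero (X.r f)).symm)
  · have k1 : e (c1 (el s g 0)) = c := by rw [h1, hg]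
    have k2 : e (c2 (el s g 0)) = 0 := by rw [h2, map_zero]
    exact Prod.ext k1 (Prod.ext k2 rfl)
  · intro m k t hk0
    exact Prod.ext (hk _ _ _ hk0) (Prod.ext (hk _ _ _ hk0) (map_zero (X.pr (k - 1) (t + 1))))

private theorem proj_step6 (s : Sg) (O : Obj) (X : CB Dat.n) (q : X.M →+ O.M)
    (hl : ∀ (f : Rg) (m : X.M), q (X.l f m) = f • q m)
    (hr : ∀ (f : Rg) (m : X.M), q (X.r f m) = O.rmul f (q m)) {g : O.M} {c : X.M}
    (hg : q c = g) (hk : ∀ k t m, k ≠ 0 → q (X.pr k t m) = 0) :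
    ∃ q' : (Phi (rfs s) true X).M →+ (theta s O).M,
      IsBi (Phi (rfs s) true X) (oc (theta s O) 0) q' ∧ q' (c, 0, 0) = el s g 0 ∧
      Sp (X := Phi (rfs s) true X) 0 q' := by
  refine ⟨AddMonoidHom.mk' (fun m : X.M × X.M × X.M => el s (q m.1) (q m.2.1))
    ?_, ⟨?_, ?_⟩, ?_, ?_⟩
  · intro a b
    have k1 : el s (q (a.1 + b.1)) (q (a.2.1 + b.2.1)) =
        el s (q a.1) (q a.2.1) + el s (q b.1) (q b.2.1) := by
      rw [map_add, map_add, el_add]
    exact k1
  · rintro f ⟨a, b, c⟩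
    have k1 : el s (q (X.l f a)) (q (X.l f b)) = f • el s (q a) (q b) := by
      rw [hl, hl, el_smul]
    exact k1
  · rintro f ⟨a, b, c⟩
    have k1 : el s (q (X.r ((rfs s).pl f) a + X.r ((rfs s).α * (rfs s).α * (rfs s).mi f) b))
          (q (X.r ((rfs s).mi f) a + X.r ((rfs s).pl f) b)) =
        (theta s O).rmul f (el s (q a) (q b)) := by
      rw [rmul_el6, map_add, map_add, hr, hr, hr, hr]
      rfl
    exact k1
  · have k1 : el s (q c) (q 0) = el s g 0 := by rw [hg, map_zero]
    exact k1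
  · rintro k t ⟨a, b, c⟩ hk0
    have k1 : el s (q (X.pr k (t + 1) a)) (q (X.pr k (t - 1) b)) = 0 := by
      rw [hk _ _ _ hk0, hk _ _ _ hk0, el_zero6]
    exact k1

private theorem conc_step6 (s : Sg) (X : CB Dat.n) (N : ℕ)
    (ih : ∀ (k t : ℤ) (m : X.M), k < 0 ∨ (N : ℤ) < k → X.pr k t m = 0) (k t : ℤ)
    (m : (Phi (rfs s) true X).M) (h : k < 0 ∨ ((N + 1 : ℕ) : ℤ) < k) :
    (Phi (rfs s) true X).pr k t m = 0 := by
  push_cast at h
  have h1 : X.pr k (t + 1) m.1 = 0 := ih _ _ _ (by omega)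
  have h2 : X.pr k (t - 1) m.2.1 = 0 := ih _ _ _ (by omega)
  have h3 : X.pr (k - 1) (t + 1) m.2.2 = 0 := ih _ _ _ (by omega)
  exact Prod.ext h1 (Prod.ext h2 h3)

private theorem cg_step6 (s : Sg) (X : CB Dat.n) (N : ℕ) (c : X.M)
    (ih : X.pr 0 (-(N : ℤ)) c = c) :
    (Phi (rfs s) true X).pr 0 (-((N + 1 : ℕ) : ℤ)) ((c, 0, 0) : X.M × X.M × X.M) =
      ((c, 0, 0) : X.M × X.M × X.M) := by
  have e : -((N + 1 : ℕ) : ℤ) + 1 = -(N : ℤ) := by
    push_cast
    ring
  have h1 : X.pr 0 (-((N + 1 : ℕ) : ℤ) + 1) c = c := by rw [e, ih]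
  exact Prod.ext h1 (Prod.ext (map_zero (X.pr 0 (-((N + 1 : ℕ) : ℤ) - 1)))
    (map_zero (X.pr (0 - 1) (-((N + 1 : ℕ) : ℤ) + 1))))

/-- the inclusion `BS l → F_l` -/
theorem exists_emb (l : List Sg) : ∃ e : (BS l).M →+ (FP l).M,
    IsBi (oc (BS l) 0) (FP l) e ∧ e (bg l) = cg l ∧
    (∀ m k t, k ≠ 0 → (FP l).pr k t (e m) = 0) := by
  induction l with
  | nil =>
    refine ⟨AddMonoidHom.mk' (fun m => (m.1 () : P Dat.n)) (fun a b => rfl), ⟨?_, ?_⟩, rfl, ?_⟩
    · intro f m
      rfl
    · intro f m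
      have k1 : act 1 f * m.1 () = f * m.1 () := by rw [act_one]
      exact k1
    · intro m k t hk
      exact unit_pr6 k t (m.1 ()) hk
  | cons s l ih =>
    obtain ⟨e, ⟨hl, hr⟩, hg, hk⟩ := ih
    exact emb_step6 s (BS l) (FP l) e hl hr hg hk

/-- the projection `F_l → BS l` onto the part of homological degree `0` -/
theorem exists_proj (l : List Sg) : ∃ q : (FP l).M →+ (BS l).M,
    IsBi (FP l) (oc (BS l) 0) q ∧ q (cg l) = bg l ∧
    Sp (X := FP l) 0 q := by
  induction l with
  | nil =>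
    refine ⟨AddMonoidHom.mk' (fun m : P Dat.n => (⟨fun _ => m, trivial⟩ : Re.M))
      (fun a b => rfl), ⟨?_, ?_⟩, rfl, ?_⟩
    · intro f m
      rfl
    · intro f m
      have k1 : ∀ m : P Dat.n, (⟨fun _ => f * m, trivial⟩ : Re.M) =
          Re.rmul f ⟨fun _ => m, trivial⟩ := by
        intro m
        ext1
        funext i
        rw [Obj.rmul_val]
        change f * m = act 1 f * m
        rw [act_one]
      exact k1 m
    · intro k t m hk
      have h0 : (RC.unit Dat.n).pr k t m = (0 : P Dat.n) := unit_pr6 k t m hk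
      have h1 : ∀ p : P Dat.n, p = 0 → (⟨fun _ => p, trivial⟩ : Re.M) = 0 := by
        rintro p rfl
        rfl
      exact h1 _ h0
  | cons s l ih =>
    obtain ⟨q, ⟨hl, hr⟩, hg, hk⟩ := ih
    exact proj_step6 s (BS l) (FP l) q hl hr hg (fun k t m h => hk k t m h)

/-- the degree of the generator -/
theorem cg_pr (l : List Sg) : (FP l).pr 0 (-(l.length : ℤ)) (cg l) = cg l := by
  induction l with
  | nil =>
    have k1 : (if (0 : ℤ) = 0 ∧ 0 ≤ (-((0 : ℕ) : ℤ)) ∧ (-((0 : ℕ) : ℤ)) % 2 = 0 then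
        homogeneousComponent ((-((0 : ℕ) : ℤ)) / 2).toNat (1 : P Dat.n) else 0) = 1 := by
      rw [if_pos (by simp)]
      have h : (-((0 : ℕ) : ℤ) / 2).toNat = 0 := by simp
      rw [h]
      have h1 : (1 : P Dat.n).IsHomogeneous 0 := isHomogeneous_one _ _
      rw [homogeneousComponent_of_mem h1, if_pos rfl]
    exact k1
  | cons s l ih => exact cg_step6 s (FP l) l.length (cg l) ih

/-- `F_l` lives in homological degrees `0 ≤ k ≤ |l|` -/
theorem FP_conc (l : List Sg) (k t : ℤ) (m : (FP l).M) (h : k < 0 ∨ (l.length : ℤ) < k) :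
    (FP l).pr k t m = 0 := by
  induction l generalizing k t with
  | nil =>
    refine unit_pr6 k t m ?_
    rintro rfl
    rcases h with h | h
    · exact lt_irrefl _ h
    · exact lt_irrefl _ h
  | cons s l ih => exact conc_step6 s (FP l) l.length (fun k t m h => ih k t m h) k t m h

/-- the positions over which `BS l` lives have length at most `|l|` -/
theorem BS_len (l : List Sg) (i : (BS l).I) : len ((BS l).π i) ≤ l.length := by
  induction l with
  | nil =>
    change len (1 : Wg) ≤ 0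
    rw [len_one]
  | cons s l ih =>
    obtain ⟨j, b⟩ := i
    have h := ih j
    rw [List.length_cons]
    cases b
    · change len ((BS l).π j) ≤ l.length + 1
      omega
    · change len ((BS l).π j * sw s) ≤ l.length + 1
      have h2 : len ((BS l).π j * sw s) = len ((BS l).π j) + 1 ∨
          len ((BS l).π j) = len ((BS l).π j * sw s) + 1 := Dat.len_mul_sr _ s
      omega

/-- the length of a product is at most the number of factors -/
private theorem len_wprod_le6 (l : List Sg) : len (wprod l) ≤ l.length := by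
  induction l with
  | nil =>
    change len (1 : Wg) ≤ 0
    rw [len_one]
  | cons s l ih =>
    rw [List.length_cons]
    change len (wprod l * sw s) ≤ l.length + 1
    have h2 : len (wprod l * sw s) = len (wprod l) + 1 ∨
        len (wprod l) = len (wprod l * sw s) + 1 := Dat.len_mul_sr _ s
    omega

private theorem red_tail6 {s : Sg} {l : List Sg} (h : len (wprod (s :: l)) = (s :: l).length) :
    len (wprod l) = l.length ∧ Up (wprod l) (wprod l * sw s) := by
  have h1 := len_wprod_le6 l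
  rw [List.length_cons] at h
  change len (wprod l * sw s) = l.length + 1 at h
  have h2 : len (wprod l * sw s) = len (wprod l) + 1 ∨
      len (wprod l) = len (wprod l * sw s) + 1 := Dat.len_mul_sr _ s
  refine ⟨by omega, ?_⟩
  rw [up_sw_iff trivial trivial]
  omega

private theorem BS_mem_Le6 (l : List Sg) (hl : len (wprod l) = l.length) (i : (BS l).I) :
    (BS l).π i ∈ Le (Up) (wprod l) := by
  induction l with
  | nil => exact Relation.ReflTransGen.refl
  | cons s l ih =>
    obtain ⟨h1, h2⟩ := red_tail6 hl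
    obtain ⟨j, b⟩ := i
    cases b
    · exact DC0.Le_sub h2 (ih h1 j)
    · exact DC0.Le_sub' trivial trivial h2 (ih h1 j)

/-- the generator is the constant function `1` -/
private theorem bg_val6 (l : List Sg) (i : (BS l).I) : (bg l).1 i = 1 := by
  induction l with
  | nil => rfl
  | cons s l ih =>
    change (bg l).1 i.1 + al ((theta s (BS l)).π i) s * (0 : Rg) = 1
    rw [ih i.1, mul_zero, add_zero]

private theorem bg_mem6 (l : List Sg) : bg l ∈ (BS l).dg 0 := by
  intro i
  rw [bg_val6]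
  exact isHomogeneous_one _ _

/-- the position over the product of the word -/
private theorem BS_top6 (l : List Sg) : ∃ i : (BS l).I, (BS l).π i = wprod l := by
  induction l with
  | nil => exact ⟨(), rfl⟩
  | cons s l ih =>
    obtain ⟨i, hi⟩ := ih
    refine ⟨(i, true), ?_⟩
    change (BS l).π i * sw s = wprod l * sw s
    rw [hi]

private theorem BS_uniq6 (l : List Sg) (hl : len (wprod l) = l.length) (i j : (BS l).I)
    (hi : (BS l).π i = wprod l) (hj : (BS l).π j = wprod l) : i = j := by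
  induction l with
  | nil => exact Subsingleton.elim (α := Unit) i j
  | cons s l ih =>
    obtain ⟨h1, h2⟩ := red_tail6 hl
    have key : ∀ p : (BS (s :: l)).I, (BS (s :: l)).π p = wprod (s :: l) →
        p.2 = true ∧ (BS l).π p.1 = wprod l := by
      rintro ⟨p, b⟩ hp
      cases b
      · exfalso
        change (BS l).π p = wprod l * sw s at hp
        have h3 := BS_len l p
        have h4 : len (wprod l * sw s) = (s :: l).length := hl
        rw [hp, h4, List.length_cons] at h3
        omega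
      · refine ⟨rfl, ?_⟩
        change (BS l).π p * sw s = wprod l * sw s at hp
        exact mul_right_cancel hp
    obtain ⟨a1, a2⟩ := key i hi
    obtain ⟨b1, b2⟩ := key j hj
    exact Prod.ext (ih h1 i.1 j.1 a2 b2) (a1.trans b1.symm)

/-- for a reduced word the positions are in `{≤ wprod l}` -/
theorem BS_le (l : List Sg) (hl : len (wprod l) = l.length) (m : (BS l).M) (i : (BS l).I)
    (hi : (BS l).π i ∉ Le (Up) (wprod l)) : m.1 i = 0 := by
  exact absurd (BS_mem_Le6 l hl i) hi

/-- lifting property of `BS l` for a reduced word -/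
theorem BS_lift (l : List Sg) (hl : len (wprod l) = l.length) :
    LiftProp (wprod l) (BS l) (bg l) := by
  induction l with
  | nil => exact LiftProp_Re
  | cons s l ih =>
    obtain ⟨h1, h2⟩ := red_tail6 hl
    refine LiftProp.theta (x := wprod l) trivial trivial h2 (Nice_BS (fun _ _ => trivial)) (ih h1)
      (bg_mem6 l) (fun m i hi => BS_le l h1 m i hi) ?_ ?_
    · intro m
      obtain ⟨i0, hi0⟩ := BS_top6 l
      refine ⟨m.1 i0, fun i hi => ?_⟩
      rw [bg_val6, mul_one, BS_uniq6 l h1 i i0 hi hi0]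
    · obtain ⟨i0, hi0⟩ := BS_top6 l
      refine ⟨i0, hi0, ?_⟩
      rw [bg_val6]
      exact one_ne_zero

end EW
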