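import Mathlib
import Pool.Agent.EW.RC.S0
import Pool.Agent.EW.RC.H9d

/-!
# Block K0a: the objects `B_z` (MP_d13a5e_al)
-/

open MvPolynomial

namespace EW

variable [Dat]

open RC FR2

namespace K0a

/-- a bimodule map between the `B_z` of bidegree `(0,e)` is a bimodule map of degree `e'` with
`e = len x - len z + 2 e'`, or zero -/
theorem toDeg {x z : Wg} {e : ℤ} {φ : (KLB x).M →+ (KLB z).M} (h : Hm (KLB x) (KLB z) 0 e φ)
    (h0 : φ ≠ 0) : ∃ (ψ : (KB x).O.M →ₗ[Rg] (KB z).O.M) (e' : ℤ), BiMap ψ ∧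
      (∀ m, ψ m = φ m) ∧ e = len x - len z + 2 * e' ∧ DegMap ψ e' ∧ ψ ≠ 0 := by
  have h' : Hm (oc (KB x).O (len x)) (oc (KB z).O (len z)) 0 e φ := h
  by_cases ho : (e - len x + len z) % 2 = 0
  · obtain ⟨ψ, hψ, hψφ⟩ := biMap_of_isBi h'.1
    have he : e = len x - len z + 2 * ((e - len x + len z) / 2) := by omega
    refine ⟨ψ, (e - len x + len z) / 2, hψ, hψφ, he, ?_, ?_⟩
    · apply degMap_of_hm (a := (len x : ℤ)) (b := (len z : ℤ))
      rw [← he]
      have e1 : ψ.toAddMonoidHom = φ := AddMonoidHom.ext hψφ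
      rw [e1]
      exact h'
    · intro hz
      apply h0
      apply AddMonoidHom.ext
      intro m
      have h1 : ψ m = φ m := hψφ m
      refine h1.symm.trans ?_
      rw [hz]
      rfl
  · exact absurd (hm_odd h' ho) h0

end K0a

theorem KLB_neg {x z : Wg} {e : ℤ} {φ : (KLB x).M →+ (KLB z).M} (he : e < 0)
    (h : Hm (KLB x) (KLB z) 0 e φ) : φ = 0 := by
  by_contra h0
  obtain ⟨ψ, e', hψ, -, he', hd, hne⟩ := K0a.toDeg h h0
  have h1 := (KLObj.hom_vanish trivial trivial (KB x) (KB z) ψ hψ hd hne).1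
  omega

theorem KLB_zero {x z : Wg} {φ : (KLB x).M →+ (KLB z).M} (h : Hm (KLB x) (KLB z) 0 0 φ)
    (h0 : φ ≠ 0) : x = z := by
  obtain ⟨ψ, e', hψ, -, he', hd, hne⟩ := K0a.toDeg h h0
  have h1 := (KLObj.hom_vanish trivial trivial (KB x) (KB z) ψ hψ hd hne).2
  exact h1 (by omega)

theorem KLB_scalar {x : Wg} {φ : (KLB x).M →+ (KLB x).M} (h : Hm (KLB x) (KLB x) 0 0 φ) :
    ∃ c : ℝ, ∀ m, φ m = (KLB x).l (C c) m := by
  by_cases h0 : φ = 0
  · refine ⟨0, fun m => ?_⟩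
    rw [h0, C_0, (KLB x).l_zero]
    rfl
  · obtain ⟨ψ, e', hψ, hψφ, he', hd, -⟩ := K0a.toDeg h h0
    have e0 : e' = 0 := by omega
    subst e0
    obtain ⟨c, hc⟩ := KLObj.hom_scalar trivial (KB x) ψ hψ hd
    refine ⟨c, fun m => ?_⟩
    rw [← hψφ]
    exact hc m

/-- any KL object of type `z` is isomorphic to `B_z` -/
theorem KLB_iso {z : Wg} (B : KLObj z) : ∃ (φ : B.O.M →+ (KLB z).M) (ψ : (KLB z).M →+ B.O.M),
    Hm (oc B.O (len z)) (KLB z) 0 0 φ ∧ Hm (KLB z) (oc B.O (len z)) 0 0 ψ ∧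
    (∀ x, ψ (φ x) = x) ∧ ∀ y, φ (ψ y) = y := by
  obtain ⟨φ, ψ, h1, h2, h3, h4, h5, h6, -⟩ := KLObj.unique trivial B (KB z)
  refine ⟨φ.toAddMonoidHom, ψ.toAddMonoidHom, ?_, ?_, h5, h6⟩
  · have := hm_of_degMap (a := (len z : ℤ)) (b := (len z : ℤ)) h1 h3
    rw [sub_self, mul_zero, add_zero] at this
    exact this
  · have := hm_of_degMap (a := (len z : ℤ)) (b := (len z : ℤ)) h2 h4
    rw [sub_self, mul_zero, add_zero] at this
    exact this

namespace K0a

theorem iso {x z : Wg} {φ : (KLB x).M →+ (KLB z).M} (h : Hm (KLB x) (KLB z) 0 0 φ)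
    (h0 : φ ≠ 0) : ∃ ψ : (KLB z).M →+ (KLB x).M, Hm (KLB z) (KLB x) 0 0 ψ ∧
      (∀ x, ψ (φ x) = x) ∧ ∀ y, φ (ψ y) = y := by
  have hxz := KLB_zero h h0
  subst hxz
  obtain ⟨c, hc⟩ := KLB_scalar h
  have hc0 : c ≠ 0 := by
    rintro rfl
    apply h0
    apply AddMonoidHom.ext
    intro m
    rw [hc m, C_0, (KLB x).l_zero]
    rfl
  have hinv : ∀ m, (KLB x).l (C c⁻¹) ((KLB x).l (C c) m) = m := by
    intro m
    rw [← (KLB x).l_mul, ← C_mul, inv_mul_cancel₀ hc0, C_1, (KLB x).l_one]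
  have hinv' : ∀ m, (KLB x).l (C c) ((KLB x).l (C c⁻¹) m) = m := by
    intro m
    rw [← (KLB x).l_mul, ← C_mul, mul_inv_cancel₀ hc0, C_1, (KLB x).l_one]
  have hcomm : ∀ (f : P Dat.n) m, (KLB x).l (C c⁻¹) ((KLB x).l f m) =
      (KLB x).l f ((KLB x).l (C c⁻¹) m) := by
    intro f m
    rw [← (KLB x).l_mul, ← (KLB x).l_mul, mul_comm]
  refine ⟨(KLB x).l (C c⁻¹), ⟨⟨fun f m => hcomm f m, fun f m => ?_⟩, fun k t m => ?_⟩,
    fun y => ?_, fun y => ?_⟩
  · exact (KLB x).lr _ _ _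
  · rw [add_zero, add_zero]
    exact (KLB x).pr_lC _ _ _ _
  · rw [hc]
    exact hinv y
  · rw [hc]
    exact hinv' y

theorem klb_pr (z : Wg) (k t : ℤ) (m : (KLB z).M) : (KLB z).pr k t m =
    if k = 0 ∧ 0 ≤ t + (len z : ℤ) ∧ (t + (len z : ℤ)) % 2 = 0 then
      cmp (KB z).O ((t + (len z : ℤ)) / 2).toNat m else 0 := rfl

/-- the homogeneous components of an element of `B_z` -/
theorem pr_cases (z : Wg) (k t : ℤ) (m : (KLB z).M) : (KLB z).pr k t m = 0 ∨
    (k = 0 ∧ ∃ (i : ℕ) (m' : (KB z).O.M), t + (len z : ℤ) = 2 * i ∧ m' ∈ (KB z).O.dg i ∧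
      (KLB z).pr k t m = m') := by
  rw [klb_pr]
  by_cases h : k = 0 ∧ 0 ≤ t + (len z : ℤ) ∧ (t + (len z : ℤ)) % 2 = 0
  · rw [if_pos h]
    right
    exact ⟨h.1, ((t + (len z : ℤ)) / 2).toNat, _, by omega, cmp_mem _ _ _, rfl⟩
  · rw [if_neg h]
    left
    rfl

end K0a

theorem KLB_krs {ι : Type} (z : ι → Wg) : Krs (fun r => KLB (z r)) where
  conc r k t m hk := by
    rw [K0a.klb_pr, if_neg (fun h => hk h.1)]
    rfl
  D0 r m := rfl
  nz r := by
    obtain ⟨i, -, hi⟩ := (KB (z r)).b0_ne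
    refine ⟨(KB (z r)).b0, fun h => hi ?_⟩
    have h1 : (KB (z r)).b0 = (0 : (KB (z r)).O.M) := h
    rw [h1]
    rfl
  neg r q e φ he h := KLB_neg he h
  iso r q φ h h0 := K0a.iso h h0

theorem KLB_dual (z : Wg) : Dual (KLB z) (KLB z) := by
  let Fm := (KB z).Fm
  let b : (KB z).O.M →+ (KB z).O.M →+ P Dat.n :=
    AddMonoidHom.mk' (fun x => (Fm.F x).toAddMonoidHom) (by
      intro x y
      apply AddMonoidHom.ext
      intro m
      change Fm.F (x + y) m = Fm.F x m + Fm.F y m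
      rw [map_add]
      rfl)
  have hb : ∀ x y, b x y = Fm.F x y := fun x y => rfl
  have hz1 : ∀ y, Fm.F 0 y = 0 := by
    intro y
    rw [map_zero]
    rfl
  have hz2 : ∀ y, Fm.F y 0 = 0 := by
    intro y
    rw [map_zero]
  have hperf : ∀ g : (KB z).O.M →+ P Dat.n, (∀ f x, g ((KB z).O.rmul f x) = f * g x) →
      ∃ y, ∀ x, g x = Fm.F x y := by
    intro g hg
    let G : (KB z).O.M →ₗ[ℝ] Rg :=
      { toFun := g
        map_add' := map_add g
        map_smul' := by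
          intro c m
          have e1 : c • m = (C c : Rg) • m := by
            ext1; funext i
            change c • m.1 i = C c * m.1 i
            rw [MvPolynomial.smul_eq_C_mul]
          rw [e1, ← rmul_C, hg, RingHom.id_apply, MvPolynomial.smul_eq_C_mul] }
    exact Fm.perfect G hg
  refine ⟨b, ?_⟩
  constructor
  · intro f x y
    exact Fm.left f x y
  · intro f x y
    exact Fm.right f x y
  · intro f x y
    change Fm.F x ((KB z).O.rmul f y) = f * Fm.F x y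
    rw [Fm.symm, Fm.right, Fm.symm]
  · intro x y
    change Fm.F 0 y = Fm.F x 0
    rw [hz1, hz2]
  · intro k t k' t' x y hk
    rcases K0a.pr_cases z k t x with h | ⟨h, -⟩
    · rw [h]
      exact hz1 _
    · rcases K0a.pr_cases z k' t' y with h' | ⟨h', -⟩
      · rw [h']
        exact hz2 _
      · exact absurd (by omega) hk
  · intro k t k' t' x y hd
    rcases K0a.pr_cases z k t x with h | ⟨h, i, m, hi, hm, e1⟩
    · rw [h]
      exact hz1 _
    · rcases K0a.pr_cases z k' t' y with h' | ⟨h', j, m', hj, hm', e2⟩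
      · rw [h']
        exact hz2 _
      · rw [e1, e2]
        change Fm.F m m' = 0
        apply Fm.deg0 i j m hm m' hm'
        by_contra hcon
        exact hd (i + j - len z) (by omega)
  · intro k t k' t' x y d hd
    rcases K0a.pr_cases z k t x with h | ⟨h, i, m, hi, hm, e1⟩
    · rw [h]
      have : b 0 ((KLB z).pr k' t' y) = 0 := hz1 _
      change (b 0 ((KLB z).pr k' t' y)).IsHomogeneous d
      rw [this]
      exact isHomogeneous_zero _ _ _
    · rcases K0a.pr_cases z k' t' y with h' | ⟨h', j, m', hj, hm', e2⟩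
      · rw [h']
        have : b ((KLB z).pr k t x) 0 = 0 := hz2 _
        change (b ((KLB z).pr k t x) 0).IsHomogeneous d
        rw [this]
        exact isHomogeneous_zero _ _ _
      · rw [e1, e2]
        exact Fm.deg i j d m hm m' hm' (by omega)
  · exact hperf
  · intro g hg
    obtain ⟨y, hy⟩ := hperf g hg
    exact ⟨y, fun x => (hy x).trans (Fm.symm _ _)⟩
  · intro y hy
    exact Fm.nondeg y hy
  · intro x hx
    exact Fm.nondeg x (fun a => (Fm.symm _ _).trans (hx a))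

namespace K0a

/-- the inverse of a bijective map of bidegree `(0,0)` -/
theorem hm_inv {n : ℕ} {X Y : CB n} {f : X.M →+ Y.M} {g : Y.M →+ X.M} (hf : Hm X Y 0 0 f)
    (h1 : ∀ x, g (f x) = x) (h2 : ∀ y, f (g y) = y) : Hm Y X 0 0 g := by
  refine ⟨⟨fun h m => ?_, fun h m => ?_⟩, fun k t m => ?_⟩
  · rw [← h1 (X.l h (g m)), hf.1.1, h2]
  · rw [← h1 (X.r h (g m)), hf.1.2, h2]
  · have h3 := hf.2 k t (g m)
    rw [add_zero, add_zero] at h3 ⊢
    rw [← h1 (X.pr k t (g m)), ← h3, h2]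

theorem cmp_el_succ (s : Sg) (O : Obj) (x y : O.M) (d : ℕ) :
    cmp (theta s O) (d + 1) (el s x y) = el s (cmp O (d + 1) x) (cmp O d y) := by
  ext1; funext p
  rw [cmp_val, el_val, el_val, map_add, hcomp_mul_succ (al_homog _ s)]
  rfl

theorem cmp_el_zero (s : Sg) (O : Obj) (x y : O.M) :
    cmp (theta s O) 0 (el s x y) = el s (cmp O 0 x) 0 := by
  ext1; funext p
  rw [cmp_val, el_val, el_val, map_add, hcomp_mul_lt (al_homog _ s) _ _ (by norm_num)]
  change _ = _ + _ * (0 : Rg)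
  rw [mul_zero]
  rfl

theorem rmul_el (s : Sg) (O : Obj) (f : Rg) (x y : O.M) :
    (theta s O).rmul f (el s x y) =
      el s (O.rmul ((rfs s).pl f) x + O.rmul ((rfs s).α * (rfs s).α * (rfs s).mi f) y)
        (O.rmul ((rfs s).mi f) x + O.rmul ((rfs s).pl f) y) := by
  have h1 : act (sw s) ((rfs s).pl f) = (rfs s).pl f := (rfs s).σ_pl f
  have h2 : act (sw s) ((rfs s).mi f) = (rfs s).mi f := (rfs s).σ_mi f
  have h3 : (rfs s).α = al 1 s := rfl
  conv_lhs => rw [(rfs s).pl_add_mi f]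
  rw [Obj.rmul_add, Obj.rmul_mul, rmul_el_inv trivial h1, h3, rmul_el_al trivial,
    rmul_el_inv trivial h2, ← el_add, ← Obj.rmul_mul,
    add_comm (O.rmul ((rfs s).mi f) x) (O.rmul ((rfs s).pl f) y),
    mul_comm (al 1 s * al 1 s) ((rfs s).mi f)]

end K0a

/-- `θ_s O` as a complex -/
theorem th_oc (s : Sg) (O : Obj) (a : ℤ) : ∃ (f : (Th (rfs s) (oc O a)).M →+ (theta s O).M)
    (g : (theta s O).M →+ (Th (rfs s) (oc O a)).M),
    Hm (Th (rfs s) (oc O a)) (oc (theta s O) (a + 1)) 0 0 f ∧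
    Hm (oc (theta s O) (a + 1)) (Th (rfs s) (oc O a)) 0 0 g ∧
    (∀ x, g (f x) = x) ∧ (∀ y, f (g y) = y) ∧ ∀ a b, f (a, b) = el s a b := by
  let f : (O.M × O.M) →+ (theta s O).M :=
    AddMonoidHom.mk' (fun m => el s m.1 m.2) (fun a b => el_add _ _ _ _)
  have hf : ∀ m, f m = el s m.1 m.2 := fun m => rfl
  have hinj : Function.Injective f := by
    rintro ⟨a, b⟩ ⟨a', b'⟩ hab
    obtain ⟨h1, h2⟩ := el_inj trivial hab
    exact Prod.ext h1 h2
  have hsurj : ∀ m, ∃ x, f x = m := by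
    intro m
    obtain ⟨a, b, rfl⟩ := el_surj m
    exact ⟨(a, b), rfl⟩
  choose g0 hg0 using hsurj
  have hg0' : ∀ x, g0 (f x) = x := fun x => hinj (hg0 _)
  let g : (theta s O).M →+ (O.M × O.M) := AddMonoidHom.mk' g0 (by
    intro x y
    apply hinj
    rw [hg0, map_add, hg0, hg0])
  have hfm : Hm (Th (rfs s) (oc O a)) (oc (theta s O) (a + 1)) 0 0 f := by
    refine ⟨⟨fun h m => ?_, fun h m => ?_⟩, fun k t m => ?_⟩
    · exact el_smul h m.1 m.2
    · exact (K0a.rmul_el s O h m.1 m.2).symm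
    · rw [add_zero, add_zero]
      change (oc (theta s O) (a + 1)).pr k t (el s m.1 m.2) =
        el s ((oc O a).pr k (t + 1) m.1) ((oc O a).pr k (t - 1) m.2)
      rw [oc_pr, oc_pr, oc_pr]
      by_cases hk : k = 0
      · by_cases h : 0 ≤ t + (a + 1) ∧ (t + (a + 1)) % 2 = 0
        · rw [if_pos ⟨hk, h⟩, if_pos ⟨hk, by omega, by omega⟩]
          by_cases h0 : t + (a + 1) = 0
          · rw [if_neg (by omega)]
            have e1 : ((t + (a + 1)) / 2).toNat = 0 := by omega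
            have e2 : ((t + 1 + a) / 2).toNat = 0 := by omega
            rw [e1, e2, K0a.cmp_el_zero]
          · rw [if_pos ⟨hk, by omega, by omega⟩]
            have e1 : ((t + (a + 1)) / 2).toNat = ((t - 1 + a) / 2).toNat + 1 := by omega
            have e2 : ((t + 1 + a) / 2).toNat = ((t - 1 + a) / 2).toNat + 1 := by omega
            rw [e1, e2, K0a.cmp_el_succ]
        · rw [if_neg (fun hc => h hc.2), if_neg (by omega), if_neg (by omega), el_zero]
      · rw [if_neg (fun hc => hk hc.1), if_neg (fun hc => hk hc.1), if_neg (fun hc => hk hc.1),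
          el_zero]
  exact ⟨f, g, hfm, K0a.hm_inv hfm hg0' hg0, hg0', hg0, fun a b => rfl⟩

end EW
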