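import Mathlib
import Pool.Agent.EW.RC.K0a
import Pool.Agent.EW.RC.H9d

/-!
# Definition of decompositions (MP_d13a5e_al)
-/

open MvPolynomial

namespace EW

variable [Dat]

open RC FR2

/-- decomposition of `X` into the objects `B_z(m)[-k]` -/
structure Dcm (X : CB Dat.n) where
  ι : Type
  [fin : Fintype ι]
  [dec : DecidableEq ι]
  z : ι → Wg
  k : ι → ℤ
  m : ι → ℤ
  i : ∀ r, (KLB (z r)).M →+ X.M
  p : ∀ r, X.M →+ (KLB (z r)).M
  fam : Fam (fun r => KLB (z r)) k m X Finset.univ (AddMonoidHom.id _) i p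

attribute [instance] Dcm.fin Dcm.dec

end EW
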