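import Mathlib
import Pool.Agent.EW.RC.K0d
import Pool.Agent.EW.RC.H9d

/-!
# Block K0b: decomposition of `θ_s B_z`, ascent (MP_d13a5e_al)
-/

open MvPolynomial

namespace EW

variable [Dat]

open RC FR2

theorem K0b.biMap_smul {O P : Obj} {ψ : O.M →ₗ[Rg] P.M} (h : BiMap ψ) (n : ℕ) :
    BiMap ((-1 : Rg) ^ n • ψ) := by
  intro j m
  rw [LinearMap.smul_apply, LinearMap.smul_apply, h j m, map_smul]

theorem K0b.degMap_smul {O P : Obj} {ψ : O.M →ₗ[Rg] P.M} {e : ℤ} (h : DegMap ψ e) (n : ℕ) :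
    DegMap ((-1 : Rg) ^ n • ψ) e := by
  intro i a ha
  obtain ⟨h1, h2⟩ := h i a ha
  have e : ((-1 : Rg) ^ n • ψ) a = ((-1 : ℝ) ^ n) • ψ a := by
    rw [← C_smul_M, map_pow, map_neg, map_one]
    rfl
  rw [e]
  refine ⟨fun j hj => Submodule.smul_mem _ _ (h1 j hj), fun hi => ?_⟩
  rw [h2 hi, smul_zero]

theorem K0b.supp {z : Wg} {s : Sg} (hup : Up z (z * sw s)) (B : KLObj z) (m : (theta s B.O).M)
    (p : (theta s B.O).I) (hp : (theta s B.O).π p ∉ Le (Up) (z * sw s)) : m.1 p = 0 := by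
  have hp' : B.O.π p.1 ∉ Le (Up) z := by
    intro hmem
    apply hp
    have e : (theta s B.O).π p = if p.2 then B.O.π p.1 * sw s else B.O.π p.1 := rfl
    rw [e]
    split_ifs
    · exact DC0.Le_sub' trivial trivial hup hmem
    · exact DC0.Le_sub hup hmem
  obtain ⟨a, b, rfl⟩ := el_surj m
  rw [el_val, B.supp a p.1 hp', B.supp b p.1 hp', mul_zero, add_zero]

theorem K0b.gen {z : Wg} {s : Sg} (h : len z < len (z * sw s)) (B : KLObj z)
    (m : (theta s B.O).M) : ∃ F : Rg, ∀ p : (theta s B.O).I, (theta s B.O).π p = z * sw s →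
      m.1 p = F * B.b0.1 p.1 := by
  obtain ⟨a, b, rfl⟩ := el_surj m
  obtain ⟨fa, hfa⟩ := B.gen a
  obtain ⟨fb, hfb⟩ := B.gen b
  refine ⟨fa + al (z * sw s) s * fb, fun p hp => ?_⟩
  rw [el_val, hp]
  have e : (theta s B.O).π p = if p.2 then B.O.π p.1 * sw s else B.O.π p.1 := rfl
  rw [e] at hp
  split_ifs at hp with hb
  · have hz : B.O.π p.1 = z := mul_right_cancel hp
    rw [hfa _ hz, hfb _ hz]
    ring
  · have hn : B.O.π p.1 ∉ Le (Up) z := by
      rw [hp]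
      intro hmem
      have := (Le_len hmem).1
      omega
    rw [B.supp a p.1 hn, B.supp b p.1 hn, B.supp B.b0 p.1 hn]
    ring

/-- decomposition of `θ_s B_z`, `z s > z` -/
theorem th_up (z : Wg) (s : Sg) (h : len z < len (z * sw s)) :
    ∃ d : Dcm (Th (rfs s) (KLB z)), (∀ r, d.k r = 0) ∧ (∀ r, d.m r = 0) ∧
      (∀ r, len (d.z r) ≤ len z + 1 ∧ (len (d.z r) + len z + 1) % 2 = 0) ∧
      (∀ r, d.z r ∈ Le (Up) (z * sw s)) ∧ ∃! r, d.z r = z * sw s := by
  have hup : Up z (z * sw s) := (up_sw_iff trivial trivial).2 h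
  obtain ⟨G, hG⟩ := exists_thetaFrm (KB z).Fm (s := s) trivial
  obtain ⟨K, u, Bu, f, φ, ψ, h1, h2, h3, h4, h5, h6, h7, k₀, hk₀, hf₀⟩ :=
    (full z trivial).dec s trivial hup (KB z) G hG
  choose a b ha hb hba hab using fun k => KLB_iso (Bu k)
  obtain ⟨f', g', hf', hg', hgf, hfg, -⟩ := th_oc s (KB z).O (len z)
  -- nonvanishing
  have hnv : ∀ k, ∃ p, (theta s (KB z).O).π p = u k ∧ (φ k (Bu k).b0).1 p ≠ 0 := by
    intro k
    by_contra hcon
    push Not at hcon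
    obtain ⟨i, hi, hne⟩ := (Bu k).b0_ne
    have hv := BiMap.vanish (h3 k).1 hcon i hi
    rw [h5 k] at hv
    have e : (((-1 : Rg) ^ (f k) • (Bu k).b0 : (Bu k).O.M)).1 i =
      (-1 : Rg) ^ (f k) * (Bu k).b0.1 i := rfl
    rw [e] at hv
    rcases mul_eq_zero.1 hv with h0 | h0
    · exact pow_ne_zero _ (neg_ne_zero.2 one_ne_zero) h0
    · exact hne h0
  let iK : ∀ k, (KLB (u k)).M →+ (Th (rfs s) (KLB z)).M := fun k =>
    g'.comp ((φ k).toAddMonoidHom.comp (b k))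
  let pK : ∀ k, (Th (rfs s) (KLB z)).M →+ (KLB (u k)).M := fun k =>
    (a k).comp ((((-1 : Rg) ^ (f k) • ψ k).toAddMonoidHom).comp f')
  have hfam : Fam (fun r => KLB (u r)) (fun _ => 0) (fun _ => 0) (Th (rfs s) (KLB z))
      Finset.univ (AddMonoidHom.id _) iK pK := by
    refine ⟨fun r _ => ?_, fun r _ => ?_, fun r _ x => ?_, fun r _ q _ hrq x => ?_, fun x => ?_⟩
    · have hd := hm_of_degMap (a := (len (u r) : ℤ)) (b := (len z : ℤ) + 1) (h2 r).1 (h2 r).2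
      have hc := (hb r).comp' (hd.comp' hg' rfl rfl) (p' := 0) (e' := -0) (by norm_num) (by
        have := (h1 r).2
        omega)
      exact hc
    · have hd := hm_of_degMap (a := (len z : ℤ) + 1) (b := (len (u r) : ℤ))
        (K0b.biMap_smul (h3 r).1 (f r)) (K0b.degMap_smul (h3 r).2 (f r))
      have hc := hf'.comp' (hd.comp' (ha r) rfl rfl) (p' := -0) (e' := 0) (by norm_num) (by
        have := (h1 r).2
        omega)
      exact hc
    · change a r (((-1 : Rg) ^ (f r) • ψ r) (f' (g' (φ r (b r x))))) = x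
      rw [hfg, LinearMap.smul_apply, h5 r, smul_smul, ← mul_pow, neg_one_mul, neg_neg, one_pow,
        one_smul, hab]
    · change a q (((-1 : Rg) ^ (f q) • ψ q) (f' (g' (φ r (b r x))))) = 0
      rw [hfg, LinearMap.smul_apply, h6 q r (Ne.symm hrq), smul_zero, map_zero]
    · change ∑ r, g' (φ r (b r (a r (((-1 : Rg) ^ (f r) • ψ r) (f' x))))) = x
      have e : ∀ r, g' (φ r (b r (a r (((-1 : Rg) ^ (f r) • ψ r) (f' x))))) =
          g' ((-1 : Rg) ^ (f r) • φ r (ψ r (f' x))) := by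
        intro r
        rw [hba, LinearMap.smul_apply, map_smul]
      rw [Finset.sum_congr rfl (fun r _ => e r), ← map_sum, ← h7]
      exact hgf x
  refine ⟨⟨Fin K, u, fun _ => 0, fun _ => 0, iK, pK, hfam⟩, fun _ => rfl, fun _ => rfl,
    fun r => ?_, fun r => ?_, k₀, hk₀, fun l hl => ?_⟩
  · have := (h1 r).2
    change len (u r) ≤ len z + 1 ∧ (len (u r) + len z + 1) % 2 = 0
    omega
  · change u r ∈ Le (Up) (z * sw s)
    by_contra hk
    obtain ⟨p, hp, hne⟩ := hnv r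
    exact hne (K0b.supp hup (KB z) _ p (hp ▸ hk))
  · change u l = z * sw s at hl
    by_contra hne
    change l ≠ k₀ at hne
    obtain ⟨F, hF⟩ := K0b.gen h (KB z) (φ k₀ (Bu k₀).b0)
    obtain ⟨F', hF'⟩ := K0b.gen h (KB z) (φ l (Bu l).b0)
    have hv : ∀ p, (theta s (KB z).O).π p = u k₀ →
        (F' • φ k₀ (Bu k₀).b0 - F • φ l (Bu l).b0).1 p = 0 := by
      intro p hp
      have e : (F' • φ k₀ (Bu k₀).b0 - F • φ l (Bu l).b0).1 p =
        F' * (φ k₀ (Bu k₀).b0).1 p - F * (φ l (Bu l).b0).1 p := rfl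
      rw [hk₀] at hp
      rw [e, hF p hp, hF' p hp]
      ring
    obtain ⟨i, hi, hi0⟩ := (Bu k₀).b0_ne
    have hw := BiMap.vanish (h3 k₀).1 hv i hi
    rw [map_sub, map_smul, map_smul, h5 k₀, h6 k₀ l (Ne.symm hne), smul_zero, sub_zero] at hw
    have e : ((F' • (-1 : Rg) ^ (f k₀) • (Bu k₀).b0 : (Bu k₀).O.M)).1 i =
      F' * ((-1 : Rg) ^ (f k₀) * (Bu k₀).b0.1 i) := rfl
    rw [e] at hw
    have hF0 : F' = 0 := by
      rcases mul_eq_zero.1 hw with h0 | h0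
      · exact h0
      · rcases mul_eq_zero.1 h0 with h0 | h0
        · exact absurd h0 (pow_ne_zero _ (neg_ne_zero.2 one_ne_zero))
        · exact absurd h0 hi0
    obtain ⟨p, hp, hp0⟩ := hnv l
    apply hp0
    rw [hF' p (hp.trans hl), hF0, zero_mul]

end EW
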