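import Mathlib
import Pool.Agent.EW.RC.K0d
import Pool.Agent.EW.RC.H9d

/-!
# Block K0c: decomposition of `θ_s B_z`, descent (MP_d13a5e_al)
-/

open MvPolynomial

namespace RC

variable {n : ℕ}

/-- multiplication by `1/2` -/
noncomputable def hf (X : CB n) : X.M →+ X.M :=
  AddMonoidHom.mk' (fun b => X.l (C (1/2)) b) (fun a b => X.l_ma _ a b)

theorem hf_apply (X : CB n) (b : X.M) : hf X b = X.l (C (1/2)) b := rfl

theorem hf_add (X : CB n) (b : X.M) : hf X b + hf X b = b := by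
  have h : (C (1/2 : ℝ) : P n) + C (1/2) = 1 := by
    rw [← C_add]
    norm_num
  rw [hf_apply, ← X.l_add, h, X.l_one]

theorem hf_r (X : CB n) (f : P n) (b : X.M) : hf X (X.r f b) = X.r f (hf X b) := X.lr _ _ _

theorem hf_l (X : CB n) (f : P n) (b : X.M) : hf X (X.l f b) = X.l f (hf X b) := by
  rw [hf_apply, hf_apply, ← X.l_mul, ← X.l_mul, mul_comm]

theorem hf_pr (X : CB n) (k t : ℤ) (b : X.M) : hf X (X.pr k t b) = X.pr k t (hf X b) :=
  (X.pr_lC k t _ b).symm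

section gen

variable (ρ : Refl n) (X : CB n) (E : X.M →+ X.M)

/-- first inclusion -/
noncomputable def ia : X.M →+ (Th ρ X).M :=
  AddMonoidHom.mk' (fun b => ((E (X.r ρ.α b), E b) : X.M × X.M)) (fun a b => by
    rw [X.r_ma, map_add, map_add]; rfl)

/-- second inclusion -/
noncomputable def ib : X.M →+ (Th ρ X).M :=
  AddMonoidHom.mk' (fun b => ((X.r ρ.α (hf X b), hf X b) : X.M × X.M)) (fun a b => by
    rw [map_add, X.r_ma]; rfl)

/-- second projection -/
noncomputable def pb : (Th ρ X).M →+ X.M :=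
  AddMonoidHom.mk' (fun (y : X.M × X.M) => (E y.1 + X.r ρ.α (E y.2)) + (E y.1 + X.r ρ.α (E y.2)))
    (fun (a b : X.M × X.M) => by
      change (E (a.1 + b.1) + X.r ρ.α (E (a.2 + b.2))) + (E (a.1 + b.1) + X.r ρ.α (E (a.2 + b.2))) =
        ((E a.1 + X.r ρ.α (E a.2)) + (E a.1 + X.r ρ.α (E a.2))) +
          ((E b.1 + X.r ρ.α (E b.2)) + (E b.1 + X.r ρ.α (E b.2)))
      rw [map_add, map_add, X.r_ma]; abel)

/-- first projection -/
noncomputable def pa : (Th ρ X).M →+ X.M :=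
  AddMonoidHom.mk' (fun (y : X.M × X.M) => (y.1 + X.r ρ.α y.2) - X.r ρ.α (pb ρ X E y))
    (fun (a b : X.M × X.M) => by
      have h : pb ρ X E (a + b) = pb ρ X E a + pb ρ X E b := map_add (pb ρ X E) a b
      change ((a.1 + b.1) + X.r ρ.α (a.2 + b.2)) - X.r ρ.α (pb ρ X E (a + b)) =
        ((a.1 + X.r ρ.α a.2) - X.r ρ.α (pb ρ X E a)) +
          ((b.1 + X.r ρ.α b.2) - X.r ρ.α (pb ρ X E b))
      rw [h, X.r_ma, X.r_ma]; abel)

theorem ia_apply (b : X.M) : ia ρ X E b = ((E (X.r ρ.α b), E b) : X.M × X.M) := rfl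
theorem ib_apply (b : X.M) : ib ρ X b = ((X.r ρ.α (hf X b), hf X b) : X.M × X.M) := rfl
theorem pb_apply (a b : X.M) : pb ρ X E ((a, b) : X.M × X.M) =
    (E a + X.r ρ.α (E b)) + (E a + X.r ρ.α (E b)) := rfl
theorem pa_apply (a b : X.M) : pa ρ X E ((a, b) : X.M × X.M) =
    (a + X.r ρ.α b) - X.r ρ.α (pb ρ X E ((a, b) : X.M × X.M)) := rfl

theorem Th_l_apply (f : P n) (a b : X.M) :
    (Th ρ X).l f ((a, b) : X.M × X.M) = ((X.l f a, X.l f b) : X.M × X.M) := rfl
theorem Th_r_apply (f : P n) (a b : X.M) :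
    (Th ρ X).r f ((a, b) : X.M × X.M) = thr ρ X f a b := rfl
theorem Th_pr_apply (k t : ℤ) (a b : X.M) :
    (Th ρ X).pr k t ((a, b) : X.M × X.M) =
      ((X.pr k (t + 1) a, X.pr k (t - 1) b) : X.M × X.M) := rfl

variable {ρ X E}

theorem r_comm (f g : P n) (b : X.M) : X.r f (X.r g b) = X.r g (X.r f b) := by
  rw [← X.r_mul, ← X.r_mul, mul_comm]

theorem r_dec (f : P n) (b : X.M) :
    X.r f b = X.r (ρ.pl f) b + X.r (ρ.mi f) (X.r ρ.α b) := by
  conv_lhs => rw [ρ.pl_add_mi f]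
  rw [X.r_add, X.r_mul]

theorem E_r (h2 : ∀ f, ρ.σ f = f → ∀ b, E (X.r f b) = X.r f (E b)) (f : P n) (b : X.M) :
    E (X.r f b) = X.r (ρ.pl f) (E b) + X.r (ρ.mi f) (E (X.r ρ.α b)) := by
  rw [r_dec f b, map_add, h2 _ (ρ.σ_pl f), h2 _ (ρ.σ_mi f)]

theorem E_aa (h2 : ∀ f, ρ.σ f = f → ∀ b, E (X.r f b) = X.r f (E b)) (b : X.M) :
    E (X.r ρ.α (X.r ρ.α b)) = X.r ρ.α (X.r ρ.α (E b)) := by
  rw [← X.r_mul, h2 _ (by rw [map_mul, ρ.σα]; ring), X.r_mul]

theorem ia_r (h2 : ∀ f, ρ.σ f = f → ∀ b, E (X.r f b) = X.r f (E b)) (f : P n) (b : X.M) :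
    ia ρ X E (X.r f b) = (Th ρ X).r f (ia ρ X E b) := by
  rw [ia_apply, ia_apply, Th_r_apply]
  unfold thr
  refine Prod.ext ?_ ?_
  · change E (X.r ρ.α (X.r f b)) = X.r (ρ.pl f) (E (X.r ρ.α b)) +
      X.r (ρ.α * ρ.α * ρ.mi f) (E b)
    rw [r_comm ρ.α f, E_r h2, E_aa h2]
    congr 1
    rw [← X.r_mul, ← X.r_mul]
    congr 2
    ring
  · change E (X.r f b) = X.r (ρ.mi f) (E (X.r ρ.α b)) + X.r (ρ.pl f) (E b)
    rw [E_r h2, add_comm]

theorem ib_r (f : P n) (b : X.M) : ib ρ X (X.r f b) = (Th ρ X).r f (ib ρ X b) := by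
  rw [ib_apply, ib_apply, Th_r_apply, hf_r]
  unfold thr
  generalize hf X b = c
  refine Prod.ext ?_ ?_
  · change X.r ρ.α (X.r f c) = X.r (ρ.pl f) (X.r ρ.α c) + X.r (ρ.α * ρ.α * ρ.mi f) c
    rw [r_dec (ρ := ρ) f c, X.r_ma, r_comm ρ.α (ρ.pl f)]
    congr 1
    rw [← X.r_mul, ← X.r_mul]
    congr 2
    ring
  · change X.r f c = X.r (ρ.mi f) (X.r ρ.α c) + X.r (ρ.pl f) c
    rw [r_dec (ρ := ρ) f c, add_comm]

theorem pb_r (h2 : ∀ f, ρ.σ f = f → ∀ b, E (X.r f b) = X.r f (E b)) (f : P n) (y : (Th ρ X).M) :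
    pb ρ X E ((Th ρ X).r f y) = X.r f (pb ρ X E y) := by
  obtain ⟨a, b⟩ := (show X.M × X.M from y)
  rw [Th_r_apply]
  unfold thr
  rw [pb_apply, pb_apply, X.r_ma]
  have h : E (X.r (ρ.pl f) a + X.r (ρ.α * ρ.α * ρ.mi f) b) +
      X.r ρ.α (E (X.r (ρ.mi f) a + X.r (ρ.pl f) b)) = X.r f (E a + X.r ρ.α (E b)) := by
    have e1 : ρ.σ (ρ.α * ρ.α * ρ.mi f) = ρ.α * ρ.α * ρ.mi f := by
      rw [map_mul, map_mul, ρ.σα, ρ.σ_mi]; ring
    rw [map_add, map_add, h2 _ (ρ.σ_pl f), h2 _ e1, h2 _ (ρ.σ_mi f), h2 _ (ρ.σ_pl f), X.r_ma,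
      r_dec (ρ := ρ) f (E a + X.r ρ.α (E b)), X.r_ma, X.r_ma, X.r_ma]
    simp only [← X.r_mul]
    rw [show ρ.α * ρ.mi f = ρ.mi f * ρ.α by ring, show ρ.α * ρ.pl f = ρ.pl f * ρ.α by ring,
      show ρ.mi f * (ρ.α * ρ.α) = ρ.α * ρ.α * ρ.mi f by ring]
    abel
  rw [h]

theorem m_r (f : P n) (a b : X.M) :
    (thr ρ X f a b).1 + X.r ρ.α (thr ρ X f a b).2 = X.r f (a + X.r ρ.α b) := by
  unfold thr
  simp only
  rw [X.r_ma, X.r_ma, r_dec (ρ := ρ) f a, r_dec (ρ := ρ) f (X.r ρ.α b)]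
  simp only [← X.r_mul]
  rw [show ρ.α * ρ.mi f = ρ.mi f * ρ.α by ring, show ρ.α * ρ.pl f = ρ.pl f * ρ.α by ring,
    show ρ.mi f * (ρ.α * ρ.α) = ρ.α * ρ.α * ρ.mi f by ring]
  abel

theorem pa_r (h2 : ∀ f, ρ.σ f = f → ∀ b, E (X.r f b) = X.r f (E b)) (f : P n) (y : (Th ρ X).M) :
    pa ρ X E ((Th ρ X).r f y) = X.r f (pa ρ X E y) := by
  obtain ⟨a, b⟩ := (show X.M × X.M from y)
  have h := pb_r h2 f ((a, b) : X.M × X.M)
  have e1 : pa ρ X E ((Th ρ X).r f ((a, b) : X.M × X.M)) =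
      ((thr ρ X f a b).1 + X.r ρ.α (thr ρ X f a b).2) -
        X.r ρ.α (pb ρ X E ((Th ρ X).r f ((a, b) : X.M × X.M))) := rfl
  rw [e1, m_r]
  have e2 : pb ρ X E ((Th ρ X).r f ((a, b) : X.M × X.M)) =
    X.r f (pb ρ X E ((a, b) : X.M × X.M)) := h
  rw [e2, pa_apply, X.r_ms]
  exact congrArg (fun c => X.r f (a + X.r ρ.α b) - c) (r_comm ρ.α f _)

theorem fam_dn (hl : ∀ f b, E (X.l f b) = X.l f (E b))
    (h1 : ∀ b, E (X.r ρ.α b) + X.r ρ.α (E b) = b)
    (h2 : ∀ f, ρ.σ f = f → ∀ b, E (X.r f b) = X.r f (E b))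
    (hd : ∀ k t b, X.pr k (t - 2) (E b) = E (X.pr k t b)) (h0 : ∀ b, E (E b) = 0) :
    Fam (fun _ : Bool => X) (fun _ => 0) (fun r => if r then 1 else -1) (Th ρ X) Finset.univ
      (AddMonoidHom.id _) (fun r => if r then ia ρ X E else ib ρ X)
      (fun r => if r then pa ρ X E else pb ρ X E) := by
  have hba : ∀ b, pb ρ X E (ia ρ X E b) = 0 := by
    intro b
    rw [ia_apply, pb_apply, h0, h0, X.r_mz, add_zero, add_zero]
  have hbb : ∀ b, pb ρ X E (ib ρ X b) = b := by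
    intro b
    rw [ib_apply, pb_apply, h1, hf_add]
  have haa : ∀ b, pa ρ X E (ia ρ X E b) = b := by
    intro b
    have h := hba b
    rw [ia_apply] at h ⊢
    rw [pa_apply, h, X.r_mz, sub_zero, h1]
  have hab : ∀ b, pa ρ X E (ib ρ X b) = 0 := by
    intro b
    have h := hbb b
    rw [ib_apply] at h ⊢
    rw [pa_apply, h, ← X.r_ma, hf_add, sub_self]
  have hpb : ∀ k t (a b : X.M), X.pr k (t - 1) (pb ρ X E ((a, b) : X.M × X.M)) =
      pb ρ X E ((Th ρ X).pr k t ((a, b) : X.M × X.M)) := by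
    intro k t a b
    rw [Th_pr_apply, pb_apply, pb_apply, X.pr_ma, X.pr_ma]
    have e1 : X.pr k (t - 1) (E a) = E (X.pr k (t + 1) a) := by
      rw [← hd]
      congr 2
      ring
    have e2 : X.pr k (t - 1) (X.r ρ.α (E b)) = X.r ρ.α (E (X.pr k (t - 1) b)) := by
      have := X.pr_r_lin ρ.lin k (t - 1 - 2) (E b)
      rw [show t - 1 - 2 + 2 = t - 1 by ring, hd] at this
      exact this
    rw [e1, e2]
  refine ⟨?_, ?_, ?_, ?_, ?_⟩
  · intro r _
    cases r
    · refine ⟨⟨?_, fun f b => ib_r f b⟩, ?_⟩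
      · intro f b
        change ib ρ X (X.l f b) = (Th ρ X).l f (ib ρ X b)
        rw [ib_apply, ib_apply, Th_l_apply, hf_l, X.lr]
      · intro k t b
        change (Th ρ X).pr (k + 0) (t + -(-1)) (ib ρ X b) = ib ρ X (X.pr k t b)
        rw [ib_apply, ib_apply, Th_pr_apply, add_zero, hf_pr]
        refine Prod.ext ?_ ?_
        · change X.pr k (t + -(-1) + 1) (X.r ρ.α (hf X b)) = X.r ρ.α (X.pr k t (hf X b))
          rw [← X.pr_r_lin ρ.lin]
          congr 2
          ring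
        · change X.pr k (t + -(-1) - 1) (hf X b) = X.pr k t (hf X b)
          congr 2
          ring
    · refine ⟨⟨?_, fun f b => ia_r h2 f b⟩, ?_⟩
      · intro f b
        change ia ρ X E (X.l f b) = (Th ρ X).l f (ia ρ X E b)
        rw [ia_apply, ia_apply, Th_l_apply, ← X.lr, hl, hl]
      · intro k t b
        change (Th ρ X).pr (k + 0) (t + -1) (ia ρ X E b) = ia ρ X E (X.pr k t b)
        rw [ia_apply, ia_apply, Th_pr_apply, add_zero]
        refine Prod.ext ?_ ?_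
        · change X.pr k (t + -1 + 1) (E (X.r ρ.α b)) = E (X.r ρ.α (X.pr k t b))
          rw [← X.pr_r_lin ρ.lin, ← hd]
          congr 2
          ring
        · change X.pr k (t + -1 - 1) (E b) = E (X.pr k t b)
          rw [← hd]
          congr 2
          ring
  · intro r _
    cases r
    · refine ⟨⟨?_, fun f y => pb_r h2 f y⟩, ?_⟩
      · intro f y
        change pb ρ X E ((Th ρ X).l f y) = X.l f (pb ρ X E y)
        obtain ⟨a, b⟩ := (show X.M × X.M from y)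
        rw [Th_l_apply, pb_apply, pb_apply, hl, hl, ← X.lr, X.l_ma, X.l_ma]
      · intro k t y
        change X.pr (k + -0) (t + -1) (pb ρ X E y) = pb ρ X E ((Th ρ X).pr k t y)
        obtain ⟨a, b⟩ := (show X.M × X.M from y)
        rw [neg_zero, add_zero, ← sub_eq_add_neg]
        exact hpb k t a b
    · refine ⟨⟨?_, fun f y => pa_r h2 f y⟩, ?_⟩
      · intro f y
        change pa ρ X E ((Th ρ X).l f y) = X.l f (pa ρ X E y)
        obtain ⟨a, b⟩ := (show X.M × X.M from y)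
        have e1 : pb ρ X E ((X.l f a, X.l f b) : X.M × X.M) =
            X.l f (pb ρ X E ((a, b) : X.M × X.M)) := by
          rw [pb_apply, pb_apply, hl, hl, ← X.lr, X.l_ma, X.l_ma]
        rw [Th_l_apply, pa_apply, pa_apply, e1, ← X.lr, ← X.lr, X.l_ms, X.l_ma]
      · intro k t y
        change X.pr (k + -0) (t + 1) (pa ρ X E y) = pa ρ X E ((Th ρ X).pr k t y)
        obtain ⟨a, b⟩ := (show X.M × X.M from y)
        rw [neg_zero, add_zero]
        have e1 : pa ρ X E ((Th ρ X).pr k t ((a, b) : X.M × X.M)) =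
            (X.pr k (t + 1) a + X.r ρ.α (X.pr k (t - 1) b)) -
              X.r ρ.α (pb ρ X E ((Th ρ X).pr k t ((a, b) : X.M × X.M))) := rfl
        have e2 : ∀ c, X.pr k (t + 1) (X.r ρ.α c) = X.r ρ.α (X.pr k (t - 1) c) := by
          intro c
          have := X.pr_r_lin ρ.lin k (t - 1) c
          rw [show t - 1 + 2 = t + 1 by ring] at this
          exact this
        rw [e1, ← hpb, pa_apply, X.pr_ms, X.pr_ma, e2, e2]
  · intro r _ b
    cases r
    · exact hbb b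
    · exact haa b
  · intro r _ q _ hrq b
    cases r <;> cases q
    · exact absurd rfl hrq
    · exact hab b
    · exact hba b
    · exact absurd rfl hrq
  · intro y
    rw [Fintype.sum_bool]
    change ia ρ X E (pa ρ X E y) + ib ρ X (pb ρ X E y) = y
    have key : ∀ a b : X.M, pa ρ X E ((a, b) : X.M × X.M) = 0 →
        pb ρ X E ((a, b) : X.M × X.M) = 0 → a = 0 ∧ b = 0 := by
      intro a b ha hb
      rw [pa_apply, hb, X.r_mz, sub_zero] at ha
      have ha' : a = - X.r ρ.α b := eq_neg_of_add_eq_zero_left ha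
      rw [pb_apply] at hb
      have hb2 : E a + X.r ρ.α (E b) = 0 := by
        have := congrArg (hf X) hb
        rw [map_add, hf_add, map_zero] at this
        exact this
      rw [ha', map_neg] at hb2
      have h3 := h1 b
      have h4 : E (X.r ρ.α b) = X.r ρ.α (E b) := by
        have := neg_add_eq_zero.1 hb2
        exact this
      rw [h4] at h3
      have h5 := h1 (E b)
      rw [h0, X.r_mz, add_zero] at h5
      have h6 := congrArg E h3
      rw [map_add, h5] at h6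
      have h7 : E b = 0 := by
        have := add_eq_right.1 h6
        exact this
      have h8 : b = 0 := by
        rw [← h3, h7, X.r_mz, add_zero]
      exact ⟨by rw [ha', h8, X.r_mz, neg_zero], h8⟩
    set y' : X.M × X.M := (show X.M × X.M from y) -
      (show X.M × X.M from (ia ρ X E (pa ρ X E y) + ib ρ X (pb ρ X E y))) with hy'
    have e1 : pa ρ X E y' = 0 := by
      have : pa ρ X E (y - (ia ρ X E (pa ρ X E y) + ib ρ X (pb ρ X E y))) = 0 := by
        rw [map_sub, map_add, haa, hab, add_zero, sub_self]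
      exact this
    have e2 : pb ρ X E y' = 0 := by
      have : pb ρ X E (y - (ia ρ X E (pa ρ X E y) + ib ρ X (pb ρ X E y))) = 0 := by
        rw [map_sub, map_add, hba, hbb, zero_add, sub_self]
      exact this
    have e3 := key y'.1 y'.2 e1 e2
    have e4 : y' = 0 := Prod.ext e3.1 e3.2
    exact (sub_eq_zero.1 e4).symm

end gen

end RC

namespace EW

variable [Dat]

open RC FR2

theorem deg_cmp {O : Obj} {D : O.M →ₗ[Rg] O.M} (hD : DegMap D (-1)) (b : O.M) (d : ℕ) :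
    cmp O d (D b) = D (cmp O (d + 1) b) := by
  obtain ⟨N, hN⟩ := exists_sum O b
  have h1 : D b = ∑ i ∈ Finset.range N, D (cmp O i b) := by
    conv_lhs => rw [hN]
    rw [map_sum]
  rw [h1, map_sum]
  have h2 : ∀ i ∈ Finset.range N, cmp O d (D (cmp O i b)) =
      if i = d + 1 then D (cmp O (d + 1) b) else 0 := by
    intro i _
    obtain ⟨h3, h4⟩ := hD i (cmp O i b) (cmp_mem O i b)
    by_cases hi : i = d + 1
    · rw [if_pos hi, hi]
      rw [hi] at h3
      exact cmp_self (h3 d (by push_cast; ring))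
    · rw [if_neg hi]
      rcases Nat.eq_zero_or_pos i with h0 | h0
      · rw [h4 (by rw [h0]; norm_num), map_zero]
      · exact cmp_ne (h3 (i - 1) (by omega)) (by omega)
  rw [Finset.sum_congr rfl h2, Finset.sum_ite_eq' (Finset.range N) (d + 1)]
  split_ifs with h
  · rfl
  · have h5 : cmp O (d + 1) b = 0 := by
      rw [hN, map_sum]
      apply Finset.sum_eq_zero
      intro i hi
      apply cmp_ne (cmp_mem O i b)
      rintro rfl
      exact h hi
    rw [h5, map_zero]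

theorem deg_pr {O : Obj} {D : O.M →ₗ[Rg] O.M} (hD : DegMap D (-1)) (a k t : ℤ) (b : O.M) :
    (oc O a).pr k (t - 2) (D b) = D ((oc O a).pr k t b) := by
  rw [oc_pr, oc_pr]
  by_cases h : k = 0 ∧ 0 ≤ t + a ∧ (t + a) % 2 = 0
  · rw [if_pos h]
    by_cases h' : k = 0 ∧ 0 ≤ t - 2 + a ∧ (t - 2 + a) % 2 = 0
    · rw [if_pos h', deg_cmp hD]
      congr 3
      omega
    · rw [if_neg h']
      have h0 : ((t + a) / 2).toNat = 0 := by omega
      rw [h0]
      exact ((hD 0 (cmp O 0 b) (cmp_mem O 0 b)).2 (by norm_num)).symm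
  · rw [if_neg h, if_neg (by omega), map_zero]

/-- decomposition of `θ_s B_z`, `z s < z` -/
theorem th_dn (z : Wg) (s : Sg) (h : len (z * sw s) < len z) :
    ∃ d : Dcm (Th (rfs s) (KLB z)), (∀ r, d.k r = 0) ∧ (∀ r, d.m r = 1 ∨ d.m r = -1) ∧
      (∀ r, d.z r = z) := by
  obtain ⟨D, hD1, hD2, hD3, hD4, -⟩ := (full z trivial).d s trivial
    ((dn_sw_iff (y := z) trivial (s := s) trivial).2 h) (KB z)
  let E : (KLB z).M →+ (KLB z).M := D.toAddMonoidHom
  have hE : ∀ b, E b = D b := fun _ => rfl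
  have hfam := fam_dn (ρ := rfs s) (X := KLB z) (E := E) (fun f b => D.map_smul f b)
    (fun b => hD1 b) (fun f hf b => hD2 f hf b) (fun k t b => deg_pr hD3 _ k t b)
    (fun b => hD4 b)
  refine ⟨⟨Bool, fun _ => z, fun _ => 0, fun r => if r then 1 else -1, _, _, hfam⟩,
    fun _ => rfl, fun r => ?_, fun _ => rfl⟩
  cases r
  · exact Or.inr rfl
  · exact Or.inl rfl

end EW
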