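import Mathlib
import Pool.Agent.EW.RC.K0b
import Pool.Agent.EW.RC.K0c
import Pool.Agent.EW.RC.H9d

/-!
# Block K0: decomposition of `F_w` into the objects `B_z` (MP_d13a5e_al)
-/

open MvPolynomial

namespace RC
namespace K0

variable {n : ℕ}

/-- `Th` on maps -/
def thMap {X Y : CB n} (φ : X.M →+ Y.M) : X.M × X.M →+ Y.M × Y.M :=
  AddMonoidHom.mk' (fun m => (φ m.1, φ m.2)) (by
    intro a b; ext <;> simp)

theorem thMap_apply {X Y : CB n} (φ : X.M →+ Y.M) (m : X.M × X.M) :
    thMap φ m = (φ m.1, φ m.2) := rfl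

theorem thMap_Hm (ρ : Refl n) {X Y : CB n} {p e : ℤ} {φ : X.M →+ Y.M} (h : Hm X Y p e φ) :
    Hm (Th ρ X) (Th ρ Y) p e (thMap φ) := by
  obtain ⟨⟨hl, hr⟩, hpr⟩ := h
  refine ⟨⟨fun f m => ?_, fun f m => ?_⟩, fun k t m => ?_⟩
  · exact Prod.ext (hl f m.1) (hl f m.2)
  · change (φ (X.r (ρ.pl f) m.1 + X.r (ρ.α * ρ.α * ρ.mi f) m.2),
      φ (X.r (ρ.mi f) m.1 + X.r (ρ.pl f) m.2)) =
      (Y.r (ρ.pl f) (φ m.1) + Y.r (ρ.α * ρ.α * ρ.mi f) (φ m.2),
        Y.r (ρ.mi f) (φ m.1) + Y.r (ρ.pl f) (φ m.2))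
    rw [map_add, map_add, hr, hr, hr, hr]
  · change (Y.pr (k + p) (t + e + 1) (φ m.1), Y.pr (k + p) (t + e - 1) (φ m.2)) =
      (φ (X.pr k (t + 1) m.1), φ (X.pr k (t - 1) m.2))
    rw [← hpr, ← hpr]
    congr 3 <;> ring

/-- the inclusion `Th X → Phi X` -/
def inT (X : CB n) : X.M × X.M →+ X.M × X.M × X.M :=
  AddMonoidHom.mk' (fun m => (m.1, m.2, 0)) (by
    intro a b; ext <;> simp)

/-- the projection `Phi X → Th X` -/
def prT (X : CB n) : X.M × X.M × X.M →+ X.M × X.M :=
  AddMonoidHom.mk' (fun m => (m.1, m.2.1)) (by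
    intro a b; ext <;> simp)

/-- the inclusion `X → Phi X` -/
def inX (X : CB n) : X.M →+ X.M × X.M × X.M :=
  AddMonoidHom.mk' (fun m => (0, 0, m)) (by
    intro a b; ext <;> simp)

/-- the projection `Phi X → X` -/
def prX (X : CB n) : X.M × X.M × X.M →+ X.M :=
  AddMonoidHom.mk' (fun m => m.2.2) (by
    intro a b; simp)

theorem inT_Hm (ρ : Refl n) (ε : Bool) (X : CB n) : Hm (Th ρ X) (Phi ρ ε X) 0 0 (inT X) := by
  refine ⟨⟨fun f m => ?_, fun f m => ?_⟩, fun k t m => ?_⟩
  · exact Prod.ext rfl (Prod.ext rfl (X.l_mz f).symm)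
  · exact Prod.ext rfl (Prod.ext rfl (X.r_mz f).symm)
  · rw [add_zero, add_zero]
    exact Prod.ext rfl (Prod.ext rfl (X.pr_mz _ _))

theorem prT_Hm (ρ : Refl n) (ε : Bool) (X : CB n) : Hm (Phi ρ ε X) (Th ρ X) 0 0 (prT X) := by
  refine ⟨⟨fun f m => ?_, fun f m => ?_⟩, fun k t m => ?_⟩
  · rfl
  · rfl
  · rw [add_zero, add_zero]
    rfl

theorem inX_Hm (ρ : Refl n) (ε : Bool) (X : CB n) :
    Hm X (Phi ρ ε X) (sg ε) (-sg ε) (inX X) := by
  refine ⟨⟨fun f m => ?_, fun f m => ?_⟩, fun k t m => ?_⟩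
  · exact Prod.ext (X.l_mz f).symm (Prod.ext (X.l_mz f).symm rfl)
  · refine Prod.ext ?_ (Prod.ext ?_ rfl)
    · change (0 : X.M) = X.r (ρ.pl f) 0 + X.r (ρ.α * ρ.α * ρ.mi f) 0
      rw [X.r_mz, X.r_mz, add_zero]
    · change (0 : X.M) = X.r (ρ.mi f) 0 + X.r (ρ.pl f) 0
      rw [X.r_mz, X.r_mz, add_zero]
  · refine Prod.ext (X.pr_mz _ _) (Prod.ext (X.pr_mz _ _) ?_)
    change X.pr (k + sg ε - sg ε) (t + -sg ε + sg ε) m = X.pr k t m
    congr 2 <;> ring

theorem prX_Hm (ρ : Refl n) (ε : Bool) (X : CB n) :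
    Hm (Phi ρ ε X) X (-sg ε) (sg ε) (prX X) := by
  refine ⟨⟨fun f m => rfl, fun f m => rfl⟩, fun k t m => ?_⟩
  change X.pr (k + -sg ε) (t + sg ε) m.2.2 = X.pr (k - sg ε) (t + sg ε) m.2.2
  rw [sub_eq_add_neg]

end K0
end RC

namespace EW

variable [Dat]

open RC FR2 RC.K0

namespace K0

section Step

variable {X : CB Dat.n} (s : Sg) (ε : Bool) (d : Dcm X)
  (dd : ∀ r, Dcm (Th (rfs s) (KLB (d.z r))))

/-- the index type of the new decomposition -/
abbrev IX : Type := (Σ r : d.ι, (dd r).ι) ⊕ d.ι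

noncomputable def zX : IX s d dd → Wg
  | .inl x => (dd x.1).z x.2
  | .inr r => d.z r

noncomputable def kX : IX s d dd → ℤ
  | .inl x => (dd x.1).k x.2 + d.k x.1
  | .inr r => d.k r + sg ε

noncomputable def mX : IX s d dd → ℤ
  | .inl x => (dd x.1).m x.2 + d.m x.1
  | .inr r => d.m r + sg ε

noncomputable def iX : ∀ r : IX s d dd, (KLB (zX s d dd r)).M →+ (X.M × X.M × X.M)
  | .inl x => ((inT X).comp (thMap (d.i x.1))).comp ((dd x.1).i x.2)
  | .inr r => (inX X).comp (d.i r)

noncomputable def pX : ∀ r : IX s d dd, (X.M × X.M × X.M) →+ (KLB (zX s d dd r)).M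
  | .inl x => ((dd x.1).p x.2).comp ((thMap (d.p x.1)).comp (prT X))
  | .inr r => (d.p r).comp (prX X)

theorem famX : Fam (fun r => KLB (zX s d dd r)) (kX s ε d dd) (mX s ε d dd)
    (Phi (rfs s) ε X) Finset.univ (AddMonoidHom.id _) (iX s d dd) (pX s d dd) where
  hi := by
    rintro (⟨r, j⟩ | r) _
    · have h1 := (dd r).fam.hi j (Finset.mem_univ _)
      have h2 := thMap_Hm (rfs s) (d.fam.hi r (Finset.mem_univ _))
      have h3 := inT_Hm (rfs s) ε X
      refine h1.comp' (h2.comp h3) ?_ ?_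
      · change (dd r).k j + (d.k r + 0) = (dd r).k j + d.k r
        rw [add_zero]
      · change -(dd r).m j + (-d.m r + 0) = -((dd r).m j + d.m r)
        ring
    · have h2 := d.fam.hi r (Finset.mem_univ _)
      have h3 := inX_Hm (rfs s) ε X
      refine h2.comp' h3 rfl ?_
      change -d.m r + -sg ε = -(d.m r + sg ε)
      ring
  hp := by
    rintro (⟨r, j⟩ | r) _
    · have h1 := (dd r).fam.hp j (Finset.mem_univ _)
      have h2 := thMap_Hm (rfs s) (d.fam.hp r (Finset.mem_univ _))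
      have h3 := prT_Hm (rfs s) ε X
      refine (h3.comp h2).comp' h1 ?_ ?_
      · change 0 + -d.k r + -(dd r).k j = -((dd r).k j + d.k r)
        ring
      · change 0 + d.m r + (dd r).m j = (dd r).m j + d.m r
        ring
    · have h2 := d.fam.hp r (Finset.mem_univ _)
      have h3 := prX_Hm (rfs s) ε X
      refine h3.comp' h2 ?_ ?_
      · change -sg ε + -d.k r = -(d.k r + sg ε)
        ring
      · change sg ε + d.m r = d.m r + sg ε
        ring
  pi := by
    rintro (⟨r, j⟩ | r) _ x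
    · change (dd r).p j (d.p r (d.i r ((dd r).i j x).1), d.p r (d.i r ((dd r).i j x).2)) = x
      rw [d.fam.pi r (Finset.mem_univ _), d.fam.pi r (Finset.mem_univ _)]
      exact (dd r).fam.pi j (Finset.mem_univ _) x
    · exact d.fam.pi r (Finset.mem_univ _) x
  orth := by
    rintro (⟨r, j⟩ | r) _ (⟨q, l⟩ | q) _ hne x
    · by_cases hrq : r = q
      · subst hrq
        have hjl : j ≠ l := by
          rintro rfl
          exact hne rfl
        change (dd r).p l (d.p r (d.i r ((dd r).i j x).1), d.p r (d.i r ((dd r).i j x).2)) = 0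
        rw [d.fam.pi r (Finset.mem_univ _), d.fam.pi r (Finset.mem_univ _)]
        exact (dd r).fam.orth j (Finset.mem_univ _) l (Finset.mem_univ _) hjl x
      · change (dd q).p l (d.p q (d.i r ((dd r).i j x).1), d.p q (d.i r ((dd r).i j x).2)) = 0
        rw [d.fam.orth r (Finset.mem_univ _) q (Finset.mem_univ _) hrq,
          d.fam.orth r (Finset.mem_univ _) q (Finset.mem_univ _) hrq]
        exact map_zero _
    · change d.p q 0 = 0
      exact map_zero _
    · change (dd q).p l (d.p q 0, d.p q 0) = 0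
      rw [map_zero]
      exact map_zero _
    · have hrq : r ≠ q := by
        rintro rfl
        exact hne rfl
      exact d.fam.orth r (Finset.mem_univ _) q (Finset.mem_univ _) hrq x
  sum := by
    intro x
    have h1 : ∀ r, ∑ j, iX s d dd (.inl ⟨r, j⟩) (pX s d dd (.inl ⟨r, j⟩) x) =
        (d.i r (d.p r x.1), d.i r (d.p r x.2.1), 0) := by
      intro r
      have h := (dd r).fam.sum (d.p r x.1, d.p r x.2.1)
      have h' := congrArg ((inT X).comp (thMap (d.i r))) h
      have h'' := map_sum ((inT X).comp (thMap (d.i r)))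
        (fun j => (dd r).i j ((dd r).p j (d.p r x.1, d.p r x.2.1))) Finset.univ
      exact h''.symm.trans h'
    have h2 : ∀ r, iX s d dd (.inr r) (pX s d dd (.inr r) x) =
        (0, 0, d.i r (d.p r x.2.2)) := fun r => rfl
    have e1 := d.fam.sum x.1
    have e2 := d.fam.sum x.2.1
    have e3 := d.fam.sum x.2.2
    change (∑ r : IX s d dd, iX s d dd r (pX s d dd r x) : X.M × X.M × X.M) = x
    rw [Fintype.sum_sum_type, Fintype.sum_sigma]
    rw [Finset.sum_congr rfl (fun r _ => h1 r), Finset.sum_congr rfl (fun r _ => h2 r)]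
    refine Prod.ext ?_ (Prod.ext ?_ ?_)
    · rw [Prod.fst_add, Prod.fst_sum, Prod.fst_sum]
      simp only [Finset.sum_const_zero, add_zero]
      exact e1
    · rw [Prod.snd_add, Prod.snd_sum, Prod.snd_sum, Prod.fst_add, Prod.fst_sum, Prod.fst_sum]
      simp only [Finset.sum_const_zero, add_zero]
      exact e2
    · rw [Prod.snd_add, Prod.snd_sum, Prod.snd_sum, Prod.snd_add, Prod.snd_sum, Prod.snd_sum]
      simp only [Finset.sum_const_zero, zero_add]
      exact e3

/-- the new decomposition -/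
noncomputable def stepD : Dcm (Phi (rfs s) ε X) where
  ι := IX s d dd
  z := zX s d dd
  k := kX s ε d dd
  m := mX s ε d dd
  i := iX s d dd
  p := pX s d dd
  fam := famX s ε d dd

end Step

theorem th_any (z : Wg) (s : Sg) : ∃ dd : Dcm (Th (rfs s) (KLB z)), (∀ j, dd.k j = 0) ∧
    (∀ j, len (dd.z j) ≤ len z + 1) ∧
    (∀ j, ((len (dd.z j) : ℤ) + dd.m j + len z + 1) % 2 = 0) ∧
    ((len z < len (z * sw s) ∧ (∀ j, dd.z j ∈ Le (Up) (z * sw s)) ∧ ∃! j, dd.z j = z * sw s) ∨
      (len (z * sw s) < len z ∧ ∀ j, dd.z j = z)) := by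
  rcases lt_or_gt_of_ne (len_sw_ne z s) with h | h
  · obtain ⟨dd, h1, h2, h3⟩ := th_dn z s h
    refine ⟨dd, h1, fun j => ?_, fun j => ?_, Or.inr ⟨h, h3⟩⟩
    · rw [h3]; omega
    · rw [h3]
      rcases h2 j with h4 | h4 <;> omega
  · obtain ⟨dd, h1, h2, h3, h4, h5⟩ := th_up z s h
    refine ⟨dd, h1, fun j => (h3 j).1, fun j => ?_, Or.inl ⟨h, h4, h5⟩⟩
    have h6 := (h3 j).2
    rw [h2 j]
    omega

theorem len_wprod_le (l : List Sg) : len (wprod l) ≤ l.length := by
  induction l with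
  | nil =>
    change len (1 : Wg) ≤ 0
    rw [len_one]
  | cons s l ih =>
    have h := Dat.len_mul_sr (wprod l) s
    change Dat.len (wprod l * Dat.sr s) ≤ l.length + 1
    change Dat.len (wprod l) ≤ l.length at ih
    omega

/-- evaluation -/
noncomputable def ev : Re.M →+ Rg :=
  AddMonoidHom.mk' (fun m => m.1 ()) (fun _ _ => rfl)

/-- inverse of the evaluation -/
noncomputable def ve : Rg →+ Re.M :=
  AddMonoidHom.mk' (fun f => ⟨fun _ => f, trivial⟩) (fun _ _ => rfl)

theorem ev_Hm : Hm (oc Re 0) (unit Dat.n) 0 0 ev := by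
  refine ⟨⟨fun f m => rfl, fun f m => ?_⟩, fun k t m => ?_⟩
  · change act (1 : Wg) f * m.1 () = f * m.1 ()
    rw [act_one]
  · rw [add_zero, add_zero]
    change (if k = 0 ∧ 0 ≤ t ∧ t % 2 = 0 then homogeneousComponent (t / 2).toNat (m.1 ()) else 0) =
      ev (if k = 0 ∧ 0 ≤ t + 0 ∧ (t + 0) % 2 = 0 then cmp Re ((t + 0) / 2).toNat m else 0)
    rw [add_zero]
    split_ifs
    · rfl
    · rfl

theorem ve_Hm : Hm (unit Dat.n) (oc Re 0) 0 0 ve := by
  refine ⟨⟨fun f m => rfl, fun (f : Rg) (m : Rg) => ?_⟩, fun k t m => ?_⟩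
  · apply Subtype.ext
    funext i
    change f * m = act (1 : Wg) f * m
    rw [act_one]
  · rw [add_zero, add_zero]
    change (if k = 0 ∧ 0 ≤ t + 0 ∧ (t + 0) % 2 = 0 then cmp Re ((t + 0) / 2).toNat (ve m) else 0) =
      ve (if k = 0 ∧ 0 ≤ t ∧ t % 2 = 0 then homogeneousComponent (t / 2).toNat m else 0)
    rw [add_zero]
    split_ifs
    · rfl
    · rfl

theorem summ_Re : IsSummand (KB (1 : Wg)).O Re := by
  obtain ⟨l, _, hl, hlen, h⟩ := (KB (1 : Wg)).bs
  have hl0 : l = [] := by
    rw [len_one] at hlen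
    exact List.length_eq_zero_iff.mp hlen
  subst hl0
  exact h

/-- the unit -/
theorem unit_dcm : ∃ d : Dcm (unit Dat.n), (∀ r, d.z r = 1) ∧ (∀ r, d.k r = 0) ∧
    (∀ r, d.m r = 0) ∧ ∃! r : d.ι, True := by
  obtain ⟨i, p, hi, hp, di, dp, hpi⟩ := summ_Re
  have hi1 : Hm (oc (KB (1 : Wg)).O (len (1 : Wg))) (oc Re 0) 0 0 i.toAddMonoidHom := by
    have h := hm_of_degMap (a := (len (1 : Wg) : ℤ)) (b := 0) (P := Re) hi di
    have e : ((len (1 : Wg) : ℕ) : ℤ) - 0 + 2 * 0 = 0 := by rw [len_one]; simp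
    rw [e] at h
    exact h
  have hp1 : Hm (oc Re 0) (oc (KB (1 : Wg)).O (len (1 : Wg))) 0 0 p.toAddMonoidHom := by
    have h := hm_of_degMap (a := 0) (b := (len (1 : Wg) : ℤ)) (O := Re) hp dp
    have e : 0 - ((len (1 : Wg) : ℕ) : ℤ) + 2 * 0 = 0 := by rw [len_one]; simp
    rw [e] at h
    exact h
  let e1 : Re.M := ⟨fun _ => (1 : Rg), trivial⟩
  have he : ∀ f : Rg, ve f = f • e1 := by
    intro f
    apply Subtype.ext
    funext j
    change f = f * 1
    rw [mul_one]
  have hev : ∀ m : Re.M, ve (ev m) = m := fun m => rfl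
  set c : Rg := ev (i (p e1)) with hc
  have hc1 : c = 1 := by
    have h1 : i (p e1) = c • e1 := by
      rw [← he, hc, hev]
    have h2 : p e1 = c • p e1 := by
      rw [← map_smul, ← h1, hpi]
    by_contra hne
    have h3 : p e1 = 0 := by
      apply Subtype.ext
      funext j
      have h4 : (p e1).1 j = c * (p e1).1 j := congrFun (congrArg Subtype.val h2) j
      have h5 : (c - 1) * (p e1).1 j = 0 := by rw [sub_mul, one_mul, ← h4, sub_self]
      rcases mul_eq_zero.mp h5 with h6 | h6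
      · exact absurd (sub_eq_zero.mp h6) hne
      · exact h6
    obtain ⟨j, _, hj⟩ := (KB (1 : Wg)).b0_ne
    apply hj
    have h7 : (KB (1 : Wg)).b0 = 0 := by
      rw [← hpi (KB (1 : Wg)).b0, ← hev (i _), he, map_smul, h3, smul_zero]
    rw [h7]
    rfl
  refine ⟨{ ι := Unit, z := fun _ => 1, k := fun _ => 0, m := fun _ => 0,
            i := fun _ => ev.comp i.toAddMonoidHom,
            p := fun _ => p.toAddMonoidHom.comp ve,
            fam := ⟨?_, ?_, ?_, ?_, ?_⟩ }, fun _ => rfl, fun _ => rfl, fun _ => rfl, ⟨(), trivial,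
              fun _ _ => rfl⟩⟩
  · intro _ _
    exact hi1.comp' ev_Hm (by rfl) (by rfl)
  · intro _ _
    exact ve_Hm.comp' hp1 (by rfl) (by rfl)
  · intro _ _ x
    exact hpi x
  · intro r _ q _ hrq
    exact absurd rfl hrq
  · intro f
    have h9 : ∀ f : Rg, ev (i (p (ve f))) = f := by
      intro f
      have h8 : ev (i (p (ve f))) = f * c := by
        rw [he, map_smul, map_smul, hc]
        rfl
      rw [h8, hc1, mul_one]
    rw [Finset.univ_unique, Finset.sum_singleton]
    exact h9 f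

end K0

/-- decomposition of the Rouquier complexes -/
theorem Fr_dcm (w : List (Sg × Bool)) : ∃ d : Dcm (Fr w),
    (∀ r, (len (d.z r) : ℤ) + |d.k r| ≤ w.length) ∧
    (∀ r, ((len (d.z r) : ℤ) + d.m r + w.length) % 2 = 0) ∧
    ((∀ a ∈ w, a.2 = true) → ∀ r, 0 ≤ d.k r) ∧
    (len (wprod (w.map Prod.fst)) = w.length →
      (∀ r, d.z r ∈ Le (Up) (wprod (w.map Prod.fst))) ∧
      ∃! r, d.z r = wprod (w.map Prod.fst)) := by
  induction w with
  | nil =>
    obtain ⟨d, hz, hk, hm, hu⟩ := K0.unit_dcm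
    refine ⟨d, fun r => ?_, fun r => ?_, fun _ r => ?_, fun _ => ⟨fun r => ?_, ?_⟩⟩
    · rw [hz, hk, len_one]; simp
    · rw [hz, hm, len_one]; simp
    · rw [hk]
    · rw [hz]
      exact Relation.ReflTransGen.refl
    · obtain ⟨r, _, hr⟩ := hu
      exact ⟨r, hz r, fun q _ => hr q trivial⟩
  | cons a w ih =>
    obtain ⟨s, ε⟩ := a
    obtain ⟨d, h1, h2, h3, h4⟩ := ih
    choose dd g1 g2 g3 g4 using fun r => K0.th_any (d.z r) s
    refine ⟨K0.stepD s ε d dd, ?_, ?_, ?_, ?_⟩
    · rintro (⟨r, j⟩ | r)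
      · change (len ((dd r).z j) : ℤ) + |(dd r).k j + d.k r| ≤ ((w.length + 1 : ℕ) : ℤ)
        have e1 := h1 r
        have e2 := g2 r j
        rw [g1 r j, zero_add]
        push_cast
        omega
      · change (len (d.z r) : ℤ) + |d.k r + sg ε| ≤ ((w.length + 1 : ℕ) : ℤ)
        have e1 := h1 r
        have e2 : |d.k r + sg ε| ≤ |d.k r| + 1 := by
          refine (abs_add_le _ _).trans ?_
          cases ε <;> simp
        push_cast
        omega
    · rintro (⟨r, j⟩ | r)
      · change ((len ((dd r).z j) : ℤ) + ((dd r).m j + d.m r) + ((w.length + 1 : ℕ) : ℤ)) % 2 = 0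
        have e1 := h2 r
        have e2 := g3 r j
        push_cast
        omega
      · change ((len (d.z r) : ℤ) + (d.m r + sg ε) + ((w.length + 1 : ℕ) : ℤ)) % 2 = 0
        have e1 := h2 r
        push_cast
        cases ε
        · rw [sg_false]; omega
        · rw [sg_true]; omega
    · intro hpos
      have e0 : ε = true := hpos (s, ε) (List.mem_cons_self ..)
      have e1 := h3 (fun b hb => hpos b (List.mem_cons_of_mem _ hb))
      rintro (⟨r, j⟩ | r)
      · change 0 ≤ (dd r).k j + d.k r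
        rw [g1 r j, zero_add]
        exact e1 r
      · change 0 ≤ d.k r + sg ε
        rw [e0, sg_true]
        have := e1 r
        omega
    · intro hlen
      set x := wprod (w.map Prod.fst) with hx
      have hxs : wprod (((s, ε) :: w).map Prod.fst) = x * sw s := rfl
      rw [hxs] at hlen ⊢
      have hlx : len x ≤ w.length := by
        have h5 := K0.len_wprod_le (w.map Prod.fst)
        rw [List.length_map] at h5
        exact h5
      have hxw : len x = w.length := by
        have h5 := Dat.len_mul_sr x s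
        change Dat.len (x * Dat.sr s) = w.length + 1 at hlen
        change Dat.len x = w.length
        change Dat.len x ≤ w.length at hlx
        omega
      have hup : Up x (x * sw s) := by
        rw [up_sw_iff trivial trivial, hlen, hxw]
        exact Nat.lt_succ_self _
      have hls : len (x * sw s) = len x + 1 := len_mul_sw trivial trivial hup
      obtain ⟨f1, r0, hr0, hr0'⟩ := h4 hxw
      have hle : ∀ r j, (dd r).z j ∈ Le (Up) (x * sw s) := by
        intro r j
        rcases g4 r with ⟨_, g5, _⟩ | ⟨_, g5⟩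
        · exact Relation.ReflTransGen.trans (g5 j) (DC0.Le_sub' trivial trivial hup (f1 r))
        · rw [g5]
          exact DC0.Le_sub hup (f1 r)
      have hne : ∀ r, d.z r ≠ x * sw s := by
        intro r h
        have h5 := (Le_len (f1 r)).1
        rw [h, hls] at h5
        omega
      refine ⟨?_, ?_⟩
      · rintro (⟨r, j⟩ | r)
        · exact hle r j
        · exact DC0.Le_sub hup (f1 r)
      · have hcase : (len (d.z r0) < len (d.z r0 * sw s) ∧
            (∀ j, (dd r0).z j ∈ Le (Up) (d.z r0 * sw s)) ∧ ∃! j, (dd r0).z j = d.z r0 * sw s) := by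
          rcases g4 r0 with g5 | ⟨g5, _⟩
          · exact g5
          · rw [hr0, hls] at g5
            omega
        obtain ⟨_, _, j0, hj0, hj0'⟩ := hcase
        refine ⟨.inl ⟨r0, j0⟩, ?_, ?_⟩
        · change (dd r0).z j0 = x * sw s
          rw [hj0, hr0]
        · rintro (⟨r, j⟩ | r) hrj
          · change (dd r).z j = x * sw s at hrj
            have hzr : d.z r = x := by
              rcases g4 r with ⟨g6, g5, _⟩ | ⟨_, g5⟩
              · have h6 := g5 j
                rw [hrj] at h6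
                have h7 : d.z r * sw s ∈ Le (Up) (x * sw s) :=
                  DC0.Le_sub' trivial trivial hup (f1 r)
                have h8 := Le_len h6
                have h9 := Le_len h7
                have h10 := h9.2 (le_antisymm h9.1 h8.1)
                exact mul_right_cancel h10
              · rw [g5] at hrj
                exact absurd hrj (hne r)
            have hrr : r = r0 := hr0' r hzr
            subst hrr
            have : j = j0 := hj0' j (by
              change (dd r).z j = d.z r * sw s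
              rw [hrj, hzr])
            rw [this]
          · exact absurd hrj (hne r)

end EW
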