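import Mathlib
import Pool.Agent.EW.RC.S0

/-!
# Block S0c: elements of positive homological degree have small support (MP_d13a5e_al)
-/

open MvPolynomial

namespace EW

variable [Dat]

open RC FR2

namespace S0c

theorem rmul_el (s : Sg) {O : Obj} (f : Rg) (a b : O.M) :
    (theta s O).rmul f (el s a b) =
      el s (O.rmul ((rfs s).pl f) a + O.rmul ((rfs s).α * (rfs s).α * (rfs s).mi f) b)
        (O.rmul ((rfs s).mi f) a + O.rmul ((rfs s).pl f) b) := by
  have h := (rfs s).pl_add_mi f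
  have hα : (rfs s).α = al 1 s := rfl
  have h1 : (theta s O).rmul ((rfs s).mi f * (rfs s).α) (el s a b) =
      el s (O.rmul ((rfs s).α * (rfs s).α * (rfs s).mi f) b) (O.rmul ((rfs s).mi f) a) := by
    rw [Obj.rmul_mul, hα, rmul_el_al trivial, rmul_el_inv trivial ((rfs s).σ_mi f),
      ← Obj.rmul_mul]
    congr 3
    ring
  conv_lhs => rw [h]
  rw [Obj.rmul_add, rmul_el_inv trivial ((rfs s).σ_pl f), h1, ← el_add]
  congr 1
  exact add_comm _ _

theorem exists_add (s : Sg) {O : Obj} {N : Type} [AddCommGroup N] (G : O.M × O.M →+ N) :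
    ∃ φ : (theta s O).M →+ N, ∀ a b, φ (el s a b) = G (a, b) := by
  let F : (O.M × O.M) →+ (theta s O).M :=
    AddMonoidHom.mk' (fun c => el s c.1 c.2) (fun c c' => el_add _ _ _ _)
  have hF : Function.Bijective F := by
    constructor
    · rintro ⟨a, b⟩ ⟨a', b'⟩ hab
      obtain ⟨h1, h2⟩ := el_inj trivial hab
      exact Prod.ext h1 h2
    · intro m
      obtain ⟨a, b, rfl⟩ := el_surj m
      exact ⟨(a, b), rfl⟩
  let E := AddEquiv.ofBijective F hF
  refine ⟨G.comp E.symm.toAddMonoidHom, fun a b => ?_⟩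
  have h1 : E.symm (el s a b) = (a, b) := by
    rw [AddEquiv.symm_apply_eq]
    rfl
  change G (E.symm (el s a b)) = _
  rw [h1]

theorem lift_th (s : Sg) {O : Obj} {X : CB Dat.n} {e : (oc O 0).M →+ X.M}
    (he : IsBi (oc O 0) X e) :
    ∃ e' : (oc (theta s O) 0).M →+ (Th (rfs s) X).M,
      IsBi (oc (theta s O) 0) (Th (rfs s) X) e' ∧ ∀ a b, e' (el s a b) = (e a, e b) := by
  obtain ⟨φ, hφ⟩ := exists_add s (O := O) (N := X.M × X.M)
    (AddMonoidHom.mk' (fun c : O.M × O.M => ((e c.1, e c.2) : X.M × X.M)) (fun c c' =>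
      Prod.ext (map_add e _ _) (map_add e _ _)))
  have hφ' : ∀ a b, φ (el s a b) = (e a, e b) := hφ
  refine ⟨φ, ⟨fun f m => ?_, fun f m => ?_⟩, hφ'⟩
  · obtain ⟨a, b, rfl⟩ := el_surj m
    change φ (f • el s a b) = (X.l f (φ (el s a b)).1, X.l f (φ (el s a b)).2)
    rw [← el_smul, hφ', hφ']
    exact Prod.ext (he.1 f a) (he.1 f b)
  · obtain ⟨a, b, rfl⟩ := el_surj m
    change φ ((theta s O).rmul f (el s a b)) =
      thr (rfs s) X f (φ (el s a b)).1 (φ (el s a b)).2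
    rw [rmul_el, hφ', hφ']
    unfold thr
    have h1 : ∀ (g : Rg) (c : O.M), e (O.rmul g c) = X.r g (e c) := fun g c => he.2 g c
    have h0 : ∀ c c' : O.M, e (c + c') = e c + e c' := fun c c' => map_add e c c'
    refine Prod.ext ?_ ?_
    · change e (O.rmul _ a + O.rmul _ b) = _
      rw [h0, h1, h1]
    · change e (O.rmul _ a + O.rmul _ b) = _
      rw [h0, h1, h1]

theorem bi_th_phi (ρ : Refl Dat.n) (X : CB Dat.n) :
    ∃ j : (Th ρ X).M →+ (Phi ρ true X).M, IsBi (Th ρ X) (Phi ρ true X) j ∧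
      ∀ a b, j (a, b) = (a, b, 0) := by
  refine ⟨AddMonoidHom.mk' (fun c : X.M × X.M => ((c.1, c.2, 0) : X.M × X.M × X.M))
    (fun c c' => Prod.ext rfl (Prod.ext rfl (add_zero (0 : X.M)).symm)),
    ⟨fun f m => ?_, fun f m => ?_⟩, fun a b => rfl⟩
  · exact Prod.ext rfl (Prod.ext rfl (X.l_mz f).symm)
  · exact Prod.ext rfl (Prod.ext rfl (X.r_mz f).symm)

theorem bi_incl (ρ : Refl Dat.n) (X : CB Dat.n) :
    ∃ j : X.M →+ (Phi ρ true X).M, IsBi X (Phi ρ true X) j ∧ ∀ c, j c = (0, 0, c) := by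
  refine ⟨AddMonoidHom.mk' (fun c : X.M => ((0, 0, c) : X.M × X.M × X.M))
    (fun c c' => Prod.ext (add_zero (0 : X.M)).symm (Prod.ext (add_zero (0 : X.M)).symm rfl)),
    ⟨fun f m => ?_, fun f m => ?_⟩, fun c => rfl⟩
  · exact Prod.ext (X.l_mz f).symm (Prod.ext (X.l_mz f).symm rfl)
  · refine Prod.ext ?_ (Prod.ext ?_ rfl)
    · change (0 : X.M) = X.r _ 0 + X.r _ 0
      rw [X.r_mz, X.r_mz, add_zero]
    · change (0 : X.M) = X.r _ 0 + X.r _ 0
      rw [X.r_mz, X.r_mz, add_zero]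

/-- the subgroup generated by the images of the Bott-Samelson objects of short words -/
noncomputable def Sm (l : List Sg) (K : ℕ) : AddSubgroup (FP l).M :=
  AddSubgroup.closure {m | ∃ (l' : List Sg) (e : (oc (BS l') 0).M →+ (FP l).M) (m' : (BS l').M),
    l'.length < K ∧ IsBi (oc (BS l') 0) (FP l) e ∧ e m' = m}

theorem Sm_gen {l : List Sg} {K : ℕ} {l' : List Sg} (e : (oc (BS l') 0).M →+ (FP l).M)
    (m' : (BS l').M) (h : l'.length < K) (he : IsBi (oc (BS l') 0) (FP l) e) : e m' ∈ Sm l K :=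
  AddSubgroup.subset_closure ⟨l', e, m', h, he, rfl⟩

theorem Sm_mono (l : List Sg) {K K' : ℕ} (h : K ≤ K') : Sm l K ≤ Sm l K' := by
  refine AddSubgroup.closure_mono ?_
  rintro m ⟨l', e, m', h1, h2, h3⟩
  exact ⟨l', e, m', lt_of_lt_of_le h1 h, h2, h3⟩

/-- elements of `F_{s l}` -/
noncomputable def mk3 (s : Sg) (l : List Sg) (a b c : (FP l).M) : (FP (s :: l)).M := (a, b, c)

theorem mk3_add (s : Sg) (l : List Sg) (a b c a' b' c' : (FP l).M) :
    mk3 s l a b c + mk3 s l a' b' c' = mk3 s l (a + a') (b + b') (c + c') := rfl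

theorem mk3_neg (s : Sg) (l : List Sg) (a b c : (FP l).M) :
    -mk3 s l a b c = mk3 s l (-a) (-b) (-c) := rfl

theorem mk3_zero (s : Sg) (l : List Sg) : mk3 s l 0 0 0 = 0 := rfl

theorem Sm_key (s : Sg) (l : List Sg) (K : ℕ) (l' : List Sg) (e : (oc (BS l') 0).M →+ (FP l).M)
    (m1 m2 : (BS l').M) (h : l'.length < K) (he : IsBi (oc (BS l') 0) (FP l) e) :
    mk3 s l (e m1) (e m2) 0 ∈ Sm (s :: l) (K + 1) := by
  obtain ⟨j, hj, hj'⟩ := bi_th_phi (rfs s) (FP l)
  obtain ⟨e', he', he''⟩ := lift_th s he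
  have h1 := Sm_gen (l := s :: l) (K := K + 1) (l' := s :: l') (j.comp e') (el s m1 m2)
    (by simpa using h) (he'.comp hj)
  have h2 : (j.comp e') (el s m1 m2) = mk3 s l (e m1) (e m2) 0 := by
    change j (e' (el s m1 m2)) = _
    rw [he'', hj']
    rfl
  exact (congrArg (fun z => z ∈ Sm (s :: l) (K + 1)) h2).mp h1

theorem Sm_a (s : Sg) (l : List Sg) (K : ℕ) (a : (FP l).M) (ha : a ∈ Sm l K) :
    mk3 s l a 0 0 ∈ Sm (s :: l) (K + 1) := by
  refine AddSubgroup.closure_induction (p := fun a _ =>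
    mk3 s l a 0 0 ∈ Sm (s :: l) (K + 1)) ?_ ?_ ?_ ?_ ha
  · rintro _ ⟨l', e, m', h2, h3, rfl⟩
    have h4 := Sm_key s l K l' e m' 0 h2 h3
    have h7 : e (0 : (BS l').M) = 0 := map_zero e
    rw [h7] at h4
    exact h4
  · rw [mk3_zero]
    exact (Sm (s :: l) (K + 1)).zero_mem
  · intro x y _ _ hx hy
    have h4 := (Sm (s :: l) (K + 1)).add_mem hx hy
    rwa [mk3_add, add_zero] at h4
  · intro x _ hx
    have h4 := (Sm (s :: l) (K + 1)).neg_mem hx
    rwa [mk3_neg, neg_zero] at h4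

theorem Sm_b (s : Sg) (l : List Sg) (K : ℕ) (b : (FP l).M) (hb : b ∈ Sm l K) :
    mk3 s l 0 b 0 ∈ Sm (s :: l) (K + 1) := by
  refine AddSubgroup.closure_induction (p := fun b _ =>
    mk3 s l 0 b 0 ∈ Sm (s :: l) (K + 1)) ?_ ?_ ?_ ?_ hb
  · rintro _ ⟨l', e, m', h2, h3, rfl⟩
    have h4 := Sm_key s l K l' e 0 m' h2 h3
    have h7 : e (0 : (BS l').M) = 0 := map_zero e
    rw [h7] at h4
    exact h4
  · rw [mk3_zero]
    exact (Sm (s :: l) (K + 1)).zero_mem
  · intro x y _ _ hx hy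
    have h4 := (Sm (s :: l) (K + 1)).add_mem hx hy
    rwa [mk3_add, add_zero] at h4
  · intro x _ hx
    have h4 := (Sm (s :: l) (K + 1)).neg_mem hx
    rwa [mk3_neg, neg_zero] at h4

theorem Sm_c (s : Sg) (l : List Sg) (K : ℕ) (c : (FP l).M) (hc : c ∈ Sm l K) :
    mk3 s l 0 0 c ∈ Sm (s :: l) K := by
  obtain ⟨j, hj, hj'⟩ := bi_incl (rfs s) (FP l)
  have h : Sm l K ≤ (Sm (s :: l) K).comap (show (FP l).M →+ (FP (s :: l)).M from j) := by
    refine (AddSubgroup.closure_le _).2 ?_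
    rintro _ ⟨l', e, m', h2, h3, rfl⟩
    exact Sm_gen (l := s :: l) (j.comp e) m' h2 (h3.comp hj)
  have h1 : j c ∈ Sm (s :: l) K := h hc
  exact (congrArg (fun z => z ∈ Sm (s :: l) K) (hj' c)).mp h1

theorem Sm_abc (s : Sg) (l : List Sg) (K : ℕ) (a b c : (FP l).M) (ha : a ∈ Sm l K)
    (hb : b ∈ Sm l K) (hc : c ∈ Sm l (K + 1)) : mk3 s l a b c ∈ Sm (s :: l) (K + 1) := by
  have h3 := (Sm (s :: l) (K + 1)).add_mem ((Sm (s :: l) (K + 1)).add_mem (Sm_a s l K a ha)
    (Sm_b s l K b hb)) (Sm_c s l (K + 1) c hc)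
  simpa only [mk3_add, add_zero, zero_add] using h3

theorem Sm_top : ∀ (l : List Sg) (m : (FP l).M), m ∈ Sm l (l.length + 1)
  | [], m => by
    have h := Sm_gen (l := []) (K := 1) (l' := [])
      (AddMonoidHom.mk' (fun c : Re.M => (show (FP []).M from c.1 ())) (fun _ _ => rfl))
      (⟨fun _ => m, trivial⟩ : Re.M) (by simp)
      ⟨fun f c => rfl, fun f c => by
        change act 1 f * c.1 () = f * c.1 ()
        rw [act_one]⟩
    exact h
  | s :: l, (a, b, c) =>
    Sm_abc s l (l.length + 1) a b c (Sm_top l a) (Sm_top l b)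
      (Sm_mono l (Nat.le_succ _) (Sm_top l c))

theorem Sm_small : ∀ (l : List Sg) (m : (FP l).M), (∀ t, (FP l).pr 0 t m = 0) → m ∈ Sm l l.length
  | [], m, h => by
    have h0 : m = 0 := by
      refine (FP []).pr_ext m fun k t => ?_
      by_cases hk : k = 0
      · rw [hk]
        exact h t
      · change (if k = 0 ∧ 0 ≤ t ∧ t % 2 = 0 then
          homogeneousComponent (t / 2).toNat (show P Dat.n from m) else 0) = 0
        rw [if_neg (fun h => hk h.1)]
    rw [h0]
    exact (Sm [] 0).zero_mem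
  | s :: l, (a, b, c), h => by
    have ha : ∀ t, (FP l).pr 0 t a = 0 := by
      intro t
      have h1 : (FP l).pr 0 (t - 1 + 1) a = 0 := congrArg Prod.fst (h (t - 1))
      rwa [sub_add_cancel] at h1
    have hb : ∀ t, (FP l).pr 0 t b = 0 := by
      intro t
      have h1 : (FP l).pr 0 (t + 1 - 1) b = 0 := congrArg (fun p => p.2.1) (h (t + 1))
      rwa [add_sub_cancel_right] at h1
    exact Sm_abc s l l.length a b c (Sm_small l a ha) (Sm_small l b hb) (Sm_top l c)

end S0c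

/-- the value of a bimodule homomorphism on an element without component in homological degree
`0` vanishes at the positions of length `≥ |l|` -/
theorem vanish_small (l : List Sg) {N : Obj} {f : (FP l).M →+ N.M}
    (hf : IsBi (FP l) (oc N 0) f) (m : (FP l).M) (hm : ∀ t, (FP l).pr 0 t m = 0) (i : N.I)
    (hi : l.length ≤ len (N.π i)) : (f m).1 i = 0 := by
  have h := S0c.Sm_small l m hm
  refine AddSubgroup.closure_induction (p := fun m _ => (f m).1 i = 0) ?_ ?_ ?_ ?_ h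
  · rintro _ ⟨l', e, m', h2, h3, rfl⟩
    obtain ⟨ψ, hψ, hψ'⟩ := biMap_of_isBi (O := BS l') (P := N) (h3.comp hf)
    have h4 := hψ.vanish (y := N.π i) (m := m') (fun i' hi' => by
      have h5 := BS_len l' i'
      rw [hi'] at h5
      omega) i rfl
    rw [hψ'] at h4
    exact h4
  · rw [map_zero]
    rfl
  · intro x y _ _ hx hy
    rw [map_add]
    change (f x).1 i + (f y).1 i = 0
    rw [hx, hy, add_zero]
  · intro x _ hx
    rw [map_neg]
    change -(f x).1 i = 0
    rw [hx, neg_zero]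

theorem vanish_small_th (l : List Sg) (s : Sg) {N : Obj} {f : (Th (rfs s) (FP l)).M →+ N.M}
    (hf : IsBi (Th (rfs s) (FP l)) (oc N 0) f) (m : (FP l).M)
    (hm : ∀ t, (FP l).pr 0 t m = 0) (i : N.I)
    (hi : l.length ≤ len (N.π i)) (hi' : l.length ≤ len (N.π i * sw s)) :
    (f (m, 0)).1 i = 0 := by
  have h := S0c.Sm_small l m hm
  have hz : ∀ x : (FP l).M, ∀ y : (FP l).M,
      f ((x + y, 0) : (FP l).M × (FP l).M) = f (x, 0) + f (y, 0) := by
    intro x y
    have h5 : ((x + y, 0) : (FP l).M × (FP l).M) = (x, 0) + (y, 0) :=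
      Prod.ext rfl (add_zero (0 : (FP l).M)).symm
    rw [h5]
    exact map_add f _ _
  have hz0 : f ((0, 0) : (FP l).M × (FP l).M) = 0 := map_zero f
  refine AddSubgroup.closure_induction (p := fun m _ => (f (m, 0)).1 i = 0) ?_ ?_ ?_ ?_ h
  · rintro _ ⟨l', e, m', h2, h3, rfl⟩
    obtain ⟨e', he', he''⟩ := S0c.lift_th s h3
    obtain ⟨ψ, hψ, hψ'⟩ := biMap_of_isBi (O := theta s (BS l')) (P := N) (he'.comp hf)
    have h4 := hψ.vanish (y := N.π i) (m := el s m' 0) (fun p hp => by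
      exfalso
      obtain ⟨i', b⟩ := p
      have h5 := BS_len l' i'
      cases b
      · change (BS l').π i' = N.π i at hp
        rw [hp] at h5
        omega
      · change (BS l').π i' * sw s = N.π i at hp
        rw [← hp, mul_assoc] at hi'
        have h6 : sw s * sw s = 1 := Dat.sr_mul s
        rw [h6, mul_one] at hi'
        omega) i rfl
    rw [hψ'] at h4
    change (f (e' (el s m' 0))).1 i = 0 at h4
    have h7 : e (0 : (BS l').M) = 0 := map_zero e
    rw [he'', h7] at h4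
    exact h4
  · change (f ((0, 0) : (FP l).M × (FP l).M)).1 i = 0
    rw [hz0]
    rfl
  · intro x y _ _ hx hy
    rw [hz]
    change (f (x, 0)).1 i + (f (y, 0)).1 i = 0
    rw [hx, hy, add_zero]
  · intro x _ hx
    have h5 := hz x (-x)
    rw [add_neg_cancel, hz0] at h5
    have h6 : (f (x, 0)).1 i + (f (-x, 0)).1 i = 0 := by
      have h7 := congrArg (fun q : N.M => q.1 i) h5
      exact h7.symm
    rw [hx, zero_add] at h6
    exact h6

end EW
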