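import Mathlib
import Pool.Agent.EW.RC.S0c

/-!
# Block S1a: homomorphisms from `F_l`, `l` a reduced word, to nice objects (MP_d13a5e_al)
-/

open MvPolynomial

namespace EW

variable [Dat]

open RC FR2

private theorem bisum53 {O N : Obj} (K : ℕ) (φ : ℕ → (O.M →ₗ[Rg] N.M)) (h : ∀ d, BiMap (φ d)) :
    BiMap (∑ d ∈ Finset.range K, φ d) := by
  intro j m
  rw [LinearMap.sum_apply, LinearMap.sum_apply, map_sum]
  exact Finset.sum_congr rfl fun d _ => h d j m

/-- (c): surjectivity onto the stalk -/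
theorem FP_surj (l : List Sg) (hl : len (wprod l) = l.length) {N : Obj} (hN : Nice N) (b : N.M)
    (hb : ∀ i, N.π i ∉ Le (Up) (wprod l) → b.1 i = 0) :
    ∃ f : (FP l).M →+ N.M, IsBi (FP l) (oc N 0) f ∧ Sp (X := FP l) 0 f ∧
      ∀ i, N.π i = wprod l → (f (cg l)).1 i = b.1 i := by
  obtain ⟨K, hK⟩ := FR2.exists_sum N b
  have hex : ∀ d : ℕ, ∃ φ : (BS l).M →ₗ[Rg] N.M, BiMap φ ∧
      ∀ i, N.π i = wprod l → (φ (bg l)).1 i = (cmp N d b).1 i := by
    intro d
    obtain ⟨φ, h1, -, h3⟩ := BS_lift l hl N hN d (cmp N d b) (cmp_mem N d b) (fun i hi => by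
      rw [cmp_val, hb i hi, map_zero])
    exact ⟨φ, h1, h3⟩
  choose φ hφ1 hφ2 using hex
  obtain ⟨q, hq, hqg, hqs⟩ := exists_proj l
  have hψ : BiMap (∑ d ∈ Finset.range K, φ d) := bisum53 K φ hφ1
  set ψ := ∑ d ∈ Finset.range K, φ d with hψdef
  refine ⟨ψ.toAddMonoidHom.comp q, ⟨?_, ?_⟩, ?_, ?_⟩
  · intro g m
    have h1 : q ((FP l).l g m) = (g : Rg) • q m := hq.1 g m
    exact (congrArg ψ h1).trans (map_smul ψ (g : Rg) (q m))
  · intro g m
    have h1 : q ((FP l).r g m) = (BS l).rmul g (q m) := hq.2 g m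
    exact (congrArg ψ h1).trans (hψ.rmul g (q m))
  · intro k t m hk
    change ψ (q ((FP l).pr k t m)) = 0
    rw [hqs k t m hk, map_zero]
  · intro i hi
    change (ψ (q (cg l))).1 i = b.1 i
    rw [hqg, hψdef, LinearMap.sum_apply]
    conv_rhs => rw [hK]
    rw [AddSubmonoidClass.coe_finsetSum, AddSubmonoidClass.coe_finsetSum, Finset.sum_apply, Finset.sum_apply]
    exact Finset.sum_congr rfl fun d _ => hφ2 d i hi

/-- support of the image of the generator -/
theorem cg_supp (l : List Sg) (hl : len (wprod l) = l.length) {N : Obj}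
    {f : (FP l).M →+ N.M} (hf : IsBi (FP l) (oc N 0) f) (i : N.I)
    (hi : N.π i ∉ Le (Up) (wprod l)) : (f (cg l)).1 i = 0 := by
  obtain ⟨e, he, heg, -⟩ := exists_emb l
  obtain ⟨ψ, hψ, hψe⟩ := biMap_of_isBi (he.comp hf)
  have h1 := hψ.vanish (y := N.π i) (m := bg l) (fun j hj => BS_le l hl (bg l) j (by rw [hj]; exact hi)) i rfl
  rw [hψe] at h1
  change (f (e (bg l))).1 i = 0 at h1
  rwa [heg] at h1

/-- the embedding of `θ_s (BS l)` into `Th (F_l)` -/
private theorem emb_th53 (l : List Sg) (s : Sg) {e : (BS l).M →+ (FP l).M}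
    (he : IsBi (oc (BS l) 0) (FP l) e) :
    ∃ E : (theta s (BS l)).M →+ (Th (rfs s) (FP l)).M, IsBi (oc (theta s (BS l)) 0) (Th (rfs s) (FP l)) E ∧
      ∀ a b, E (el s a b) = (e a, e b) := by
  have hs : Smp s := trivial
  let F : ((BS l).M × (BS l).M) →+ (theta s (BS l)).M := AddMonoidHom.mk' (fun c => el s c.1 c.2)
    (fun c c' => el_add _ _ _ _)
  have hF : Function.Bijective F := by
    constructor
    · rintro ⟨a, b⟩ ⟨a', b'⟩ hab
      obtain ⟨h1, h2⟩ := el_inj hs hab
      exact Prod.ext h1 h2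
    · intro m
      obtain ⟨a, b, rfl⟩ := el_surj m
      exact ⟨(a, b), rfl⟩
  let G := AddEquiv.ofBijective F hF
  let E : (theta s (BS l)).M →+ ((FP l).M × (FP l).M) := (e.prodMap e).comp G.symm.toAddMonoidHom
  have hE : ∀ a b, E (el s a b) = (e a, e b) := by
    intro a b
    have h1 : G.symm (el s a b) = (a, b) := by
      rw [AddEquiv.symm_apply_eq]
      rfl
    change (e.prodMap e) (G.symm (el s a b)) = (e a, e b)
    rw [h1]
    rfl
  refine ⟨E, ⟨?_, ?_⟩, hE⟩
  · intro g m
    obtain ⟨a, b, rfl⟩ := el_surj m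
    have h1 : (oc (theta s (BS l)) 0).l g (el s a b) = el s (g • a) (g • b) := (el_smul g a b).symm
    rw [h1]
    change E (el s (g • a) (g • b)) = ((FP l).l g (E (el s a b)).1, (FP l).l g (E (el s a b)).2)
    rw [hE, hE]
    exact Prod.ext (he.1 g a) (he.1 g b)
  · intro g m
    obtain ⟨a, b, rfl⟩ := el_surj m
    change E ((theta s (BS l)).rmul g (el s a b)) = thr (rfs s) (FP l) g (E (el s a b)).1 (E (el s a b)).2
    set ρ := rfs s with hρ
    have h1 : (theta s (BS l)).rmul g (el s a b) =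
        el s ((BS l).rmul (ρ.pl g) a + (BS l).rmul (ρ.mi g) ((BS l).rmul (ρ.α * ρ.α) b))
          ((BS l).rmul (ρ.pl g) b + (BS l).rmul (ρ.mi g) a) := by
      conv_lhs => rw [ρ.pl_add_mi g]
      rw [Obj.rmul_add, Obj.rmul_mul, rmul_el_inv hs (ρ.σ_pl g)]
      have h2 : (theta s (BS l)).rmul ρ.α (el s a b) = el s ((BS l).rmul (ρ.α * ρ.α) b) a := rmul_el_al hs a b
      rw [h2, rmul_el_inv hs (ρ.σ_mi g), ← el_add]
    rw [h1, hE, hE]
    unfold thr
    have hr : ∀ (p : Rg) (c : (BS l).M), e ((BS l).rmul p c) = (FP l).r p (e c) := fun p c => he.2 p c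
    refine Prod.ext ?_ ?_
    · change e _ = _
      rw [map_add, hr, hr, hr, ← CB.r_mul, mul_comm (ρ.mi g)]
    · change e _ = _
      rw [map_add, hr, hr, add_comm]

/-- Lemma V -/
theorem lemV (l : List Sg) (hl : len (wprod l) = l.length) (s : Sg)
    (hs : len (wprod l) < len (wprod l * sw s)) {N : Obj}
    {f : (Th (rfs s) (FP l)).M →+ N.M} (hf : IsBi (Th (rfs s) (FP l)) (oc N 0) f) (g : Rg)
    (i : N.I) (hi : N.π i = wprod l ∨ N.π i = wprod l * sw s) :
    (f ((FP l).r g (cg l), 0)).1 i = act (wprod l) g * (f (cg l, 0)).1 i := by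
  obtain ⟨e, he, heg, -⟩ := exists_emb l
  obtain ⟨E, hE, hEel⟩ := emb_th53 l s he
  obtain ⟨ψ, hψ, hψe⟩ := biMap_of_isBi (hE.comp hf)
  set x := wprod l with hx
  have hv := hψ.vanish (y := N.π i) (m := el s ((BS l).rmul g (bg l) - act x g • bg l) 0) (fun p hp => by
    have hp1 : (BS l).π p.1 = x := by
      have hlen := BS_len l p.1
      have hlt : l.length < len (x * sw s) := by rw [← hl]; exact hs
      obtain ⟨j, b⟩ := p
      change (if b then (BS l).π j * sw s else (BS l).π j) = N.π i at hp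
      change (BS l).π j = x
      change len ((BS l).π j) ≤ l.length at hlen
      cases b with
      | false =>
        simp only [Bool.false_eq_true, if_false] at hp
        rcases hi with hi | hi
        · rw [hp, hi]
        · exfalso
          rw [hp, hi] at hlen
          omega
      | true =>
        simp only [if_true] at hp
        rcases hi with hi | hi
        · exfalso
          have : (BS l).π j = x * sw s := by
            rw [← hi, ← hp, mul_assoc, sw, Dat.sr_mul, mul_one]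
          rw [this] at hlen
          omega
        · rw [hi] at hp
          exact mul_right_cancel hp
    rw [el_val]
    change (((BS l).rmul g (bg l)).1 p.1 - act x g * (bg l).1 p.1) + _ * 0 = 0
    rw [Obj.rmul_val, hp1]
    ring) i rfl
  rw [hψe] at hv
  change (f (E (el s ((BS l).rmul g (bg l) - act x g • bg l) 0))).1 i = 0 at hv
  rw [hEel, map_sub, map_zero] at hv
  have h1 : e ((BS l).rmul g (bg l)) = (FP l).r g (cg l) := by
    have h0 : e ((BS l).rmul g (bg l)) = (FP l).r g (e (bg l)) := he.2 g (bg l)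
    rw [heg] at h0
    exact h0
  have h2 : e (act x g • bg l) = (FP l).l (act x g) (cg l) := by
    have h0 : e (act x g • bg l) = (FP l).l (act x g) (e (bg l)) := he.1 (act x g) (bg l)
    rw [heg] at h0
    exact h0
  rw [h1, h2] at hv
  let A : (Th (rfs s) (FP l)).M := ((FP l).r g (cg l), 0)
  let B : (Th (rfs s) (FP l)).M := (cg l, 0)
  have h3 : (((FP l).r g (cg l) - (FP l).l (act x g) (cg l), (0 : (FP l).M)) : (Th (rfs s) (FP l)).M) =
      A - (Th (rfs s) (FP l)).l (act x g) B := by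
    refine Prod.ext rfl ?_
    change (0 : (FP l).M) = 0 - (FP l).l (act x g) 0
    rw [CB.l_mz, sub_zero]
  have h4 : f (((FP l).r g (cg l) - (FP l).l (act x g) (cg l), (0 : (FP l).M)) : (Th (rfs s) (FP l)).M) =
      f A - act x g • f B := by
    have h6 : f ((Th (rfs s) (FP l)).l (act x g) B) = act x g • f B := hf.1 (act x g) B
    exact ((congrArg f h3).trans (map_sub f _ _)).trans (congrArg (fun z => f A - z) h6)
  have h7 : (f A - act x g • f B).1 i = 0 := by
    rw [← h4]
    exact hv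
  have h5 : (f A).1 i - act x g * (f B).1 i = 0 := h7
  exact sub_eq_zero.mp h5

end EW
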