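import Mathlib
import Pool.Agent.EW.RC.S1a
import Pool.Agent.EW.DC3

/-!
# Block S1: homomorphisms from `F_l`, `l` a reduced word, to nice objects (MP_d13a5e_al)
-/

open MvPolynomial

namespace EW

variable [Dat]

open RC FR2

/-- the three statements on `Hom(F_l, N)` -/
structure Sat (l : List Sg) (N : Obj) : Prop where
  a : ∀ k : ℤ, 1 ≤ k → ∀ f : (FP l).M →+ N.M, IsBi (FP l) (oc N 0) f → Sp (X := FP l) k f →
    (∀ m, f ((FP l).D m) = 0) → ∃ h : (FP l).M →+ N.M, IsBi (FP l) (oc N 0) h ∧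
      Sp (X := FP l) (k + 1) h ∧ ∀ m, f m = h ((FP l).D m)
  b : ∀ f : (FP l).M →+ N.M, IsBi (FP l) (oc N 0) f → Sp (X := FP l) 0 f →
    (∀ i, N.π i = wprod l → (f (cg l)).1 i = 0) → ∃ h : (FP l).M →+ N.M,
      IsBi (FP l) (oc N 0) h ∧ Sp (X := FP l) 1 h ∧ ∀ m, f m = h ((FP l).D m)

namespace S1

variable {s : Sg} {X : CB Dat.n} {N : Obj}

/-- maps which are left linear, and right linear over the invariants -/
def Is1 (s : Sg) (X : CB Dat.n) (N : Obj) (F : X.M →+ N.M) : Prop :=
  (∀ g a, F (X.l g a) = g • F a) ∧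
    ∀ g : Rg, act (sw s) g = g → ∀ a, F (X.r g a) = N.rmul g (F a)

theorem is1_of_isBi {F : X.M →+ N.M} (h : IsBi X (oc N 0) F) : Is1 s X N F :=
  ⟨fun g a => h.1 g a, fun g _ a => h.2 g a⟩

theorem Is1.add {F G : X.M →+ N.M} (hF : Is1 s X N F) (hG : Is1 s X N G) :
    Is1 s X N (F + G) := by
  refine ⟨fun g a => ?_, fun g hg a => ?_⟩
  · rw [AddMonoidHom.add_apply, AddMonoidHom.add_apply, hF.1, hG.1, smul_add]
  · rw [AddMonoidHom.add_apply, AddMonoidHom.add_apply, hF.2 g hg, hG.2 g hg, map_add]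

/-- `a ↦ ½ (F(a α) ⊗ 1 + F(a) ⊗ α)` -/
noncomputable def sh (s : Sg) (X : CB Dat.n) (N : Obj) (F : X.M →+ N.M) :
    X.M →+ (theta s N).M :=
  AddMonoidHom.mk' (fun a => el s ((C (1/2 : ℝ) : Rg) • F (X.r (al 1 s) a))
    ((C (1/2 : ℝ) : Rg) • F a)) (by
      intro a b
      rw [X.r_ma, map_add, map_add, smul_add, smul_add, el_add])

theorem sh_apply (F : X.M →+ N.M) (a : X.M) : sh s X N F a =
    el s ((C (1/2 : ℝ) : Rg) • F (X.r (al 1 s) a)) ((C (1/2 : ℝ) : Rg) • F a) := rfl

theorem half_smul {O : Obj} (m : O.M) : (C (2 : ℝ) : Rg) • (C (1/2 : ℝ) : Rg) • m = m := by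
  rw [← mul_smul, ← C_mul]
  norm_num

theorem half_smul' {O : Obj} (m : O.M) : (C (1/2 : ℝ) : Rg) • (C (2 : ℝ) : Rg) • m = m := by
  rw [← mul_smul, ← C_mul]
  norm_num

theorem sh_zero_of {F : X.M →+ N.M} {a : X.M} (h1 : F (X.r (al 1 s) a) = 0) (h2 : F a = 0) :
    sh s X N F a = 0 := by
  rw [sh_apply, h1, h2, smul_zero, el_zero]

/-- right multiplication in `θ_s N` -/
theorem rmul_el_gen (g : Rg) (a b : N.M) : (theta s N).rmul g (el s a b) =
    el s (N.rmul ((rfs s).pl g) a + N.rmul ((rfs s).mi g) (N.rmul (al 1 s * al 1 s) b))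
      (N.rmul ((rfs s).pl g) b + N.rmul ((rfs s).mi g) a) := by
  have hs : Smp s := trivial
  set ρ := rfs s with hρ
  conv_lhs => rw [ρ.pl_add_mi g]
  rw [Obj.rmul_add, Obj.rmul_mul, rmul_el_inv hs (ρ.σ_pl g)]
  have h2 : (theta s N).rmul ρ.α (el s a b) = el s (N.rmul (al 1 s * al 1 s) b) a :=
    rmul_el_al hs a b
  rw [h2, rmul_el_inv hs (ρ.σ_mi g), ← el_add]

theorem rmul_smul'' {O : Obj} (f g : Rg) (m : O.M) : O.rmul f (g • m) = g • O.rmul f m :=
  (O.rmul f).map_smul g m

theorem sh_isBi {F : X.M →+ N.M} (hF : Is1 s X N F) :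
    IsBi X (oc (theta s N) 0) (sh s X N F) := by
  refine ⟨fun g a => ?_, fun g a => ?_⟩
  · change sh s X N F (X.l g a) = g • sh s X N F a
    rw [sh_apply, sh_apply, ← X.lr, hF.1, hF.1, smul_comm _ g, smul_comm _ g, el_smul]
  · change sh s X N F (X.r g a) = (theta s N).rmul g (sh s X N F a)
    have hp : act (sw s) ((rfs s).pl g) = (rfs s).pl g := (rfs s).σ_pl g
    have hm : act (sw s) ((rfs s).mi g) = (rfs s).mi g := (rfs s).σ_mi g
    have hg : g = (rfs s).pl g + (rfs s).mi g * al 1 s := (rfs s).pl_add_mi g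
    have h1 : F (X.r g a) = N.rmul ((rfs s).pl g) (F a) +
        N.rmul ((rfs s).mi g) (F (X.r (al 1 s) a)) := by
      conv_lhs => rw [hg]
      rw [X.r_add, X.r_mul, map_add, hF.2 _ hp, hF.2 _ hm]
    have h2 : F (X.r (al 1 s) (X.r g a)) = N.rmul ((rfs s).pl g) (F (X.r (al 1 s) a)) +
        N.rmul ((rfs s).mi g) (N.rmul (al 1 s * al 1 s) (F a)) := by
      have e : al 1 s * g = (rfs s).pl g * al 1 s + (rfs s).mi g * (al 1 s * al 1 s) := by
        linear_combination (al 1 s) * hg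
      have hα : act (sw s) (al 1 s * al 1 s) = al 1 s * al 1 s := by
        rw [map_mul, act_sw_al]; ring
      rw [← X.r_mul, e, X.r_add, X.r_mul, X.r_mul, map_add, hF.2 _ hp, hF.2 _ hm, hF.2 _ hα]
    rw [sh_apply, sh_apply, rmul_el_gen, h1, h2]
    simp only [rmul_smul'', smul_add]

theorem exists_unsh {H : X.M →+ (theta s N).M} (hH : IsBi X (oc (theta s N) 0) H) :
    ∃ F : X.M →+ N.M, Is1 s X N F ∧ (∀ a, H a = sh s X N F a) ∧
      ∀ k, Sp (X := X) k H → Sp (X := X) k F := by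
  have hs : Smp s := trivial
  obtain ⟨q, hq⟩ := DC3.exists_snd hs N
  have hqinv : ∀ f : Rg, act (sw s) f = f → ∀ w, q ((theta s N).rmul f w) = N.rmul f (q w) := by
    intro f hf w
    obtain ⟨c, d, rfl⟩ := el_surj w
    rw [rmul_el_inv hs hf, hq, hq]
  let F : X.M →+ N.M := AddMonoidHom.mk' (fun a => (C (2 : ℝ) : Rg) • q (H a)) (by
    intro a b
    rw [map_add, map_add, smul_add])
  have hF : ∀ a, F a = (C (2 : ℝ) : Rg) • q (H a) := fun _ => rfl
  have hl : ∀ g a, H (X.l g a) = g • H a := fun g a => hH.1 g a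
  have hr : ∀ g a, H (X.r g a) = (theta s N).rmul g (H a) := fun g a => hH.2 g a
  refine ⟨F, ⟨fun g a => ?_, fun g hg a => ?_⟩, fun a => ?_, fun k hk k' t m hkk => ?_⟩
  · rw [hF, hF, hl, map_smul, smul_comm]
  · rw [hF, hF, hr, hqinv g hg, rmul_smul'']
  · rw [sh_apply, hF, hF, half_smul', half_smul', hr]
    obtain ⟨c, d, hcd⟩ := el_surj (H a)
    rw [hcd, rmul_el_al hs, hq, hq]
  · rw [hF, hk k' t m hkk, map_zero, smul_zero]

theorem Sp.sh {k : ℤ} {F : X.M →+ N.M} (hF : Sp (X := X) k F) :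
    Sp (X := X) k (S1.sh s X N F) := by
  intro k' t m hk
  apply sh_zero_of
  · have h1 : X.r (al 1 s) (X.pr k' t m) = X.pr k' (t + 2) (X.r (al 1 s) m) :=
      (X.pr_r_lin (al_homog 1 s) k' t m).symm
    rw [h1]
    exact hF _ _ _ hk
  · exact hF _ _ _ hk

theorem phi_parts {f : (Phi (rfs s) true X).M →+ N.M}
    (hf : IsBi (Phi (rfs s) true X) (oc N 0) f) :
    ∃ F F2 : X.M →+ N.M, Is1 s X N F ∧ IsBi X (oc N 0) F2 ∧
      (∀ a b c, f ((a, b, c) : X.M × X.M × X.M) = F a + N.rmul (al 1 s) (F b) + F2 c) ∧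
      ∀ k, Sp (X := Phi (rfs s) true X) k f → Sp (X := X) k F ∧ Sp (X := X) (k - 1) F2 := by
  let f' : X.M × X.M × X.M →+ N.M := f
  have hfl : ∀ (g : Rg) (a b c : X.M), f' (X.l g a, X.l g b, X.l g c) = g • f' (a, b, c) :=
    fun g a b c => hf.1 g (a, b, c)
  have hfr : ∀ (g : Rg) (a b c : X.M), f' ((thr (rfs s) X g a b).1, (thr (rfs s) X g a b).2,
      X.r g c) = N.rmul g (f' (a, b, c)) := fun g a b c => hf.2 g (a, b, c)
  let F : X.M →+ N.M := f'.comp (AddMonoidHom.inl X.M (X.M × X.M))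
  let F2 : X.M →+ N.M := f'.comp ((AddMonoidHom.inr X.M (X.M × X.M)).comp
    (AddMonoidHom.inr X.M X.M))
  have hF : ∀ a, F a = f' (a, 0, 0) := fun _ => rfl
  have hF2 : ∀ a, F2 a = f' (0, 0, a) := fun _ => rfl
  refine ⟨F, F2, ⟨fun g a => ?_, fun g hg a => ?_⟩, ⟨fun g a => ?_, fun g a => ?_⟩,
    fun a b c => ?_, fun k hk => ⟨fun k' t m hkk => ?_, fun k' t m hkk => ?_⟩⟩
  · have h := hfl g a 0 0
    rw [X.l_mz] at h
    rw [hF, hF, h]
  · have h := hfr g a 0 0
    have hpl : (rfs s).pl g = g := (rfs s).pl_of_inv hg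
    have hmi : (rfs s).mi g = 0 := (rfs s).mi_of_inv hg
    unfold thr at h
    rw [hpl, hmi] at h
    simp only [X.r_zero, X.r_mz, add_zero, mul_zero] at h
    rw [hF, hF, h]
  · have h := hfl g 0 0 a
    rw [X.l_mz] at h
    change F2 (X.l g a) = g • F2 a
    rw [hF2, hF2, h]
  · have h := hfr g 0 0 a
    unfold thr at h
    simp only [X.r_mz, add_zero] at h
    change F2 (X.r g a) = N.rmul g (F2 a)
    rw [hF2, hF2, h]
  · have h := hfr (al 1 s) b 0 0
    unfold thr at h
    have hpl : (rfs s).pl (al 1 s) = 0 := (rfs s).pl_α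
    have hmi : (rfs s).mi (al 1 s) = 1 := (rfs s).mi_α
    rw [hpl, hmi] at h
    simp only [X.r_zero, X.r_mz, X.r_one, add_zero] at h
    change f' (a, b, c) = _
    rw [hF, hF, hF2, ← h, ← map_add, ← map_add]
    simp
  · have h := hk k' (t - 1) (m, 0, 0) hkk
    change f' (X.pr k' (t - 1 + 1) m, X.pr k' (t - 1 - 1) 0, X.pr (k' - sg true) (t - 1 + sg true) 0)
      = 0 at h
    rw [X.pr_mz, X.pr_mz, sub_add_cancel] at h
    rw [hF, h]
  · have h := hk (k' + 1) (t - 1) (0, 0, m) (by omega)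
    change f' (X.pr (k' + 1) (t - 1 + 1) 0, X.pr (k' + 1) (t - 1 - 1) 0,
      X.pr (k' + 1 - sg true) (t - 1 + sg true) m) = 0 at h
    rw [X.pr_mz, X.pr_mz, sg_true, sub_add_cancel, add_sub_cancel_right] at h
    rw [hF2, h]

theorem mk_phi {F F2 : X.M →+ N.M} (hF : Is1 s X N F) (hF2 : IsBi X (oc N 0) F2) :
    ∃ f : (Phi (rfs s) true X).M →+ N.M, IsBi (Phi (rfs s) true X) (oc N 0) f ∧
      (∀ a b c, f ((a, b, c) : X.M × X.M × X.M) = F a + N.rmul (al 1 s) (F b) + F2 c) ∧
      ∀ k, Sp (X := X) k F → Sp (X := X) (k - 1) F2 → Sp (X := Phi (rfs s) true X) k f := by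
  let f' : X.M × X.M × X.M →+ N.M := AddMonoidHom.mk'
    (fun m => F m.1 + N.rmul (al 1 s) (F m.2.1) + F2 m.2.2) (by
      intro a b
      simp only [Prod.fst_add, Prod.snd_add, map_add]
      abel)
  have hf' : ∀ a b c, f' (a, b, c) = F a + N.rmul (al 1 s) (F b) + F2 c := fun _ _ _ => rfl
  have h2l : ∀ g a, F2 (X.l g a) = g • F2 a := fun g a => hF2.1 g a
  have h2r : ∀ g a, F2 (X.r g a) = N.rmul g (F2 a) := fun g a => hF2.2 g a
  refine ⟨f', ⟨?_, ?_⟩, hf', ?_⟩
  · rintro g ⟨a, b, c⟩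
    change f' (X.l g a, X.l g b, X.l g c) = g • f' (a, b, c)
    rw [hf', hf', hF.1, hF.1, h2l, rmul_smul'', smul_add, smul_add]
  · rintro g ⟨a, b, c⟩
    change f' ((thr (rfs s) X g a b).1, (thr (rfs s) X g a b).2, X.r g c) =
      N.rmul g (f' (a, b, c))
    have hp : act (sw s) ((rfs s).pl g) = (rfs s).pl g := (rfs s).σ_pl g
    have hm : act (sw s) ((rfs s).mi g) = (rfs s).mi g := (rfs s).σ_mi g
    have hg : g = (rfs s).pl g + (rfs s).mi g * al 1 s := (rfs s).pl_add_mi g
    have hα : act (sw s) (al 1 s * al 1 s * (rfs s).mi g) = al 1 s * al 1 s * (rfs s).mi g := by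
      rw [map_mul, map_mul, act_sw_al, hm]; ring
    rw [hf', hf']
    have e1 : F (thr (rfs s) X g a b).1 = N.rmul ((rfs s).pl g) (F a) +
        N.rmul (al 1 s * al 1 s * (rfs s).mi g) (F b) := by
      change F (X.r ((rfs s).pl g) a + X.r (al 1 s * al 1 s * (rfs s).mi g) b) = _
      rw [map_add, hF.2 _ hp, hF.2 _ hα]
    have e2 : F (thr (rfs s) X g a b).2 = N.rmul ((rfs s).mi g) (F a) +
        N.rmul ((rfs s).pl g) (F b) := by
      change F (X.r ((rfs s).mi g) a + X.r ((rfs s).pl g) b) = _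
      rw [map_add, hF.2 _ hp, hF.2 _ hm]
    rw [e1, e2, h2r]
    ext1; funext i
    have h3 := congrArg (act (N.π i)) hg
    rw [map_add, map_mul] at h3
    change act (N.π i) ((rfs s).pl g) * (F a).1 i +
        act (N.π i) (al 1 s * al 1 s * (rfs s).mi g) * (F b).1 i +
        act (N.π i) (al 1 s) * (act (N.π i) ((rfs s).mi g) * (F a).1 i +
          act (N.π i) ((rfs s).pl g) * (F b).1 i) + act (N.π i) g * (F2 c).1 i =
      act (N.π i) g * ((F a).1 i + act (N.π i) (al 1 s) * (F b).1 i + (F2 c).1 i)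
    rw [map_mul, map_mul]
    linear_combination (-(F a).1 i - act (N.π i) (al 1 s) * (F b).1 i) * h3
  · rintro k h1 h2 k' t ⟨a, b, c⟩ hk
    change f' (X.pr k' (t + 1) a, X.pr k' (t - 1) b, X.pr (k' - sg true) (t + sg true) c) = 0
    rw [hf', h1 _ _ _ hk, h1 _ _ _ hk, h2 _ _ _ (by rw [sg_true]; omega), map_zero, add_zero,
      add_zero]

theorem isBi_neg {h2 : X.M →+ N.M} (hh : IsBi X (oc N 0) h2) : IsBi X (oc N 0)
    (@Neg.neg (X.M →+ N.M) _ h2) := by
  refine ⟨fun g a => ?_, fun g a => ?_⟩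
  · change -(h2 (X.l g a)) = g • -(h2 a)
    have h : h2 (X.l g a) = g • h2 a := hh.1 g a
    rw [h, smul_neg]
  · change -(h2 (X.r g a)) = N.rmul g (-(h2 a))
    have h : h2 (X.r g a) = N.rmul g (h2 a) := hh.2 g a
    rw [h, map_neg]

theorem mk_th {F : X.M →+ N.M} (hF : Is1 s X N F) :
    ∃ f : (Th (rfs s) X).M →+ N.M, IsBi (Th (rfs s) X) (oc N 0) f ∧
      ∀ a b, f ((a, b) : X.M × X.M) = F a + N.rmul (al 1 s) (F b) := by
  obtain ⟨g, hg, hge, -⟩ := mk_phi hF (IsBi.zero X (oc N 0))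
  let f' : X.M × X.M →+ N.M := AddMonoidHom.mk'
    (fun m => F m.1 + N.rmul (al 1 s) (F m.2)) (by
      intro a b
      simp only [Prod.fst_add, Prod.snd_add, map_add]
      abel)
  have hgf : ∀ a b : X.M, f' (a, b) = g ((a, b, 0) : X.M × X.M × X.M) := by
    intro a b
    rw [hge]
    exact (add_zero _).symm
  refine ⟨f', ⟨?_, ?_⟩, fun _ _ => rfl⟩
  · rintro p ⟨a, b⟩
    change f' (X.l p a, X.l p b) = p • f' (a, b)
    rw [hgf, hgf]
    have h := hg.1 p ((a, b, 0) : X.M × X.M × X.M)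
    have h2 : (Phi (rfs s) true X).l p ((a, b, 0) : X.M × X.M × X.M) =
        ((X.l p a, X.l p b, X.l p 0) : X.M × X.M × X.M) := rfl
    rw [h2, X.l_mz] at h
    exact h
  · rintro p ⟨a, b⟩
    change f' ((thr (rfs s) X p a b).1, (thr (rfs s) X p a b).2) = N.rmul p (f' (a, b))
    rw [hgf, hgf]
    have h := hg.2 p ((a, b, 0) : X.M × X.M × X.M)
    have h2 : (Phi (rfs s) true X).r p ((a, b, 0) : X.M × X.M × X.M) =
        (((thr (rfs s) X p a b).1, (thr (rfs s) X p a b).2, X.r p 0) : X.M × X.M × X.M) := rfl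
    rw [h2, X.r_mz] at h
    exact h

theorem step {k : ℤ} {f : (Phi (rfs s) true X).M →+ N.M} {F F2 : X.M →+ N.M}
    (hF : Is1 s X N F)
    (hfe : ∀ a b c, f ((a, b, c) : X.M × X.M × X.M) = F a + N.rmul (al 1 s) (F b) + F2 c)
    {h2 : X.M →+ N.M} (hh2 : IsBi X (oc N 0) h2) (hh2k : Sp (X := X) k h2)
    (h2D : ∀ c, F2 c = h2 (X.D c))
    {H : X.M →+ (theta s N).M} (hH : IsBi X (oc (theta s N) 0) H)
    (hHk : Sp (X := X) (k + 1) H) (hHD : ∀ a, sh s X N (F + h2) a = H (X.D a)) :
    ∃ h : (Phi (rfs s) true X).M →+ N.M, IsBi (Phi (rfs s) true X) (oc N 0) h ∧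
      Sp (X := Phi (rfs s) true X) (k + 1) h ∧ ∀ m, f m = h ((Phi (rfs s) true X).D m) := by
  have hs : Smp s := trivial
  obtain ⟨F', hF', hHF, hF'k⟩ := exists_unsh hH
  have key : ∀ a, F a + h2 a = F' (X.D a) := by
    intro a
    have h1 := hHD a
    rw [hHF, sh_apply, sh_apply] at h1
    have h3 := (el_inj hs h1).2
    have h4 := congrArg (fun z => (C (2 : ℝ) : Rg) • z) h3
    simp only [half_smul] at h4
    exact h4
  obtain ⟨h, hh, hhe, hhk⟩ := mk_phi hF' (isBi_neg hh2)
  refine ⟨h, hh, ?_, ?_⟩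
  · apply hhk (k + 1) (hF'k _ hHk)
    intro k' t m hk
    rw [AddMonoidHom.neg_apply, hh2k _ _ _ (by omega), neg_zero]
  · rintro ⟨a, b, c⟩
    have hD : (Phi (rfs s) true X).D ((a, b, c) : X.M × X.M × X.M) =
        ((X.D a, X.D b, a + X.r (al 1 s) b - X.D c) : X.M × X.M × X.M) := rfl
    rw [hfe, hD, hhe]
    have h2r : ∀ g a, h2 (X.r g a) = N.rmul g (h2 a) := fun g a => hh2.2 g a
    have h4 : h2 (a + X.r (al 1 s) b - X.D c) = h2 a + N.rmul (al 1 s) (h2 b) - h2 (X.D c) := by
      rw [map_sub, map_add h2 a, h2r]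
    rw [← key, ← key, h2D, AddMonoidHom.neg_apply, h4, map_add (N.rmul (al 1 s)) (F b)]
    abel

end S1

open S1

theorem Sat_nil {N : Obj} (hN : Nice N) : Sat [] N := by
  have h0 : ∀ k : ℤ, k ≠ 0 → ∀ f : (FP []).M →+ N.M, Sp (X := FP []) k f → f = 0 := by
    intro k hk f hf
    apply CB.hom_ext
    intro k' t m
    by_cases h : k' = k
    · have h1 : (FP []).pr k' t m = 0 := by
        apply FP_conc
        simp only [List.length_nil, Nat.cast_zero]
        omega
      rw [h1, map_zero, map_zero]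
    · rw [hf _ _ _ h]
      rfl
  refine ⟨fun k hk f hf hfk _ => ?_, fun f hf hfk h1 => ?_⟩
  · refine ⟨0, IsBi.zero _ _, fun _ _ _ _ => rfl, fun m => ?_⟩
    rw [h0 k (by omega) f hfk]
    rfl
  · have hl : ∀ (g : Rg) (m : (FP []).M), f ((FP []).l g m) = g • f m := fun g m => hf.1 g m
    have hr : ∀ (g : Rg) (m : (FP []).M), f ((FP []).r g m) = N.rmul g (f m) :=
      fun g m => hf.2 g m
    have hone : f (cg []) = 0 := by
      ext1; funext i
      by_cases hi : N.π i = 1
      · exact h1 i hi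
      · have h2 : ∃ j, act (N.π i) (MvPolynomial.X j) ≠ MvPolynomial.X j := by
          by_contra hcon
          push Not at hcon
          apply hi
          apply Dat.faithful
          intro j
          have e := hcon j
          rw [Dat.act_one]
          exact e
        obtain ⟨j, hj⟩ := h2
        have h3 := hl (MvPolynomial.X j) (cg [])
        have h4 := hr (MvPolynomial.X j) (cg [])
        have h5 : (FP []).l (MvPolynomial.X j) (cg []) = (FP []).r (MvPolynomial.X j) (cg []) :=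
          rfl
        rw [← h5, h3] at h4
        have h6 : (MvPolynomial.X j : Rg) * (f (cg [])).1 i =
            act (N.π i) (MvPolynomial.X j) * (f (cg [])).1 i :=
          congrFun (congrArg Subtype.val h4) i
        have h7 : (act (N.π i) (MvPolynomial.X j) - MvPolynomial.X j) * (f (cg [])).1 i = 0 := by
          rw [sub_mul, h6, sub_self]
        rcases mul_eq_zero.mp h7 with h8 | h8
        · exact absurd (sub_eq_zero.mp h8) hj
        · exact h8
    refine ⟨0, IsBi.zero _ _, fun _ _ _ _ => rfl, fun m => ?_⟩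
    have h2 : m = (FP []).l (show Rg from m) (cg []) := (mul_one (show Rg from m)).symm
    rw [h2, hl, hone, smul_zero]
    rfl

theorem Sat_cons {s : Sg} {l : List Sg} (hl : len (wprod l) = l.length)
    (hs : len (wprod l) < len (wprod l * sw s)) (ih : ∀ N : Obj, Nice N → Sat l N)
    {N : Obj} (hN : Nice N) : Sat (s :: l) N := by
  have hs' : Smp s := trivial
  have hNθ : Nice (theta s N) := hN.theta hs'
  set x := wprod l with hx
  have hxx : x * sw s * sw s = x := by rw [mul_assoc, sw_mul_sw, mul_one]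
  have hup : Up x (x * sw s) := (up_sw_iff trivial hs').mpr hs
  have hlen : len (x * sw s) = len x + 1 := len_mul_sw trivial hs' hup
  have hα0 : al x s ≠ 0 := al_ne_zero hs' x
  constructor
  · intro k hk f hf hfk hfD
    obtain ⟨F, F2, hF, hF2, hfe, hSp⟩ := phi_parts (X := FP l) (s := s) hf
    obtain ⟨hFk, hF2k⟩ := hSp k hfk
    have hD : ∀ a b c : (FP l).M, F ((FP l).D a) + N.rmul (al 1 s) (F ((FP l).D b)) +
        F2 (a + (FP l).r (al 1 s) b - (FP l).D c) = 0 := by
      intro a b c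
      have h1 := hfD ((a, b, c) : (FP l).M × (FP l).M × (FP l).M)
      have h2 := hfe ((FP l).D a) ((FP l).D b) (a + (FP l).r (al 1 s) b - (FP l).D c)
      rw [← h2]
      exact h1
    have hD1 : ∀ c, F2 ((FP l).D c) = 0 := by
      intro c
      have h1 := hD 0 0 c
      rw [(FP l).D_mz, map_zero, map_zero, (FP l).r_mz, add_zero, add_zero, zero_add, zero_sub,
        map_neg] at h1
      exact neg_eq_zero.mp h1
    have hD2 : ∀ a, F ((FP l).D a) + F2 a = 0 := by
      intro a
      have h1 := hD a 0 0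
      rw [(FP l).D_mz, map_zero, map_zero, (FP l).r_mz, add_zero, add_zero, sub_zero] at h1
      exact h1
    obtain ⟨h2, hh2, hh2k, hh2D⟩ : ∃ h2 : (FP l).M →+ N.M, IsBi (FP l) (oc N 0) h2 ∧
        Sp (X := FP l) k h2 ∧ ∀ m, F2 m = h2 ((FP l).D m) := by
      by_cases hk1 : k = 1
      · subst hk1
        have hb := (ih N hN).b F2 hF2 (by simpa using hF2k)
        apply hb
        intro i hi
        have hG := sh_isBi hF
        have h3 : ((sh s (FP l) N F) ((FP l).D (cg l))).1 (i, false) = 0 := by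
          refine vanish_small l hG ((FP l).D (cg l)) ?_ ((i, false) : N.I × Bool) ?_
          · intro t
            have h4 := (FP l).D_pr (-1) t (cg l)
            rw [FP_conc l (-1) t (cg l) (Or.inl (by norm_num)), map_zero] at h4
            simpa using h4
          · change l.length ≤ len (if false then N.π i * sw s else N.π i)
            simp only [Bool.false_eq_true, if_false]
            rw [hi, ← hl]
        have h4 : F2 ((FP l).r (al 1 s) (cg l)) = N.rmul (al 1 s) (F2 (cg l)) := hF2.2 _ _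
        have h5 : F ((FP l).r (al 1 s) ((FP l).D (cg l))) = - N.rmul (al 1 s) (F2 (cg l)) := by
          rw [← (FP l).D_r, ← h4]
          exact eq_neg_of_add_eq_zero_left (hD2 _)
        have h6 : F ((FP l).D (cg l)) = - F2 (cg l) := eq_neg_of_add_eq_zero_left (hD2 _)
        rw [sh_apply, h5, h6, CE1.el_false] at h3
        have h7 : C (1/2 : ℝ) * (-(act (N.π i) (al 1 s) * (F2 (cg l)).1 i)) +
          al (N.π i) s * (C (1/2 : ℝ) * (-((F2 (cg l)).1 i))) = 0 := h3
        rw [← al_eq_act, hi] at h7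
        have h8 : al x s * (F2 (cg l)).1 i = 0 := by
          linear_combination (-1 : Rg) * h7 - (al x s * (F2 (cg l)).1 i) * C_half_two
        exact (mul_eq_zero.mp h8).resolve_left hα0
      · obtain ⟨h2, h3, h4, h5⟩ := (ih N hN).a (k - 1) (by omega) F2 hF2 hF2k hD1
        refine ⟨h2, h3, ?_, h5⟩
        rwa [sub_add_cancel] at h4
    have hG : Is1 s (FP l) N (F + h2) := hF.add (is1_of_isBi hh2)
    have hGk : Sp (X := FP l) k (F + h2) := by
      intro k' t m hkk
      rw [AddMonoidHom.add_apply, hFk _ _ _ hkk, hh2k _ _ _ hkk, add_zero]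
    have hGD : ∀ a, (F + h2) ((FP l).D a) = 0 := by
      intro a
      rw [AddMonoidHom.add_apply, ← hh2D]
      exact hD2 a
    obtain ⟨H, hH, hHk, hHD⟩ := (ih (theta s N) hNθ).a k hk (sh s (FP l) N (F + h2))
      (sh_isBi hG) (Sp.sh hGk) (by
        intro m
        apply sh_zero_of
        · rw [← (FP l).D_r]; exact hGD _
        · exact hGD m)
    exact step (X := FP l) hF hfe hh2 hh2k hh2D hH hHk hHD
  · intro f hf hfk hfv
    obtain ⟨F, F2, hF, hF2, hfe, hSp⟩ := phi_parts (X := FP l) (s := s) hf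
    obtain ⟨hFk, hF2k⟩ := hSp 0 hfk
    have hF20 : F2 = 0 := by
      apply CB.hom_ext
      intro k' t m
      by_cases h : k' = 0 - 1
      · rw [FP_conc l k' t m (Or.inl (by omega)), map_zero, map_zero]
      · rw [hF2k _ _ _ h]
        rfl
    have hfe' : f (cg (s :: l)) = F (cg l) := by
      have h1 := hfe (cg l) 0 0
      rw [map_zero, map_zero, map_zero, add_zero, add_zero] at h1
      exact h1
    have hl' : len (wprod (s :: l)) = (s :: l).length := by
      change len (x * sw s) = l.length + 1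
      rw [hlen, hl]
    have hsupp : ∀ i, N.π i ∉ Le (Up) (x * sw s) → (F (cg l)).1 i = 0 := by
      intro i hi
      have h1 := cg_supp (s :: l) hl' hf i hi
      rwa [hfe'] at h1
    have hvx : ∀ i, N.π i = x * sw s → (F (cg l)).1 i = 0 := by
      intro i hi
      have h1 := hfv i hi
      rwa [hfe'] at h1
    -- the element `b`
    obtain ⟨b, hb1, hb2⟩ : ∃ b : N.M, (∀ i, N.π i ∉ Le (Up) x → b.1 i = 0) ∧
        ∀ i, N.π i = x → b.1 i = (F (cg l)).1 i := by
      set Ω : Set Wg := {z | z ∈ Le (Up) (x * sw s) ∧ z ≠ x * sw s ∧ z ≠ x} with hΩdef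
      have hxlt : x ∈ Le (Up) (x * sw s) := Relation.ReflTransGen.single hup
      have hlow1 : Low (Up) Ω := by
        rintro y z hyz ⟨hz1, hz2, hz3⟩
        have hy1 : y ∈ Le (Up) (x * sw s) := Low_Le _ _ y z hyz hz1
        have hlyz := hyz.len_lt
        have hlz := Le_len hz1
        refine ⟨hy1, ?_, ?_⟩
        · rintro rfl
          omega
        · rintro rfl
          apply hz2
          apply hlz.2
          omega
      have hlow2 : Low (Up) (insert x Ω) := by
        intro y z hyz hz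
        rcases hz with rfl | hz
        · right
          have hlyz := hyz.len_lt
          refine ⟨Relation.ReflTransGen.trans (Relation.ReflTransGen.single hyz) hxlt, ?_, hyz.ne⟩
          rintro rfl
          omega
        · right; exact hlow1 y z hyz hz
      have hxΩ : x ∉ Ω := fun hh => hh.2.2 rfl
      obtain ⟨p, hp⟩ := hN.lo x
      have hind := Dsub_indep (Or.inl rfl) N hN.inW hp hxΩ hlow1 hlow2
      have hsec : (F (cg l)).1 ∈ N.sec (insert x Ω) := by
        refine ⟨(F (cg l)).2, ?_⟩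
        intro i hi
        by_cases h1 : N.π i ∈ Le (Up) (x * sw s)
        · by_cases h2 : N.π i = x * sw s
          · exact hvx i h2
          · exfalso
            apply hi
            by_cases h3 : N.π i = x
            · left; exact h3
            · right; exact ⟨h1, h2, h3⟩
        · exact hsupp i h1
      have hres : Obj.res N.π x (F (cg l)).1 ∈ N.Dsub (Up) x := by
        rw [← hind]
        exact Submodule.mem_map_of_mem hsec
      obtain ⟨u, hu, hur⟩ := hres
      refine ⟨⟨u, hu.1⟩, hu.2, ?_⟩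
      intro i hi
      have := congrFun hur i
      simpa [Obj.res, hi] using this
    obtain ⟨h2, hh2, hh2k, hh2v⟩ := FP_surj l hl hN b hb1
    have hh2r : ∀ g a, h2 ((FP l).r g a) = N.rmul g (h2 a) := fun g a => hh2.2 g a
    have hG : Is1 s (FP l) N (F + -h2) := hF.add (is1_of_isBi (isBi_neg hh2))
    have hnk : Sp (X := FP l) 0 (-h2) := by
      intro k' t m hkk
      rw [AddMonoidHom.neg_apply, hh2k _ _ _ hkk, neg_zero]
    have hGk : Sp (X := FP l) 0 (F + -h2) := by
      intro k' t m hkk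
      rw [AddMonoidHom.add_apply, hFk _ _ _ hkk, hnk _ _ _ hkk, add_zero]
    -- the restriction of `f` to `Th`
    obtain ⟨f1, hf1, hf1e⟩ := mk_th hF
    have hV : ∀ i, (N.π i = x ∨ N.π i = x * sw s) →
        (F ((FP l).r (al 1 s) (cg l))).1 i = al x s * (F (cg l)).1 i := by
      intro i hi
      have h1 := lemV l hl s hs hf1 (al 1 s) i hi
      have h3 := hf1e ((FP l).r (al 1 s) (cg l)) 0
      have h4 := hf1e (cg l) 0
      rw [map_zero, map_zero, add_zero] at h3 h4
      rw [← h3, ← h4, al_eq_act x s]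
      exact h1
    have hval : ∀ p, (theta s N).π p = x → (sh s (FP l) N (F + -h2) (cg l)).1 p = 0 := by
      intro p hp
      rw [sh_apply, el_val, hp]
      obtain ⟨i, ε⟩ := p
      change C (1/2 : ℝ) * ((F ((FP l).r (al 1 s) (cg l))).1 i +
          -(h2 ((FP l).r (al 1 s) (cg l))).1 i) +
        al x s * (C (1/2 : ℝ) * ((F (cg l)).1 i + -(h2 (cg l)).1 i)) = 0
      rw [hh2r]
      change C (1/2 : ℝ) * ((F ((FP l).r (al 1 s) (cg l))).1 i +
          -(act (N.π i) (al 1 s) * (h2 (cg l)).1 i)) +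
        al x s * (C (1/2 : ℝ) * ((F (cg l)).1 i + -(h2 (cg l)).1 i)) = 0
      rw [← al_eq_act]
      cases ε with
      | false =>
        have hi : N.π i = x := hp
        rw [hV i (Or.inl hi), hi, hh2v i hi, hb2 i hi]
        ring
      | true =>
        have hi' : N.π i * sw s = x := hp
        have hi : N.π i = x * sw s := by
          rw [← hi', mul_assoc, sw_mul_sw, mul_one]
        rw [hV i (Or.inr hi), hi, al_mul_sw, hvx i hi]
        ring
    obtain ⟨H, hH, hHk, hHD⟩ := (ih (theta s N) hNθ).b (sh s (FP l) N (F + -h2))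
      (sh_isBi hG) (Sp.sh hGk) hval
    have hD0 : ∀ c, F2 c = (-h2) ((FP l).D c) := by
      have h1 : h2.comp (FP l).D = 0 := by
        apply CB.hom_ext
        intro k' t m
        change h2 ((FP l).D ((FP l).pr k' t m)) = 0
        by_cases h : k' + 1 = 0
        · rw [FP_conc l k' t m (Or.inl (by omega)), (FP l).D_mz, map_zero]
        · rw [← (FP l).D_pr]
          exact hh2k _ _ _ h
      intro c
      have h3 : h2 ((FP l).D c) = 0 := DFunLike.congr_fun h1 c
      rw [hF20, AddMonoidHom.neg_apply, h3, neg_zero]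
      rfl
    exact step (X := FP l) (k := 0) hF hfe (isBi_neg hh2) hnk hD0 hH (by rwa [zero_add]) hHD

theorem S1.len_le (l : List Sg) : len (wprod l) ≤ l.length := by
  induction l with
  | nil => exact (Dat.len_one).le
  | cons s l ih =>
    have h := Dat.len_mul_sr (wprod l) s
    change Dat.len (wprod l * Dat.sr s) ≤ l.length + 1
    change Dat.len (wprod l) ≤ l.length at ih
    omega

theorem Sat_all (l : List Sg) (hl : len (wprod l) = l.length) {N : Obj} (hN : Nice N) :
    Sat l N := by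
  induction l generalizing N with
  | nil => exact Sat_nil hN
  | cons s l ih =>
    have h := Dat.len_mul_sr (wprod l) s
    have h1 := S1.len_le l
    change Dat.len (wprod l * Dat.sr s) = l.length + 1 at hl
    change Dat.len (wprod l) ≤ l.length at h1
    have h2 : len (wprod l) = l.length := by
      change Dat.len (wprod l) = l.length
      omega
    have h3 : len (wprod l) < len (wprod l * sw s) := by
      change Dat.len (wprod l) < Dat.len (wprod l * Dat.sr s)
      omega
    exact Sat_cons h2 h3 (fun N hN => ih h2 hN) hN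

end EW
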