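import Mathlib
import Pool.Agent.EW.RC.S1
import Pool.Agent.EW.RC.K0

/-!
# Block G0: independence of the reduced word (MP_d13a5e_al)
-/

open MvPolynomial

namespace EW

variable [Dat]

open RC FR2

namespace G0

/-! ### bidegrees -/

theorem KLB_conc (z : Wg) (k t : ℤ) (m : (KLB z).M) (hk : k ≠ 0) : (KLB z).pr k t m = 0 := by
  have h1 := oc_pr (KB z).O (len z) k t m
  rw [if_neg (fun h => hk h.1)] at h1
  exact h1

/-- a map of bidegree `(p,e)` into a complex concentrated in degree `0` is supported in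
degree `-p` -/
theorem sp_of_conc {X N : CB Dat.n} (hN : ∀ k t m, k ≠ 0 → N.pr k t m = 0) {p e : ℤ}
    {φ : X.M →+ N.M} (h : Hm X N p e φ) (k t : ℤ) (m : X.M) (hk : k + p ≠ 0) :
    φ (X.pr k t m) = 0 := by
  rw [← h.2, hN _ _ _ hk]

/-- a map of bidegree `(p,e)`, `p ≠ 0`, between complexes concentrated in degree `0` vanishes -/
theorem zero_of_conc {B N : CB Dat.n} (hB : ∀ k t m, k ≠ 0 → B.pr k t m = 0)
    (hN : ∀ k t m, k ≠ 0 → N.pr k t m = 0) {p e : ℤ} {φ : B.M →+ N.M}
    (h : Hm B N p e φ) (hp : p ≠ 0) : φ = 0 := by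
  apply B.hom_ext
  intro k t m
  by_cases hk : k = 0
  · rw [sp_of_conc hN h k t m (by rw [hk, zero_add]; exact hp), AddMonoidHom.zero_apply]
  · rw [hB _ _ _ hk, map_zero, map_zero]

/-- a map of positive homological degree from `F_l` into a complex concentrated in degree `0`
vanishes -/
theorem zero_of_pos (l : List Sg) {N : CB Dat.n} (hN : ∀ k t m, k ≠ 0 → N.pr k t m = 0)
    {p e : ℤ} {φ : (FP l).M →+ N.M} (h : Hm (FP l) N p e φ) (hp : 0 < p) : φ = 0 := by
  apply (FP l).hom_ext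
  intro k t m
  by_cases hk : k + p = 0
  · rw [FP_conc l k t m (Or.inl (by omega)), map_zero, map_zero]
  · rw [sp_of_conc hN h k t m hk, AddMonoidHom.zero_apply]

/-- the homogeneous component of a map `h` with `φ = h D` -/
theorem hcomp_D {X N : CB Dat.n} {φ h : X.M →+ N.M} {p e : ℤ} (hφ : Hm X N p e φ)
    (hh : IsBi X N h) (hD : ∀ m, φ m = h (X.D m)) {c : ℤ}
    (hs : ∀ k t m, k ≠ c → h (X.pr k t m) = 0) :
    ∃ h' : X.M →+ N.M, Hm X N (p - 1) e h' ∧ (∀ k t m, k ≠ c → h' (X.pr k t m) = 0) ∧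
      ∀ m, φ m = h' (X.D m) := by
  obtain ⟨h', h1, h2⟩ := exists_hcomp hh (p - 1) e
  refine ⟨h', h1, fun k t m hk => ?_, ?_⟩
  · rw [h2, hs k t m hk, N.pr_mz]
  · have key : φ = h'.comp (X.D : X.M →+ X.M) := by
      apply X.hom_ext
      intro k t m
      change φ (X.pr k t m) = h' (X.D (X.pr k t m))
      have e1 : h' (X.D (X.pr k t m)) = h' (X.pr (k + 1) t (X.D m)) := by rw [X.D_pr]
      have e2 : k + 1 + (p - 1) = k + p := by ring
      rw [e1, h2, X.D_pr, ← hD, e2, hφ.2, X.pr_pr, if_pos ⟨rfl, rfl⟩]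
    intro m
    rw [key]
    rfl

theorem hcomp_gen {X Y : CB Dat.n} {φ : X.M →+ Y.M} (hφ : IsBi X Y φ) {k t k' t' : ℤ}
    {x : X.M} {y : Y.M} (hx : X.pr k t x = x) (hy : Y.pr k' t' y = y) (h : φ x = y) :
    ∃ ψ : X.M →+ Y.M, Hm X Y (k' - k) (t' - t) ψ ∧ ψ x = y := by
  obtain ⟨ψ, h1, h2⟩ := exists_hcomp hφ (k' - k) (t' - t)
  refine ⟨ψ, h1, ?_⟩
  have h3 := h2 k t x
  rw [hx, h, add_sub_cancel, add_sub_cancel, hy] at h3
  exact h3

/-! ### the construction of homotopies -/

theorem pDi {Z : CB Dat.n} (d : Dcm Z) {q r : d.ι} (h : d.k q + 1 ≠ d.k r)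
    (x : (KLB (d.z q)).M) : d.p r (Z.D (d.i q x)) = 0 := by
  have h1 : Hm (KLB (d.z q)) (KLB (d.z r)) (d.k q + 1 + -d.k r) (-d.m q + 0 + d.m r)
      ((d.p r).comp ((Z.D : Z.M →+ Z.M).comp (d.i q))) :=
    ((d.fam.hi q (Finset.mem_univ _)).comp (Hm.D Z)).comp (d.fam.hp r (Finset.mem_univ _))
  have h2 := zero_of_conc (KLB_conc _) (KLB_conc _) h1 (by omega)
  exact DFunLike.congr_fun h2 x

theorem ext_p {Z : CB Dat.n} (d : Dcm Z) {x : Z.M} (h : ∀ r, d.p r x = 0) : x = 0 := by
  have h1 := d.fam.sum x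
  rw [AddMonoidHom.id_apply] at h1
  rw [← h1]
  apply Finset.sum_eq_zero
  intro r _
  rw [h r, map_zero]

/-- the component of a cocycle over the first level on which it does not vanish kills `D` -/
theorem first_level {X Z : CB Dat.n} (d : Dcm Z) {n ε : ℤ} (hε : ε * ε = 1)
    {ψ : X.M →+ Z.M} (hc : ∀ m, Z.D (ψ m) = ε • ψ (X.D m))
    (h0 : ∀ r, d.k r < n → ∀ m, d.p r (ψ m) = 0) {r : d.ι} (hr : d.k r = n) (m : X.M) :
    d.p r (ψ (X.D m)) = 0 := by
  have h1 : d.p r (Z.D (ψ m)) = 0 := by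
    have h2 := d.fam.sum (ψ m)
    rw [AddMonoidHom.id_apply] at h2
    rw [← h2, map_sum, map_sum]
    apply Finset.sum_eq_zero
    intro q _
    by_cases hq : d.k q + 1 = d.k r
    · rw [h0 q (by omega), map_zero, map_zero, map_zero]
    · exact pDi d hq _
  rw [hc, map_zsmul] at h1
  have h2 := congrArg (fun y => ε • y) h1
  simp only [smul_zero, smul_smul, hε, one_smul] at h2
  exact h2

/-- one step of the construction of the homotopy -/
theorem step {X Z : CB Dat.n} (d : Dcm Z) {c n ε : ℤ} {ψ : X.M →+ Z.M}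
    (h0 : ∀ r, d.k r < n → ∀ m, d.p r (ψ m) = 0)
    (h : ∀ r, X.M →+ (KLB (d.z r)).M)
    (hh : ∀ r, d.k r = n → Hm X (KLB (d.z r)) (c - 1 - n) (d.m r) (h r))
    (hD : ∀ r, d.k r = n → ∀ m, d.p r (ψ m) = ε • (h r (X.D m))) :
    ∃ H : X.M →+ Z.M, Hm X Z (c - 1) 0 H ∧
      (∀ m, (∀ r, d.k r = n → h r m = 0) → H m = 0) ∧
      ∀ r, d.k r < n + 1 → ∀ m, d.p r (ψ m - Z.D (H m) - ε • (H (X.D m))) = 0 := by
  classical
  have hH : ∀ m, (∑ r ∈ Finset.univ.filter (fun r => d.k r = n), (d.i r).comp (h r)) m =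
      ∑ r ∈ Finset.univ.filter (fun r => d.k r = n), d.i r (h r m) := by
    intro m
    rw [AddMonoidHom.finsetSum_apply]
    rfl
  refine ⟨∑ r ∈ Finset.univ.filter (fun r => d.k r = n), (d.i r).comp (h r), ?_, ?_, ?_⟩
  · apply Hm.sum
    intro r hr
    rw [Finset.mem_filter] at hr
    exact (hh r hr.2).comp' (d.fam.hi r (Finset.mem_univ _)) (by rw [hr.2]; ring) (by ring)
  · intro m hm
    rw [hH]
    apply Finset.sum_eq_zero
    intro r hr
    rw [Finset.mem_filter] at hr
    rw [hm r hr.2, map_zero]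
  · intro q hq m
    have h1 : d.p q (Z.D (∑ r ∈ Finset.univ.filter (fun r => d.k r = n), d.i r (h r m))) = 0 := by
      rw [map_sum, map_sum]
      apply Finset.sum_eq_zero
      intro r hr
      rw [Finset.mem_filter] at hr
      exact pDi d (by omega) _
    have h2 : d.p q (∑ r ∈ Finset.univ.filter (fun r => d.k r = n), d.i r (h r (X.D m))) =
        if d.k q = n then h q (X.D m) else 0 := by
      rw [map_sum]
      by_cases hqn : d.k q = n
      · rw [if_pos hqn, Finset.sum_eq_single q]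
        · exact d.fam.pi q (Finset.mem_univ _) _
        · intro r _ hr
          exact d.fam.orth r (Finset.mem_univ _) q (Finset.mem_univ _) hr _
        · intro hc
          exact absurd (Finset.mem_filter.mpr
            (⟨Finset.mem_univ q, hqn⟩ : q ∈ Finset.univ ∧ d.k q = n)) hc
      · rw [if_neg hqn]
        apply Finset.sum_eq_zero
        intro r hr
        rw [Finset.mem_filter] at hr
        apply d.fam.orth r (Finset.mem_univ _) q (Finset.mem_univ _)
        rintro rfl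
        exact hqn hr.2
    rw [hH, hH, map_sub, map_sub, h1, map_zsmul, h2, sub_zero]
    by_cases hqn : d.k q = n
    · rw [if_pos hqn, hD q hqn, sub_self]
    · rw [if_neg hqn, h0 q (by omega), smul_zero, sub_zero]

/-- the shift of the grading does not change the bimodule homomorphisms -/
theorem isBi_shift {X : CB Dat.n} {O : Obj} {a b : ℤ} {φ : X.M →+ O.M}
    (h : IsBi X (oc O a) φ) : IsBi X (oc O b) φ := by
  refine ⟨fun f m => ?_, fun f m => ?_⟩
  · have h1 : φ (X.l f m) = f • φ m := (h.1 f m).trans (oc_l O a f (φ m))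
    exact h1.trans (oc_l O b f (φ m)).symm
  · have h1 : φ (X.r f m) = O.rmul f (φ m) := (h.2 f m).trans (oc_r O a f (φ m))
    exact h1.trans (oc_r O b f (φ m)).symm

/-- the value of an element of `B_z` -/
noncomputable def vz {z : Wg} (m : (KLB z).M) (i : (KB z).O.I) : Rg :=
  (show (KB z).O.M from m).1 i

/-- the components of a cocycle on the first level are coboundaries -/
theorem level (l : List Sg) (hl : len (wprod l) = l.length) {z : Wg} {p e : ℤ}
    {φ : (FP l).M →+ (KLB z).M} (hφ : Hm (FP l) (KLB z) p e φ) (hp : p ≤ 0)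
    (hD : ∀ m, φ ((FP l).D m) = 0)
    (h0 : p = 0 → ∀ i, (KB z).O.π i = wprod l → vz (φ (cg l)) i = 0) :
    ∃ h : (FP l).M →+ (KLB z).M, Hm (FP l) (KLB z) (p - 1) e h ∧
      (∀ k t m, k ≠ -p + 1 → h ((FP l).pr k t m) = 0) ∧ ∀ m, φ m = h ((FP l).D m) := by
  have hs := Sat_all l hl (KB z).nice
  have hsp : ∀ k t m, k ≠ -p → φ ((FP l).pr k t m) = 0 := fun k t m hk =>
    sp_of_conc (KLB_conc z) hφ k t m (by omega)
  by_cases hp0 : p = 0
  · subst hp0
    obtain ⟨h, h1, h2, h3⟩ := hs.b φ (isBi_shift (a := len z) hφ.1)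
      (fun k t m hk => hsp k t m (by simpa using hk)) (h0 rfl)
    have h1' : IsBi (FP l) (oc (KB z).O (len z)) h := isBi_shift h1
    exact hcomp_D hφ h1' h3 (c := -0 + 1) (fun k t m hk => h2 k t m (by simpa using hk))
  · obtain ⟨h, h1, h2, h3⟩ := hs.a (-p) (by omega) φ (isBi_shift (a := len z) hφ.1)
      (fun k t m hk => hsp k t m hk) hD
    have h1' : IsBi (FP l) (oc (KB z).O (len z)) h := isBi_shift h1
    exact hcomp_D hφ h1' h3 (c := -p + 1) (fun k t m hk => h2 k t m hk)

/-- cocycles in `Hom(F_l, Z)` with a condition on the first level are coboundaries -/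
theorem homotopy (l : List Sg) (hl : len (wprod l) = l.length) {Z : CB Dat.n} (d : Dcm Z)
    {c ε : ℤ} (hε : ε * ε = 1) {ψ : (FP l).M →+ Z.M}
    (hψ : Hm (FP l) Z c 0 ψ) (hc : ∀ m, Z.D (ψ m) = ε • ψ ((FP l).D m))
    (h0 : ∀ r, d.k r < c → ∀ m, d.p r (ψ m) = 0)
    (h1 : ∀ r, d.k r = c → ∀ i, (KB (d.z r)).O.π i = wprod l →
      vz (d.p r (ψ (cg l))) i = 0) :
    ∃ H : (FP l).M →+ Z.M, Hm (FP l) Z (c - 1) 0 H ∧ H (cg l) = 0 ∧
      ∀ m, ψ m = Z.D (H m) + ε • H ((FP l).D m) := by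
  classical
  have key : ∀ j : ℕ, ∃ H : (FP l).M →+ Z.M, Hm (FP l) Z (c - 1) 0 H ∧ H (cg l) = 0 ∧
      (j = 0 → H = 0) ∧ ∀ r, d.k r < c + j → ∀ m,
        d.p r (ψ m - Z.D (H m) - ε • H ((FP l).D m)) = 0 := by
    intro j
    induction j with
    | zero =>
      refine ⟨0, Hm.zero _ _ _ _, rfl, fun _ => rfl, fun r hr m => ?_⟩
      rw [AddMonoidHom.zero_apply, AddMonoidHom.zero_apply, map_zero, sub_zero, smul_zero,
        sub_zero]
      exact h0 r (by simpa using hr) m
    | succ j ih =>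
      obtain ⟨H, a1, a2, a3, a4⟩ := ih
      -- the corrected cocycle
      have hφ' : ∃ φ' : (FP l).M →+ Z.M, (∀ m, φ' m = ψ m - Z.D (H m) - ε • H ((FP l).D m)) ∧
          Hm (FP l) Z c 0 φ' := by
        refine ⟨ψ - (Z.D : Z.M →+ Z.M).comp H - ε • (H.comp ((FP l).D : (FP l).M →+ (FP l).M)),
          fun m => rfl, ?_⟩
        have b1 : Hm (FP l) Z c 0 ((Z.D : Z.M →+ Z.M).comp H) :=
          a1.comp' (Hm.D Z) (by ring) (by ring)
        have b2 : Hm (FP l) Z c 0 (H.comp ((FP l).D : (FP l).M →+ (FP l).M)) :=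
          (Hm.D (FP l)).comp' a1 (by ring) (by ring)
        refine (hψ.sub b1).sub ?_
        rcases Int.isUnit_iff.mp (IsUnit.of_mul_eq_one _ hε) with h | h
        · rw [h, one_smul]; exact b2
        · rw [h, neg_smul, one_smul]; exact b2.neg
      obtain ⟨φ', c1, c2⟩ := hφ'
      have c3 : ∀ m, Z.D (φ' m) = ε • φ' ((FP l).D m) := by
        intro m
        rw [c1, c1, map_sub, map_sub, Z.D_D, hc, map_zsmul, (FP l).D_D, map_zero, smul_zero,
          sub_zero, sub_zero, smul_sub]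
      have c4 : ∀ r, d.k r < c + j → ∀ m, d.p r (φ' m) = 0 := by
        intro r hr m
        rw [c1]
        exact a4 r hr m
      have c5 : ∀ r, ∃ h : (FP l).M →+ (KLB (d.z r)).M, d.k r = c + j →
          Hm (FP l) (KLB (d.z r)) (c - 1 - (c + j)) (d.m r) h ∧
          (h (cg l) = 0) ∧ ∀ m, d.p r (φ' m) = ε • h ((FP l).D m) := by
        intro r
        by_cases hr : d.k r = c + j
        · have d1 : Hm (FP l) (KLB (d.z r)) (-(j : ℤ)) (d.m r) ((d.p r).comp φ') :=
            c2.comp' (d.fam.hp r (Finset.mem_univ _)) (by rw [hr]; ring) (by ring)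
          obtain ⟨h, e1, e2, e3⟩ := level l hl d1 (by omega)
            (fun m => first_level d hε c3 c4 hr m) (by
              intro hj i hi
              have hj0 : j = 0 := by omega
              have e0 : d.p r (φ' (cg l)) = d.p r (ψ (cg l)) := by
                rw [c1, a3 hj0, AddMonoidHom.zero_apply, AddMonoidHom.zero_apply, map_zero,
                  sub_zero, smul_zero, sub_zero]
              rw [AddMonoidHom.comp_apply, e0]
              exact h1 r (by rw [hr, hj0]; simp) i hi)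
          have e4 : h (cg l) = 0 := by
            rw [← cg_pr l]
            exact e2 0 _ _ (by omega)
          refine ⟨ε • h, fun _ => ⟨?_, ?_, ?_⟩⟩
          · have e5 : Hm (FP l) (KLB (d.z r)) (c - 1 - (c + j)) (d.m r) h := by
              have : c - 1 - (c + (j : ℤ)) = -(j : ℤ) - 1 := by ring
              rw [this]
              exact e1
            rcases Int.isUnit_iff.mp (IsUnit.of_mul_eq_one _ hε) with h | h
            · rw [h, one_smul]; exact e5
            · rw [h, neg_smul, one_smul]; exact e5.neg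
          · change ε • h (cg l) = 0
            rw [e4, smul_zero]
          · intro m
            change _ = ε • ε • h _
            rw [smul_smul, hε, one_smul, ← e3]
            rfl
        · exact ⟨0, fun hc => absurd hc hr⟩
      choose h e1 using c5
      obtain ⟨H', f1, f2, f3⟩ := step d (c := c) (n := c + j) (ε := ε) (ψ := φ') c4 h
        (fun r hr => (e1 r hr).1) (fun r hr => (e1 r hr).2.2)
      refine ⟨H + H', a1.add f1, ?_, fun hj => absurd hj (Nat.succ_ne_zero j), ?_⟩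
      · rw [AddMonoidHom.add_apply, a2, f2 (cg l) (fun r hr => (e1 r hr).2.1), add_zero]
      · intro r hr m
        have g1 := f3 r (by push_cast at hr; omega) m
        rw [c1] at g1
        rw [← g1]
        congr 1
        rw [AddMonoidHom.add_apply, AddMonoidHom.add_apply, map_add, smul_add]
        abel
  -- the last level
  obtain ⟨N, hN⟩ : ∃ N : ℕ, ∀ r, d.k r < c + N := by
    refine ⟨∑ r, (d.k r - c + 1).toNat, fun r => ?_⟩
    have h2 : (d.k r - c + 1).toNat ≤ ∑ r, (d.k r - c + 1).toNat :=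
      Finset.single_le_sum (f := fun r => (d.k r - c + 1).toNat) (fun _ _ => Nat.zero_le _)
        (Finset.mem_univ r)
    omega
  obtain ⟨H, a1, a2, _, a4⟩ := key N
  refine ⟨H, a1, a2, fun m => ?_⟩
  have h2 := ext_p d (fun r => a4 r (hN r) m)
  rw [sub_sub, sub_eq_zero] at h2
  exact h2

/-! ### elements of small support -/

/-- all bimodule homomorphisms to objects map `y` to elements which vanish over `x` -/
def Small (x : Wg) {Y : CB Dat.n} (y : Y.M) : Prop :=
  ∀ (N : Obj) (a : ℤ) (u : Y.M →+ N.M), IsBi Y (oc N a) u → ∀ i, N.π i = x → (u y).1 i = 0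

theorem Small.add {x : Wg} {Y : CB Dat.n} {y y' : Y.M} (h : Small x y) (h' : Small x y') :
    Small x (y + y') := by
  intro N a u hu i hi
  rw [map_add]
  change (u y).1 i + (u y').1 i = 0
  rw [h N a u hu i hi, h' N a u hu i hi, add_zero]

theorem Small.map {x : Wg} {X Y : CB Dat.n} {g : X.M →+ Y.M} (hg : IsBi X Y g) {y : X.M}
    (h : Small x y) : Small x (g y) := by
  intro N a u hu i hi
  exact h N a (u.comp g) (hg.comp hu) i hi

theorem small_oc {x : Wg} {O : Obj} {b : ℤ} {v : O.M} (hv : ∀ i, O.π i = x → v.1 i = 0) :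
    Small x (Y := oc O b) v := by
  intro N a u hu i hi
  obtain ⟨ψ, h1, h2⟩ := biMap_of_isBi hu
  have h3 := h1.vanish hv i hi
  rw [h2] at h3
  exact h3

theorem FP_dcm (l : List Sg) : ∃ d : Dcm (FP l), (∀ r, 0 ≤ d.k r) ∧
    ∀ r, (len (d.z r) : ℤ) + d.k r ≤ l.length := by
  obtain ⟨d, h1, _, h3, _⟩ := Fr_dcm (l.map (fun s => (s, true)))
  have h3' := h3 (by
    intro a ha
    rw [List.mem_map] at ha
    obtain ⟨s, _, rfl⟩ := ha
    rfl)
  refine ⟨d, h3', fun r => ?_⟩
  have h4 := h1 r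
  rw [abs_of_nonneg (h3' r), List.length_map] at h4
  exact h4

theorem nul_of_small (l : List Sg) (hl : len (wprod l) = l.length)
    {φ : (FP l).M →+ (FP l).M} (hφ : Ch (FP l) (FP l) φ)
    (hs : Small (wprod l) (Y := FP l) (φ (cg l))) : Nul (FP l) (FP l) φ := by
  obtain ⟨d, hd, _⟩ := FP_dcm l
  obtain ⟨H, hH, _, h2⟩ := homotopy l hl d (c := 0) (ε := 1) (by norm_num) hφ.1
    (by intro m; rw [one_smul]; exact hφ.2 m)
    (fun r hr => absurd (hd r) (by omega))
    (fun r _ i hi => hs (KB (d.z r)).O (len (d.z r)) (d.p r)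
      (d.fam.hp r (Finset.mem_univ _)).1 i hi)
  refine ⟨H, by simpa using hH, fun m => ?_⟩
  rw [h2 m, one_smul]

/-! ### the chain maps -/

theorem bg_one (l : List Sg) : ∀ i, (bg l).1 i = 1 := by
  induction l with
  | nil => intro i; rfl
  | cons s l ih =>
    intro i
    change (elFun (BS l).π s ((bg l).1, (0 : (BS l).M).1)) i = 1
    simp only [elFun, LinearMap.coe_mk, AddHom.coe_mk]
    rw [ih]
    simp

theorem bg_mem (l : List Sg) : bg l ∈ (BS l).dg 0 := by
  intro i
  rw [bg_one]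
  exact isHomogeneous_one _ _

theorem bg_pr (l : List Sg) : (oc (BS l) 0).pr 0 0 (bg l) = bg l := by
  rw [oc_pr, if_pos (by norm_num)]
  exact cmp_self (bg_mem l)

theorem exists_map (l l' : List Sg) (hl : len (wprod l) = l.length)
    (hl' : len (wprod l') = l'.length) (h : wprod l = wprod l') :
    ∃ f : (FP l).M →+ (FP l').M, Ch (FP l) (FP l') f ∧
      Small (wprod l) (Y := FP l') (f (cg l) - cg l') := by
  have hlen : l.length = l'.length := by rw [← hl, ← hl', h]
  obtain ⟨e, he, he1, _⟩ := exists_emb l'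
  obtain ⟨q, hq, hq1, _⟩ := exists_proj l
  obtain ⟨φ, p1, p2, p3⟩ := BS_lift l hl (BS l') (Nice_BS (fun s _ => trivial)) 0 (bg l')
    (bg_mem l') (fun i hi => BS_le l' hl' (bg l') i (by rw [← h]; exact hi))
  -- homogeneous components
  obtain ⟨e', e1, e3⟩ := hcomp_gen he (bg_pr l') (cg_pr l') he1
  obtain ⟨q', q1, q3⟩ := hcomp_gen hq (cg_pr l) (bg_pr l) hq1
  obtain ⟨f0, hf0, hf1⟩ : ∃ f0 : (FP l).M →+ (FP l').M, Hm (FP l) (FP l') 0 0 f0 ∧
      ∀ m, f0 m = e' (φ (q' m)) := by
    refine ⟨e'.comp (φ.toAddMonoidHom.comp q'), ?_, fun m => rfl⟩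
    have b1 := hm_of_degMap (a := 0) (b := 0) p1 p2
    exact (q1.comp b1).comp' e1 (by ring) (by rw [hlen]; push_cast; ring)
  obtain ⟨d, hd, hd'⟩ := FP_dcm l'
  have hE : ∃ E : (FP l).M →+ (FP l').M, Hm (FP l) (FP l') 1 0 E ∧
      ∀ m, E m = (FP l').D (f0 m) - f0 ((FP l).D m) := by
    refine ⟨((FP l').D : (FP l').M →+ (FP l').M).comp f0 -
      f0.comp ((FP l).D : (FP l).M →+ (FP l).M), ?_, fun m => rfl⟩
    exact (hf0.comp' (Hm.D _) (by ring) (by ring)).sub
      ((Hm.D _).comp' hf0 (by ring) (by ring))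
  obtain ⟨E, hE1, hE2⟩ := hE
  obtain ⟨H, h1, h2, h3⟩ := homotopy l hl d (c := 1) (ε := -1) (by norm_num) hE1
    (by
      intro m
      rw [hE2, hE2, map_sub, (FP l').D_D, (FP l).D_D, map_zero, sub_zero, neg_smul, one_smul,
        zero_sub])
    (by
      intro r hr m
      have b1 : Hm (FP l) (KLB (d.z r)) (1 + -d.k r) (0 + d.m r) ((d.p r).comp E) :=
        hE1.comp (d.fam.hp r (Finset.mem_univ _))
      have b2 := zero_of_pos l (KLB_conc _) b1 (by omega)
      exact DFunLike.congr_fun b2 m)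
    (by
      intro r hr i hi
      apply (KB (d.z r)).supp
      intro hm
      rw [hi] at hm
      have b1 := (Le_len hm).1
      have b2 := hd' r
      rw [hr] at b2
      omega)
  refine ⟨f0 - H, ⟨hf0.sub (by simpa using h1), fun m => ?_⟩, ?_⟩
  · have b1 := h3 m
    rw [hE2] at b1
    rw [AddMonoidHom.sub_apply, AddMonoidHom.sub_apply, map_sub]
    rw [neg_smul, one_smul] at b1
    rw [sub_eq_iff_eq_add] at b1
    rw [b1]
    abel
  · rw [AddMonoidHom.sub_apply, h2, sub_zero, hf1, q3, ← e3, ← map_sub]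
    apply Small.map (X := oc (BS l') 0) e1.1
    apply small_oc
    intro i hi
    change (φ (bg l)).1 i - (bg l').1 i = 0
    rw [p3 i hi, sub_self]

end G0

open G0 in
theorem FP_indep (l l' : List Sg) (hl : len (wprod l) = l.length)
    (hl' : len (wprod l') = l'.length) (h : wprod l = wprod l') : HE (FP l) (FP l') := by
  obtain ⟨f, hf, hf1⟩ := exists_map l l' hl hl' h
  obtain ⟨g, hg, hg1⟩ := exists_map l' l hl' hl h.symm
  refine ⟨f, g, hf, hg, ?_, ?_⟩
  · apply nul_of_small l hl ((hf.comp hg).sub (Ch.id _))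
    have e1 : (g.comp f - AddMonoidHom.id (FP l).M) (cg l) =
        g (f (cg l) - cg l') + (g (cg l') - cg l) := by
      rw [AddMonoidHom.sub_apply, AddMonoidHom.comp_apply, AddMonoidHom.id_apply, map_sub]
      abel
    rw [e1]
    exact (Small.map hg.1.1 hf1).add (by rw [h]; exact hg1)
  · apply nul_of_small l' hl' ((hg.comp hf).sub (Ch.id _))
    have e1 : (f.comp g - AddMonoidHom.id (FP l').M) (cg l') =
        f (g (cg l') - cg l) + (f (cg l) - cg l') := by
      rw [AddMonoidHom.sub_apply, AddMonoidHom.comp_apply, AddMonoidHom.id_apply, map_sub]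
      abel
    rw [e1]
    exact (Small.map hf.1.1 hg1).add (by rw [← h]; exact hf1)

end EW
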