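import Mathlib
import Pool.Agent.EW.RC.H0

/-!
# Block H3: `F_s ⊗ E_s ≃ R ≃ E_s ⊗ F_s` (MP_d13a5e_al)
-/

open MvPolynomial

namespace RC

variable {n : ℕ}

namespace H3

/-- the module underlying `Phi ρ ε' (Phi ρ ε X)` -/
abbrev T (X : CB n) : Type :=
  (X.M × X.M × X.M) × (X.M × X.M × X.M) × (X.M × X.M × X.M)

theorem pl_pl (ρ : Refl n) (f : P n) : ρ.pl (ρ.pl f) = ρ.pl f := ρ.pl_of_inv (ρ.σ_pl f)

theorem mi_pl (ρ : Refl n) (f : P n) : ρ.mi (ρ.pl f) = 0 := ρ.mi_of_inv (ρ.σ_pl f)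

theorem pl_mi (ρ : Refl n) (f : P n) : ρ.pl (ρ.mi f) = ρ.mi f := ρ.pl_of_inv (ρ.σ_mi f)

theorem mi_mi (ρ : Refl n) (f : P n) : ρ.mi (ρ.mi f) = 0 := ρ.mi_of_inv (ρ.σ_mi f)

theorem σ_aam (ρ : Refl n) (f : P n) : ρ.σ (ρ.α * ρ.α * ρ.mi f) = ρ.α * ρ.α * ρ.mi f := by
  rw [map_mul, map_mul, ρ.σα, ρ.σ_mi]
  ring

theorem pl_aam (ρ : Refl n) (f : P n) :
    ρ.pl (ρ.α * ρ.α * ρ.mi f) = ρ.α * ρ.α * ρ.mi f := ρ.pl_of_inv (σ_aam ρ f)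

theorem mi_aam (ρ : Refl n) (f : P n) : ρ.mi (ρ.α * ρ.α * ρ.mi f) = 0 :=
  ρ.mi_of_inv (σ_aam ρ f)

/-- the left action on the double complex -/
noncomputable def LA (X : CB n) (f : P n) (m : T X) : T X :=
  ((X.l f m.1.1, X.l f m.1.2.1, X.l f m.1.2.2),
    (X.l f m.2.1.1, X.l f m.2.1.2.1, X.l f m.2.1.2.2),
    (X.l f m.2.2.1, X.l f m.2.2.2.1, X.l f m.2.2.2.2))

/-- the right action on the double complex -/
noncomputable def RA (ρ : Refl n) (X : CB n) (f : P n) (m : T X) : T X :=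
  ((X.r (ρ.pl f) m.1.1 + X.r (ρ.α * ρ.α * ρ.mi f) m.2.1.1,
        X.r (ρ.pl f) m.1.2.1 + X.r (ρ.α * ρ.α * ρ.mi f) m.2.1.2.1,
        X.r (ρ.pl f) m.1.2.2 + X.r (ρ.α * ρ.α * ρ.mi f) m.2.1.2.2),
       (X.r (ρ.mi f) m.1.1 + X.r (ρ.pl f) m.2.1.1,
        X.r (ρ.mi f) m.1.2.1 + X.r (ρ.pl f) m.2.1.2.1,
        X.r (ρ.mi f) m.1.2.2 + X.r (ρ.pl f) m.2.1.2.2),
       (X.r (ρ.pl f) m.2.2.1 + X.r (ρ.α * ρ.α * ρ.mi f) m.2.2.2.1,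
        X.r (ρ.mi f) m.2.2.1 + X.r (ρ.pl f) m.2.2.2.1, X.r f m.2.2.2.2))

/-- the projections of the double complex -/
noncomputable def PA (X : CB n) (ε ε' : Bool) (k t : ℤ) (m : T X) : T X :=
  ((X.pr k (t + 1 + 1) m.1.1, X.pr k (t + 1 - 1) m.1.2.1,
      X.pr (k - sg ε) (t + 1 + sg ε) m.1.2.2),
       (X.pr k (t - 1 + 1) m.2.1.1, X.pr k (t - 1 - 1) m.2.1.2.1,
        X.pr (k - sg ε) (t - 1 + sg ε) m.2.1.2.2),
       (X.pr (k - sg ε') (t + sg ε' + 1) m.2.2.1, X.pr (k - sg ε') (t + sg ε' - 1) m.2.2.2.1,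
        X.pr (k - sg ε' - sg ε) (t + sg ε' + sg ε) m.2.2.2.2))

/-- the differential, inner letter negative, outer letter positive -/
noncomputable def DA0 (ρ : Refl n) (X : CB n) (m : T X) : T X :=
  ((X.D m.1.1 + X.r (C (1/2) * ρ.α) m.1.2.2, X.D m.1.2.1 + X.r (C (1/2)) m.1.2.2, -X.D m.1.2.2),
    (X.D m.2.1.1 + X.r (C (1/2) * ρ.α) m.2.1.2.2, X.D m.2.1.2.1 + X.r (C (1/2)) m.2.1.2.2,
      -X.D m.2.1.2.2),
    (m.1.1 + X.r (ρ.α * ρ.α) m.2.1.2.1 - (X.D m.2.2.1 + X.r (C (1/2) * ρ.α) m.2.2.2.2),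
      m.1.2.1 + m.2.1.1 - (X.D m.2.2.2.1 + X.r (C (1/2)) m.2.2.2.2),
      m.1.2.2 + X.r ρ.α m.2.1.2.2 + X.D m.2.2.2.2))

/-- the differential, inner letter positive, outer letter negative -/
noncomputable def DA1 (ρ : Refl n) (X : CB n) (m : T X) : T X :=
  ((X.D m.1.1 + X.r (ρ.α * ρ.α * C (1/2)) m.2.2.2.1,
        X.D m.1.2.1 + X.r (C (1/2)) m.2.2.1,
        m.1.1 + X.r ρ.α m.1.2.1 - X.D m.1.2.2 + X.r (C (1/2) * ρ.α) m.2.2.2.2),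
       (X.D m.2.1.1 + X.r (C (1/2)) m.2.2.1,
        X.D m.2.1.2.1 + X.r (C (1/2)) m.2.2.2.1,
        m.2.1.1 + X.r ρ.α m.2.1.2.1 - X.D m.2.1.2.2 + X.r (C (1/2)) m.2.2.2.2),
       (-X.D m.2.2.1, -X.D m.2.2.2.1, -(m.2.2.1 + X.r ρ.α m.2.2.2.1 - X.D m.2.2.2.2)))

theorem L_eq (ρ : Refl n) (X : CB n) (ε ε' : Bool) (f : P n) (m : T X) :
    (Phi ρ ε' (Phi ρ ε X)).l f m = LA X f m := rfl

theorem P_eq (ρ : Refl n) (X : CB n) (ε ε' : Bool) (k t : ℤ) (m : T X) :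
    (Phi ρ ε' (Phi ρ ε X)).pr k t m = PA X ε ε' k t m := rfl

theorem rr0 (ρ : Refl n) (X : CB n) (ε ε' : Bool) (f : P n) (a1 b1 c1 a2 b2 c2 a3 b3 c3 : X.M) :
    (Phi ρ ε' (Phi ρ ε X)).r f (((a1, b1, c1), (a2, b2, c2), (a3, b3, c3)) : T X) =
      (((X.r (ρ.pl (ρ.pl f)) a1 + X.r (ρ.α * ρ.α * ρ.mi (ρ.pl f)) b1 +
          (X.r (ρ.pl (ρ.α * ρ.α * ρ.mi f)) a2 +
            X.r (ρ.α * ρ.α * ρ.mi (ρ.α * ρ.α * ρ.mi f)) b2),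
        X.r (ρ.mi (ρ.pl f)) a1 + X.r (ρ.pl (ρ.pl f)) b1 +
          (X.r (ρ.mi (ρ.α * ρ.α * ρ.mi f)) a2 + X.r (ρ.pl (ρ.α * ρ.α * ρ.mi f)) b2),
        X.r (ρ.pl f) c1 + X.r (ρ.α * ρ.α * ρ.mi f) c2),
       (X.r (ρ.pl (ρ.mi f)) a1 + X.r (ρ.α * ρ.α * ρ.mi (ρ.mi f)) b1 +
          (X.r (ρ.pl (ρ.pl f)) a2 + X.r (ρ.α * ρ.α * ρ.mi (ρ.pl f)) b2),
        X.r (ρ.mi (ρ.mi f)) a1 + X.r (ρ.pl (ρ.mi f)) b1 +
          (X.r (ρ.mi (ρ.pl f)) a2 + X.r (ρ.pl (ρ.pl f)) b2),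
        X.r (ρ.mi f) c1 + X.r (ρ.pl f) c2),
       (X.r (ρ.pl f) a3 + X.r (ρ.α * ρ.α * ρ.mi f) b3,
        X.r (ρ.mi f) a3 + X.r (ρ.pl f) b3, X.r f c3)) : T X) := rfl

theorem R_eq (ρ : Refl n) (X : CB n) (ε ε' : Bool) (f : P n) (m : T X) :
    (Phi ρ ε' (Phi ρ ε X)).r f m = RA ρ X f m := by
  obtain ⟨⟨a1, b1, c1⟩, ⟨a2, b2, c2⟩, ⟨a3, b3, c3⟩⟩ := m
  refine (rr0 ρ X ε ε' f a1 b1 c1 a2 b2 c2 a3 b3 c3).trans ?_
  simp only [pl_pl, mi_pl, pl_mi, mi_mi, pl_aam, mi_aam, mul_zero, X.r_zero, add_zero, zero_add]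
  rfl

theorem DD0 (ρ : Refl n) (X : CB n) (a1 b1 c1 a2 b2 c2 a3 b3 c3 : X.M) :
    (Phi ρ true (Phi ρ false X)).D (((a1, b1, c1), (a2, b2, c2), (a3, b3, c3)) : T X) =
      (((X.D a1 + X.r (C (1/2) * ρ.α) c1, X.D b1 + X.r (C (1/2)) c1, -X.D c1),
       (X.D a2 + X.r (C (1/2) * ρ.α) c2, X.D b2 + X.r (C (1/2)) c2, -X.D c2),
       (a1 + (X.r (ρ.pl ρ.α) a2 + X.r (ρ.α * ρ.α * ρ.mi ρ.α) b2) -
          (X.D a3 + X.r (C (1/2) * ρ.α) c3),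
        b1 + (X.r (ρ.mi ρ.α) a2 + X.r (ρ.pl ρ.α) b2) - (X.D b3 + X.r (C (1/2)) c3),
        c1 + X.r ρ.α c2 - -X.D c3)) : T X) := rfl

theorem D_eq0 (ρ : Refl n) (X : CB n) (m : T X) :
    (Phi ρ true (Phi ρ false X)).D m = DA0 ρ X m := by
  obtain ⟨⟨a1, b1, c1⟩, ⟨a2, b2, c2⟩, ⟨a3, b3, c3⟩⟩ := m
  refine (DD0 ρ X a1 b1 c1 a2 b2 c2 a3 b3 c3).trans ?_
  simp only [ρ.pl_α, ρ.mi_α, mul_one, X.r_zero, X.r_one, add_zero, zero_add, sub_neg_eq_add]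
  rfl

theorem DD1 (ρ : Refl n) (X : CB n) (a1 b1 c1 a2 b2 c2 a3 b3 c3 : X.M) :
    (Phi ρ false (Phi ρ true X)).D (((a1, b1, c1), (a2, b2, c2), (a3, b3, c3)) : T X) =
      (((X.D a1 + (X.r (ρ.pl (C (1/2) * ρ.α)) a3 +
            X.r (ρ.α * ρ.α * ρ.mi (C (1/2) * ρ.α)) b3),
        X.D b1 + (X.r (ρ.mi (C (1/2) * ρ.α)) a3 + X.r (ρ.pl (C (1/2) * ρ.α)) b3),
        a1 + X.r ρ.α b1 - X.D c1 + X.r (C (1/2) * ρ.α) c3),
       (X.D a2 + (X.r (ρ.pl (C (1/2))) a3 + X.r (ρ.α * ρ.α * ρ.mi (C (1/2))) b3),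
        X.D b2 + (X.r (ρ.mi (C (1/2))) a3 + X.r (ρ.pl (C (1/2))) b3),
        a2 + X.r ρ.α b2 - X.D c2 + X.r (C (1/2)) c3),
       (-X.D a3, -X.D b3, -(a3 + X.r ρ.α b3 - X.D c3))) : T X) := rfl

theorem D_eq1 (ρ : Refl n) (X : CB n) (m : T X) :
    (Phi ρ false (Phi ρ true X)).D m = DA1 ρ X m := by
  obtain ⟨⟨a1, b1, c1⟩, ⟨a2, b2, c2⟩, ⟨a3, b3, c3⟩⟩ := m
  refine (DD1 ρ X a1 b1 c1 a2 b2 c2 a3 b3 c3).trans ?_
  have e1 : ρ.pl (C (1/2) * ρ.α) = 0 := by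
    rw [ρ.pl_mul, ρ.pl_α, ρ.mi_C]
    ring
  have e2 : ρ.mi (C (1/2) * ρ.α) = C (1/2) := by
    rw [ρ.mi_mul, ρ.pl_α, ρ.mi_α, ρ.pl_C]
    ring
  simp only [e1, e2, ρ.pl_C, ρ.mi_C, mul_zero, X.r_zero, add_zero, zero_add]
  rfl

/-- the map `g`, inner letter negative -/
noncomputable def g0 (ρ : Refl n) (X : CB n) : T X →+ X.M :=
  AddMonoidHom.mk' (fun m => m.2.2.2.2 - (m.1.2.1 + m.1.2.1) -
    X.r ρ.α (m.2.1.2.1 + m.2.1.2.1)) (by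
    rintro ⟨⟨a1, b1, c1⟩, ⟨a2, b2, c2⟩, ⟨a3, b3, c3⟩⟩
      ⟨⟨a1', b1', c1'⟩, ⟨a2', b2', c2'⟩, ⟨a3', b3', c3'⟩⟩
    simp only [Prod.mk_add_mk, X.r_ma]
    abel)

/-- the map `f`, inner letter negative -/
noncomputable def f0 (ρ : Refl n) (X : CB n) : X.M →+ T X :=
  AddMonoidHom.mk' (fun y => ((X.r (C (1/2) * ρ.α) y, 0, 0), (X.r (C (1/2)) y, 0, 0),
    (0, 0, y))) (by
    intro a b
    simp only [Prod.mk_add_mk, X.r_ma, add_zero])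

/-- the homotopy, inner letter negative -/
noncomputable def h0 (X : CB n) : T X →+ T X :=
  AddMonoidHom.mk' (fun m => ((-m.2.2.1, 0, -(m.1.2.1 + m.1.2.1)),
    (-m.2.2.2.1, 0, -(m.2.1.2.1 + m.2.1.2.1)), (0, 0, 0))) (by
    rintro ⟨⟨a1, b1, c1⟩, ⟨a2, b2, c2⟩, ⟨a3, b3, c3⟩⟩
      ⟨⟨a1', b1', c1'⟩, ⟨a2', b2', c2'⟩, ⟨a3', b3', c3'⟩⟩
    simp only [Prod.mk_add_mk, add_zero, Prod.mk.injEq]
    refine ⟨⟨?_, trivial, ?_⟩, ⟨?_, trivial, ?_⟩, trivial⟩ <;> abel)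

/-- the map `g`, inner letter positive -/
noncomputable def g1 (ρ : Refl n) (X : CB n) : T X →+ X.M :=
  AddMonoidHom.mk' (fun m => m.2.2.2.2 + (m.1.2.1 + m.1.2.1) +
    X.r ρ.α (m.2.1.2.1 + m.2.1.2.1)) (by
    rintro ⟨⟨a1, b1, c1⟩, ⟨a2, b2, c2⟩, ⟨a3, b3, c3⟩⟩
      ⟨⟨a1', b1', c1'⟩, ⟨a2', b2', c2'⟩, ⟨a3', b3', c3'⟩⟩
    simp only [Prod.mk_add_mk, X.r_ma]
    abel)

/-- the map `f`, inner letter positive -/
noncomputable def f1 (ρ : Refl n) (X : CB n) : X.M →+ T X :=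
  AddMonoidHom.mk' (fun y => ((-X.r (C (1/2) * ρ.α) y, 0, 0), (-X.r (C (1/2)) y, 0, 0),
    (0, 0, y))) (by
    intro a b
    simp only [Prod.mk_add_mk, X.r_ma, add_zero, neg_add])

/-- the homotopy, inner letter positive -/
noncomputable def h1 (X : CB n) : T X →+ T X :=
  AddMonoidHom.mk' (fun m => ((-m.1.2.2, 0, 0), (-m.2.1.2.2, 0, 0),
    (-(m.1.2.1 + m.1.2.1), -(m.2.1.2.1 + m.2.1.2.1), 0))) (by
    rintro ⟨⟨a1, b1, c1⟩, ⟨a2, b2, c2⟩, ⟨a3, b3, c3⟩⟩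
      ⟨⟨a1', b1', c1'⟩, ⟨a2', b2', c2'⟩, ⟨a3', b3', c3'⟩⟩
    simp only [Prod.mk_add_mk, add_zero, Prod.mk.injEq]
    refine ⟨⟨?_, trivial⟩, ⟨?_, trivial⟩, ?_, ?_, trivial⟩ <;> abel)

theorem g0_mk (ρ : Refl n) (X : CB n) (a1 b1 c1 a2 b2 c2 a3 b3 c3 : X.M) :
    g0 ρ X ((a1, b1, c1), (a2, b2, c2), (a3, b3, c3)) = c3 - (b1 + b1) - X.r ρ.α (b2 + b2) := rfl

theorem g1_mk (ρ : Refl n) (X : CB n) (a1 b1 c1 a2 b2 c2 a3 b3 c3 : X.M) :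
    g1 ρ X ((a1, b1, c1), (a2, b2, c2), (a3, b3, c3)) = c3 + (b1 + b1) + X.r ρ.α (b2 + b2) := rfl

theorem f0_mk (ρ : Refl n) (X : CB n) (y : X.M) :
    f0 ρ X y = ((X.r (C (1/2) * ρ.α) y, 0, 0), (X.r (C (1/2)) y, 0, 0), (0, 0, y)) := rfl

theorem f1_mk (ρ : Refl n) (X : CB n) (y : X.M) :
    f1 ρ X y = ((-X.r (C (1/2) * ρ.α) y, 0, 0), (-X.r (C (1/2)) y, 0, 0), (0, 0, y)) := rfl

theorem h0_mk (X : CB n) (a1 b1 c1 a2 b2 c2 a3 b3 c3 : X.M) :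
    h0 X ((a1, b1, c1), (a2, b2, c2), (a3, b3, c3)) =
      ((-a3, 0, -(b1 + b1)), (-b3, 0, -(b2 + b2)), (0, 0, 0)) := rfl

theorem h1_mk (X : CB n) (a1 b1 c1 a2 b2 c2 a3 b3 c3 : X.M) :
    h1 X ((a1, b1, c1), (a2, b2, c2), (a3, b3, c3)) =
      ((-c1, 0, 0), (-c2, 0, 0), (-(b1 + b1), -(b2 + b2), 0)) := rfl

theorem e1 (ρ : Refl n) (f : P n) : ρ.pl f + ρ.α * ρ.mi f = f := by
  have := ρ.pl_add_mi f
  linear_combination -this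

/-- `f b = pl f b + α mi f b` -/
theorem rs (ρ : Refl n) (X : CB n) (f : P n) (b : X.M) :
    X.r f b = X.r (ρ.pl f) b + X.r (ρ.α * ρ.mi f) b := by
  rw [← X.r_add, e1]

theorem rs' (ρ : Refl n) (X : CB n) (f : P n) (b : X.M) :
    X.r (f * ρ.α) b = X.r (ρ.α * ρ.α * ρ.mi f) b + X.r (ρ.α * ρ.pl f) b := by
  rw [← X.r_add]
  congr 2
  have := ρ.pl_add_mi f
  linear_combination ρ.α * this

theorem ef1 (ρ : Refl n) (f : P n) :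
    ρ.pl f * (C (1/2) * ρ.α) + ρ.α * ρ.α * ρ.mi f * C (1/2) = f * (C (1/2) * ρ.α) := by
  have := ρ.pl_add_mi f
  linear_combination -(C (1/2) * ρ.α) * this

theorem ef2 (ρ : Refl n) (f : P n) :
    ρ.mi f * (C (1/2) * ρ.α) + ρ.pl f * C (1/2) = f * C (1/2) := by
  have := ρ.pl_add_mi f
  linear_combination -(C (1/2)) * this

theorem r_com (X : CB n) (f g : P n) (b : X.M) : X.r f (X.r g b) = X.r g (X.r f b) := by
  rw [← X.r_mul, ← X.r_mul, mul_comm]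

theorem bi_g0 (ρ : Refl n) (X : CB n) : IsBi (Phi ρ true (Phi ρ false X)) X (g0 ρ X) := by
  have hl : ∀ (f : P n) (m : T X), g0 ρ X (LA X f m) = X.l f (g0 ρ X m) := by
    rintro f ⟨⟨a1, b1, c1⟩, ⟨a2, b2, c2⟩, ⟨a3, b3, c3⟩⟩
    simp only [LA, g0_mk, X.l_ms, X.l_ma, X.lr, X.r_ma]
  have hr : ∀ (f : P n) (m : T X), g0 ρ X (RA ρ X f m) = X.r f (g0 ρ X m) := by
    rintro f ⟨⟨a1, b1, c1⟩, ⟨a2, b2, c2⟩, ⟨a3, b3, c3⟩⟩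
    simp only [RA, g0_mk, X.r_ms, X.r_ma, ← X.r_mul]
    rw [rs ρ X f b1, rs' ρ X f b2]
    abel
  exact ⟨fun f m => hl f m, fun f m => (congrArg (g0 ρ X) (R_eq ρ X false true f m)).trans (hr f m)⟩

theorem bi_g1 (ρ : Refl n) (X : CB n) : IsBi (Phi ρ false (Phi ρ true X)) X (g1 ρ X) := by
  have hl : ∀ (f : P n) (m : T X), g1 ρ X (LA X f m) = X.l f (g1 ρ X m) := by
    rintro f ⟨⟨a1, b1, c1⟩, ⟨a2, b2, c2⟩, ⟨a3, b3, c3⟩⟩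
    simp only [LA, g1_mk, X.l_ma, X.lr, X.r_ma]
  have hr : ∀ (f : P n) (m : T X), g1 ρ X (RA ρ X f m) = X.r f (g1 ρ X m) := by
    rintro f ⟨⟨a1, b1, c1⟩, ⟨a2, b2, c2⟩, ⟨a3, b3, c3⟩⟩
    simp only [RA, g1_mk, X.r_ma, ← X.r_mul]
    rw [rs ρ X f b1, rs' ρ X f b2]
    abel
  exact ⟨fun f m => hl f m, fun f m => (congrArg (g1 ρ X) (R_eq ρ X true false f m)).trans (hr f m)⟩

theorem bi_f0 (ρ : Refl n) (X : CB n) : IsBi X (Phi ρ true (Phi ρ false X)) (f0 ρ X) := by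
  have hl : ∀ (f : P n) (y : X.M), f0 ρ X (X.l f y) = LA X f (f0 ρ X y) := by
    intro f y
    simp only [LA, f0_mk, X.lr, X.l_mz]
  have hr : ∀ (f : P n) (y : X.M), f0 ρ X (X.r f y) = RA ρ X f (f0 ρ X y) := by
    intro f y
    simp only [RA, f0_mk, X.r_mz, add_zero, ← X.r_mul, ← X.r_add, ef1, ef2]
    rw [mul_comm (C (1/2) * ρ.α) f, mul_comm (C (1/2)) f]
  exact ⟨fun f m => hl f m, fun f m => (hr f m).trans (R_eq ρ X false true f _).symm⟩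

theorem bi_f1 (ρ : Refl n) (X : CB n) : IsBi X (Phi ρ false (Phi ρ true X)) (f1 ρ X) := by
  have hl : ∀ (f : P n) (y : X.M), f1 ρ X (X.l f y) = LA X f (f1 ρ X y) := by
    intro f y
    simp only [LA, f1_mk, X.lr, X.l_mz, X.l_mn]
  have hr : ∀ (f : P n) (y : X.M), f1 ρ X (X.r f y) = RA ρ X f (f1 ρ X y) := by
    intro f y
    simp only [RA, f1_mk, X.r_mz, X.r_mn, add_zero, ← X.r_mul, ← neg_add, ← X.r_add, ef1, ef2]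
    rw [mul_comm (C (1/2) * ρ.α) f, mul_comm (C (1/2)) f]
  exact ⟨fun f m => hl f m, fun f m => (hr f m).trans (R_eq ρ X true false f _).symm⟩

theorem bi_h0 (ρ : Refl n) (X : CB n) (ε ε' : Bool) :
    IsBi (Phi ρ ε' (Phi ρ ε X)) (Phi ρ ε' (Phi ρ ε X)) (h0 X) := by
  have hl : ∀ (f : P n) (m : T X), h0 X (LA X f m) = LA X f (h0 X m) := by
    rintro f ⟨⟨a1, b1, c1⟩, ⟨a2, b2, c2⟩, ⟨a3, b3, c3⟩⟩
    simp only [LA, h0_mk, X.l_mn, X.l_ma, X.l_mz]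
  have hr : ∀ (f : P n) (m : T X), h0 X (RA ρ X f m) = RA ρ X f (h0 X m) := by
    rintro f ⟨⟨a1, b1, c1⟩, ⟨a2, b2, c2⟩, ⟨a3, b3, c3⟩⟩
    simp only [RA, h0_mk, X.r_mn, X.r_ma, X.r_mz, add_zero, Prod.mk.injEq]
    refine ⟨⟨?_, trivial, ?_⟩, ⟨?_, trivial, ?_⟩, trivial⟩ <;> abel
  exact ⟨fun f m => hl f m, fun f m =>
    (congrArg (h0 X) (R_eq ρ X ε ε' f m)).trans ((hr f m).trans (R_eq ρ X ε ε' f _).symm)⟩

theorem bi_h1 (ρ : Refl n) (X : CB n) (ε ε' : Bool) :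
    IsBi (Phi ρ ε' (Phi ρ ε X)) (Phi ρ ε' (Phi ρ ε X)) (h1 X) := by
  have hl : ∀ (f : P n) (m : T X), h1 X (LA X f m) = LA X f (h1 X m) := by
    rintro f ⟨⟨a1, b1, c1⟩, ⟨a2, b2, c2⟩, ⟨a3, b3, c3⟩⟩
    simp only [LA, h1_mk, X.l_mn, X.l_ma, X.l_mz]
  have hr : ∀ (f : P n) (m : T X), h1 X (RA ρ X f m) = RA ρ X f (h1 X m) := by
    rintro f ⟨⟨a1, b1, c1⟩, ⟨a2, b2, c2⟩, ⟨a3, b3, c3⟩⟩
    simp only [RA, h1_mk, X.r_mn, X.r_ma, X.r_mz, add_zero, Prod.mk.injEq]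
    refine ⟨⟨?_, trivial⟩, ⟨?_, trivial⟩, ?_, ?_, trivial⟩ <;> abel
  exact ⟨fun f m => hl f m, fun f m =>
    (congrArg (h1 X) (R_eq ρ X ε ε' f m)).trans ((hr f m).trans (R_eq ρ X ε ε' f _).symm)⟩

theorem pr_eq (X : CB n) {k t k' t' : ℤ} (h : k = k') (h' : t = t') (a : X.M) :
    X.pr k t a = X.pr k' t' a := by rw [h, h']

theorem pr_al (ρ : Refl n) (X : CB n) (k t : ℤ) (a : X.M) :
    X.pr k t (X.r ρ.α a) = X.r ρ.α (X.pr k (t - 2) a) := by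
  have := X.pr_r_lin ρ.lin k (t - 2) a
  rw [sub_add_cancel] at this
  exact this

theorem pr_hal (ρ : Refl n) (X : CB n) (k t : ℤ) (a : X.M) :
    X.pr k t (X.r (C (1/2) * ρ.α) a) = X.r (C (1/2) * ρ.α) (X.pr k (t - 2) a) := by
  rw [X.r_mul, X.pr_rC, pr_al, X.r_mul]

theorem hm_g0 (ρ : Refl n) (X : CB n) : Hm (Phi ρ true (Phi ρ false X)) X 0 0 (g0 ρ X) := by
  have hp : ∀ (k t : ℤ) (m : T X),
      X.pr (k + 0) (t + 0) (g0 ρ X m) = g0 ρ X (PA X false true k t m) := by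
    rintro k t ⟨⟨a1, b1, c1⟩, ⟨a2, b2, c2⟩, ⟨a3, b3, c3⟩⟩
    simp only [PA, g0_mk, X.pr_ms, X.pr_ma, X.r_ma, pr_al, sg_true, sg_false]
    rw [pr_eq X (show k + 0 = k - 1 - -1 by ring) (show t + 0 = t + 1 + -1 by ring) c3,
      pr_eq X (show k + 0 = k by ring) (show t + 0 = t + 1 - 1 by ring) b1,
      pr_eq X (show k + 0 = k by ring) (show t + 0 - 2 = t - 1 - 1 by ring) b2]
  exact ⟨bi_g0 ρ X, fun k t m => hp k t m⟩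

theorem hm_g1 (ρ : Refl n) (X : CB n) : Hm (Phi ρ false (Phi ρ true X)) X 0 0 (g1 ρ X) := by
  have hp : ∀ (k t : ℤ) (m : T X),
      X.pr (k + 0) (t + 0) (g1 ρ X m) = g1 ρ X (PA X true false k t m) := by
    rintro k t ⟨⟨a1, b1, c1⟩, ⟨a2, b2, c2⟩, ⟨a3, b3, c3⟩⟩
    simp only [PA, g1_mk, X.pr_ma, X.r_ma, pr_al, sg_true, sg_false]
    rw [pr_eq X (show k + 0 = k - -1 - 1 by ring) (show t + 0 = t + -1 + 1 by ring) c3,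
      pr_eq X (show k + 0 = k by ring) (show t + 0 = t + 1 - 1 by ring) b1,
      pr_eq X (show k + 0 = k by ring) (show t + 0 - 2 = t - 1 - 1 by ring) b2]
  exact ⟨bi_g1 ρ X, fun k t m => hp k t m⟩

theorem hm_f0 (ρ : Refl n) (X : CB n) : Hm X (Phi ρ true (Phi ρ false X)) 0 0 (f0 ρ X) := by
  have hp : ∀ (k t : ℤ) (y : X.M),
      PA X false true (k + 0) (t + 0) (f0 ρ X y) = f0 ρ X (X.pr k t y) := by
    intro k t y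
    simp only [PA, f0_mk, X.pr_mz, pr_hal, X.pr_rC, sg_true, sg_false]
    rw [pr_eq X (show k + 0 = k by ring) (show t + 0 + 1 + 1 - 2 = t by ring) y,
      pr_eq X (show k + 0 = k by ring) (show t + 0 - 1 + 1 = t by ring) y,
      pr_eq X (show k + 0 - 1 - -1 = k by ring) (show t + 0 + 1 + -1 = t by ring) y]
  exact ⟨bi_f0 ρ X, fun k t m => hp k t m⟩

theorem hm_f1 (ρ : Refl n) (X : CB n) : Hm X (Phi ρ false (Phi ρ true X)) 0 0 (f1 ρ X) := by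
  have hp : ∀ (k t : ℤ) (y : X.M),
      PA X true false (k + 0) (t + 0) (f1 ρ X y) = f1 ρ X (X.pr k t y) := by
    intro k t y
    simp only [PA, f1_mk, X.pr_mz, X.pr_mn, pr_hal, X.pr_rC, sg_true, sg_false]
    rw [pr_eq X (show k + 0 = k by ring) (show t + 0 + 1 + 1 - 2 = t by ring) y,
      pr_eq X (show k + 0 = k by ring) (show t + 0 - 1 + 1 = t by ring) y,
      pr_eq X (show k + 0 - -1 - 1 = k by ring) (show t + 0 + -1 + 1 = t by ring) y]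
  exact ⟨bi_f1 ρ X, fun k t m => hp k t m⟩

theorem hm_h0 (ρ : Refl n) (X : CB n) :
    Hm (Phi ρ true (Phi ρ false X)) (Phi ρ true (Phi ρ false X)) (-1) 0 (h0 X) := by
  have hp : ∀ (k t : ℤ) (m : T X),
      PA X false true (k + -1) (t + 0) (h0 X m) = h0 X (PA X false true k t m) := by
    rintro k t ⟨⟨a1, b1, c1⟩, ⟨a2, b2, c2⟩, ⟨a3, b3, c3⟩⟩
    simp only [PA, h0_mk, X.pr_mz, X.pr_mn, X.pr_ma, sg_true, sg_false]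
    rw [pr_eq X (show k + -1 = k - 1 by ring) (show t + 0 + 1 + 1 = t + 1 + 1 by ring) a3,
      pr_eq X (show k + -1 = k - 1 by ring) (show t + 0 - 1 + 1 = t + 1 - 1 by ring) b3,
      pr_eq X (show k + -1 - -1 = k by ring) (show t + 0 + 1 + -1 = t + 1 - 1 by ring) b1,
      pr_eq X (show k + -1 - -1 = k by ring) (show t + 0 - 1 + -1 = t - 1 - 1 by ring) b2]
  exact ⟨bi_h0 ρ X _ _, fun k t m => hp k t m⟩

theorem hm_h1 (ρ : Refl n) (X : CB n) :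
    Hm (Phi ρ false (Phi ρ true X)) (Phi ρ false (Phi ρ true X)) (-1) 0 (h1 X) := by
  have hp : ∀ (k t : ℤ) (m : T X),
      PA X true false (k + -1) (t + 0) (h1 X m) = h1 X (PA X true false k t m) := by
    rintro k t ⟨⟨a1, b1, c1⟩, ⟨a2, b2, c2⟩, ⟨a3, b3, c3⟩⟩
    simp only [PA, h1_mk, X.pr_mz, X.pr_mn, X.pr_ma, sg_true, sg_false]
    rw [pr_eq X (show k + -1 = k - 1 by ring) (show t + 0 + 1 + 1 = t + 1 + 1 by ring) c1,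
      pr_eq X (show k + -1 = k - 1 by ring) (show t + 0 - 1 + 1 = t - 1 + 1 by ring) c2,
      pr_eq X (show k + -1 - -1 = k by ring) (show t + 0 + -1 + 1 = t + 1 - 1 by ring) b1,
      pr_eq X (show k + -1 - -1 = k by ring) (show t + 0 + -1 - 1 = t - 1 - 1 by ring) b2]
  exact ⟨bi_h1 ρ X _ _, fun k t m => hp k t m⟩

/-- twice a half -/
theorem two_half (X : CB n) (b : X.M) : X.r (C (1/2)) b + X.r (C (1/2)) b = b := by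
  rw [← X.r_add, ← C_add]
  norm_num

theorem two_half' (X : CB n) (f : P n) (b : X.M) :
    X.r (C (1/2) * f) b + X.r (C (1/2) * f) b = X.r f b := by
  rw [X.r_mul, two_half]

theorem two_half'' (X : CB n) (f : P n) (b : X.M) :
    X.r (f * C (1/2)) b + X.r (f * C (1/2)) b = X.r f b := by
  rw [mul_comm, two_half']

theorem ch_g0 (ρ : Refl n) (X : CB n) : Ch (Phi ρ true (Phi ρ false X)) X (g0 ρ X) := by
  have hd : ∀ m : T X, X.D (g0 ρ X m) = g0 ρ X (DA0 ρ X m) := by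
    rintro ⟨⟨a1, b1, c1⟩, ⟨a2, b2, c2⟩, ⟨a3, b3, c3⟩⟩
    simp only [DA0, g0_mk, X.D_ms, X.D_ma, X.D_r, X.r_ma, ← X.r_mul]
    have h1 := two_half X c1
    have h2 := two_half'' X ρ.α c2
    have e : X.D c3 - (X.D b1 + X.D b1) - (X.r ρ.α (X.D b2) + X.r ρ.α (X.D b2)) =
        c1 + X.r ρ.α c2 + X.D c3 -
          ((X.D b1 + X.D b1) + (X.r (C (1/2)) c1 + X.r (C (1/2)) c1)) -
          ((X.r ρ.α (X.D b2) + X.r ρ.α (X.D b2)) +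
            (X.r (ρ.α * C (1/2)) c2 + X.r (ρ.α * C (1/2)) c2)) := by
      rw [h1, h2]
      abel
    rw [e]
    abel
  exact ⟨hm_g0 ρ X, fun m => (hd m).trans (congrArg (g0 ρ X) (D_eq0 ρ X m).symm)⟩

theorem ch_g1 (ρ : Refl n) (X : CB n) : Ch (Phi ρ false (Phi ρ true X)) X (g1 ρ X) := by
  have hd : ∀ m : T X, X.D (g1 ρ X m) = g1 ρ X (DA1 ρ X m) := by
    rintro ⟨⟨a1, b1, c1⟩, ⟨a2, b2, c2⟩, ⟨a3, b3, c3⟩⟩
    simp only [DA1, g1_mk, X.D_ma, X.D_r, X.r_ma, ← X.r_mul]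
    have h1 := two_half X a3
    have h2 := two_half'' X ρ.α b3
    have e : X.D c3 + (X.D b1 + X.D b1) + (X.r ρ.α (X.D b2) + X.r ρ.α (X.D b2)) =
        -(a3 + X.r ρ.α b3 - X.D c3) +
          ((X.D b1 + X.D b1) + (X.r (C (1/2)) a3 + X.r (C (1/2)) a3)) +
          ((X.r ρ.α (X.D b2) + X.r ρ.α (X.D b2)) +
            (X.r (ρ.α * C (1/2)) b3 + X.r (ρ.α * C (1/2)) b3)) := by
      rw [h1, h2]
      abel
    rw [e]
    abel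
  exact ⟨hm_g1 ρ X, fun m => (hd m).trans (congrArg (g1 ρ X) (D_eq1 ρ X m).symm)⟩

theorem ch_f0 (ρ : Refl n) (X : CB n) : Ch X (Phi ρ true (Phi ρ false X)) (f0 ρ X) := by
  have hd : ∀ y : X.M, DA0 ρ X (f0 ρ X y) = f0 ρ X (X.D y) := by
    intro y
    simp only [DA0, f0_mk, X.D_mz, X.D_r, X.r_mz, add_zero, zero_add, neg_zero, sub_self]
  exact ⟨hm_f0 ρ X, fun m => (D_eq0 ρ X _).trans (hd m)⟩

theorem ch_f1 (ρ : Refl n) (X : CB n) : Ch X (Phi ρ false (Phi ρ true X)) (f1 ρ X) := by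
  have hd : ∀ y : X.M, DA1 ρ X (f1 ρ X y) = f1 ρ X (X.D y) := by
    intro y
    simp only [DA1, f1_mk, X.D_mz, X.D_mn, X.D_r, X.r_mz, add_zero, neg_zero, sub_zero,
      neg_add_cancel, zero_sub, neg_neg]
  exact ⟨hm_f1 ρ X, fun m => (D_eq1 ρ X _).trans (hd m)⟩

theorem gf0 (ρ : Refl n) (X : CB n) (y : X.M) : g0 ρ X (f0 ρ X y) = y := by
  simp only [f0_mk, g0_mk, add_zero, X.r_mz, sub_zero]

theorem gf1 (ρ : Refl n) (X : CB n) (y : X.M) : g1 ρ X (f1 ρ X y) = y := by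
  simp only [f1_mk, g1_mk, add_zero, X.r_mz]

theorem hom0 (ρ : Refl n) (X : CB n) (m : T X) :
    f0 ρ X (g0 ρ X m) - m = DA0 ρ X (h0 X m) + h0 X (DA0 ρ X m) := by
  obtain ⟨⟨a1, b1, c1⟩, ⟨a2, b2, c2⟩, ⟨a3, b3, c3⟩⟩ := m
  simp only [DA0, h0_mk, f0_mk, g0_mk, Prod.mk_add_mk, Prod.mk_sub_mk, X.D_mz, X.D_mn, X.D_ma,
    X.r_mz, X.r_mn, X.r_ma, X.r_ms, add_zero, zero_add, sub_zero, zero_sub,
    Prod.mk.injEq, ← X.r_mul]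
  refine ⟨⟨?_, ?_, ?_⟩, ⟨?_, ?_, ?_⟩, trivial, trivial, ?_⟩
  · rw [mul_assoc (C (1/2) : P n) ρ.α ρ.α, two_half' X (ρ.α * ρ.α) b2]
    abel
  · rw [two_half]
  · conv_lhs => rw [← two_half X c1]
    abel
  · rw [two_half X b1]
    abel
  · rw [two_half]
  · conv_lhs => rw [← two_half X c2]
    abel
  · abel

theorem hom1 (ρ : Refl n) (X : CB n) (m : T X) :
    f1 ρ X (g1 ρ X m) - m = DA1 ρ X (h1 X m) + h1 X (DA1 ρ X m) := by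
  obtain ⟨⟨a1, b1, c1⟩, ⟨a2, b2, c2⟩, ⟨a3, b3, c3⟩⟩ := m
  simp only [DA1, h1_mk, f1_mk, g1_mk, Prod.mk_add_mk, Prod.mk_sub_mk, X.D_mz, X.D_mn, X.D_ma,
    X.r_mz, X.r_mn, X.r_ma, add_zero, zero_add, sub_zero, zero_sub,
    Prod.mk.injEq, ← X.r_mul]
  refine ⟨⟨?_, ?_, trivial⟩, ⟨?_, ?_, trivial⟩, ?_, ?_, ?_⟩
  · rw [two_half' X ρ.α b1, mul_assoc (C (1/2) : P n) ρ.α ρ.α, two_half' X (ρ.α * ρ.α) b2,
      two_half'' X (ρ.α * ρ.α) b2]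
    abel
  · rw [two_half]
  · rw [two_half X b1, two_half' X ρ.α b2]
    abel
  · rw [two_half]
  · conv_lhs => rw [← two_half X a3]
    abel
  · conv_lhs => rw [← two_half X b3]
    abel
  · abel

theorem cancel0 (ρ : Refl n) (X : CB n) : HE (Phi ρ true (Phi ρ false X)) X := by
  refine ⟨g0 ρ X, f0 ρ X, ch_g0 ρ X, ch_f0 ρ X, ⟨h0 X, hm_h0 ρ X, fun m => ?_⟩, ?_⟩
  · refine (hom0 ρ X m).trans ?_
    refine Eq.trans ?_ (congrArg₂ (fun a b : T X => a + b) (D_eq0 ρ X (h0 X m)).symm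
      (congrArg (h0 X) (D_eq0 ρ X m).symm))
    rfl
  · have e : (g0 ρ X).comp (f0 ρ X) - AddMonoidHom.id _ = 0 := by
      ext y
      simp only [AddMonoidHom.sub_apply, AddMonoidHom.comp_apply, AddMonoidHom.id_apply, gf0,
        sub_self, AddMonoidHom.zero_apply]
    have h := Nul.zero X X
    rw [← e] at h
    exact h

theorem cancel1 (ρ : Refl n) (X : CB n) : HE (Phi ρ false (Phi ρ true X)) X := by
  refine ⟨g1 ρ X, f1 ρ X, ch_g1 ρ X, ch_f1 ρ X, ⟨h1 X, hm_h1 ρ X, fun m => ?_⟩, ?_⟩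
  · refine (hom1 ρ X m).trans ?_
    refine Eq.trans ?_ (congrArg₂ (fun a b : T X => a + b) (D_eq1 ρ X (h1 X m)).symm
      (congrArg (h1 X) (D_eq1 ρ X m).symm))
    rfl
  · have e : (g1 ρ X).comp (f1 ρ X) - AddMonoidHom.id _ = 0 := by
      ext y
      simp only [AddMonoidHom.sub_apply, AddMonoidHom.comp_apply, AddMonoidHom.id_apply, gf1,
        sub_self, AddMonoidHom.zero_apply]
    have h := Nul.zero X X
    rw [← e] at h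
    exact h

end H3

theorem phi_cancel (ρ : Refl n) (ε : Bool) (X : CB n) :
    HE (Phi ρ (!ε) (Phi ρ ε X)) X := by
  cases ε
  · exact H3.cancel0 ρ X
  · exact H3.cancel1 ρ X

end RC
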