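import Mathlib
import Pool.Agent.EW.RC.H1

/-!
# Block H4: left functors commute with right functors (MP_d13a5e_al)
-/

open MvPolynomial

namespace RC

variable {n : ℕ}

private theorem pr_congr24 (X : CB n) {k k' t t' : ℤ} (hk : k = k') (ht : t = t') (m : X.M) :
    X.pr k t m = X.pr k' t' m := by
  subst hk; subst ht; rfl

/-- transposition of arrays, with a sign at the place `(3,3)` -/
private def tr9 (X : CB n) : (X.M × X.M × X.M) × (X.M × X.M × X.M) × (X.M × X.M × X.M) →+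
    (X.M × X.M × X.M) × (X.M × X.M × X.M) × (X.M × X.M × X.M) :=
  AddMonoidHom.mk' (fun m => ((m.1.1, m.2.1.1, m.2.2.1), (m.1.2.1, m.2.1.2.1, m.2.2.2.1),
    (m.1.2.2, m.2.1.2.2, -m.2.2.2.2))) (fun a b =>
    Prod.ext (Prod.ext rfl (Prod.ext rfl rfl)) (Prod.ext (Prod.ext rfl (Prod.ext rfl rfl))
      (Prod.ext rfl (Prod.ext rfl (neg_add _ _)))))

private theorem tr9_tr9 (X : CB n) (m) : tr9 X (tr9 X m) = m :=
  Prod.ext (Prod.ext rfl (Prod.ext rfl rfl)) (Prod.ext (Prod.ext rfl (Prod.ext rfl rfl))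
      (Prod.ext rfl (Prod.ext rfl (neg_neg _))))

private theorem tr9_ch (ρ ρ' : Refl n) (ε δ : Bool) (X : CB n) :
    Ch (La ρ ε (Phi ρ' δ X)) (Phi ρ' δ (La ρ ε X)) (tr9 X) := by
  refine ⟨⟨⟨fun f m => ?_, fun f m => ?_⟩, fun k t m => ?_⟩, fun m => ?_⟩
  · exact Prod.ext (Prod.ext rfl (Prod.ext rfl rfl)) (Prod.ext (Prod.ext rfl (Prod.ext rfl rfl))
      (Prod.ext rfl (Prod.ext rfl (X.l_mn _ _).symm)))
  · exact Prod.ext (Prod.ext rfl (Prod.ext rfl rfl)) (Prod.ext (Prod.ext rfl (Prod.ext rfl rfl))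
      (Prod.ext rfl (Prod.ext rfl (X.r_mn _ _).symm)))
  · rw [add_zero, add_zero]
    refine Prod.ext (Prod.ext ?_ (Prod.ext ?_ ?_)) (Prod.ext (Prod.ext ?_ (Prod.ext ?_ ?_))
      (Prod.ext ?_ (Prod.ext ?_ ?_)))
    · exact pr_congr24 X (by ring) (by ring) _
    · exact pr_congr24 X (by ring) (by ring) _
    · exact pr_congr24 X (by ring) (by ring) _
    · exact pr_congr24 X (by ring) (by ring) _
    · exact pr_congr24 X (by ring) (by ring) _
    · exact pr_congr24 X (by ring) (by ring) _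
    · exact pr_congr24 X (by ring) (by ring) _
    · exact pr_congr24 X (by ring) (by ring) _
    · exact (X.pr_mn _ _ _).trans (congrArg Neg.neg (pr_congr24 X (by ring) (by ring) _))
  · obtain ⟨⟨a1, a2, a3⟩, ⟨b1, b2, b3⟩, ⟨c1, c2, c3⟩⟩ := m
    cases ε <;> cases δ
    · refine Prod.ext (Prod.ext ?_ (Prod.ext ?_ ?_)) (Prod.ext (Prod.ext ?_ (Prod.ext ?_ ?_))
        (Prod.ext ?_ (Prod.ext ?_ ?_)))
      · change X.D a1 + X.l (C (1/2) * ρ.α) c1 + X.r (C (1/2) * ρ'.α) a3 =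
          X.D a1 + X.r (C (1/2) * ρ'.α) a3 + X.l (C (1/2) * ρ.α) c1
        abel
      · change X.D b1 + X.l (C (1/2)) c1 + X.r (C (1/2) * ρ'.α) b3 =
          X.D b1 + X.r (C (1/2) * ρ'.α) b3 + X.l (C (1/2)) c1
        abel
      · change -X.D c1 + X.r (C (1/2) * ρ'.α) (-c3) = -(X.D c1 + X.r (C (1/2) * ρ'.α) c3)
        rw [X.r_mn]; abel
      · change X.D a2 + X.l (C (1/2) * ρ.α) c2 + X.r (C (1/2)) a3 =
          X.D a2 + X.r (C (1/2)) a3 + X.l (C (1/2) * ρ.α) c2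
        abel
      · change X.D b2 + X.l (C (1/2)) c2 + X.r (C (1/2)) b3 =
          X.D b2 + X.r (C (1/2)) b3 + X.l (C (1/2)) c2
        abel
      · change -X.D c2 + X.r (C (1/2)) (-c3) = -(X.D c2 + X.r (C (1/2)) c3)
        rw [X.r_mn]; abel
      · change -(X.D a3 + X.l (C (1/2) * ρ.α) (-c3)) = -X.D a3 + X.l (C (1/2) * ρ.α) c3
        rw [X.l_mn]; abel
      · change -(X.D b3 + X.l (C (1/2)) (-c3)) = -X.D b3 + X.l (C (1/2)) c3
        rw [X.l_mn]; abel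
      · change -(-X.D (-c3)) = -(-(-X.D c3))
        rw [X.D_mn]
    · refine Prod.ext (Prod.ext ?_ (Prod.ext ?_ ?_)) (Prod.ext (Prod.ext ?_ (Prod.ext ?_ ?_))
        (Prod.ext ?_ (Prod.ext ?_ ?_)))
      · rfl
      · rfl
      · rfl
      · rfl
      · rfl
      · rfl
      · change a1 + X.r ρ'.α a2 - (X.D a3 + X.l (C (1/2) * ρ.α) (-c3)) =
          a1 + X.r ρ'.α a2 - X.D a3 + X.l (C (1/2) * ρ.α) c3
        rw [X.l_mn]; abel
      · change b1 + X.r ρ'.α b2 - (X.D b3 + X.l (C (1/2)) (-c3)) =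
          b1 + X.r ρ'.α b2 - X.D b3 + X.l (C (1/2)) c3
        rw [X.l_mn]; abel
      · change c1 + X.r ρ'.α c2 - (-X.D (-c3)) = -(-(c1 + X.r ρ'.α c2 - X.D c3))
        rw [X.D_mn]; abel
    · refine Prod.ext (Prod.ext ?_ (Prod.ext ?_ ?_)) (Prod.ext (Prod.ext ?_ (Prod.ext ?_ ?_))
        (Prod.ext ?_ (Prod.ext ?_ ?_)))
      · rfl
      · rfl
      · change a1 + X.l ρ.α b1 - X.D c1 + X.r (C (1/2) * ρ'.α) (-c3) =
          a1 + X.l ρ.α b1 - (X.D c1 + X.r (C (1/2) * ρ'.α) c3)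
        rw [X.r_mn]; abel
      · rfl
      · rfl
      · change a2 + X.l ρ.α b2 - X.D c2 + X.r (C (1/2)) (-c3) =
          a2 + X.l ρ.α b2 - (X.D c2 + X.r (C (1/2)) c3)
        rw [X.r_mn]; abel
      · rfl
      · rfl
      · change -(a3 + X.l ρ.α b3 - X.D (-c3)) = -(a3 + X.l ρ.α b3 - -X.D c3)
        rw [X.D_mn]
    · refine Prod.ext (Prod.ext ?_ (Prod.ext ?_ ?_)) (Prod.ext (Prod.ext ?_ (Prod.ext ?_ ?_))
        (Prod.ext ?_ (Prod.ext ?_ ?_)))
      · rfl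
      · rfl
      · rfl
      · rfl
      · rfl
      · rfl
      · rfl
      · rfl
      · change c1 + X.r ρ'.α c2 - (a3 + X.l ρ.α b3 - X.D (-c3)) =
          -(a3 + X.l ρ.α b3 - (c1 + X.r ρ'.α c2 - X.D c3))
        rw [X.D_mn]; abel

private theorem hcomp_sig24 (ρ : Refl n) (f : P n) (d : ℕ) :
    homogeneousComponent d (ρ.σ f) = ρ.σ (homogeneousComponent d f) := by
  classical
  have hX : ∀ i, ((ρ.σ ∘ X) i : P n).IsHomogeneous 1 := by
    intro i
    change (ρ.σ (X i)).IsHomogeneous 1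
    rw [ρ.σX]
    have h1 := (isHomogeneous_C (Fin n) (ρ.c i)).mul ρ.lin
    rw [zero_add] at h1
    exact (isHomogeneous_X ℝ i).sub h1
  have hσ : ∀ (i : ℕ) (g : P n), g.IsHomogeneous i → (ρ.σ g).IsHomogeneous i := by
    intro i g hg
    rw [aeval_unique ρ.σ]
    have := hg.aeval (ρ.σ ∘ X) hX
    rwa [one_mul] at this
  conv_lhs => rw [← sum_homogeneousComponent f]
  rw [map_sum, map_sum]
  have h : ∀ i ∈ Finset.range (f.totalDegree + 1),
      homogeneousComponent d (ρ.σ (homogeneousComponent i f)) =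
        if i = d then ρ.σ (homogeneousComponent d f) else 0 := by
    intro i _
    have h1 := hσ i _ (homogeneousComponent_isHomogeneous i f)
    rw [homogeneousComponent_of_mem h1]
    by_cases hid : i = d
    · subst hid; simp
    · rw [if_neg hid, if_neg]; omega
  rw [Finset.sum_congr rfl h, Finset.sum_ite_eq']
  split_ifs with h2
  · rfl
  · rw [homogeneousComponent_eq_zero d f (by simpa using h2), map_zero]

private theorem hcomp_pl24 (ρ : Refl n) (f : P n) (d : ℕ) :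
    homogeneousComponent d (ρ.pl f) = ρ.pl (homogeneousComponent d f) := by
  unfold Refl.pl
  rw [homogeneousComponent_C_mul, map_add, hcomp_sig24]

private theorem hcomp_mi24 (ρ : Refl n) (f : P n) (d : ℕ) :
    ρ.mi (homogeneousComponent (d + 1) f) = homogeneousComponent d (ρ.mi f) := by
  apply ρ.mi_unique
  rw [← hcomp_mul_succ ρ.lin, ρ.mi_spec, homogeneousComponent_C_mul, map_sub, hcomp_sig24]

private theorem hcomp_mi024 (ρ : Refl n) (f : P n) :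
    ρ.mi (homogeneousComponent 0 f) = 0 := by
  rw [homogeneousComponent_zero, ρ.mi_C]

/-- the first coordinate of `la_unit` -/
private noncomputable def uA (ρ : Refl n) (a b : P n) : P n := ρ.pl a + ρ.pl b * ρ.α

/-- the second coordinate of `la_unit` -/
private noncomputable def uB (ρ : Refl n) (a b : P n) : P n := ρ.mi a + ρ.mi b * ρ.α

private theorem pl_pl24 (ρ : Refl n) (f : P n) : ρ.pl (ρ.pl f) = ρ.pl f := ρ.pl_of_inv (ρ.σ_pl f)
private theorem pl_mi24 (ρ : Refl n) (f : P n) : ρ.pl (ρ.mi f) = ρ.mi f := ρ.pl_of_inv (ρ.σ_mi f)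
private theorem mi_pl24 (ρ : Refl n) (f : P n) : ρ.mi (ρ.pl f) = 0 := ρ.mi_of_inv (ρ.σ_pl f)
private theorem mi_mi24 (ρ : Refl n) (f : P n) : ρ.mi (ρ.mi f) = 0 := ρ.mi_of_inv (ρ.σ_mi f)

private theorem uu1 (ρ : Refl n) (a b : P n) : uA ρ (uA ρ a b) (uB ρ a b) = a := by
  unfold uA uB
  simp only [ρ.pl_add, ρ.pl_mul, pl_pl24, pl_mi24, mi_pl24, mi_mi24, ρ.pl_α, ρ.mi_α]
  have := ρ.pl_add_mi a
  linear_combination -this

private theorem uu2 (ρ : Refl n) (a b : P n) : uB ρ (uA ρ a b) (uB ρ a b) = b := by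
  unfold uA uB
  simp only [ρ.mi_add, ρ.mi_mul, pl_pl24, pl_mi24, mi_pl24, mi_mi24, ρ.pl_α, ρ.mi_α]
  have := ρ.pl_add_mi b
  linear_combination -this

private noncomputable def uM (ρ : Refl n) : (P n) × (P n) × (P n) →+ (P n) × (P n) × (P n) :=
  AddMonoidHom.mk' (fun m => (uA ρ m.1 m.2.1, uB ρ m.1 m.2.1, m.2.2)) (fun a b => by
    refine Prod.ext ?_ (Prod.ext ?_ rfl)
    · change uA ρ (a.1 + b.1) (a.2.1 + b.2.1) = uA ρ a.1 a.2.1 + uA ρ b.1 b.2.1
      unfold uA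
      rw [ρ.pl_add, ρ.pl_add]; ring
    · change uB ρ (a.1 + b.1) (a.2.1 + b.2.1) = uB ρ a.1 a.2.1 + uB ρ b.1 b.2.1
      unfold uB
      rw [ρ.mi_add, ρ.mi_add]; ring)

/-- the projections of the unit -/
private noncomputable def upr (k t : ℤ) (m : P n) : P n :=
  if k = 0 ∧ 0 ≤ t ∧ t % 2 = 0 then homogeneousComponent (t / 2).toNat m else 0

private theorem unit_pr_zero {k t : ℤ} (h : ¬ (k = 0 ∧ 0 ≤ t ∧ t % 2 = 0)) (m : P n) :
    upr k t m = 0 := by
  unfold upr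
  rw [if_neg h]

private theorem unit_pr_pos {k t : ℤ} (hk : k = 0) (d : ℕ) (ht : t = 2 * d) (m : P n) :
    upr k t m = homogeneousComponent d m := by
  unfold upr
  have e : (t / 2).toNat = d := by omega
  rw [if_pos (by omega), e]

private theorem unit_prA (ρ : Refl n) (k t : ℤ) (a b : P n) :
    upr k (t + 1) (uA ρ a b) =
      uA ρ (upr k (t + 1) a) (upr k (t - 1) b) := by
  unfold uA
  by_cases h : k = 0 ∧ 0 ≤ t + 1 ∧ (t + 1) % 2 = 0
  · obtain ⟨hk, h0, h2⟩ := h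
    obtain ⟨d, hd⟩ : ∃ d : ℕ, t + 1 = 2 * d := ⟨((t + 1) / 2).toNat, by omega⟩
    rw [unit_pr_pos hk d hd, unit_pr_pos hk d hd, map_add, hcomp_pl24]
    congr 1
    rcases Nat.eq_zero_or_pos d with h3 | h3
    · subst h3
      rw [unit_pr_zero (by omega), ρ.pl_zero, zero_mul, mul_comm,
        hcomp_mul_lt ρ.lin _ _ (by norm_num)]
    · obtain ⟨e, rfl⟩ : ∃ e, d = e + 1 := ⟨d - 1, by omega⟩
      rw [unit_pr_pos hk e (by push_cast at hd; omega), mul_comm, hcomp_mul_succ ρ.lin,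
        hcomp_pl24, mul_comm]
  · rw [unit_pr_zero h, unit_pr_zero h, unit_pr_zero (by omega), ρ.pl_zero, zero_mul, add_zero]

private theorem unit_prB (ρ : Refl n) (k t : ℤ) (a b : P n) :
    upr k (t - 1) (uB ρ a b) =
      uB ρ (upr k (t + 1) a) (upr k (t - 1) b) := by
  unfold uB
  by_cases h : k = 0 ∧ 0 ≤ t - 1 ∧ (t - 1) % 2 = 0
  · obtain ⟨hk, h0, h2⟩ := h
    obtain ⟨d, hd⟩ : ∃ d : ℕ, t - 1 = 2 * d := ⟨((t - 1) / 2).toNat, by omega⟩
    rw [unit_pr_pos hk d hd, unit_pr_pos hk d hd, unit_pr_pos hk (d + 1) (by push_cast; omega),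
      map_add, hcomp_mi24]
    congr 1
    rcases Nat.eq_zero_or_pos d with h3 | h3
    · subst h3
      rw [hcomp_mi024, zero_mul, mul_comm, hcomp_mul_lt ρ.lin _ _ (by norm_num)]
    · obtain ⟨e, rfl⟩ : ∃ e, d = e + 1 := ⟨d - 1, by omega⟩
      rw [hcomp_mi24, mul_comm, hcomp_mul_succ ρ.lin, mul_comm]
  · rw [unit_pr_zero h, unit_pr_zero h, ρ.mi_zero, zero_mul, add_zero]
    by_cases h' : k = 0 ∧ 0 ≤ t + 1 ∧ (t + 1) % 2 = 0
    · obtain ⟨hk, h0, h2⟩ := h'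
      rw [unit_pr_pos hk 0 (by push_cast; omega), hcomp_mi024]
    · rw [unit_pr_zero h', ρ.mi_zero]

private theorem uM_ch (ρ : Refl n) (ε : Bool) :
    Ch (Phi ρ ε (unit n)) (La ρ ε (unit n)) (uM ρ) := by
  refine ⟨⟨⟨fun f (m : P n × P n × P n) => ?_, fun f (m : P n × P n × P n) => ?_⟩,
    fun k t (m : P n × P n × P n) => ?_⟩, fun (m : P n × P n × P n) => ?_⟩
  · refine Prod.ext ?_ (Prod.ext ?_ rfl)
    · change uA ρ (f * m.1) (f * m.2.1) = ρ.pl f * uA ρ m.1 m.2.1 +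
        ρ.α * ρ.α * ρ.mi f * uB ρ m.1 m.2.1
      unfold uA uB
      rw [ρ.pl_mul, ρ.pl_mul]; ring
    · change uB ρ (f * m.1) (f * m.2.1) = ρ.mi f * uA ρ m.1 m.2.1 + ρ.pl f * uB ρ m.1 m.2.1
      unfold uA uB
      rw [ρ.mi_mul, ρ.mi_mul]; ring
  · refine Prod.ext ?_ (Prod.ext ?_ rfl)
    · change uA ρ (ρ.pl f * m.1 + ρ.α * ρ.α * ρ.mi f * m.2.1) (ρ.mi f * m.1 + ρ.pl f * m.2.1) =
        f * uA ρ m.1 m.2.1
      unfold uA
      simp only [ρ.pl_add, ρ.pl_mul, ρ.mi_mul, pl_pl24, pl_mi24, mi_pl24, mi_mi24, ρ.pl_α, ρ.mi_α]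
      have := ρ.pl_add_mi f
      linear_combination -(ρ.pl m.1 + ρ.pl m.2.1 * ρ.α) * this
    · change uB ρ (ρ.pl f * m.1 + ρ.α * ρ.α * ρ.mi f * m.2.1) (ρ.mi f * m.1 + ρ.pl f * m.2.1) =
        f * uB ρ m.1 m.2.1
      unfold uB
      simp only [ρ.mi_add, ρ.pl_mul, ρ.mi_mul, pl_pl24, pl_mi24, mi_pl24, mi_mi24, ρ.pl_α, ρ.mi_α]
      have := ρ.pl_add_mi f
      linear_combination -(ρ.mi m.1 + ρ.mi m.2.1 * ρ.α) * this
  · rw [add_zero, add_zero]
    exact Prod.ext (unit_prA ρ k t m.1 m.2.1) (Prod.ext (unit_prB ρ k t m.1 m.2.1) rfl)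
  · cases ε
    · refine Prod.ext ?_ (Prod.ext ?_ rfl)
      · change 0 + C (1/2) * ρ.α * m.2.2 = uA ρ (0 + C (1/2) * ρ.α * m.2.2) (0 + C (1/2) * m.2.2)
        unfold uA
        simp only [zero_add, ρ.pl_mul, ρ.mi_mul, ρ.pl_C, ρ.mi_C, ρ.pl_α, ρ.mi_α]
        have := ρ.pl_add_mi m.2.2
        linear_combination (C (1/2) * ρ.α) * this
      · change 0 + C (1/2) * m.2.2 = uB ρ (0 + C (1/2) * ρ.α * m.2.2) (0 + C (1/2) * m.2.2)
        unfold uB
        simp only [zero_add, ρ.pl_mul, ρ.mi_mul, ρ.pl_C, ρ.mi_C, ρ.pl_α, ρ.mi_α]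
        have := ρ.pl_add_mi m.2.2
        linear_combination (C (1/2)) * this
    · refine Prod.ext ?_ (Prod.ext ?_ ?_)
      · change (0 : P n) = uA ρ 0 0
        unfold uA
        rw [ρ.pl_zero]; ring
      · change (0 : P n) = uB ρ 0 0
        unfold uB
        rw [ρ.mi_zero]; ring
      · change uA ρ m.1 m.2.1 + ρ.α * uB ρ m.1 m.2.1 - 0 = m.1 + ρ.α * m.2.1 - 0
        unfold uA uB
        have h1 := ρ.pl_add_mi m.1
        have h2 := ρ.pl_add_mi m.2.1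
        linear_combination -h1 - ρ.α * h2

/-- isomorphism: transposition of `3 × 3` arrays, with sign `-1` at the place `(3,3)` -/
theorem la_phi (ρ ρ' : Refl n) (ε δ : Bool) (X : CB n) :
    HE (La ρ ε (Phi ρ' δ X)) (Phi ρ' δ (La ρ ε X)) := by
  exact HE.of_iso (X := La ρ ε (Phi ρ' δ X)) (Y := Phi ρ' δ (La ρ ε X)) (tr9 X) (tr9 X)
    (tr9_ch ρ ρ' ε δ X) (tr9_tr9 X) (tr9_tr9 X)

theorem la_unit (ρ : Refl n) (ε : Bool) : HE (Phi ρ ε (unit n)) (La ρ ε (unit n)) := by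
  exact HE.of_iso (X := Phi ρ ε (unit n)) (Y := La ρ ε (unit n)) (uM ρ) (uM ρ) (uM_ch ρ ε)
    (fun m => Prod.ext (uu1 ρ m.1 m.2.1) (Prod.ext (uu2 ρ m.1 m.2.1) rfl))
    (fun m => Prod.ext (uu1 ρ m.1 m.2.1) (Prod.ext (uu2 ρ m.1 m.2.1) rfl))

/-- `F_w ⊗ X` -/
noncomputable def Lon (w : List (Refl n × Bool)) (X : CB n) : CB n :=
  w.foldr (fun a Y => La a.1 a.2 Y) X

theorem HE.lon {X Y : CB n} (h : HE X Y) (w : List (Refl n × Bool)) : HE (Lon w X) (Lon w Y) := by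
  induction w with
  | nil => exact h
  | cons a w ih => exact HE.la a.1 a.2 ih

private theorem la_fon24 (ρ : Refl n) (ε : Bool) (v : List (Refl n × Bool)) :
    ∀ X : CB n, HE (La ρ ε (Fon X v)) (Fon (La ρ ε X) v) := by
  induction v with
  | nil => exact fun X => HE.refl _
  | cons a v ih => exact fun X => (ih (Phi a.1 a.2 X)).trans (HE.fon (la_phi ρ a.1 ε a.2 X) v)

theorem lon_fon (w v : List (Refl n × Bool)) (X : CB n) :
    HE (Lon w (Fon X v)) (Fon (Lon w X) v) := by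
  induction w with
  | nil => exact HE.refl _
  | cons a w ih => exact (HE.la a.1 a.2 ih).trans (la_fon24 a.1 a.2 v (Lon w X))

theorem F_lon (w : List (Refl n × Bool)) : HE (F w) (Lon w (unit n)) := by
  induction w with
  | nil => exact HE.refl _
  | cons a w ih =>
    exact ((HE.fon (la_unit a.1 a.2) w).trans (la_fon24 a.1 a.2 w (unit n)).symm).trans
      (HE.la a.1 a.2 ih)

theorem F_congr {u v : List (Refl n × Bool)} (h : HE (F u) (F v)) (p q : List (Refl n × Bool)) :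
    HE (F (p ++ u ++ q)) (F (p ++ v ++ q)) := by
  have key : ∀ u : List (Refl n × Bool), HE (Fon (F p) u) (Lon p (F u)) := fun u =>
    (HE.fon (F_lon p) u).trans (lon_fon p u (unit n)).symm
  unfold F
  rw [Fon_append, Fon_append, Fon_append, Fon_append]
  exact HE.fon (((key u).trans (HE.lon h p)).trans (key v).symm) q

end RC
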