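import Mathlib
import Pool.Agent.EW.RC.H9d

/-!
# Block H9a: Gaussian elimination (MP_d13a5e_al)
-/

open MvPolynomial

namespace RC

variable {n : ℕ}

theorem Fam.e_i {ι : Type} [DecidableEq ι] {B : ι → CB n} {k m : ι → ℤ} {X : CB n}
    {S : Finset ι} {e : X.M →+ X.M} {i : ∀ r, (B r).M →+ X.M} {p : ∀ r, X.M →+ (B r).M}
    (hF : Fam B k m X S e i p) {r : ι} (hr : r ∈ S) (x : (B r).M) : e (i r x) = i r x := by
  rw [← hF.sum, Finset.sum_eq_single_of_mem r hr]
  · rw [hF.pi r hr]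
  · intro s hs hsr
    rw [hF.orth r hr s hs (Ne.symm hsr), map_zero]

theorem Fam.p_e {ι : Type} [DecidableEq ι] {B : ι → CB n} {k m : ι → ℤ} {X : CB n}
    {S : Finset ι} {e : X.M →+ X.M} {i : ∀ r, (B r).M →+ X.M} {p : ∀ r, X.M →+ (B r).M}
    (hF : Fam B k m X S e i p) {r : ι} (hr : r ∈ S) (x : X.M) : p r (e x) = p r x := by
  rw [← hF.sum, map_sum, Finset.sum_eq_single_of_mem r hr]
  · rw [hF.pi r hr]
  · intro s hs hsr
    rw [hF.orth s hs r hr hsr]

/-- one step of the elimination -/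
theorem gauss_step {ι : Type} [DecidableEq ι] {B : ι → CB n} (hB : Krs B) {k m : ι → ℤ}
    {X : CB n} {S : Finset ι} {e : X.M →+ X.M} {i : ∀ r, (B r).M →+ X.M}
    {p : ∀ r, X.M →+ (B r).M} (hF : Fam B k m X S e i p) (hC : Ch X X e)
    (he : ∀ x, e (e x) = e x) (hN : Nul X X (e - AddMonoidHom.id _)) {r q : ι} (hr : r ∈ S)
    (hq : q ∈ S) (hk : k q = k r + 1) (hm : m q = m r)
    (hne : ∃ x, p q (X.D (i r x)) ≠ 0) :
    ∃ (e' : X.M →+ X.M) (i' : ∀ r, (B r).M →+ X.M) (p' : ∀ r, X.M →+ (B r).M),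
      Fam B k m X ((S.erase r).erase q) e' i' p' ∧ Ch X X e' ∧ (∀ x, e' (e' x) = e' x) ∧
      Nul X X (e' - AddMonoidHom.id _) ∧
      (∃ φ : (B r).M →+ (B q).M, Hm (B r) (B q) 0 0 φ ∧ φ ≠ 0) ∧
      (∃ φ : (B q).M →+ (B r).M, Hm (B q) (B r) 0 0 φ ∧ φ ≠ 0) := by
  have hrq : r ≠ q := by
    rintro rfl
    omega
  have hφ : Hm (B r) (B q) 0 0 ((p q).comp ((X.D : X.M →+ X.M).comp (i r))) :=
    ((hF.hi r hr).comp (Hm.D X)).comp' (hF.hp q hq) (by omega) (by omega)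
  have hφ0 : (p q).comp ((X.D : X.M →+ X.M).comp (i r)) ≠ 0 := by
    obtain ⟨x, hx⟩ := hne
    intro h
    exact hx (DFunLike.congr_fun h x)
  obtain ⟨ψ, hψ, hψφ, hφψ⟩ := hB.iso r q _ hφ hφ0
  have hψφ' : ∀ x, ψ (p q (X.D (i r x))) = x := hψφ
  have hφψ' : ∀ y, p q (X.D (i r (ψ y))) = y := hφψ
  have hψ0 : ψ ≠ 0 := by
    rintro rfl
    obtain ⟨x, hx⟩ := hB.nz r
    exact hx (by rw [← hψφ x]; rfl)
  obtain ⟨h, hh⟩ : ∃ h : X.M →+ X.M, h = (i r).comp (ψ.comp (p q)) := ⟨_, rfl⟩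
  have hh' : ∀ x, h x = i r (ψ (p q x)) := fun x => by rw [hh]; rfl
  have hhm : Hm X X (-1) 0 h := by
    rw [hh]
    exact ((hF.hp q hq).comp hψ).comp' (hF.hi r hr) (by omega) (by omega)
  have heh : ∀ x, e (h x) = h x := fun x => by rw [hh', hF.e_i hr]
  have hhe : ∀ x, h (e x) = h x := fun x => by rw [hh', hh', hF.p_e hq]
  have hhh : ∀ x, h (h x) = 0 := fun x => by
    rw [hh', hh' x, hF.orth r hr q hq hrq, map_zero, map_zero]
  have hhDh : ∀ x, h (X.D (h x)) = h x := fun x => by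
    rw [hh', hh' x, hψφ']
  have heD : ∀ x, e (X.D x) = X.D (e x) := fun x => (hC.2 x).symm
  have hDD : ∀ x, X.D (X.D x) = 0 := X.D_D
  obtain ⟨u, hu⟩ : ∃ u : X.M →+ X.M, u = (X.D : X.M →+ X.M).comp h + h.comp X.D := ⟨_, rfl⟩
  have hu' : ∀ x, u x = X.D (h x) + h (X.D x) := fun x => by rw [hu]; rfl
  have hum : Hm X X 0 0 u := by
    rw [hu]
    exact (hhm.comp' (Hm.D X) (by norm_num) (by norm_num)).add
      ((Hm.D X).comp' hhm (by norm_num) (by norm_num))
  have huN : Nul X X u := ⟨h, hhm, hu'⟩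
  have hue : ∀ x, u (e x) = u x := fun x => by
    rw [hu', hu', hhe, ← heD, hhe]
  have heu : ∀ x, e (u x) = u x := fun x => by
    rw [hu', map_add, heD, heh, heh]
  have huu : ∀ x, u (u x) = u x := fun x => by
    rw [hu' (u x), hu' x]
    simp only [map_add, hhh, hhDh, hDD, map_zero, add_zero, zero_add]
  have huD : ∀ x, u (X.D x) = X.D (u x) := fun x => by
    rw [hu', hu']
    simp only [map_add, hDD, map_zero, add_zero, zero_add]
  obtain ⟨e', he'⟩ : ∃ e' : X.M →+ X.M, e' = e - u := ⟨_, rfl⟩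
  have he'x : ∀ x, e' x = e x - u x := fun x => by rw [he']; rfl
  have he'm : Hm X X 0 0 e' := by
    rw [he']
    exact hC.1.sub hum
  have hee' : ∀ x, e (e' x) = e' x := fun x => by
    rw [he'x, map_sub, he, heu]
  have he'e' : ∀ x, e' (e' x) = e' x := fun x => by
    rw [he'x (e' x), hee', he'x x, map_sub, hue, huu]
    abel
  have he'C : Ch X X e' := by
    refine ⟨he'm, fun x => ?_⟩
    rw [he'x, he'x, map_sub, huD, heD]
  have he'N : Nul X X (e' - AddMonoidHom.id _) := by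
    have h1 : e' - AddMonoidHom.id _ = (e - AddMonoidHom.id _) - u := by
      rw [he']; abel
    rw [h1]
    exact hN.sub huN
  have hir : ∀ x, e' (i r x) = 0 := fun x => by
    rw [he'x, hF.e_i hr, hu', hh' (i r x), hF.orth r hr q hq hrq, hh' (X.D (i r x)), hψφ']
    simp only [map_zero, zero_add, sub_self]
  have hpq : ∀ x, p q (e' x) = 0 := fun x => by
    rw [he'x, map_sub, hF.p_e hq, hu', map_add, hh' x, hφψ', hh' (X.D x),
      hF.orth r hr q hq hrq, add_zero, sub_self]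
  refine ⟨e', fun s => e'.comp (i s), fun s => (p s).comp e', ⟨?_, ?_, ?_, ?_, ?_⟩, he'C, he'e',
    he'N, ⟨_, hφ, hφ0⟩, ⟨ψ, hψ, hψ0⟩⟩
  · intro s hs
    have hsS := Finset.mem_of_mem_erase (Finset.mem_of_mem_erase hs)
    exact (hF.hi s hsS).comp' he'm (by omega) (by omega)
  · intro s hs
    have hsS := Finset.mem_of_mem_erase (Finset.mem_of_mem_erase hs)
    exact he'm.comp' (hF.hp s hsS) (by omega) (by omega)
  · intro s hs x
    have hsS := Finset.mem_of_mem_erase (Finset.mem_of_mem_erase hs)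
    have hsq : s ≠ q := Finset.ne_of_mem_erase hs
    have hsr : s ≠ r := Finset.ne_of_mem_erase (Finset.mem_of_mem_erase hs)
    show p s (e' (e' (i s x))) = x
    rw [he'e', he'x, hF.e_i hsS, hu', hh' (i s x), hF.orth s hsS q hq hsq, map_sub, map_add,
      hh' (X.D (i s x)), hF.orth r hr s hsS (Ne.symm hsr), hF.pi s hsS]
    simp only [map_zero, add_zero, sub_zero]
  · intro s hs t ht hst x
    have hsS := Finset.mem_of_mem_erase (Finset.mem_of_mem_erase hs)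
    have hsq : s ≠ q := Finset.ne_of_mem_erase hs
    have htS := Finset.mem_of_mem_erase (Finset.mem_of_mem_erase ht)
    have htr : t ≠ r := Finset.ne_of_mem_erase (Finset.mem_of_mem_erase ht)
    show p t (e' (e' (i s x))) = 0
    rw [he'e', he'x, hF.e_i hsS, hu', hh' (i s x), hF.orth s hsS q hq hsq, map_sub, map_add,
      hh' (X.D (i s x)), hF.orth r hr t htS (Ne.symm htr), hF.orth s hsS t htS hst]
    simp only [map_zero, add_zero, sub_zero]
  · intro x
    have hqe : q ∈ S.erase r := Finset.mem_erase.2 ⟨Ne.symm hrq, hq⟩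
    have h1 := hF.sum (e' x)
    rw [← Finset.add_sum_erase S _ hr, ← Finset.add_sum_erase (S.erase r) _ hqe, hpq, map_zero,
      zero_add, hee'] at h1
    show ∑ s ∈ (S.erase r).erase q, e' (i s (p s (e' x))) = e' x
    rw [← map_sum]
    have h2 := congrArg e' h1
    rw [map_add, hir, zero_add, he'e'] at h2
    exact h2

theorem gauss_aux {ι : Type} [DecidableEq ι] {B : ι → CB n} (hB : Krs B) {k m : ι → ℤ}
    {X : CB n} : ∀ (N : ℕ) (S : Finset ι), S.card ≤ N → ∀ (e : X.M →+ X.M)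
    (i : ∀ r, (B r).M →+ X.M) (p : ∀ r, X.M →+ (B r).M), Fam B k m X S e i p → Ch X X e →
    (∀ x, e (e x) = e x) → Nul X X (e - AddMonoidHom.id _) →
    (∀ r, r ∉ S → ∃ q, q ≠ r ∧ ∃ φ : (B r).M →+ (B q).M, Hm (B r) (B q) 0 0 φ ∧ φ ≠ 0) →
    ∃ (S : Finset ι) (e : X.M →+ X.M) (i' : ∀ r, (B r).M →+ X.M) (p' : ∀ r, X.M →+ (B r).M),
      Fam B k m X S e i' p' ∧ Ch X X e ∧ (∀ x, e (e x) = e x) ∧
      Nul X X (e - AddMonoidHom.id _) ∧
      (∀ r ∈ S, ∀ q ∈ S, k q = k r + 1 → m q = m r → ∀ x, p' q (X.D (i' r x)) = 0) ∧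
      (∀ r, r ∉ S → ∃ q, q ≠ r ∧ ∃ φ : (B r).M →+ (B q).M, Hm (B r) (B q) 0 0 φ ∧ φ ≠ 0) := by
  intro N
  induction N with
  | zero =>
    intro S hS e i p hF hC he hN hcl
    have hS' : S = ∅ := Finset.card_eq_zero.1 (Nat.le_zero.1 hS)
    refine ⟨S, e, i, p, hF, hC, he, hN, ?_, hcl⟩
    intro r hr
    rw [hS'] at hr
    exact absurd hr (Finset.notMem_empty _)
  | succ N ih =>
    intro S hS e i p hF hC he hN hcl
    by_cases hc : ∀ r ∈ S, ∀ q ∈ S, k q = k r + 1 → m q = m r → ∀ x, p q (X.D (i r x)) = 0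
    · exact ⟨S, e, i, p, hF, hC, he, hN, hc, hcl⟩
    · push_neg at hc
      obtain ⟨r, hr, q, hq, hk, hm, hne⟩ := hc
      have hrq : r ≠ q := by
        rintro rfl
        omega
      obtain ⟨e', i', p', hF', hC', he', hN', h1, h2⟩ :=
        gauss_step hB hF hC he hN hr hq hk hm hne
      refine ih ((S.erase r).erase q) ?_ e' i' p' hF' hC' he' hN' ?_
      · have h3 : ((S.erase r).erase q).card ≤ (S.erase r).card := Finset.card_erase_le
        have h4 := Finset.card_erase_of_mem hr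
        have h5 : 0 < S.card := Finset.card_pos.2 ⟨r, hr⟩
        omega
      · intro s hs
        by_cases hsr : s = r
        · subst hsr
          exact ⟨q, Ne.symm hrq, h1⟩
        · by_cases hsq : s = q
          · subst hsq
            exact ⟨r, hrq, h2⟩
          · refine hcl s fun hsS => hs ?_
            exact Finset.mem_erase.2 ⟨hsq, Finset.mem_erase.2 ⟨hsr, hsS⟩⟩

/-- Gaussian elimination -/
theorem gauss {ι : Type} [Fintype ι] [DecidableEq ι] {B : ι → CB n} (hB : Krs B) {k m : ι → ℤ}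
    {X : CB n} {i : ∀ r, (B r).M →+ X.M} {p : ∀ r, X.M →+ (B r).M}
    (hF : Fam B k m X Finset.univ (AddMonoidHom.id _) i p) :
    ∃ (S : Finset ι) (e : X.M →+ X.M) (i' : ∀ r, (B r).M →+ X.M) (p' : ∀ r, X.M →+ (B r).M),
      Fam B k m X S e i' p' ∧ Ch X X e ∧ (∀ x, e (e x) = e x) ∧
      Nul X X (e - AddMonoidHom.id _) ∧
      (∀ r ∈ S, ∀ q ∈ S, k q = k r + 1 → m q = m r → ∀ x, p' q (X.D (i' r x)) = 0) ∧
      (∀ r, r ∉ S → ∃ q, q ≠ r ∧ ∃ φ : (B r).M →+ (B q).M, Hm (B r) (B q) 0 0 φ ∧ φ ≠ 0) := by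
  refine gauss_aux hB Finset.univ.card Finset.univ le_rfl (AddMonoidHom.id _) i p hF (Ch.id X)
    (fun x => rfl) ?_ ?_
  · rw [sub_self]
    exact Nul.zero X X
  · intro r hr
    exact absurd (Finset.mem_univ r) hr

end RC
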