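import Mathlib
import Pool.Agent.EW.RC.H9d

/-!
# Block H9b: linearity (MP_d13a5e_al)
-/

open MvPolynomial

namespace RC

variable {n : ℕ}

private theorem hm0_34 {ι : Type} {B : ι → CB n} (hB : Krs B) {r q : ι} {p e : ℤ}
    {φ : (B r).M →+ (B q).M} (h : Hm (B r) (B q) p e φ) (hp : p ≠ 0) (x : (B r).M) :
    φ x = 0 := by
  apply (B q).pr_ext
  intro k t
  by_cases hk : k = 0
  · subst hk
    have h1 := h.2 (-p) (t - e) x
    rw [neg_add_cancel, sub_add_cancel, hB.conc r (-p) (t - e) x (by omega), map_zero] at h1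
    exact h1
  · exact hB.conc q k t _ hk

private theorem hmneg_34 {ι : Type} {B : ι → CB n} (hB : Krs B) {r q : ι} {p e : ℤ}
    {φ : (B r).M →+ (B q).M} (h : Hm (B r) (B q) p e φ) (he : e < 0) (x : (B r).M) :
    φ x = 0 := by
  by_cases hp : p = 0
  · subst hp
    rw [hB.neg r q e φ he h]
    rfl
  · exact hm0_34 hB h hp x

private theorem fam_pe_34 {ι : Type} [DecidableEq ι] {B : ι → CB n} {k m : ι → ℤ}
    {X : CB n} {S : Finset ι} {e : X.M →+ X.M}
    {i : ∀ r, (B r).M →+ X.M} {p : ∀ r, X.M →+ (B r).M}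
    (hF : Fam B k m X S e i p) {r : ι} (hr : r ∈ S) (x : X.M) : p r (e x) = p r x := by
  rw [← hF.sum x, map_sum, Finset.sum_eq_single r]
  · exact hF.pi r hr _
  · intro q hq hne
    exact hF.orth q hq r hr hne _
  · intro h
    exact absurd hr h

private theorem fam_ei_34 {ι : Type} [DecidableEq ι] {B : ι → CB n} {k m : ι → ℤ}
    {X : CB n} {S : Finset ι} {e : X.M →+ X.M}
    {i : ∀ r, (B r).M →+ X.M} {p : ∀ r, X.M →+ (B r).M}
    (hF : Fam B k m X S e i p) {r : ι} (hr : r ∈ S) (x : (B r).M) : e (i r x) = i r x := by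
  rw [← hF.sum, Finset.sum_eq_single r]
  · rw [hF.pi r hr]
  · intro q hq hne
    rw [hF.orth r hr q hq (Ne.symm hne), map_zero]
  · intro h
    exact absurd hr h

private theorem fam_pDi_34 {ι : Type} [DecidableEq ι] {B : ι → CB n} {k m : ι → ℤ}
    {X : CB n} {S : Finset ι} {e : X.M →+ X.M}
    {i : ∀ r, (B r).M →+ X.M} {p : ∀ r, X.M →+ (B r).M}
    (hF : Fam B k m X S e i p) {r q : ι} (hr : r ∈ S) (hq : q ∈ S) :
    Hm (B r) (B q) (k r + 1 - k q) (m q - m r)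
      ((p q).comp ((X.D : X.M →+ X.M).comp (i r))) :=
  ((hF.hi r hr).comp (Hm.D X)).comp' (hF.hp q hq) (by ring) (by ring)

/-- the vanishing conditions imply `k r ≤ m r` -/
theorem lin_le {ι : Type} [DecidableEq ι] {B : ι → CB n} (hB : Krs B) {k m : ι → ℤ}
    {X : CB n} {S : Finset ι} {e : X.M →+ X.M}
    {i : ∀ r, (B r).M →+ X.M} {p : ∀ r, X.M →+ (B r).M}
    (hF : Fam B k m X S e i p) (he : Ch X X e)
    (hmin : ∀ r ∈ S, ∀ q ∈ S, k q = k r + 1 → m q = m r → ∀ x, p q (X.D (i r x)) = 0)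
    (hV : ∀ r, ∀ a b : ℤ, b < a → Van X (B r) a b) : ∀ r ∈ S, k r ≤ m r := by
  by_contra hcon
  push Not at hcon
  obtain ⟨r1, hr1, hlt⟩ := hcon
  obtain ⟨r2, hr2, hmax⟩ := S.exists_max_image (fun r => k r - m r) ⟨r1, hr1⟩
  obtain ⟨r0, hr0, hmin2⟩ := (S.filter (fun r => k r - m r = k r2 - m r2)).exists_min_image k
    ⟨r2, Finset.mem_filter.mpr ⟨hr2, rfl⟩⟩
  obtain ⟨hr0S, hr0e⟩ := Finset.mem_filter.mp hr0
  have hA : ∀ r ∈ S, k r - m r ≤ k r0 - m r0 := by
    intro r hr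
    have := hmax r hr
    omega
  have hA' : ∀ r ∈ S, k r < k r0 → k r - m r < k r0 - m r0 := by
    intro r hr hk
    by_contra hc
    have h1 := hA r hr
    have h2 := hmin2 r (Finset.mem_filter.mpr ⟨hr, by omega⟩)
    omega
  have hm0 : m r0 < k r0 := by
    have := hA r1 hr1
    omega
  have hDe : ∀ x, X.D (e x) = e (X.D x) := he.2
  have hfD : ∀ x, p r0 (X.D x) = 0 := by
    intro x
    rw [← fam_pe_34 hF hr0S, ← hDe, ← hF.sum x, map_sum, map_sum]
    apply Finset.sum_eq_zero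
    intro r hr
    have hmor := fam_pDi_34 hF hr hr0S
    by_cases hk : k r + 1 = k r0
    · have h1 : k r - m r < k r0 - m r0 := hA' r hr (by omega)
      by_cases h3 : m r0 = m r
      · exact hmin r hr r0 hr0S hk.symm h3 _
      · exact hmneg_34 hB hmor (by omega) (p r x)
    · exact hm0_34 hB hmor (by omega) (p r x)
  obtain ⟨h, hh, hh2⟩ := hV r0 (k r0) (m r0) hm0 (p r0) (hF.hp r0 hr0S) hfD
  obtain ⟨x, hx⟩ := hB.nz r0
  apply hx
  have h1 : x = h (e (X.D (i r0 x))) := by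
    rw [← hDe, fam_ei_34 hF hr0S, ← hh2, hF.pi r0 hr0S]
  rw [h1, ← hF.sum, map_sum]
  apply Finset.sum_eq_zero
  intro r hr
  have hmor : Hm (B r) (B r0) (k r - k r0 - 1) (m r0 - m r) (h.comp (i r)) :=
    (hF.hi r hr).comp' hh (by ring) (by ring)
  by_cases hk : k r = k r0 + 1
  · have h2 := hA r hr
    exact hmneg_34 hB hmor (by omega) _
  · exact hm0_34 hB hmor (by omega) _

/-- the dual vanishing conditions imply `m r ≤ k r` -/
theorem lin_ge {ι : Type} [DecidableEq ι] {B : ι → CB n} (hB : Krs B) {k m : ι → ℤ}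
    {X : CB n} {S : Finset ι} {e : X.M →+ X.M}
    {i : ∀ r, (B r).M →+ X.M} {p : ∀ r, X.M →+ (B r).M}
    (hF : Fam B k m X S e i p) (he : Ch X X e)
    (hmin : ∀ r ∈ S, ∀ q ∈ S, k q = k r + 1 → m q = m r → ∀ x, p q (X.D (i r x)) = 0)
    (hV : ∀ r, ∀ a b : ℤ, a < b → Van' (B r) X a b) : ∀ r ∈ S, m r ≤ k r := by
  by_contra hcon
  push Not at hcon
  obtain ⟨r1, hr1, hlt⟩ := hcon
  obtain ⟨r2, hr2, hmax⟩ := S.exists_max_image (fun r => m r - k r) ⟨r1, hr1⟩
  obtain ⟨r0, hr0, hmax2⟩ := (S.filter (fun r => m r - k r = m r2 - k r2)).exists_max_image k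
    ⟨r2, Finset.mem_filter.mpr ⟨hr2, rfl⟩⟩
  obtain ⟨hr0S, hr0e⟩ := Finset.mem_filter.mp hr0
  have hA : ∀ r ∈ S, m r - k r ≤ m r0 - k r0 := by
    intro r hr
    have := hmax r hr
    omega
  have hA' : ∀ r ∈ S, k r0 < k r → m r - k r < m r0 - k r0 := by
    intro r hr hk
    by_contra hc
    have h1 := hA r hr
    have h2 := hmax2 r (Finset.mem_filter.mpr ⟨hr, by omega⟩)
    omega
  have hm0 : k r0 < m r0 := by
    have := hA r1 hr1
    omega
  have hDe : ∀ x, X.D (e x) = e (X.D x) := he.2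
  have hDg : ∀ x, X.D (i r0 x) = 0 := by
    intro x
    rw [← fam_ei_34 hF hr0S, hDe, ← hF.sum]
    apply Finset.sum_eq_zero
    intro r hr
    have hmor := fam_pDi_34 hF hr0S hr
    have h0 : p r (X.D (i r0 x)) = 0 := by
      by_cases hk : k r = k r0 + 1
      · have h1 : m r - k r < m r0 - k r0 := hA' r hr (by omega)
        by_cases h3 : m r = m r0
        · exact hmin r0 hr0S r hr hk h3 _
        · exact hmneg_34 hB hmor (by omega) x
      · exact hm0_34 hB hmor (by omega) x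
    rw [h0, map_zero]
  obtain ⟨h, hh, hh2⟩ := hV r0 (k r0) (m r0) hm0 (i r0) (hF.hi r0 hr0S) hDg
  obtain ⟨x, hx⟩ := hB.nz r0
  apply hx
  have h1 : x = p r0 (X.D (e (h x))) := by
    rw [hDe, fam_pe_34 hF hr0S, ← hh2, hF.pi r0 hr0S]
  rw [h1, ← hF.sum, map_sum, map_sum]
  apply Finset.sum_eq_zero
  intro r hr
  have hmor : Hm (B r0) (B r) (k r0 - 1 - k r) (m r - m r0) ((p r).comp h) :=
    hh.comp' (hF.hp r hr) (by ring) (by ring)
  have h0 : p r (h x) = 0 := by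
    by_cases hk : k r = k r0 - 1
    · have h2 := hA r hr
      exact hmneg_34 hB hmor (by omega) x
    · exact hm0_34 hB hmor (by omega) x
  rw [h0, map_zero, map_zero, map_zero]

end RC
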