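import Mathlib
import Pool.Agent.EW.RC.H9d

/-!
# Block H9c: transfer to minimal complexes (MP_d13a5e_al)
-/

open MvPolynomial

namespace RC

variable {n : ℕ}

section Img40

variable {X : CB n} {e : X.M →+ X.M} (he : Ch X X e)

/-- restriction of an endomorphism which commutes with `e` to the image of `e` -/
private def rs40 (a : AddMonoid.End X.M) (h : ∀ x, a (e x) = e (a x)) :
    AddMonoid.End (AddMonoidHom.range e) :=
  { toFun := fun x => ⟨a x.1, by
      obtain ⟨y, hy⟩ := x.2
      exact ⟨a y, by rw [← hy, h]⟩⟩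
    map_zero' := Subtype.ext (map_zero a)
    map_add' := fun x y => Subtype.ext (map_add a x.1 y.1) }

include he in
private theorem pr40 (k t : ℤ) (x : X.M) : X.pr k t (e x) = e (X.pr k t x) := by
  have h1 := he.1.2 k t x
  rwa [add_zero, add_zero] at h1

/-- the image of an idempotent chain endomorphism as a complex -/
private noncomputable def im40 : CB n where
  M := AddMonoidHom.range e
  l :=
    { toFun := fun f => rs40 (X.l f) (fun x => (he.1.1.1 f x).symm)
      map_one' := by
        ext x
        change X.l 1 x.1 = x.1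
        rw [map_one]
        rfl
      map_mul' := fun f g => by
        ext x
        change X.l (f * g) x.1 = X.l f (X.l g x.1)
        rw [map_mul]
        rfl
      map_zero' := by
        ext x
        change X.l 0 x.1 = 0
        rw [map_zero]
        rfl
      map_add' := fun f g => by
        ext x
        change X.l (f + g) x.1 = X.l f x.1 + X.l g x.1
        rw [map_add]
        rfl }
  r :=
    { toFun := fun f => rs40 (X.r f) (fun x => (he.1.1.2 f x).symm)
      map_one' := by
        ext x
        change X.r 1 x.1 = x.1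
        rw [map_one]
        rfl
      map_mul' := fun f g => by
        ext x
        change X.r (f * g) x.1 = X.r f (X.r g x.1)
        rw [map_mul]
        rfl
      map_zero' := by
        ext x
        change X.r 0 x.1 = 0
        rw [map_zero]
        rfl
      map_add' := fun f g => by
        ext x
        change X.r (f + g) x.1 = X.r f x.1 + X.r g x.1
        rw [map_add]
        rfl }
  lr f g m := Subtype.ext (X.lr f g m.1)
  lrC c m := Subtype.ext (X.lrC c m.1)
  pr k t := rs40 (X.pr k t) (pr40 he k t)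
  pr_pr k t k' t' m := by
    apply Subtype.ext
    have h1 := X.pr_pr k t k' t' m.1
    change X.pr k t (X.pr k' t' m.1) = _
    rw [h1]
    split_ifs
    · rfl
    · rfl
  pr_fin m := by
    refine (X.pr_fin m.1).subset fun p hp h0 => hp ?_
    exact Subtype.ext h0
  pr_ext m h := by
    apply Subtype.ext
    refine X.pr_ext m.1 fun k t => ?_
    exact congrArg Subtype.val (h k t)
  pr_lX k t j m := Subtype.ext (X.pr_lX k t j m.1)
  pr_rX k t j m := Subtype.ext (X.pr_rX k t j m.1)
  pr_lC k t c m := Subtype.ext (X.pr_lC k t c m.1)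
  D := rs40 X.D he.2
  D_l f m := Subtype.ext (X.D_l f m.1)
  D_r f m := Subtype.ext (X.D_r f m.1)
  D_D m := Subtype.ext (X.D_D m.1)
  D_pr k t m := Subtype.ext (X.D_pr k t m.1)

end Img40

/-- the direct summand of a complex given by an idempotent chain endomorphism -/
theorem exists_split {X : CB n} {e : X.M →+ X.M} (he : Ch X X e) (h2 : ∀ x, e (e x) = e x)
    (h0 : Nul X X e) (hmin : Minimal X) : e = 0 := by
  obtain ⟨h, hh, hhe⟩ := h0
  let Y : CB n := im40 he
  let i : Y.M →+ X.M := (AddMonoidHom.range e).subtype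
  let p : X.M →+ Y.M := e.rangeRestrict
  have hi : Ch Y X i := by
    refine ⟨⟨⟨fun f m => rfl, fun f m => rfl⟩, fun k t m => ?_⟩, fun m => rfl⟩
    rw [add_zero, add_zero]
    rfl
  have hp : Ch X Y p := by
    refine ⟨⟨⟨fun f m => Subtype.ext (he.1.1.1 f m), fun f m => Subtype.ext (he.1.1.2 f m)⟩,
      fun k t m => ?_⟩, fun m => Subtype.ext (he.2 m)⟩
    rw [add_zero, add_zero]
    exact Subtype.ext (pr40 he k t m)
  have hpi : ∀ y, p (i y) = y := by
    rintro ⟨y, z, rfl⟩
    exact Subtype.ext (h2 z)
  have hcon : Contractible Y := by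
    refine ⟨p.comp (h.comp i), ?_, ?_⟩
    · have h3 := Hm.comp' (Hm.comp' hi.1 hh (p' := -1) (e' := 0) (by ring) (by ring)) hp.1
        (p' := -1) (e' := 0) (by ring) (by ring)
      exact h3
    · intro y
      have h3 := hhe (i y)
      have h4 : i (Y.D y) = X.D (i y) := (hi.2 y).symm
      have h5 : p (e (i y)) = y := by
        obtain ⟨y, z, rfl⟩ := y
        apply Subtype.ext
        change e (e (e z)) = e z
        rw [h2, h2]
      change y = Y.D (p (h (i y))) + p (h (i (Y.D y)))
      rw [hp.2, h4, ← map_add, ← h3, h5]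
  have hz := hmin Y i p hi hp hpi hcon
  ext x
  exact congrArg Subtype.val (hz (p x))

/-- homomorphisms of nonzero homological degree between the objects `B r` vanish -/
private theorem hm_zero40 {ι : Type} {B : ι → CB n} (hB : Krs B) {r s : ι} {p e : ℤ} (hp : p ≠ 0)
    {φ : (B r).M →+ (B s).M} (hφ : Hm (B r) (B s) p e φ) : φ = 0 := by
  ext m
  refine (B s).pr_ext _ fun k t => ?_
  by_cases hk : k = 0
  · have h1 := hφ.2 (k - p) (t - e) m
    rw [sub_add_cancel, sub_add_cancel, hB.conc r (k - p) (t - e) m (by omega), map_zero] at h1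
    exact h1
  · exact hB.conc s k t _ hk

/-- transfer of a linear family to a minimal homotopy equivalent complex -/
theorem transfer {ι : Type} [DecidableEq ι] {B : ι → CB n} (hB : Krs B) {k : ι → ℤ}
    {X Z : CB n} {S : Finset ι} {e : X.M →+ X.M}
    {i : ∀ r, (B r).M →+ X.M} {p : ∀ r, X.M →+ (B r).M}
    (hF : Fam B k k X S e i p) (he : Ch X X e) (hn : Nul X X (e - AddMonoidHom.id _))
    (hZ : HE X Z) (hmin : Minimal Z) :
    ∃ (i' : ∀ r, (B r).M →+ Z.M) (p' : ∀ r, Z.M →+ (B r).M),
      Fam B k k Z S (AddMonoidHom.id _) i' p' := by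
  obtain ⟨f, g, hf, hg, ⟨h, hh, hgf⟩, hfg⟩ := hZ
  -- `e i_r = i_r`, `p_r e = p_r`
  have hei : ∀ r ∈ S, ∀ x, e (i r x) = i r x := by
    intro r hr x
    rw [← hF.sum, Finset.sum_eq_single r]
    · rw [hF.pi r hr]
    · intro q hq hqr
      rw [hF.orth r hr q hq (Ne.symm hqr), map_zero]
    · intro h1
      exact absurd hr h1
  have hpe : ∀ r ∈ S, ∀ x, p r (e x) = p r x := by
    intro r hr x
    rw [← hF.sum, map_sum, Finset.sum_eq_single r]
    · rw [hF.pi r hr]
    · intro q hq hqr
      exact hF.orth q hq r hr hqr _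
    · intro h1
      exact absurd hr h1
  -- `p_s h i_r = 0`
  have hphi : ∀ r ∈ S, ∀ s ∈ S, ∀ x, p s (h (i r x)) = 0 := by
    intro r hr s hs x
    have h1 : Hm (B r) (B s) (k r - 1 - k s) (k s - k r) ((p s).comp (h.comp (i r))) :=
      Hm.comp' (Hm.comp' (hF.hi r hr) hh (p' := k r - 1) (e' := -k r) (by ring) (by ring))
        (hF.hp s hs) (by ring) (by ring)
    have h3 : (p s).comp (h.comp (i r)) = 0 := by
      by_cases h2 : k r - 1 - k s = 0
      · rw [h2] at h1
        exact hB.neg r s _ _ (by omega) h1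
      · exact hm_zero40 hB h2 h1
    exact DFunLike.congr_fun h3 x
  have key : ∀ r ∈ S, ∀ q ∈ S, ∀ x, p q (g (f (i r x))) = p q (i r x) := by
    intro r hr q hq x
    have h1 := hgf (i r x)
    have h2 : g (f (i r x)) = i r x + (X.D (h (i r x)) + h (X.D (i r x))) := by
      rw [← h1]
      change g (f (i r x)) = i r x + (g (f (i r x)) - i r x)
      abel
    rw [h2, map_add, map_add]
    have h3 : p q (X.D (h (i r x))) = 0 := by
      rw [← hpe q hq, ← he.2, ← hF.sum, map_sum, map_sum]
      refine Finset.sum_eq_zero fun s hs => ?_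
      rw [hphi r hr s hs, map_zero, map_zero, map_zero]
    have h4 : p q (h (X.D (i r x))) = 0 := by
      rw [← hei r hr x, he.2, ← hF.sum, map_sum, map_sum]
      refine Finset.sum_eq_zero fun s hs => ?_
      exact hphi s hs q hq _
    rw [h3, h4, add_zero, add_zero]
  -- the family over `Z`
  have hE : Ch Z Z (f.comp (e.comp g)) := Ch.comp (Ch.comp hg he) hf
  have hsumE : ∀ z, ∑ r ∈ S, f (i r (p r (g z))) = f (e (g z)) := by
    intro z
    rw [← map_sum, hF.sum]
  have hidem : ∀ z, f (e (g (f (e (g z))))) = f (e (g z)) := by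
    intro z
    rw [← hsumE z, ← hsumE]
    refine Finset.sum_congr rfl fun q hq => ?_
    congr 2
    rw [map_sum, map_sum, Finset.sum_eq_single q]
    · rw [key q hq q hq, hF.pi q hq]
    · intro r hr hrq
      rw [key r hr q hq, hF.orth r hr q hq hrq]
    · intro h1
      exact absurd hq h1
  have hnul : Nul Z Z (AddMonoidHom.id _ - f.comp (e.comp g)) := by
    have h1 : Nul Z Z (f.comp ((e - AddMonoidHom.id _).comp g)) :=
      Nul.comp_right (Nul.comp_left hg hn) hf
    have h2 := (Nul.add h1 hfg).neg
    have h3 : -(f.comp ((e - AddMonoidHom.id _).comp g) +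
        (f.comp g - AddMonoidHom.id _)) = AddMonoidHom.id _ - f.comp (e.comp g) := by
      ext z
      change -(f (e (g z) - g z) + (f (g z) - z)) = z - f (e (g z))
      rw [map_sub]
      abel
    rwa [h3] at h2
  have hzero := exists_split (Ch.sub (Ch.id Z) hE) (by
    intro z
    change (z - f (e (g z))) - f (e (g (z - f (e (g z))))) = z - f (e (g z))
    rw [map_sub g, map_sub e, map_sub f, hidem]
    abel) hnul hmin
  have hone : ∀ z, f (e (g z)) = z := by
    intro z
    have h1 := DFunLike.congr_fun hzero z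
    change z - f (e (g z)) = 0 at h1
    exact (sub_eq_zero.1 h1).symm
  refine ⟨fun r => f.comp (i r), fun r => (p r).comp g, ?_, ?_, ?_, ?_, ?_⟩
  · intro r hr
    exact Hm.comp' (hF.hi r hr) hf.1 (by ring) (by ring)
  · intro r hr
    exact Hm.comp' hg.1 (hF.hp r hr) (by ring) (by ring)
  · intro r hr x
    change p r (g (f (i r x))) = x
    rw [key r hr r hr, hF.pi r hr]
  · intro r hr q hq hrq x
    change p q (g (f (i r x))) = 0
    rw [key r hr q hq, hF.orth r hr q hq hrq]
  · intro z
    change ∑ r ∈ S, f (i r (p r (g z))) = z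
    rw [hsumE, hone]

end RC
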