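import Mathlib
import Pool.Agent.EW.RC.Rz
import Pool.Agent.EW.RC.Defs3

/-!
# The reflections of a realization (MP_d13a5e_al)
-/

open MvPolynomial

namespace RC

namespace Rlz

variable {B W : Type} [Group W] {M : CoxeterMatrix B} {cs : CoxeterSystem M W} (V : Rlz cs)

theorem lf_add {n : ℕ} (v w : Fin n → ℝ) : lf (v + w) = lf v + lf w := by
  unfold lf
  rw [← Finset.sum_add_distrib]
  apply Finset.sum_congr rfl
  intro j _
  rw [Pi.add_apply, C_add, add_mul]

theorem lf_smul {n : ℕ} (c : ℝ) (v : Fin n → ℝ) : lf (c • v) = C c * lf v := by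
  unfold lf
  rw [Finset.mul_sum]
  apply Finset.sum_congr rfl
  intro j _
  rw [Pi.smul_apply, smul_eq_mul, C_mul, mul_assoc]

theorem lf_neg {n : ℕ} (v : Fin n → ℝ) : lf (-v) = -lf v := by
  have := lf_smul (-1) v
  rw [neg_one_smul] at this
  rw [this]; simp

theorem lf_sub {n : ℕ} (v w : Fin n → ℝ) : lf (v - w) = lf v - lf w := by
  rw [sub_eq_add_neg, lf_add, lf_neg, sub_eq_add_neg]

theorem lf_sum {n : ℕ} {ι : Type*} (s : Finset ι) (f : ι → Fin n → ℝ) :
    lf (∑ i ∈ s, f i) = ∑ i ∈ s, lf (f i) := by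
  classical
  induction s using Finset.induction_on with
  | empty => simp [lf]
  | insert a s ha ih => rw [Finset.sum_insert ha, Finset.sum_insert ha, lf_add, ih]

theorem lf_single {n : ℕ} (i : Fin n) : lf (Pi.single i 1) = X i := by
  unfold lf
  rw [Finset.sum_eq_single i]
  · simp
  · intro j _ hj
    simp [Pi.single_apply, hj]
  · intro h; exact absurd (Finset.mem_univ _) h

theorem lf_homog {n : ℕ} (v : Fin n → ℝ) : (lf v).IsHomogeneous 1 := by
  unfold lf
  apply IsHomogeneous.sum
  intro j _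
  have h := (isHomogeneous_C (Fin n) (v j)).mul (isHomogeneous_X ℝ j)
  rwa [zero_add] at h

theorem lf_coeff {n : ℕ} (v : Fin n → ℝ) (i : Fin n) : coeff (Finsupp.single i 1) (lf v) = v i := by
  unfold lf
  rw [coeff_sum, Finset.sum_eq_single i]
  · rw [coeff_C_mul, coeff_X, if_pos rfl, mul_one]
  · intro j _ hj
    rw [coeff_C_mul, coeff_X, if_neg, mul_zero]
    intro h
    exact hj (by simpa using (Finsupp.single_left_inj one_ne_zero).mp h)
  · intro h; exact absurd (Finset.mem_univ _) h

theorem lf_inj {n : ℕ} {v w : Fin n → ℝ} (h : lf v = lf w) : v = w := by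
  funext i
  rw [← lf_coeff v i, ← lf_coeff w i, h]

theorem eq_sum_single {n : ℕ} (v : Fin n → ℝ) : v = ∑ i, v i • (Pi.single i (1 : ℝ) : Fin n → ℝ) := by
  funext j
  simp [Finset.sum_apply, Pi.single_apply]

theorem actR_X (w : W) (i : Fin V.n) : V.actR w (X i) = lf (V.ρ w (Pi.single i 1)) := by
  unfold actR
  rw [aeval_X]

theorem actR_lf (w : W) (v : Fin V.n → ℝ) : V.actR w (lf v) = lf (V.ρ w v) := by
  conv_rhs => rw [eq_sum_single v]
  rw [map_sum, lf_sum]
  unfold lf
  rw [map_sum]
  apply Finset.sum_congr rfl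
  intro i _
  rw [map_mul, actR_X, map_smul]
  change (V.actR w (C (v i))) * lf _ = lf _
  rw [lf_smul]
  congr 1
  exact (V.actR w).commutes (v i)

/-- the reflection of `R` given by the simple reflection `s` -/
noncomputable def rf (s : B) : Refl V.n where
  σ := V.actR (cs.simple s)
  α := lf (V.α s)
  c := V.αc s
  lin := lf_homog _
  ne := by
    intro h
    have h0 : V.α s = 0 := by
      apply lf_inj
      rw [h]
      simp [lf]
    exact V.li.ne_zero s h0
  σX i := by
    rw [actR_X, V.ρs, lf_sub, lf_smul, lf_single]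
    congr 3
    rw [Finset.sum_eq_single i]
    · simp
    · intro j _ hj
      simp [Pi.single_apply, hj]
    · intro h; exact absurd (Finset.mem_univ _) h
  σα := by
    rw [actR_lf, V.ρs, V.pair, lf_sub, lf_smul, M.diagonal s]
    have : (-2 * Real.cos (Real.pi / ((1 : ℕ) : ℝ))) = 2 := by
      rw [Nat.cast_one, div_one, Real.cos_pi]; norm_num
    rw [this]
    have h2 : (C (2 : ℝ) : MvPolynomial (Fin V.n) ℝ) = 2 := map_ofNat C 2
    rw [h2]
    ring

end Rlz

end RC
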