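import Mathlib
import Pool.Agent.EW.RC.Rz2
import Pool.Agent.EW.RC.R1

/-!
# Block I0a: the action on `R`, roots of reflections (MP_d13a5e_al)
-/

open MvPolynomial

namespace RC

namespace Rlz

variable {B W : Type} [Group W] {M : CoxeterMatrix B} {cs : CoxeterSystem M W} (V : Rlz cs)

open Classical in
/-- a root of the reflection `t` -/
noncomputable def rtv (t : W) : Fin V.n → ℝ :=
  if h : ∃ (w : W) (s : B), t = w * cs.simple s * w⁻¹ then
    V.ρ h.choose (V.α h.choose_spec.choose) else 0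

private theorem lf_zero {n : ℕ} : lf (0 : Fin n → ℝ) = 0 := by
  simp [lf]

private theorem lf_ne {n : ℕ} {v : Fin n → ℝ} (h : v ≠ 0) : lf v ≠ 0 := by
  intro h0
  apply h
  apply lf_inj
  rw [h0, lf_zero]

/-- linear forms dividing each other are proportional -/
private theorem lf_dvd {n : ℕ} {v w : Fin n → ℝ} (hv : v ≠ 0) (h : lf v ∣ lf w) :
    ∃ c : ℝ, w = c • v := by
  by_cases hw : w = 0
  · exact ⟨0, by rw [hw, zero_smul]⟩
  obtain ⟨q, hq⟩ := h
  have hq0 : q ≠ 0 := by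
    rintro rfl
    rw [mul_zero] at hq
    exact lf_ne hw hq
  have h1 : (lf v).totalDegree = 1 := (lf_homog v).totalDegree (lf_ne hv)
  have h2 : (lf w).totalDegree = 1 := (lf_homog w).totalDegree (lf_ne hw)
  have h3 : (lf w).totalDegree = (lf v).totalDegree + q.totalDegree := by
    rw [hq]
    exact totalDegree_mul_of_isDomain (lf_ne hv) hq0
  have h4 : q.totalDegree = 0 := by omega
  rw [totalDegree_eq_zero_iff_eq_C] at h4
  refine ⟨coeff 0 q, ?_⟩
  apply lf_inj
  rw [lf_smul, hq, h4, coeff_C, if_pos rfl, mul_comm]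

private theorem ρ_inv_ρ (w : W) (v : Fin V.n → ℝ) : V.ρ w⁻¹ (V.ρ w v) = v := by
  rw [← V.ρ_mul, inv_mul_cancel, V.ρ_one]

private theorem ρ_ρ_inv (w : W) (v : Fin V.n → ℝ) : V.ρ w (V.ρ w⁻¹ v) = v := by
  rw [← V.ρ_mul, mul_inv_cancel, V.ρ_one]

private theorem root_ne (w : W) (s : B) : V.ρ w (V.α s) ≠ 0 := by
  intro h
  have h1 := V.ρ_inv_ρ w (V.α s)
  rw [h, map_zero] at h1
  exact V.li.ne_zero s h1.symm

theorem actR_one : V.actR 1 = AlgHom.id ℝ _ := by
  apply algHom_ext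
  intro i
  rw [actR_X, V.ρ_one, lf_single]
  rfl

theorem actR_mul (w v : W) : V.actR (w * v) = (V.actR w).comp (V.actR v) := by
  apply algHom_ext
  intro i
  rw [actR_X, AlgHom.comp_apply, actR_X, actR_lf, V.ρ_mul]

theorem actR_lin (w : W) (i : Fin V.n) : (V.actR w (X i)).IsHomogeneous 1 := by
  rw [actR_X]
  exact lf_homog _

theorem rtv_spec {t : W} (ht : cs.IsReflection t) : ∃ (w : W) (s : B),
    t = w * cs.simple s * w⁻¹ ∧ V.rtv t = V.ρ w (V.α s) := by
  have h : ∃ (w : W) (s : B), t = w * cs.simple s * w⁻¹ := ht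
  refine ⟨h.choose, h.choose_spec.choose, h.choose_spec.choose_spec, ?_⟩
  unfold rtv
  rw [dif_pos h]

theorem rtv_ne {t : W} (ht : cs.IsReflection t) : lf (V.rtv t) ≠ 0 := by
  obtain ⟨w, s, -, h⟩ := V.rtv_spec ht
  rw [h]
  exact lf_ne (V.root_ne w s)

theorem rtv_act {t : W} (ht : cs.IsReflection t) (i : Fin V.n) :
    ∃ c : ℝ, V.actR t (X i) = X i - C c * lf (V.rtv t) := by
  obtain ⟨w, s, h1, h2⟩ := V.rtv_spec ht
  obtain ⟨f, hf, -⟩ := V.refl_root w s
  refine ⟨f (Pi.single i 1), ?_⟩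
  rw [actR_X, h2, ← lf_smul]
  conv_lhs => rw [h1, hf]
  rw [lf_sub, lf_single]

theorem rtv_inj {t t' : W} (ht : cs.IsReflection t) (ht' : cs.IsReflection t')
    (h : lf (V.rtv t) ∣ lf (V.rtv t')) : t = t' := by
  obtain ⟨w, s, h1, h2⟩ := V.rtv_spec ht
  obtain ⟨w', s', h1', h2'⟩ := V.rtv_spec ht'
  have hne : V.rtv t ≠ 0 := by rw [h2]; exact V.root_ne w s
  obtain ⟨c, hc⟩ := lf_dvd hne h
  rw [h2, h2'] at hc
  rw [h1, h1']
  exact (V.refl_unique hc).symm

theorem rtv_conj (w : W) (s : B) : ∃ c : ℝ, c ≠ 0 ∧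
    V.actR w (lf (V.α s)) = C c * lf (V.rtv (w * cs.simple s * w⁻¹)) := by
  have ht : cs.IsReflection (w * cs.simple s * w⁻¹) := ⟨w, s, rfl⟩
  obtain ⟨w', s', h1, h2⟩ := V.rtv_spec ht
  obtain ⟨f, hf, hf2⟩ := V.refl_root w s
  obtain ⟨f', hf', hf2'⟩ := V.refl_root w' s'
  have e : V.ρ w (V.α s) = (f' (V.ρ w (V.α s)) / 2) • V.ρ w' (V.α s') := by
    have h3 := hf (V.ρ w (V.α s))
    have h4 := hf' (V.ρ w (V.α s))
    rw [← h1, h3, hf2] at h4
    have h5 : (2 : ℝ) • V.ρ w (V.α s) = f' (V.ρ w (V.α s)) • V.ρ w' (V.α s') := by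
      have := congrArg (fun x => V.ρ w (V.α s) - x) h4
      simpa using this
    have h6 := congrArg (fun x => (1 / 2 : ℝ) • x) h5
    simp only [smul_smul] at h6
    rw [show (1 / 2 : ℝ) * 2 = 1 by norm_num, one_smul] at h6
    conv_lhs => rw [h6]
    congr 1
    ring
  refine ⟨f' (V.ρ w (V.α s)) / 2, ?_, ?_⟩
  · intro h0
    rw [h0, zero_smul] at e
    exact V.root_ne w s e
  · rw [actR_lf, h2, ← lf_smul, ← e]

theorem actR_faithful (y z : W) (h : ∀ j, V.actR y (X j) = V.actR z (X j)) : y = z := by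
  apply V.inj
  apply LinearMap.pi_ext'
  intro j
  apply LinearMap.ext_ring
  simp only [LinearMap.comp_apply, LinearMap.single_apply]
  apply lf_inj
  rw [← actR_X, ← actR_X]
  exact h j

theorem actR_refl (y z : W) (h : y ≠ z) (h' : ∀ t, cs.IsReflection t → z ≠ t * y) :
    ∃ j k, V.actR y (X j) - V.actR z (X j) ≠ 0 ∧
      ¬ (V.actR y (X j) - V.actR z (X j)) ∣ (V.actR y (X k) - V.actR z (X k)) := by
  by_contra hcon
  push Not at hcon
  obtain ⟨j, hj⟩ : ∃ j, V.actR y (X j) ≠ V.actR z (X j) := by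
    by_contra hh
    push Not at hh
    exact h (V.actR_faithful y z hh)
  set d : Fin V.n → (Fin V.n → ℝ) := fun k => V.ρ y (Pi.single k 1) - V.ρ z (Pi.single k 1) with hd
  have hdl : ∀ k, V.actR y (X k) - V.actR z (X k) = lf (d k) := by
    intro k
    rw [actR_X, actR_X, ← lf_sub]
  have hdj : d j ≠ 0 := by
    intro h0
    apply sub_ne_zero.mpr hj
    rw [hdl, h0, lf_zero]
  have hk : ∀ k, ∃ c : ℝ, d k = c • d j := by
    intro k
    apply lf_dvd hdj
    rw [← hdl, ← hdl]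
    exact hcon j k (sub_ne_zero.mpr hj)
  have key : LinearMap.range (V.ρ (z * y⁻¹) - 1) = Submodule.span ℝ {d j} := by
    apply le_antisymm
    · rintro _ ⟨v, rfl⟩
      set u := V.ρ y⁻¹ v with hu
      have e1 : (V.ρ (z * y⁻¹) - 1) v = V.ρ z u - V.ρ y u := by
        change V.ρ (z * y⁻¹) v - v = _
        rw [V.ρ_mul, ← hu]
        congr 1
        rw [hu, V.ρ_ρ_inv]
      rw [e1]
      have e2 : V.ρ z u - V.ρ y u = -∑ k, u k • d k := by
        conv_lhs => rw [eq_sum_single u]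
        rw [map_sum, map_sum, ← Finset.sum_sub_distrib, ← Finset.sum_neg_distrib]
        apply Finset.sum_congr rfl
        intro k _
        rw [map_smul, map_smul, hd]
        simp only [smul_sub]
        abel
      rw [e2]
      apply Submodule.neg_mem
      apply Submodule.sum_mem
      intro k _
      apply Submodule.smul_mem
      obtain ⟨c, hc⟩ := hk k
      rw [hc]
      exact Submodule.smul_mem _ _ (Submodule.mem_span_singleton_self _)
    · rw [Submodule.span_singleton_le_iff_mem]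
      refine ⟨-(V.ρ y (Pi.single j 1)), ?_⟩
      change V.ρ (z * y⁻¹) (-(V.ρ y (Pi.single j 1))) - (-(V.ρ y (Pi.single j 1))) = _
      rw [map_neg, V.ρ_mul, V.ρ_inv_ρ]
      simp only [hd]
      abel
  have hfr : Module.finrank ℝ (LinearMap.range (V.ρ (z * y⁻¹) - 1)) = 1 := by
    rw [key]
    exact finrank_span_singleton hdj
  have hrefl := V.refl _ hfr
  apply h' _ hrefl
  rw [inv_mul_cancel_right]

end Rlz

end RC
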