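import Mathlib
import Pool.Agent.EW.RC.Rz2
import Pool.Agent.EW.RC.R1

/-!
# Block I0b: inversions, positivity of coroots (MP_d13a5e_al)
-/

open MvPolynomial

namespace RC

namespace Rlz

variable {B W : Type} [Group W] {M : CoxeterMatrix B} {cs : CoxeterSystem M W} (V : Rlz cs)

open Classical in
/-- the inversions of `y` -/
noncomputable def invf (_V : Rlz cs) (y : W) : Finset W :=
  if h : {t | cs.IsLeftInversion y t}.Finite then h.toFinset else ∅

/-- a linear form with `⟨ρ, α_s^∨⟩ = 1` -/
theorem exists_rho : ∃ v : Fin V.n → ℝ, ∀ s, ∑ i, v i * V.αc s i = 1 := by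
  classical
  have hinj : LinearMap.ker (Finsupp.linearCombination ℝ V.αc) = ⊥ :=
    LinearMap.ker_eq_bot.mpr V.lic
  obtain ⟨g, hg⟩ := LinearMap.exists_leftInverse_of_injective _ hinj
  let φ : (Fin V.n → ℝ) →ₗ[ℝ] ℝ := (Finsupp.linearCombination ℝ (fun _ : B => (1 : ℝ))).comp g
  have hφ : ∀ s, φ (V.αc s) = 1 := by
    intro s
    have h1 : g (V.αc s) = Finsupp.single s 1 := by
      have h2 := congrArg (fun f => f (Finsupp.single s (1 : ℝ))) hg
      simpa using h2
    change (Finsupp.linearCombination ℝ (fun _ : B => (1 : ℝ))) (g (V.αc s)) = 1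
    rw [h1]
    simp
  refine ⟨fun i => φ (Pi.single i 1), fun s => ?_⟩
  refine Eq.trans ?_ (hφ s)
  conv_rhs => rw [eq_sum_single (V.αc s)]
  rw [map_sum]
  apply Finset.sum_congr rfl
  intro i _
  rw [map_smul, smul_eq_mul, mul_comm]

noncomputable def rhov : Fin V.n → ℝ := V.exists_rho.choose

theorem rhov_spec (s : B) : ∑ i, V.rhov i * V.αc s i = 1 := V.exists_rho.choose_spec s

theorem len_mul_sr' (w : W) (s : B) : cs.length (w * cs.simple s) = cs.length w + 1 ∨
    cs.length w = cs.length (w * cs.simple s) + 1 := by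
  rcases cs.length_mul_simple w s with h | h
  · exact Or.inl h
  · exact Or.inr h.symm

theorem desc' (w : W) (h : w ≠ 1) : ∃ s, cs.length (w * cs.simple s) < cs.length w :=
  cs.exists_rightDescent_of_ne_one h

theorem ball' [Finite B] (_V : Rlz cs) (N : ℕ) : {w : W | cs.length w ≤ N}.Finite := by
  have h1 : {l : List B | l.length ≤ N}.Finite := List.finite_length_le B N
  apply (h1.image cs.wordProd).subset
  intro w hw
  obtain ⟨ω, hω, rfl⟩ := cs.exists_isReduced w
  refine ⟨ω, ?_, rfl⟩
  change ω.length ≤ N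
  rw [← hω.eq]
  exact hw

/-- every reflection is the reflection of a positive root -/
theorem exists_pos (V : Rlz cs) {t : W} (ht : cs.IsReflection t) : ∃ (w : W) (s : B),
    t = w * cs.simple s * w⁻¹ ∧ V.PosRoot (V.ρ w (V.α s)) := by
  obtain ⟨w, s, rfl⟩ := ht
  rcases V.pos_or_neg w s with h | h
  · exact ⟨w, s, rfl, h⟩
  · refine ⟨w * cs.simple s, s, ?_, ?_⟩
    · rw [mul_inv_rev, cs.inv_simple]
      have := cs.simple_mul_simple_self s
      calc w * cs.simple s * w⁻¹ = w * (cs.simple s * cs.simple s) * cs.simple s * w⁻¹ := by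
            rw [this, mul_one]
        _ = _ := by group
    · have h1 : V.ρ (w * cs.simple s) (V.α s) = -V.ρ w (V.α s) := by
        rw [V.ρ_mul, V.ρ_simple, V.fc_α, M.diagonal s]
        have : (-2 * Real.cos (Real.pi / ((1 : ℕ) : ℝ))) = 2 := by
          rw [Nat.cast_one, div_one, Real.cos_pi]; norm_num
        rw [this, map_sub, map_smul, two_smul]
        abel
      rw [h1]
      exact h

theorem crossing' (_V : Rlz cs) (t y : W) (s : B) (ht : cs.IsReflection t)
    (h : cs.length y < cs.length (t * y)) (hne : t * y ≠ y * cs.simple s) :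
    cs.length (y * cs.simple s) < cs.length (t * y * cs.simple s) := by
  have V := _V
  obtain ⟨w, s', rfl, hp⟩ := V.exists_pos ht
  have h1 : ¬ V.PosRoot (-V.ρ y⁻¹ (V.ρ w (V.α s'))) := by
    rw [← V.inv_iff w s' hp y]
    omega
  have h2 : V.PosRoot (V.ρ (y⁻¹ * w) (V.α s')) := by
    rcases V.pos_or_neg (y⁻¹ * w) s' with h3 | h3
    · exact h3
    · rw [V.ρ_mul] at h3
      exact absurd h3 h1
  have h4 : V.ρ (y⁻¹ * w) (V.α s') ≠ V.α s := by
    intro h5
    have h6 : V.ρ (y⁻¹ * w) (V.α s') = (1 : ℝ) • V.ρ 1 (V.α s) := by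
      rw [h5, V.ρ_one, one_smul]
    have h7 := V.refl_unique h6
    apply hne
    rw [inv_one, mul_one, one_mul] at h7
    rw [← h7]
    group
  have h5 := V.simple_pos h2 s h4
  have h6 : ¬ (cs.length (w * cs.simple s' * w⁻¹ * (y * cs.simple s)) <
      cs.length (y * cs.simple s)) := by
    rw [V.inv_iff w s' hp (y * cs.simple s)]
    intro h7
    refine V.not_pos_neg h5 ?_
    have h8 : V.ρ (y * cs.simple s)⁻¹ (V.ρ w (V.α s')) =
        V.ρ (cs.simple s) (V.ρ (y⁻¹ * w) (V.α s')) := by
      rw [← V.ρ_mul, ← V.ρ_mul, mul_inv_rev, cs.inv_simple, mul_assoc]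
    rw [← h8]
    exact h7
  have h7 := ht.length_mul_right_ne (y * cs.simple s)
  rw [mul_assoc (w * cs.simple s' * w⁻¹) y]
  omega

/-- the inversions are in the inversion sequence of a word -/
theorem mem_lis (ω : List B) : ∀ (w : W) (s : B), V.PosRoot (V.ρ w (V.α s)) →
    V.PosRoot (-V.ρ (cs.wordProd ω)⁻¹ (V.ρ w (V.α s))) →
    w * cs.simple s * w⁻¹ ∈ cs.leftInvSeq ω := by
  induction ω with
  | nil =>
    intro w s h1 h2
    rw [cs.wordProd_nil, inv_one, V.ρ_one] at h2
    exact (V.not_pos_neg h1 h2).elim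
  | cons i ω ih =>
    intro w s h1 h2
    rw [CoxeterSystem.leftInvSeq]
    by_cases h : V.ρ w (V.α s) = V.α i
    · have h6 : V.ρ w (V.α s) = (1 : ℝ) • V.ρ 1 (V.α i) := by
        rw [h, V.ρ_one, one_smul]
      have h7 := V.refl_unique h6
      rw [inv_one, mul_one, one_mul] at h7
      rw [h7]
      exact List.mem_cons_self
    · have h3 := V.simple_pos h1 i h
      rw [← V.ρ_mul] at h3
      have h4 : V.ρ (cs.wordProd (i :: ω))⁻¹ (V.ρ w (V.α s)) =
          V.ρ (cs.wordProd ω)⁻¹ (V.ρ (cs.simple i * w) (V.α s)) := by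
        rw [← V.ρ_mul, ← V.ρ_mul, cs.wordProd_cons, mul_inv_rev, cs.inv_simple, mul_assoc]
      rw [h4] at h2
      have h5 := ih _ _ h3 h2
      refine List.mem_cons_of_mem _ (List.mem_map.mpr ⟨_, h5, ?_⟩)
      rw [MulAut.conj_apply, cs.inv_simple, mul_inv_rev, cs.inv_simple]
      have h8 := cs.simple_mul_simple_self i
      calc cs.simple i * (cs.simple i * w * cs.simple s * (w⁻¹ * cs.simple i)) * cs.simple i
          = (cs.simple i * cs.simple i) * w * cs.simple s * w⁻¹ *
              (cs.simple i * cs.simple i) := by group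
        _ = _ := by rw [h8, one_mul, mul_one]

theorem isLeftInversion_iff (V : Rlz cs) {ω : List B} (hω : cs.IsReduced ω) (t : W) :
    cs.IsLeftInversion (cs.wordProd ω) t ↔ t ∈ cs.leftInvSeq ω := by
  constructor
  · rintro ⟨ht, h⟩
    obtain ⟨w, s, rfl, hp⟩ := V.exists_pos ht
    exact V.mem_lis ω w s hp ((V.inv_iff w s hp _).mp h)
  · exact cs.isLeftInversion_of_mem_leftInvSeq hω

theorem finite_inv (V : Rlz cs) (y : W) : {t | cs.IsLeftInversion y t}.Finite := by
  obtain ⟨ω, hω, rfl⟩ := cs.exists_isReduced y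
  apply (cs.leftInvSeq ω).finite_toSet.subset
  intro t ht
  exact (V.isLeftInversion_iff hω t).mp ht

theorem mem_invf (y t : W) : t ∈ V.invf y ↔ cs.IsReflection t ∧
    cs.length (t * y) < cs.length y := by
  unfold invf
  rw [dif_pos (V.finite_inv y), Set.Finite.mem_toFinset]
  rfl

theorem card_invf (y : W) : (V.invf y).card = cs.length y := by
  classical
  obtain ⟨ω, hω, rfl⟩ := cs.exists_isReduced y
  have h1 : V.invf (cs.wordProd ω) = (cs.leftInvSeq ω).toFinset := by
    ext t
    rw [V.mem_invf, List.mem_toFinset, ← V.isLeftInversion_iff hω t]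
    rfl
  rw [h1, List.toFinset_card_of_nodup hω.nodup_leftInvSeq, cs.length_leftInvSeq, hω.eq]

/-- the contragredient representation -/
noncomputable def dualρ : W →* Module.End ℝ (Fin V.n → ℝ) where
  toFun w := Matrix.toLin' (LinearMap.toMatrix' (V.ρ w⁻¹)).transpose
  map_one' := by
    rw [inv_one, map_one, Module.End.one_eq_id, LinearMap.toMatrix'_id, Matrix.transpose_one,
      Matrix.toLin'_one]
  map_mul' w w' := by
    rw [mul_inv_rev, map_mul, Module.End.mul_eq_comp, LinearMap.toMatrix'_comp,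
      Matrix.transpose_mul, Matrix.toLin'_mul]
    rfl

theorem dualρ_pair (w : W) (u v : Fin V.n → ℝ) :
    ∑ i, u i * V.dualρ w v i = ∑ i, V.ρ w⁻¹ u i * v i := by
  have h1 : V.dualρ w v = Matrix.mulVec (LinearMap.toMatrix' (V.ρ w⁻¹)).transpose v := rfl
  have h2 : V.ρ w⁻¹ u = Matrix.mulVec (LinearMap.toMatrix' (V.ρ w⁻¹)) u := by
    rw [← Matrix.toLin'_apply, Matrix.toLin'_toMatrix']
  rw [h1, h2]
  change u ⬝ᵥ _ = _ ⬝ᵥ v
  rw [Matrix.dotProduct_mulVec, Matrix.vecMul_transpose]

theorem pair_ext {n : ℕ} {v w : Fin n → ℝ} (h : ∀ u : Fin n → ℝ, ∑ i, u i * v i = ∑ i, u i * w i) :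
    v = w := by
  funext j
  have h1 := h (Pi.single j 1)
  simpa [Pi.single_apply] using h1

theorem rho_pos' (y : W) (s : B) (h : cs.length y < cs.length (y * cs.simple s)) :
    ∃ c : ℝ, 0 < c ∧ (V.actR y⁻¹ (∑ i, C (V.rhov i) * X i)) -
      V.actR (cs.simple s) (V.actR y⁻¹ (∑ i, C (V.rhov i) * X i)) = C c * lf (V.α s) := by
  classical
  obtain ⟨c, hc, he⟩ := tits cs V.dualρ V.αc
    (fun t => { toFun := fun v => ∑ i, V.α t i * v i
                map_add' := fun u v => by simp [mul_add, Finset.sum_add_distrib]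
                map_smul' := fun a v => by
                  simp only [Pi.smul_apply, smul_eq_mul, RingHom.id_apply, Finset.mul_sum]
                  apply Finset.sum_congr rfl
                  intro i _
                  ring })
    (fun t v => by
      apply pair_ext
      intro u
      rw [V.dualρ_pair, cs.inv_simple, V.ρs]
      simp only [Pi.sub_apply, Pi.smul_apply, smul_eq_mul, LinearMap.coe_mk, AddHom.coe_mk,
        sub_mul, mul_sub, Finset.sum_sub_distrib]
      congr 1
      calc ∑ i, (∑ j, u j * V.αc t j) * V.α t i * v i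
          = (∑ j, u j * V.αc t j) * ∑ i, V.α t i * v i := by
            rw [Finset.mul_sum]
            apply Finset.sum_congr rfl
            intro i _
            ring
        _ = ∑ i, u i * ((∑ j, V.α t j * v j) * V.αc t i) := by
            rw [Finset.sum_mul]
            apply Finset.sum_congr rfl
            intro i _
            ring)
    (fun t t' => by
      change ∑ i, V.α t' i * V.αc t i = _
      rw [V.pair, M.symmetric t' t])
    y s h
  refine ⟨∑ i, V.ρ y⁻¹ V.rhov i * V.αc s i, ?_, ?_⟩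
  · rw [← V.dualρ_pair, he]
    have h1 : ∑ i, V.rhov i * (c.sum fun t x => x • V.αc t) i = c.sum fun t x => x := by
      rw [Finsupp.sum, Finsupp.sum]
      simp only [Finset.sum_apply, Pi.smul_apply, smul_eq_mul, Finset.mul_sum]
      rw [Finset.sum_comm]
      apply Finset.sum_congr rfl
      intro t _
      calc ∑ i, V.rhov i * (c t * V.αc t i) = c t * ∑ i, V.rhov i * V.αc t i := by
            rw [Finset.mul_sum]
            apply Finset.sum_congr rfl
            intro i _
            ring
        _ = c t := by rw [V.rhov_spec, mul_one]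
    rw [h1]
    have h2 : c ≠ 0 := by
      rintro rfl
      rw [Finsupp.sum_zero_index] at he
      have h3 : V.αc s = 0 := by
        have h4 : V.dualρ y⁻¹ (V.dualρ y (V.αc s)) = V.αc s := by
          change (V.dualρ y⁻¹ * V.dualρ y) (V.αc s) = _
          rw [← map_mul, inv_mul_cancel, map_one]
          rfl
        rw [← h4, he, map_zero]
      exact V.lic.ne_zero s h3
    apply Finset.sum_pos
    · intro t ht
      exact lt_of_le_of_ne (hc t) (Ne.symm (Finsupp.mem_support_iff.mp ht))
    · exact Finsupp.support_nonempty_iff.mpr h2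
  · have h1 : (∑ i, C (V.rhov i) * X i : MvPolynomial (Fin V.n) ℝ) = lf V.rhov := rfl
    rw [h1, V.actR_lf, V.actR_lf, V.ρs, ← lf_sub, sub_sub_cancel, lf_smul]

end Rlz

end RC
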