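import Mathlib
import Pool.Agent.EW.Dat
import Pool.Agent.EW.RC.I0a
import Pool.Agent.EW.RC.I0b

/-!
# Block I0: the data `Dat` of a realization (MP_d13a5e_al)
-/

open MvPolynomial

namespace RC

namespace Rlz

variable {B W : Type} [Group W] {M : CoxeterMatrix B} {cs : CoxeterSystem M W} (V : Rlz cs)

/-- the data `Dat` of a realization -/
@[reducible] noncomputable def datOf [Finite B] : EW.Dat where
  n := V.n
  W := W
  S := B
  grp := inferInstance
  decW := Classical.decEq _
  finS := Fintype.ofFinite B
  decS := Classical.decEq _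
  sr := cs.simple
  act := V.actR
  alpha s := lf (V.α s)
  cor := V.αc
  len := cs.length
  Rf := cs.IsReflection
  rt t := lf (V.rtv t)
  inv := V.invf
  rhoc := V.rhov
  sr_mul := cs.simple_mul_simple_self
  act_one := V.actR_one
  act_mul := V.actR_mul
  act_lin := V.actR_lin
  alpha_lin s := lf_homog _
  alpha_ne s := (V.rf s).ne
  act_sr_X s i := (V.rf s).σX i
  act_sr_alpha s := (V.rf s).σα
  len_one := cs.length_one
  len_mul_sr := len_mul_sr'
  desc := desc'
  ball := V.ball'
  rf_sr := cs.isReflection_simple
  rf_conj w t ht := ht.conj w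
  rf_sq t ht := ht.mul_self
  rf_len t y ht := ht.length_mul_right_ne y
  rt_lin t _ := lf_homog _
  rt_ne t ht := V.rtv_ne ht
  rt_act t ht i := V.rtv_act ht i
  rt_inj t t' ht ht' h := V.rtv_inj ht ht' h
  rt_conj := V.rtv_conj
  crossing t y s ht h hne := V.crossing' t y s ht h hne
  mem_inv := V.mem_invf
  card_inv := V.card_invf
  faithful := V.actR_faithful
  refl_faithful y z h h' := V.actR_refl y z h h'
  rho_pos y s h := V.rho_pos' y s h

end Rlz

end RC
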