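import Mathlib
import Pool.Agent.EW.RC.C0

/-!
# Block R2: alternating words (MP_d13a5e_al)
-/

open MvPolynomial

namespace RC

variable {B W : Type} [Group W] {M : CoxeterMatrix B} {cs : CoxeterSystem M W}

/-- the alternating list `s, t, s, …` with `m` letters -/
def altL (s t : B) : ℕ → List B
  | 0 => []
  | m + 1 => s :: altL t s m

theorem alt_eq (s t : B) (m : ℕ) : alt s t m = (altL s t m).map (fun a => (a, true)) := by
  induction m generalizing s t with
  | zero => rfl
  | succ m ih =>
    change (s, true) :: alt t s m = (s, true) :: (altL t s m).map (fun a => (a, true))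
    rw [ih]

theorem altL_length (s t : B) (m : ℕ) : (altL s t m).length = m := by
  induction m generalizing s t with
  | zero => rfl
  | succ m ih =>
    change (altL t s m).length + 1 = m + 1
    rw [ih]

private theorem R2_altL_reverse (s t : B) (m : ℕ) :
    altL s t m = (CoxeterSystem.alternatingWord t s m).reverse := by
  induction m generalizing s t with
  | zero => rfl
  | succ m ih =>
    rw [CoxeterSystem.alternatingWord_succ, List.concat_eq_append, List.reverse_append,
      List.reverse_singleton, List.singleton_append, ← ih]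
    rfl

theorem altL_prod (cs : CoxeterSystem M W) (s t : B) :
    cs.wordProd (altL s t (M s t)) = cs.wordProd (altL t s (M s t)) := by
  rw [R2_altL_reverse, R2_altL_reverse, cs.wordProd_reverse, cs.wordProd_reverse, inv_inj]
  have h := cs.wordProd_braidWord_eq t s
  unfold CoxeterSystem.braidWord at h
  rw [M.symmetric t s] at h
  exact h

private theorem R2_wp_succ (cs : CoxeterSystem M W) (s t : B) (k : ℕ) :
    cs.wordProd (altL s t (k + 1)) = cs.simple s * cs.wordProd (altL t s k) :=
  cs.wordProd_cons s _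

private theorem R2_cos (s t : B) : Real.cos (Real.pi / (M s t : ℝ)) = Real.cos (Real.pi / (M t s : ℝ)) := by
  rw [M.symmetric s t]

/-- the root of the next letter of an alternating word -/
private theorem R2_formula (V : Rlz cs) (θ : ℝ) (k : ℕ) : ∀ s t : B, θ = Real.pi / (M s t : ℝ) →
    Real.sin θ • V.ρ (cs.wordProd (altL t s k))⁻¹ (V.α s) =
      Real.sin ((k + 1 : ℕ) * θ) • V.α (if Even k then s else t) +
        Real.sin ((k : ℕ) * θ) • V.α (if Even k then t else s) := by
  induction k using Nat.strong_induction_on with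
  | _ k ih =>
    intro s t hθ
    match k, ih with
    | 0, _ =>
      simp [altL]
    | 1, _ =>
      have h1 : cs.wordProd (altL t s 1) = cs.simple t := by
        rw [R2_wp_succ]
        simp [altL]
      rw [h1, cs.inv_simple, V.ρ_simple, V.fc_α]
      rw [← hθ]
      have h2 : ¬ Even 1 := by decide
      rw [if_neg h2, if_neg h2, smul_sub, smul_smul]
      have h3 : Real.sin (((1 + 1 : ℕ) : ℝ) * θ) = 2 * Real.sin θ * Real.cos θ := by
        rw [show (((1 + 1 : ℕ) : ℝ)) * θ = 2 * θ by push_cast; ring, Real.sin_two_mul]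
      rw [h3]
      push_cast
      rw [one_mul, sub_eq_add_neg, add_comm, ← neg_smul]
      congr 2
      ring
    | k + 2, ih =>
      have hθ' : θ = Real.pi / (M t s : ℝ) := by rw [M.symmetric t s]; exact hθ
      have e1 := ih (k + 1) (by omega) t s hθ'
      have e2 := ih k (by omega) s t hθ
      have h1 : (cs.wordProd (altL t s (k + 2)))⁻¹ = (cs.wordProd (altL s t (k + 1)))⁻¹ * cs.simple t := by
        rw [R2_wp_succ, mul_inv_rev, cs.inv_simple]
      have h2 : (cs.wordProd (altL s t (k + 1)))⁻¹ = (cs.wordProd (altL t s k))⁻¹ * cs.simple s := by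
        rw [R2_wp_succ, mul_inv_rev, cs.inv_simple]
      have h3 : V.fc s (V.α s) = 2 := by
        rw [V.fc_α, M.diagonal]
        simp
      have h4 : V.ρ (cs.wordProd (altL s t (k + 1)))⁻¹ (V.α s) =
          - V.ρ (cs.wordProd (altL t s k))⁻¹ (V.α s) := by
        rw [h2, V.ρ_mul, V.ρ_simple, h3, map_sub, map_smul, two_smul]
        abel
      have h5 : V.ρ (cs.wordProd (altL t s (k + 2)))⁻¹ (V.α s) =
          (2 * Real.cos θ) • V.ρ (cs.wordProd (altL s t (k + 1)))⁻¹ (V.α t) -
            V.ρ (cs.wordProd (altL t s k))⁻¹ (V.α s) := by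
        rw [h1, V.ρ_mul, V.ρ_simple, V.fc_α, ← hθ, map_sub, map_smul, h4]
        module
      have h6 : Real.sin (((k + 2 + 1 : ℕ) : ℝ) * θ) =
          2 * Real.cos θ * Real.sin (((k + 1 + 1 : ℕ) : ℝ) * θ) - Real.sin (((k + 1 : ℕ) : ℝ) * θ) := by
        have := Real.sin_add (((k + 2 : ℕ) : ℝ) * θ) θ
        have h' := Real.sin_sub (((k + 2 : ℕ) : ℝ) * θ) θ
        have e3 : (((k + 2 + 1 : ℕ) : ℝ) * θ) = ((k + 2 : ℕ) : ℝ) * θ + θ := by push_cast; ring
        have e4 : (((k + 1 : ℕ) : ℝ) * θ) = ((k + 2 : ℕ) : ℝ) * θ - θ := by push_cast; ring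
        have e5 : (((k + 1 + 1 : ℕ) : ℝ) * θ) = ((k + 2 : ℕ) : ℝ) * θ := by push_cast; ring
        rw [e3, e4, e5, this, h']
        ring
      have h7 : Real.sin (((k + 2 : ℕ) : ℝ) * θ) =
          2 * Real.cos θ * Real.sin (((k + 1 : ℕ) : ℝ) * θ) - Real.sin ((k : ℝ) * θ) := by
        have := Real.sin_add (((k + 1 : ℕ) : ℝ) * θ) θ
        have h' := Real.sin_sub (((k + 1 : ℕ) : ℝ) * θ) θ
        have e3 : (((k + 2 : ℕ) : ℝ) * θ) = ((k + 1 : ℕ) : ℝ) * θ + θ := by push_cast; ring
        have e4 : ((k : ℝ) * θ) = ((k + 1 : ℕ) : ℝ) * θ - θ := by push_cast; ring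
        rw [e3, e4, this, h']
        ring
      have hpar : Even (k + 2) ↔ Even k := by simp [Nat.even_add]
      have hpar1 : Even (k + 1) ↔ ¬ Even k := Nat.even_add_one
      rw [h5, smul_sub, smul_comm, e1, e2, h6, h7]
      by_cases hk : Even k
      · have hk1 : ¬ Even (k + 1) := fun h => hpar1.1 h hk
        rw [if_neg hk1, if_neg hk1, if_pos hk, if_pos hk, if_pos (hpar.2 hk), if_pos (hpar.2 hk)]
        module
      · have hk1 : Even (k + 1) := hpar1.2 hk
        have hk2 : ¬ Even (k + 2) := fun h => hk (hpar.1 h)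
        rw [if_pos hk1, if_pos hk1, if_neg hk, if_neg hk, if_neg hk2, if_neg hk2]
        module

private theorem R2_pos (V : Rlz cs) {s t : B} (hst : s ≠ t) {k : ℕ} (hk : k + 1 ≤ M s t) :
    V.PosRoot (V.ρ (cs.wordProd (altL t s k))⁻¹ (V.α s)) := by
  refine ⟨⟨_, s, rfl⟩, ?_⟩
  set θ : ℝ := Real.pi / (M s t : ℝ) with hθ
  have hm : 2 ≤ M s t := by
    have := M.off_diagonal s t hst
    omega
  have hm' : (2:ℝ) ≤ (M s t : ℝ) := by exact_mod_cast hm
  have hθ0 : 0 < θ := div_pos Real.pi_pos (by linarith)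
  have hθ1 : θ < Real.pi := by
    rw [hθ, div_lt_iff₀ (by linarith)]
    nlinarith [Real.pi_pos]
  have hs : 0 < Real.sin θ := Real.sin_pos_of_pos_of_lt_pi hθ0 hθ1
  have hle : ∀ j : ℕ, j ≤ M s t → 0 ≤ Real.sin ((j : ℝ) * θ) := by
    intro j hj
    have hj' : (j : ℝ) ≤ (M s t : ℝ) := by exact_mod_cast hj
    refine Real.sin_nonneg_of_nonneg_of_le_pi (by positivity) ?_
    rw [hθ, mul_div_assoc', div_le_iff₀ (by linarith)]
    nlinarith [Real.pi_pos]
  have h1 := hle (k + 1) hk
  have h2 := hle k (by omega)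
  have hf := R2_formula V θ k s t hθ
  refine ⟨Finsupp.single (if Even k then s else t) (Real.sin ((k + 1 : ℕ) * θ) / Real.sin θ) +
    Finsupp.single (if Even k then t else s) (Real.sin ((k : ℕ) * θ) / Real.sin θ), fun u => ?_, ?_⟩
  · classical
    rw [Finsupp.add_apply, Finsupp.single_apply, Finsupp.single_apply]
    have a1 : 0 ≤ Real.sin ((k + 1 : ℕ) * θ) / Real.sin θ := div_nonneg h1 hs.le
    have a2 : 0 ≤ Real.sin ((k : ℕ) * θ) / Real.sin θ := div_nonneg h2 hs.le
    refine add_nonneg ?_ ?_
    · split_ifs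
      · exact a1
      · exact le_rfl
      · exact a1
      · exact le_rfl
    · split_ifs
      · exact a2
      · exact le_rfl
      · exact a2
      · exact le_rfl
  · rw [Finsupp.sum_add_index' (h := fun u a => a • V.α u) (fun u => zero_smul ℝ (V.α u))
      (fun u a b => add_smul a b (V.α u)),
      Finsupp.sum_single_index (h := fun u a => a • V.α u) (zero_smul ℝ _),
      Finsupp.sum_single_index (h := fun u a => a • V.α u) (zero_smul ℝ _)]
    have h3 : V.ρ (cs.wordProd (altL t s k))⁻¹ (V.α s) =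
        (Real.sin θ)⁻¹ • (Real.sin θ • V.ρ (cs.wordProd (altL t s k))⁻¹ (V.α s)) := by
      rw [smul_smul, inv_mul_cancel₀ hs.ne', one_smul]
    rw [h3, hf, smul_add, smul_smul, smul_smul, div_eq_inv_mul, div_eq_inv_mul]

/-- the alternating words with at most `m_{st}` letters are reduced -/
theorem altL_reduced (V : Rlz cs) (s t : B) (k : ℕ) (hk : k ≤ M s t) :
    cs.IsReduced (altL s t k) := by
  induction k generalizing s t with
  | zero =>
    unfold CoxeterSystem.IsReduced
    simp [altL]
  | succ k ih =>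
    have hk' : k ≤ M t s := by
      rw [M.symmetric t s]
      omega
    have h1 := ih t s hk'
    unfold CoxeterSystem.IsReduced at h1 ⊢
    rw [altL_length] at h1 ⊢
    rw [R2_wp_succ]
    by_cases hst : s = t
    · subst hst
      rw [M.diagonal] at hk
      have hk0 : k = 0 := by omega
      subst hk0
      simp [altL]
    · have h2 := (V.pos_iff _ s).1 (R2_pos V hst hk)
      have h3 : (cs.wordProd (altL t s k))⁻¹ * cs.simple s =
          (cs.simple s * cs.wordProd (altL t s k))⁻¹ := by
        rw [mul_inv_rev, cs.inv_simple]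
      rw [h3, cs.length_inv, cs.length_inv, h1] at h2
      rcases cs.length_simple_mul (cs.wordProd (altL t s k)) s with h4 | h4
      · rw [h4, h1]
      · omega

end RC
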