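import Mathlib
import Pool.Agent.EW.RC.S1
import Pool.Agent.EW.RC.H5

/-!
# Block S2: vanishing for positive reduced words (MP_d13a5e_al)
-/

open MvPolynomial

namespace EW

variable [Dat]

open RC FR2

namespace S2

/-- a homogeneous `f` which factors through `D` factors through `D` by a homogeneous map -/
theorem hcomp_factor {n : ℕ} {X B : CB n} {k m : ℤ} {f h : X.M →+ B.M} (hf : Hm X B (-k) m f)
    (hh : IsBi X B h) (e : ∀ x, f x = h (X.D x)) :
    ∃ ψ : X.M →+ B.M, Hm X B (-k - 1) m ψ ∧ ∀ x, f x = ψ (X.D x) := by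
  obtain ⟨ψ, hψ, hψ2⟩ := exists_hcomp hh (-k - 1) m
  refine ⟨ψ, hψ, ?_⟩
  have key : f = ψ.comp X.D := by
    apply X.hom_ext
    intro k' t x
    have h1 : X.D (X.pr k' t x) = X.pr (k' + 1) t (X.D x) := (X.D_pr k' t x).symm
    change f (X.pr k' t x) = ψ (X.D (X.pr k' t x))
    rw [h1, hψ2, ← h1, ← e]
    have h2 := hf.2 k' t (X.pr k' t x)
    have h3 : X.pr k' t (X.pr k' t x) = X.pr k' t x := by
      rw [X.pr_pr, if_pos ⟨rfl, rfl⟩]
    rw [h3] at h2
    have h4 : k' + 1 + (-k - 1) = k' + -k := by ring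
    rw [h4, h2]
  intro x
  exact DFunLike.congr_fun key x

theorem bound (z : Wg) (l : List Sg) (hl : len (wprod l) = l.length) {m : ℤ} (hm : m < 0)
    {f : (FP l).M →+ (KB z).O.M} (hf : Hm (FP l) (KLB z) 0 m f) (i : (KB z).O.I)
    (hi : (KB z).O.π i = wprod l) : (f (cg l)).1 i = 0 := by
  have hB : IsBi (FP l) (oc (KB z).O 0) f := ⟨hf.1.1, hf.1.2⟩
  set v : (KB z).O.M := f (cg l) with hv
  have h1 := hf.2 0 (-(l.length : ℤ)) (cg l)
  rw [cg_pr] at h1
  have h2 : (oc (KB z).O (len z)).pr (0 + 0) (-(l.length : ℤ) + m) v = v := h1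
  rw [oc_pr] at h2
  by_cases hc : (0 : ℤ) + 0 = 0 ∧ 0 ≤ -(l.length : ℤ) + m + len z ∧
      (-(l.length : ℤ) + m + len z) % 2 = 0
  · rw [if_pos hc] at h2
    obtain ⟨-, hc1, hc2⟩ := hc
    set a : ℕ := ((-(l.length : ℤ) + m + len z) / 2).toNat with ha
    have ha2 : (2 * a : ℤ) = -(l.length : ℤ) + m + len z := by omega
    have hdg : v ∈ (KB z).O.dg a := by
      rw [← h2]
      exact cmp_mem _ _ _
    by_contra hne
    -- restriction to `x`
    have hmem : Obj.res (KB z).O.π (wprod l) v.1 ∈ (KB z).O.Dsub Up (wprod l) := by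
      refine ⟨v.1, ⟨v.2, fun j hj => ?_⟩, rfl⟩
      exact cg_supp l hl hB j hj
    have hHg : Hg a (Obj.res (KB z).O.π (wprod l) v.1) := by
      intro j
      change (if (KB z).O.π j = wprod l then v.1 j else 0).IsHomogeneous a
      split_ifs
      · exact hdg j
      · exact isHomogeneous_zero _ _ _
    have hne0 : Obj.res (KB z).O.π (wprod l) v.1 ≠ 0 := by
      intro h0
      apply hne
      have := congrFun h0 i
      change (if (KB z).O.π i = wprod l then v.1 i else 0) = 0 at this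
      rw [if_pos hi] at this
      exact this
    obtain ⟨j, hja, hj⟩ := ((KB z).char.lo (wprod l)).exists_le hmem hHg hne0
    rw [Polynomial.coeff_reflect] at hj
    have hP : (KB z).P (wprod l) ≠ 0 := by
      intro h0
      rw [h0] at hj
      exact hj (Polynomial.coeff_zero _)
    have hdeg := (KB z).char.deg (wprod l) hP
    have hle := Polynomial.le_natDegree_of_ne_zero hj
    have hjd : j ≤ len z - len (wprod l) := by
      by_contra hcon
      have : Polynomial.revAt (len z - len (wprod l)) j = j :=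
        Polynomial.revAt_eq_self_of_lt (by omega)
      rw [this] at hle
      omega
    rw [Polynomial.revAt_le hjd] at hle
    by_cases hx : wprod l = z
    · have h5 : len (wprod l) = len z := by rw [hx]
      omega
    · have h5 := (KB z).Pdeg (wprod l) hx hP
      omega
  · rw [if_neg hc] at h2
    rw [← h2]
    rfl

end S2

/-- for a positive reduced word, `Hom(F_l, B_z(m)[-k]) = 0` for `m < k` -/
theorem Van_pos (l : List Sg) (hl : len (wprod l) = l.length) (z : Wg) {k m : ℤ} (h : m < k) :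
    Van (FP l) (KLB z) k m := by
  intro f hf hD
  have hB : IsBi (FP l) (oc (KB z).O 0) f := ⟨hf.1.1, hf.1.2⟩
  have hsp : ∀ k' t x, k' ≠ k → f ((FP l).pr k' t x) = 0 := by
    intro k' t x hk
    rw [← hf.2 k' t x]
    change (oc (KB z).O (len z)).pr (k' + -k) (t + m) (f x) = 0
    rw [oc_pr, if_neg (fun hc => hk (by omega))]
    rfl
  rcases lt_trichotomy k 0 with hk | hk | hk
  · refine ⟨0, Hm.zero _ _ _ _, fun x => ?_⟩
    have h0 : f = 0 := by
      apply (FP l).hom_ext
      intro k' t x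
      by_cases hkk : k' = k
      · rw [FP_conc l k' t x (Or.inl (by omega)), map_zero, map_zero]
      · rw [hsp k' t x hkk]
        rfl
    rw [h0]
    rfl
  · subst hk
    have hf0 : Hm (FP l) (KLB z) 0 m f := by simpa using hf
    obtain ⟨h1, h2, -, h3⟩ := (Sat_all l hl (KB z).nice).b f hB hsp
      (fun i hi => S2.bound z l hl h hf0 i hi)
    exact S2.hcomp_factor hf ⟨h2.1, h2.2⟩ h3
  · obtain ⟨h1, h2, -, h3⟩ := (Sat_all l hl (KB z).nice).a k (by omega) f hB hsp hD
    exact S2.hcomp_factor hf ⟨h2.1, h2.2⟩ h3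

end EW
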