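import Mathlib
import Pool.Agent.EW.RC.I0
import Pool.Agent.EW.RC.C3
import Pool.Agent.EW.RC.R2
import Pool.Agent.EW.RC.H3
import Pool.Agent.EW.RC.H4
import Pool.Agent.EW.RC.H8
import Pool.Agent.EW.RC.H9a
import Pool.Agent.EW.RC.H9b
import Pool.Agent.EW.RC.H9c
import Pool.Agent.EW.RC.S2
import Pool.Agent.EW.RC.K0
import Pool.Agent.EW.RC.G0

/-!
# Assembly (MP_d13a5e_al), part 1: words
-/

set_option linter.unusedSectionVars false
set_option linter.style.haveILetI false

open MvPolynomial

namespace EW

variable [Dat]

open RC FR2

/-- the letters of a signed word as reflections -/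
noncomputable def lw (u : List (Sg × Bool)) : List (Refl Dat.n × Bool) :=
  u.map (fun a => (rfs a.1, a.2))

theorem F_append {n : ℕ} (u : List (Refl n × Bool)) (a : Refl n × Bool) :
    F (u ++ [a]) = Phi a.1 a.2 (F u) := by
  unfold F Fon
  rw [List.foldl_append]
  rfl

theorem F_lw (u : List (Sg × Bool)) : F (lw u) = Fr u.reverse := by
  induction u using List.reverseRecOn with
  | nil => rfl
  | append_singleton u a ih =>
    unfold lw at ih ⊢
    rw [List.map_append, List.map_singleton, F_append, ih, List.reverse_append]
    rfl

theorem lw_append (u v : List (Sg × Bool)) : lw (u ++ v) = lw u ++ lw v := by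
  unfold lw
  rw [List.map_append]

end EW

namespace RC

open EW

variable {B W : Type} [Group W] {M : CoxeterMatrix B} {cs : CoxeterSystem M W}

namespace Rlz

variable (V : Rlz cs) [Finite B]

theorem rfs_eq (s : B) : @rfs V.datOf s = V.rf s := by
  have h : @al V.datOf 1 s = lf (V.α s) := by
    change V.actR 1 (lf (V.α s)) = lf (V.α s)
    rw [V.actR_one]
    rfl
  unfold rfs rf
  congr 1

theorem lw_eq (u : List (B × Bool)) : @lw V.datOf u = u.map (fun a => (V.rf a.1, a.2)) := by
  unfold lw
  apply List.map_congr_left
  intro a _
  rw [V.rfs_eq]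

theorem wprod_reverse (l : List B) : @wprod V.datOf l.reverse = cs.wordProd l := by
  letI := V.datOf
  have key : ∀ l : List B, wprod l = cs.wordProd l.reverse := by
    intro l
    induction l with
    | nil => simp [wprod]
    | cons s l ih =>
      rw [List.reverse_cons, cs.wordProd_append, cs.wordProd_singleton, ← ih]
      rfl
  rw [key, List.reverse_reverse]

/-- equal braids have homotopy equivalent Rouquier complexes -/
theorem HE_of_BEq {u v : List (B × Bool)} (h : BEq M u v) :
    HE (F (@lw V.datOf u)) (F (@lw V.datOf v)) := by
  letI := V.datOf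
  induction h with
  | refl u => exact HE.refl _
  | symm _ ih => exact HE.symm ih
  | trans _ _ ih1 ih2 => exact HE.trans ih1 ih2
  | cancel p q s ε =>
    have h1 : HE (F (lw [(s, ε), (s, !ε)])) (F (lw ([] : List (Sg × Bool)))) :=
      phi_cancel (rfs s) ε (unit _)
    have h2 := F_congr h1 (lw p) (lw q)
    rw [← lw_append, ← lw_append, ← lw_append, ← lw_append, List.append_nil] at h2
    exact h2
  | braid p q s t hst =>
    have e1 : ∀ s t : B, F (lw (alt s t (M s t))) = FP (altL s t (M s t)).reverse := by
      intro s t
      rw [F_lw, alt_eq, ← List.map_reverse]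
      rfl
    have e2 : M t s = M s t := M.symmetric t s
    have h1 : HE (F (lw (alt s t (M s t)))) (F (lw (alt t s (M s t)))) := by
      have e3 := e1 t s
      rw [e2] at e3
      rw [e1, e3]
      apply FP_indep
      · rw [V.wprod_reverse, List.length_reverse]
        exact altL_reduced V s t _ le_rfl
      · rw [V.wprod_reverse, List.length_reverse]
        have := altL_reduced V t s _ le_rfl
        rw [e2] at this
        exact this
      · rw [V.wprod_reverse, V.wprod_reverse]
        exact altL_prod cs s t
    have h2 := F_congr h1 (lw p) (lw q)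
    rw [← lw_append, ← lw_append, ← lw_append, ← lw_append] at h2
    exact h2

end Rlz

end RC
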