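import Mathlib
import Pool.Agent.EW.RC.Fin0

/-!
# Assembly (MP_d13a5e_al), part 2: vanishing for Mikado words, linear family
-/

set_option linter.unusedSectionVars false
set_option linter.style.haveILetI false

open MvPolynomial

namespace RC

open EW

variable {B W : Type} [Group W] {M : CoxeterMatrix B} {cs : CoxeterSystem M W}

namespace Rlz

variable (V : Rlz cs) [Finite B]

/-- the vanishing property -/
def VanW (u : List (B × Bool)) : Prop :=
  letI := V.datOf
  ∀ (z : W) (k m : ℤ), m < k → Van (F (@lw V.datOf u)) (@KLB V.datOf z) k m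

theorem VanW_mik {r} (hr : V.ReflOrder r) {A : Set (Fin V.n → ℝ)} (hA : V.InitSec r A)
    (l : List B) (hl : cs.IsReduced l) : V.VanW (V.mik A l) := by
  letI := V.datOf
  apply V.mik_induction V.VanW ?_ ?_ ?_ hr hA l hl
  · intro u v huv hu z k m hkm
    exact Van.of_HE (V.HE_of_BEq huv.symm) (hu z k m hkm)
  · intro l hl z k m hkm
    have e1 : F (lw (l.map (fun s => (s, true)))) = FP l.reverse := by
      rw [F_lw, ← List.map_reverse]
      rfl
    change Van (F (lw (l.map (fun s => (s, true))))) (KLB z) k m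
    rw [e1]
    apply Van_pos _ _ _ hkm
    rw [V.wprod_reverse, List.length_reverse]
    exact hl
  · intro u s v h1 h2 z k m hkm
    have e : ∀ ε, F (lw (u ++ (s, ε) :: v)) = Fon (Phi (rfs s) ε (F (lw u))) (lw v) := by
      intro ε
      rw [lw_append]
      unfold F
      rw [Fon_append]
      rfl
    have e' : F (lw (u ++ v)) = Fon (F (lw u)) (lw v) := by
      rw [lw_append]
      unfold F
      rw [Fon_append]
    have h1' := h1 z k m hkm
    have h2' := h2 z k (m - 1) (by omega)
    have h3' := h2 z (k + 1) (m + 1) (by omega)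
    change Van (F (lw (u ++ (s, true) :: v))) (KLB z) k m at h1'
    change Van (F (lw (u ++ v))) (KLB z) _ _ at h2' h3'
    change Van (F (lw (u ++ (s, false) :: v))) (KLB z) k m
    rw [e] at h1' ⊢
    rw [e'] at h2' h3'
    exact Van.flip _ _ h1' h2' h3'

/-- the complement of an initial section is an initial section for the reversed order -/
theorem ReflOrder.rev {r} (hr : V.ReflOrder r) : V.ReflOrder (fun u v => r v u) where
  irrefl := hr.irrefl
  trans u v w hu hv hw h1 h2 := hr.trans w v u hw hv hu h2 h1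
  total u v hu hv h := (hr.total u v hu hv h).symm
  conv u v a b hu hv hne ha hb h := by
    rcases hr.conv u v a b hu hv hne ha hb h with h | h
    · exact Or.inr ⟨h.2, h.1⟩
    · exact Or.inl ⟨h.2, h.1⟩

theorem InitSec.compl {r} (hr : V.ReflOrder r) {A : Set (Fin V.n → ℝ)} (hA : V.InitSec r A) :
    V.InitSec (fun u v => r v u) {v | V.PosRoot v ∧ v ∉ A} :=
  ⟨fun u hu => hu.1, fun u v hu hv huv => ⟨hu, fun h => hv.2 (hA.2 v u hv.1 h huv)⟩⟩

theorem mik_compl (A : Set (Fin V.n → ℝ)) (l : List B) (hl : cs.IsReduced l) :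
    V.mik {v | V.PosRoot v ∧ v ∉ A} l = (V.mik A l).map (fun a => (a.1, !a.2)) := by
  classical
  induction l with
  | nil => rfl
  | cons s l ih =>
    have hl' : cs.IsReduced l := by
      have := hl.drop 1
      simpa using this
    have hpos : V.PosRoot (V.ρ (cs.wordProd l)⁻¹ (V.α s)) := by
      rw [V.pos_iff]
      have h1 := cs.length_inv (cs.wordProd l)
      have h2 : cs.length ((cs.wordProd l)⁻¹ * cs.simple s) = cs.length (cs.wordProd (s :: l)) := by
        rw [← cs.length_inv, mul_inv_rev, inv_inv, cs.inv_simple, cs.wordProd_cons]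
      rw [h1, h2, hl', hl]
      simp
    simp only [mik, List.map_cons]
    rw [ih hl']
    congr 2
    by_cases h : V.ρ (cs.wordProd l)⁻¹ (V.α s) ∈ A
    · simp [h]
    · simp [h, hpos]

/-- the dual vanishing property -/
theorem VanW'_mik {r} (hr : V.ReflOrder r) {A : Set (Fin V.n → ℝ)} (hA : V.InitSec r A)
    (l : List B) (hl : cs.IsReduced l) (z : W) (k m : ℤ) (hkm : k < m) :
    Van' (@KLB V.datOf z) (F (@lw V.datOf (V.mik A l))) k m := by
  letI := V.datOf
  have h1 := V.VanW_mik (ReflOrder.rev V hr) (InitSec.compl V hr hA) l hl z (-k) (-m) (by omega)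
  rw [V.mik_compl A l hl] at h1
  have h2 := Dual.F (lw (V.mik A l))
  have e : (lw (V.mik A l)).map (fun a => (a.1, !a.2)) =
      lw ((V.mik A l).map (fun a => (a.1, !a.2))) := by
    unfold lw
    rw [List.map_map, List.map_map]
    rfl
  rw [e] at h2
  exact Van'.of_dual h2 (KLB_dual z) h1

theorem mik_fst (A : Set (Fin V.n → ℝ)) (l : List B) : (V.mik A l).map Prod.fst = l := by
  induction l with
  | nil => rfl
  | cons s l ih =>
    simp only [mik, List.map_cons, ih]

end Rlz

end RC
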