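import Mathlib
import Pool.Agent.EW.RC.Defs3
import Pool.Agent.EW.RC.Rz2
import Pool.Agent.EW.RC.C0

/-!
# Definitions for the main statement (MP_d13a5e_al)
-/

open MvPolynomial

namespace RC

variable {n : ℕ}

/-- the graded bimodule `B` (a complex in homological degree `0`) is a direct summand of the
graded bimodule `X(-a)` -/
def Summand (B X : CB n) (a : ℤ) : Prop :=
  ∃ (i : B.M →+ X.M) (p : X.M →+ B.M), Hm B X 0 a i ∧ Hm X B 0 (-a) p ∧ ∀ x, p (i x) = x

variable {B W : Type} [Group W] {M : CoxeterMatrix B} {cs : CoxeterSystem M W}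

/-- `X` is the indecomposable Soergel bimodule `B_w`: a nonzero indecomposable graded bimodule
which is a direct summand of `B_{s_1} ⊗ ⋯ ⊗ B_{s_k}` for each reduced expression
`w = s_1 ⋯ s_k`, and not a direct summand of any shift of `B_{t_1} ⊗ ⋯ ⊗ B_{t_j}` with
`j < ℓ(w)`. -/
structure IsB (V : Rlz cs) (w : W) (X : CB V.n) : Prop where
  conc : ∀ k t m, k ≠ 0 → X.pr k t m = 0
  diff : ∀ m, X.D m = 0
  nonzero : ∃ m : X.M, m ≠ 0
  indec : ∀ e : X.M →+ X.M, Hm X X 0 0 e → (∀ m, e (e m) = e m) →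
    (∀ m, e m = 0) ∨ (∀ m, e m = m)
  summand : ∀ l : List B, cs.IsReduced l → cs.wordProd l = w → Summand X (BSc (l.map V.rf)) 0
  new : ∀ l : List B, l.length < cs.length w → ∀ a, ¬ Summand X (BSc (l.map V.rf)) a

/-- the Bruhat order -/
def BruhatLe (cs : CoxeterSystem M W) (u v : W) : Prop :=
  Relation.ReflTransGen (fun x y => ∃ t, cs.IsReflection t ∧ cs.length x < cs.length (t * x) ∧
    y = t * x) u v

/-- the Rouquier complex of a word in the generators `𝐬, 𝐬⁻¹` of the braid group -/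
noncomputable def Rou (V : Rlz cs) (u : List (B × Bool)) : CB V.n :=
  F (u.map (fun a => (V.rf a.1, a.2)))

end RC
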