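import Mathlib
import Pool.Agent.EW.RC.Fin1
import Pool.Agent.EW.RC.Stmt

/-!
# Assembly (MP_d13a5e_al), part 3: the objects `B_z`
-/

set_option linter.unusedSectionVars false
set_option linter.style.haveILetI false

open MvPolynomial

namespace RC

/-- the functor `Th` on maps -/
def thMap {n : ℕ} {X Y : CB n} (φ : X.M →+ Y.M) : X.M × X.M →+ Y.M × Y.M :=
  AddMonoidHom.mk' (fun m => (φ m.1, φ m.2)) (by
    intro a b; ext <;> simp)

theorem thMap_Hm {n : ℕ} (ρ : Refl n) {X Y : CB n} {φ : X.M →+ Y.M} (h : Hm X Y 0 0 φ) :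
    Hm (Th ρ X) (Th ρ Y) 0 0 (thMap φ) := by
  refine ⟨⟨fun f m => ?_, fun f m => ?_⟩, fun k t m => ?_⟩
  · exact Prod.ext (h.1.1 f m.1) (h.1.1 f m.2)
  · refine Prod.ext ?_ ?_
    · change φ (X.r (ρ.pl f) m.1 + X.r (ρ.α * ρ.α * ρ.mi f) m.2) =
        Y.r (ρ.pl f) (φ m.1) + Y.r (ρ.α * ρ.α * ρ.mi f) (φ m.2)
      rw [map_add, h.1.2, h.1.2]
    · change φ (X.r (ρ.mi f) m.1 + X.r (ρ.pl f) m.2) =
        Y.r (ρ.mi f) (φ m.1) + Y.r (ρ.pl f) (φ m.2)
      rw [map_add, h.1.2, h.1.2]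
  · refine Prod.ext ?_ ?_
    · change Y.pr (k + 0) (t + 0 + 1) (φ m.1) = φ (X.pr k (t + 1) m.1)
      rw [← h.2]; congr 2; ring
    · change Y.pr (k + 0) (t + 0 - 1) (φ m.2) = φ (X.pr k (t - 1) m.2)
      rw [← h.2]; congr 2; ring

end RC

namespace EW

variable [Dat]

open RC FR2

theorem KLB_conc (z : Wg) (k t : ℤ) (m : (KLB z).M) (hk : k ≠ 0) : (KLB z).pr k t m = 0 := by
  change (if k = 0 ∧ 0 ≤ t + (len z : ℤ) ∧ (t + (len z : ℤ)) % 2 = 0 then
    cmp (KB z).O ((t + (len z : ℤ)) / 2).toNat m else 0) = 0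
  rw [if_neg (fun h => hk h.1)]

theorem KLB_nz (z : Wg) : ∃ m : (KLB z).M, m ≠ 0 := by
  obtain ⟨i, hi, hb⟩ := (KB z).b0_ne
  refine ⟨(KB z).b0, ?_⟩
  intro h
  apply hb
  have : ((KB z).b0 : (KB z).O.M) = 0 := h
  rw [this]
  rfl

theorem KLB_indec (z : Wg) (e : (KLB z).M →+ (KLB z).M) (he : Hm (KLB z) (KLB z) 0 0 e)
    (h2 : ∀ m, e (e m) = e m) : (∀ m, e m = 0) ∨ (∀ m, e m = m) := by
  obtain ⟨c, hc⟩ := KLB_scalar he
  obtain ⟨m₀, hm₀⟩ := KLB_nz z
  have h3 := h2 m₀
  rw [hc, hc, ← (KLB z).l_mul, ← C_mul] at h3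
  have h4 : (KLB z).l (C (c * c - c)) m₀ = 0 := by
    rw [C_sub, (KLB z).l_sub, h3, sub_self]
  have h5 : c * c - c = 0 := by
    by_contra hne
    apply hm₀
    have h6 : (KLB z).l (C (c * c - c)⁻¹) ((KLB z).l (C (c * c - c)) m₀) = m₀ := by
      rw [← (KLB z).l_mul, ← C_mul, inv_mul_cancel₀ hne, C_1, (KLB z).l_one]
    rw [h4, (KLB z).l_mz] at h6
    exact h6.symm
  have h6 : c * (c - 1) = 0 := by linarith
  rcases mul_eq_zero.mp h6 with h | h
  · left
    intro m
    rw [hc, h, C_0, (KLB z).l_zero]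
  · right
    intro m
    have : c = 1 := by linarith
    rw [hc, this, C_1, (KLB z).l_one]

/-- `BSc` as an object -/
theorem BSc_iso (l : List Sg) : ∃ (f : (BSc (l.map rfs)).M →+ (BS l.reverse).M)
    (g : (BS l.reverse).M →+ (BSc (l.map rfs)).M),
    Hm (BSc (l.map rfs)) (oc (BS l.reverse) l.length) 0 0 f ∧
    Hm (oc (BS l.reverse) l.length) (BSc (l.map rfs)) 0 0 g ∧
    (∀ x, g (f x) = x) ∧ (∀ y, f (g y) = y) := by
  induction l using List.reverseRecOn with
  | nil =>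
    obtain ⟨e, he, -, -⟩ := exists_emb ([] : List Sg)
    refine ⟨AddMonoidHom.mk' (fun (m : P Dat.n) => (⟨fun _ => m, trivial⟩ : Re.M))
      (by intro a b; rfl),
      AddMonoidHom.mk' (fun (m : Re.M) => m.1 ()) (by intro a b; rfl), ?_, ?_, ?_, ?_⟩
    · refine ⟨⟨fun f m => rfl, fun f m => ?_⟩, fun k t m => ?_⟩
      · have hm : ∀ m : P Dat.n, f * m = act 1 f * m := fun m => by rw [act_one]
        exact Subtype.ext (funext fun i => hm m)
      · refine Subtype.ext (funext fun i => ?_)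
        change (if k + 0 = 0 ∧ 0 ≤ t + 0 + ((0 : ℕ) : ℤ) ∧ (t + 0 + ((0 : ℕ) : ℤ)) % 2 = 0 then
          cmp Re ((t + 0 + ((0 : ℕ) : ℤ)) / 2).toNat (⟨fun _ => m, trivial⟩ : Re.M) else 0).1 i =
          (if k = 0 ∧ 0 ≤ t ∧ t % 2 = 0 then homogeneousComponent (t / 2).toNat m else 0)
        simp only [Nat.cast_zero, add_zero]
        split_ifs <;> rfl
    · refine ⟨⟨fun f m => rfl, fun f m => ?_⟩, fun k t m => ?_⟩
      · change act 1 f * m.1 () = f * m.1 ()
        rw [act_one]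
      · change (if k + 0 = 0 ∧ 0 ≤ t + 0 ∧ (t + 0) % 2 = 0 then
          homogeneousComponent ((t + 0) / 2).toNat (m.1 ()) else 0) =
          (if k = 0 ∧ 0 ≤ t + ((0 : ℕ) : ℤ) ∧ (t + ((0 : ℕ) : ℤ)) % 2 = 0 then
          cmp Re ((t + ((0 : ℕ) : ℤ)) / 2).toNat m else 0).1 ()
        simp only [Nat.cast_zero, add_zero]
        split_ifs <;> rfl
    · intro x; rfl
    · intro y; rfl
  | append_singleton l s ih =>
    obtain ⟨f, g, hf, hg, h1, h2⟩ := ih
    obtain ⟨f', g', hf', hg', h1', h2', -⟩ := th_oc s (BS l.reverse) l.length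
    have e1 : BSc ((l ++ [s]).map rfs) = Th (rfs s) (BSc (l.map rfs)) := by
      unfold BSc
      rw [List.map_append, List.foldl_append]
      rfl
    have e2 : (l ++ [s]).reverse = s :: l.reverse := by simp
    have e3 : (((l ++ [s]).length : ℕ) : ℤ) = (l.length : ℤ) + 1 := by simp
    rw [e1, e2, e3]
    change ∃ (f : (Th (rfs s) (BSc (l.map rfs))).M →+ (theta s (BS l.reverse)).M)
      (g : (theta s (BS l.reverse)).M →+ (Th (rfs s) (BSc (l.map rfs))).M),
      Hm (Th (rfs s) (BSc (l.map rfs))) (oc (theta s (BS l.reverse)) ((l.length : ℤ) + 1)) 0 0 f ∧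
      Hm (oc (theta s (BS l.reverse)) ((l.length : ℤ) + 1)) (Th (rfs s) (BSc (l.map rfs))) 0 0 g ∧
      (∀ x, g (f x) = x) ∧ (∀ y, f (g y) = y)
    have hf2 := thMap_Hm (rfs s) hf
    have hg2 := thMap_Hm (rfs s) hg
    refine ⟨f'.comp (thMap f), AddMonoidHom.comp (thMap g) g', ?_, ?_, ?_, ?_⟩
    · exact Hm.comp hf2 hf'
    · exact Hm.comp hg' hg2
    · intro x
      have h3 : g' (f' (thMap f x)) = thMap f x := h1' _
      change thMap g (g' (f' (thMap f x))) = x
      rw [h3]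
      exact Prod.ext (h1 x.1) (h1 x.2)
    · intro y
      have h3 : thMap f (thMap g (g' y)) = g' y := Prod.ext (h2 _) (h2 _)
      change f' (thMap f (thMap g (g' y))) = y
      rw [h3]
      exact h2' y

/-- `B_w` is a direct summand of the Bott-Samelson object of a reduced word -/
theorem KLB_summand (l : List Sg) (hl : len (wprod l) = l.length) :
    ∃ (i : (KB (wprod l)).O.M →ₗ[Rg] (BS l).M) (p : (BS l).M →ₗ[Rg] (KB (wprod l)).O.M),
      BiMap i ∧ DegMap i 0 ∧ BiMap p ∧ DegMap p 0 ∧ ∀ x, p (i x) = x := by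
  obtain ⟨φ, hφ, hφd, hφb⟩ := BS_lift l hl (KB (wprod l)).O (KB (wprod l)).nice 0
    (KB (wprod l)).b0 (KB (wprod l)).b0_mem (fun i hi => (KB (wprod l)).supp _ i hi)
  have hbg : ∀ l : List Sg, bg l ∈ (BS l).dg 0 := by
    intro l
    induction l with
    | nil => intro i; exact isHomogeneous_one _ _
    | cons s l ih =>
      exact (el_mem_dg0 (s := s) trivial (bg l) 0).2 ⟨ih, rfl⟩
  obtain ⟨ψ, hψ, hψd, hψb⟩ := (KB (wprod l)).lift (BS l)
    (Nice_BS (fun _ _ => trivial)) 0 (bg l) (hbg l) (fun i hi => BS_le l hl _ i hi)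
  obtain ⟨c, hc⟩ := KLObj.hom_scalar trivial (KB (wprod l)) (φ.comp ψ)
    (fun j m => by rw [LinearMap.comp_apply, hψ, hφ]; rfl)
    (by
      have := DP1.DegMap.comp hψd hφd (Or.inl (by norm_num))
      simpa using this)
  have h1 : ∀ i, (KB (wprod l)).O.π i = wprod l → (φ (ψ (KB (wprod l)).b0)).1 i =
      (KB (wprod l)).b0.1 i := by
    intro i hi
    rw [← hφb i hi]
    have h2 := hφ.vanish (m := ψ (KB (wprod l)).b0 - bg l) (y := wprod l) (fun k hk => by
      have := hψb k hk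
      change (ψ (KB (wprod l)).b0).1 k - (bg l).1 k = 0
      rw [this, sub_self]) i hi
    rw [map_sub] at h2
    have h3 : (φ (ψ (KB (wprod l)).b0)).1 i - (φ (bg l)).1 i = 0 := h2
    exact sub_eq_zero.mp h3
  obtain ⟨i₀, hi₀, hb₀⟩ := (KB (wprod l)).b0_ne
  have hc1 : c = 1 := by
    have h2 := h1 i₀ hi₀
    have h3 : (φ (ψ (KB (wprod l)).b0)).1 i₀ = C c * (KB (wprod l)).b0.1 i₀ := by
      have := hc (KB (wprod l)).b0
      rw [LinearMap.comp_apply] at this
      rw [this]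
      rfl
    rw [h3] at h2
    have h4 : (C (c - 1) : Rg) * (KB (wprod l)).b0.1 i₀ = 0 := by
      rw [C_sub, sub_mul, h2, C_1, one_mul, sub_self]
    rcases mul_eq_zero.mp h4 with h | h
    · have := (C_eq_zero (σ := Vx) (R := ℝ)).mp h
      linarith
    · exact absurd h hb₀
  refine ⟨ψ, φ, hψ, hψd, hφ, hφd, fun x => ?_⟩
  have := hc x
  rw [hc1, C_1, one_smul] at this
  exact this

/-- `B_w` is not a summand of a shorter Bott-Samelson object -/
theorem KLB_new (w : Wg) (l : List Sg) (hl : l.length < len w) (a b c d : ℤ)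
    {i : (KLB w).M →+ (oc (BS l) a).M} {p : (oc (BS l) a).M →+ (KLB w).M}
    (hi : Hm (KLB w) (oc (BS l) a) b c i) (hp : Hm (oc (BS l) a) (KLB w) b d p)
    (hpi : ∀ x, p (i x) = x) : False := by
  let p' : (BS l).M →ₗ[Rg] (KB w).O.M :=
    { toFun := p, map_add' := map_add p, map_smul' := fun f m => hp.1.1 f m }
  have hp' : BiMap p' := fun j m => hp.1.2 (X j) m
  obtain ⟨i₀, hi₀, hb⟩ := (KB w).b0_ne
  apply hb
  have h1 := hp'.vanish (m := i (KB w).b0) (y := w) (fun k hk => by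
    exfalso
    have := BS_len l k
    rw [hk] at this
    omega) i₀ hi₀
  have h2 : p' (i (KB w).b0) = (KB w).b0 := hpi _
  rw [h2] at h1
  exact h1

end EW

namespace RC

open EW

variable {B W : Type} [Group W] {M : CoxeterMatrix B} {cs : CoxeterSystem M W}

namespace Rlz

variable (V : Rlz cs) [Finite B]

theorem map_rfs (l : List B) : l.map (@rfs V.datOf) = l.map V.rf := by
  apply List.map_congr_left
  intro a _
  exact V.rfs_eq a

theorem isB_KLB (w : W) : IsB V w (@KLB V.datOf w) := by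
  letI := V.datOf
  refine ⟨fun k t m hk => KLB_conc w k t m hk, fun m => rfl, KLB_nz w,
    fun e he h2 => KLB_indec w e he h2, ?_, ?_⟩
  · rintro l hl rfl
    obtain ⟨f, g, hf, hg, h1, h2⟩ := BSc_iso l
    have hlr : len (wprod l.reverse) = l.reverse.length := by
      rw [V.wprod_reverse, List.length_reverse]
      exact hl
    obtain ⟨i, p, hi, hid, hp, hpd, hpi⟩ := KLB_summand l.reverse hlr
    have hw := V.wprod_reverse l
    have hle : (len (wprod l.reverse) : ℤ) = l.length := by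
      rw [hlr, List.length_reverse]
    have hI := hm_of_degMap (a := len (wprod l.reverse)) (b := l.length) hi hid
    have hP := hm_of_degMap (a := l.length) (b := len (wprod l.reverse)) hp hpd
    rw [hle] at hI hP
    simp only [sub_self, mul_zero, add_zero] at hI hP
    rw [← V.map_rfs, ← hw]
    have hK : KLB (wprod l.reverse) = oc (KB (wprod l.reverse)).O l.length := by
      unfold KLB
      rw [hle]
    rw [hK]
    refine ⟨g.comp i.toAddMonoidHom, p.toAddMonoidHom.comp f, ?_, ?_, ?_⟩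
    · exact Hm.comp hI hg
    · exact Hm.comp hf hP
    · intro x
      change p (f (g (i x))) = x
      rw [h2]
      exact hpi x
  · have key : ∀ (L : List (Refl V.n)) (l : List B) (a : ℤ), L = l.map rfs →
        l.length < cs.length w → ¬ Summand (KLB w) (BSc L) a := by
      rintro _ l a rfl hl ⟨i, p, hi, hp, hpi⟩
      obtain ⟨f, g, hf, hg, h1, h2⟩ := BSc_iso l
      exact KLB_new w l.reverse (by rw [List.length_reverse]; exact hl) _ _ _ _ (hi.comp hf)
        (hg.comp hp) (fun x => by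
          change p (g (f (i x))) = x
          rw [h1]
          exact hpi x)
    intro l hl a h
    exact key _ l a (V.map_rfs l).symm hl h

end Rlz

end RC
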