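import Mathlib
import Pool.Agent.EW.RC.Fin2

/-!
# Assembly (MP_d13a5e_al), part 4: the main theorem
-/

set_option linter.unusedSectionVars false
set_option linter.style.haveILetI false

open MvPolynomial

namespace RC

open EW

variable {B W : Type} [Group W] {M : CoxeterMatrix B} {cs : CoxeterSystem M W}

namespace Rlz

variable (V : Rlz cs) [Finite B]

theorem Rou_eq (u : List (B × Bool)) : Rou V u = F (@lw V.datOf u) := by
  unfold Rou
  rw [V.lw_eq]

theorem main {r} (hr : V.ReflOrder r) {A : Set (Fin V.n → ℝ)} (hA : V.InitSec r A)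
    (l : List B) (hl : cs.IsReduced l) (u : List (B × Bool)) (hu : BEq M u (V.mik A l))
    (X : CB V.n) (hX : HE X (Rou V u)) (hmin : Minimal X) :
    ∃ (ι : Type) (_ : Fintype ι) (_ : DecidableEq ι) (z : ι → W) (k : ι → ℤ)
      (i : ∀ j, (@KLB V.datOf (z j)).M →+ X.M) (p : ∀ j, X.M →+ (@KLB V.datOf (z j)).M),
      Fam (fun j => @KLB V.datOf (z j)) k k X Finset.univ (AddMonoidHom.id _) i p ∧
      (∃! j, z j = cs.wordProd l) ∧ (∀ j, z j = cs.wordProd l → k j = 0) ∧
      (∀ j, BruhatLe cs (z j) (cs.wordProd l)) ∧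
      ∀ j, (k j - ((cs.length (z j) : ℤ) - cs.length (cs.wordProd l))) % 2 = 0 := by
  classical
  letI := V.datOf
  rw [V.Rou_eq] at hX
  have hX2 : HE (Fr (V.mik A l).reverse) X := by
    rw [← F_lw]
    exact HE.symm (HE.trans hX (V.HE_of_BEq hu))
  obtain ⟨d, h1, h2, -, h4⟩ := Fr_dcm (V.mik A l).reverse
  have hw : wprod (((V.mik A l).reverse).map Prod.fst) = cs.wordProd l := by
    have e1 : ((V.mik A l).reverse).map Prod.fst = l.reverse := by
      rw [List.map_reverse, V.mik_fst]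
    exact (congrArg wprod e1).trans (V.wprod_reverse l)
  have hlen : ((V.mik A l).reverse).length = cs.length (cs.wordProd l) := by
    rw [List.length_reverse, ← List.length_map (f := Prod.fst), V.mik_fst, hl]
  rw [hw] at h4
  rw [hlen] at h1 h2 h4
  obtain ⟨h5, h6⟩ := h4 rfl
  obtain ⟨S, e, i', p', hF, hC, he, hN, hm, hnot⟩ := gauss (KLB_krs d.z) d.fam
  have hle : ∀ r ∈ S, d.k r ≤ d.m r := by
    apply lin_le (KLB_krs d.z) hF hC hm
    intro r a b hab
    have := V.VanW_mik hr hA l hl (d.z r) a b hab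
    rw [F_lw] at this
    exact this
  have hge : ∀ r ∈ S, d.m r ≤ d.k r := by
    apply lin_ge (KLB_krs d.z) hF hC hm
    intro r a b hab
    have := V.VanW'_mik hr hA l hl (d.z r) a b hab
    rw [F_lw] at this
    exact this
  have heq : ∀ r ∈ S, d.m r = d.k r := fun r hr => le_antisymm (hge r hr) (hle r hr)
  have hF' : Fam (fun r => KLB (d.z r)) d.k d.k (Fr (V.mik A l).reverse) S e i' p' := by
    refine ⟨fun r hr => ?_, fun r hr => ?_, hF.pi, hF.orth, hF.sum⟩
    · rw [← heq r hr]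
      have := hF.hi r hr
      rw [heq r hr] at this ⊢
      exact this
    · have := hF.hp r hr
      rw [heq r hr] at this
      exact this
  obtain ⟨i'', p'', hG⟩ := transfer (KLB_krs d.z) hF' hC hN hX2 hmin
  refine ⟨{r // r ∈ S}, inferInstance, inferInstance, fun r => d.z r.1, fun r => d.k r.1,
    fun r => i'' r.1, fun r => p'' r.1, ?_, ?_, ?_, ?_, ?_⟩
  · refine ⟨fun r _ => hG.hi r.1 r.2, fun r _ => hG.hp r.1 r.2, fun r _ => hG.pi r.1 r.2,
      fun r _ q _ hrq => hG.orth r.1 r.2 q.1 q.2 (fun h => hrq (Subtype.ext h)), fun x => ?_⟩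
    rw [← hG.sum x]
    exact (Finset.sum_coe_sort S (fun r => i'' r (p'' r x)))
  · obtain ⟨r0, hr0, huniq⟩ := h6
    have hr0S : r0 ∈ S := by
      by_contra hcon
      obtain ⟨q, hq, φ, hφ, hφ0⟩ := hnot r0 hcon
      have := KLB_zero hφ hφ0
      exact hq (huniq q (this.symm.trans hr0))
    exact ⟨⟨r0, hr0S⟩, hr0, fun q hq => Subtype.ext (huniq q.1 hq)⟩
  · intro r hr
    have := h1 r.1
    have hr' : d.z r.1 = cs.wordProd l := hr
    rw [hr'] at this
    change ((cs.length (cs.wordProd l) : ℕ) : ℤ) + |d.k r.1| ≤ _ at this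
    have h7 := abs_nonneg (d.k r.1)
    have h8 : |d.k r.1| ≤ 0 := by
      have h9 : ((cs.length (cs.wordProd l) : ℕ) : ℤ) + |d.k r.1| ≤
        ((cs.length (cs.wordProd l) : ℕ) : ℤ) := this
      linarith
    exact abs_eq_zero.mp (le_antisymm h8 h7)
  · intro r
    have := h5 r.1
    exact this
  · intro r
    have h7 := h2 r.1
    rw [heq r.1 r.2] at h7
    change ((cs.length (d.z r.1) : ℤ) + d.k r.1 + cs.length (cs.wordProd l)) % 2 = 0 at h7
    change (d.k r.1 - ((cs.length (d.z r.1) : ℤ) - cs.length (cs.wordProd l))) % 2 = 0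
    omega

end Rlz

end RC
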