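import Mathlib
import Pool.Agent.EW.RC.Fin3

/-!
# Assembly (MP_d13a5e_al), part 5: existence of minimal complexes
-/

set_option linter.unusedSectionVars false

open MvPolynomial

namespace RC

variable {n : ℕ}

/-- the fixed elements of an endomorphism -/
def fixG {M : Type} [AddCommGroup M] (e : M →+ M) : AddSubgroup M where
  carrier := {x | e x = x}
  add_mem' {a b} ha hb := by
    have ha' : e a = a := ha
    have hb' : e b = b := hb
    change e (a + b) = a + b
    rw [map_add, ha', hb']
  zero_mem' := map_zero e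
  neg_mem' {a} ha := by
    have ha' : e a = a := ha
    change e (-a) = -a
    rw [map_neg, ha']

theorem Hm.pr0 {X Y : CB n} {φ : X.M →+ Y.M} (h : Hm X Y 0 0 φ) (k t : ℤ) (m : X.M) :
    Y.pr k t (φ m) = φ (X.pr k t m) := by
  have := h.2 k t m
  rwa [add_zero, add_zero] at this

/-- the image of an idempotent endomorphism of a complex -/
noncomputable def im (X : CB n) (e : X.M →+ X.M) (he : Ch X X e) : CB n where
  M := fixG e
  l := mkAct (fun f m => ⟨X.l f m.1, by
      have h : e m.1 = m.1 := m.2
      change e (X.l f m.1) = X.l f m.1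
      rw [he.1.1.1, h]⟩)
    (fun f a b => Subtype.ext (X.l_ma _ _ _)) (fun a => Subtype.ext (X.l_one _))
    (fun f g a => Subtype.ext (X.l_mul _ _ _)) (fun f g a => Subtype.ext (X.l_add _ _ _))
  r := mkAct (fun f m => ⟨X.r f m.1, by
      have h : e m.1 = m.1 := m.2
      change e (X.r f m.1) = X.r f m.1
      rw [he.1.1.2, h]⟩)
    (fun f a b => Subtype.ext (X.r_ma _ _ _)) (fun a => Subtype.ext (X.r_one _))
    (fun f g a => Subtype.ext (X.r_mul _ _ _)) (fun f g a => Subtype.ext (X.r_add _ _ _))
  lr f g m := Subtype.ext (X.lr _ _ _)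
  lrC c m := Subtype.ext (X.lrC _ _)
  pr k t := mkEnd (fun m => ⟨X.pr k t m.1, by
      have h : e m.1 = m.1 := m.2
      change e (X.pr k t m.1) = X.pr k t m.1
      rw [← he.1.pr0, h]⟩) (fun a b => Subtype.ext (X.pr_ma _ _ _ _))
  pr_pr k t k' t' m := by
    apply Subtype.ext
    have := X.pr_pr k t k' t' m.1
    change X.pr k t (X.pr k' t' m.1) = _
    rw [this]
    split_ifs <;> rfl
  pr_fin m := by
    refine (X.pr_fin m.1).subset ?_
    intro p hp h
    exact hp (Subtype.ext h)
  pr_ext m h := Subtype.ext (X.pr_ext m.1 (fun k t => congrArg Subtype.val (h k t)))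
  pr_lX k t j m := Subtype.ext (X.pr_lX k t j m.1)
  pr_rX k t j m := Subtype.ext (X.pr_rX k t j m.1)
  pr_lC k t c m := Subtype.ext (X.pr_lC k t c m.1)
  D := mkEnd (fun m => ⟨X.D m.1, by
      have h : e m.1 = m.1 := m.2
      change e (X.D m.1) = X.D m.1
      rw [← he.2, h]⟩) (fun a b => Subtype.ext (X.D_ma _ _))
  D_l f m := Subtype.ext (X.D_l _ _)
  D_r f m := Subtype.ext (X.D_r _ _)
  D_D m := Subtype.ext (X.D_D _)
  D_pr k t m := Subtype.ext (X.D_pr _ _ _)

/-- the inclusion of the image -/
noncomputable def imI (X : CB n) (e : X.M →+ X.M) (he : Ch X X e) : (im X e he).M →+ X.M :=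
  (fixG e).subtype

/-- the projection to the image -/
noncomputable def imP (X : CB n) (e : X.M →+ X.M) (he : Ch X X e) (h2 : ∀ x, e (e x) = e x) :
    X.M →+ (im X e he).M :=
  AddMonoidHom.mk' (fun x => (⟨e x, h2 x⟩ : fixG e)) (fun a b => Subtype.ext (map_add e a b))

theorem imI_Ch (X : CB n) (e : X.M →+ X.M) (he : Ch X X e) : Ch (im X e he) X (imI X e he) := by
  refine ⟨⟨⟨fun f m => rfl, fun f m => rfl⟩, fun k t m => ?_⟩, fun m => rfl⟩
  rw [add_zero, add_zero]
  rfl

theorem imP_Ch (X : CB n) (e : X.M →+ X.M) (he : Ch X X e) (h2 : ∀ x, e (e x) = e x) :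
    Ch X (im X e he) (imP X e he h2) := by
  refine ⟨⟨⟨fun f m => Subtype.ext (he.1.1.1 f m), fun f m => Subtype.ext (he.1.1.2 f m)⟩,
    fun k t m => ?_⟩, fun m => Subtype.ext (he.2 m)⟩
  rw [add_zero, add_zero]
  exact Subtype.ext (he.1.pr0 k t m)

theorem HE_im (X : CB n) (e : X.M →+ X.M) (he : Ch X X e) (h2 : ∀ x, e (e x) = e x)
    (hN : Nul X X (e - AddMonoidHom.id _)) : HE (im X e he) X := by
  refine ⟨imI X e he, imP X e he h2, imI_Ch X e he, imP_Ch X e he h2, ?_, ?_⟩
  · have h0 : (imP X e he h2).comp (imI X e he) - AddMonoidHom.id _ = 0 := by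
      ext1 m
      have hm : e m.1 = m.1 := m.2
      change imP X e he h2 (imI X e he m) - m = 0
      rw [sub_eq_zero]
      exact Subtype.ext hm
    rw [h0]
    exact Nul.zero _ _
  · exact hN

/-- a complex with a linear decomposition is minimal -/
theorem minimal_of_fam {ι : Type} [Fintype ι] [DecidableEq ι] {B : ι → CB n} (hB : Krs B)
    {k : ι → ℤ} {X : CB n} {i : ∀ r, (B r).M →+ X.M} {p : ∀ r, X.M →+ (B r).M}
    (hF : Fam B k k X Finset.univ (AddMonoidHom.id _) i p) : Minimal X := by
  have key : ∀ h : X.M →+ X.M, Hm X X (-1) 0 h → ∀ x, h x = 0 := by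
    intro h hh x
    have h1 : ∀ q r x, p q (h (i r x)) = 0 := by
      intro q r x
      have h3 := ((hF.hi r (Finset.mem_univ r)).comp hh).comp (hF.hp q (Finset.mem_univ q))
      by_cases hk : k q = k r - 1
      · have h4 : Hm (B r) (B q) 0 (-1) ((p q).comp (h.comp (i r))) := by
          have e1 : k r + -1 + -k q = 0 := by rw [hk]; ring
          have e2 : -k r + 0 + k q = -1 := by rw [hk]; ring
          rw [e1, e2] at h3
          exact h3
        have := hB.neg r q (-1) _ (by norm_num) h4
        exact DFunLike.congr_fun this x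
      · apply (B q).pr_ext
        intro a b
        by_cases ha : a = 0
        · subst ha
          have h5 := h3.2 (-(k r + -1 + -k q)) (b - (-k r + 0 + k q)) x
          have e1 : -(k r + -1 + -k q) + (k r + -1 + -k q) = 0 := by ring
          have e2 : b - (-k r + 0 + k q) + (-k r + 0 + k q) = b := by ring
          rw [e1, e2, hB.conc r _ _ _ (by omega), map_zero] at h5
          exact h5
        · exact hB.conc q a b _ ha
    have h2 : ∀ r x, h (i r x) = 0 := by
      intro r x
      have := hF.sum (h (i r x))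
      rw [AddMonoidHom.id_apply] at this
      rw [← this]
      apply Finset.sum_eq_zero
      intro q _
      rw [h1, map_zero]
    have := hF.sum x
    rw [AddMonoidHom.id_apply] at this
    rw [← this, map_sum]
    apply Finset.sum_eq_zero
    intro r _
    rw [h2]
  intro Y i' p' hi' hp' hpi ⟨h, hh, h1⟩ y
  have h2 := key (i'.comp (h.comp p')) (by
    have := (hp'.1.comp hh).comp hi'.1
    simpa using this)
  have h3 : ∀ y, h y = 0 := by
    intro y
    have h4 := h2 (i' y)
    change i' (h (p' (i' y))) = 0 at h4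
    rw [hpi] at h4
    have h5 := congrArg p' h4
    rw [hpi, map_zero] at h5
    exact h5
  have h4 := h1 y
  rw [h3, h3, map_zero, add_zero] at h4
  exact h4

end RC
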