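import Mathlib
import Pool.Agent.EW.RC.Fin4

/-!
# Assembly (MP_d13a5e_al), part 6: existence of the minimal complex
-/

set_option linter.unusedSectionVars false
set_option linter.style.haveILetI false

open MvPolynomial

namespace RC

/-- a family over `X` restricts to the image of `e` -/
theorem Fam.im {n : ℕ} {ι : Type} [DecidableEq ι] {B : ι → CB n} {k : ι → ℤ} {X : CB n}
    {S : Finset ι} {e : X.M →+ X.M} {i : ∀ r, (B r).M →+ X.M} {p : ∀ r, X.M →+ (B r).M}
    (hF : Fam B k k X S e i p) (he : Ch X X e) (h2 : ∀ x, e (e x) = e x) :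
    Fam (fun r : {r // r ∈ S} => B r.1) (fun r => k r.1) (fun r => k r.1) (RC.im X e he)
      Finset.univ (AddMonoidHom.id _) (fun r => (imP X e he h2).comp (i r.1))
      (fun r => (p r.1).comp (imI X e he)) := by
  have hei : ∀ r ∈ S, ∀ x, e (i r x) = i r x := fun r hr x => hF.e_i hr x
  refine ⟨fun r _ => ?_, fun r _ => ?_, fun r _ x => ?_, fun r _ q _ hrq x => ?_, fun x => ?_⟩
  · have := (hF.hi r.1 r.2).comp (imP_Ch X e he h2).1
    simpa using this
  · have := (imI_Ch X e he).1.comp (hF.hp r.1 r.2)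
    simpa using this
  · change p r.1 (e (i r.1 x)) = x
    rw [hei r.1 r.2, hF.pi r.1 r.2]
  · change p q.1 (e (i r.1 x)) = 0
    rw [hei r.1 r.2, hF.orth r.1 r.2 q.1 q.2 (fun h => hrq (Subtype.ext h))]
  · have hx : e x.1 = x.1 := x.2
    apply Subtype.ext
    have h3 : ∀ T : Finset {r // r ∈ S},
        (((∑ r ∈ T, ((imP X e he h2).comp (i r.1)) (((p r.1).comp (imI X e he)) x) :
          (RC.im X e he).M)) : fixG e).1 = ∑ r ∈ T, i r.1 (p r.1 x.1) := by
      intro T
      induction T using Finset.induction_on with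
      | empty => rfl
      | insert a T ha ih =>
        rw [Finset.sum_insert ha, Finset.sum_insert ha, ← ih]
        change e (i a.1 (p a.1 x.1)) + _ = _
        rw [hei a.1 a.2]
    rw [h3]
    have h4 := hF.sum x.1
    rw [hx] at h4
    exact (Finset.sum_coe_sort S (fun r => i r (p r x.1))).trans h4

open EW

variable {B W : Type} [Group W] {M : CoxeterMatrix B} {cs : CoxeterSystem M W}

namespace Rlz

variable (V : Rlz cs) [Finite B]

/-- the Rouquier complex has a minimal complex -/
theorem exists_minimal {r} (hr : V.ReflOrder r) {A : Set (Fin V.n → ℝ)} (hA : V.InitSec r A)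
    (l : List B) (hl : cs.IsReduced l) (u : List (B × Bool)) (hu : BEq M u (V.mik A l)) :
    ∃ X : CB V.n, HE X (Rou V u) ∧ Minimal X := by
  classical
  letI := V.datOf
  obtain ⟨d, -, -, -, -⟩ := Fr_dcm (V.mik A l).reverse
  obtain ⟨S, e, i', p', hF, hC, he, hN, hm, -⟩ := gauss (KLB_krs d.z) d.fam
  have hle : ∀ r ∈ S, d.k r ≤ d.m r := by
    apply lin_le (KLB_krs d.z) hF hC hm
    intro r a b hab
    have := V.VanW_mik hr hA l hl (d.z r) a b hab
    rw [F_lw] at this
    exact this
  have hge : ∀ r ∈ S, d.m r ≤ d.k r := by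
    apply lin_ge (KLB_krs d.z) hF hC hm
    intro r a b hab
    have := V.VanW'_mik hr hA l hl (d.z r) a b hab
    rw [F_lw] at this
    exact this
  have heq : ∀ r ∈ S, d.m r = d.k r := fun r hr => le_antisymm (hge r hr) (hle r hr)
  have hF' : Fam (fun r => KLB (d.z r)) d.k d.k (Fr (V.mik A l).reverse) S e i' p' := by
    refine ⟨fun r hr => ?_, fun r hr => ?_, hF.pi, hF.orth, hF.sum⟩
    · have := hF.hi r hr
      rw [heq r hr] at this
      exact this
    · have := hF.hp r hr
      rw [heq r hr] at this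
      exact this
  refine ⟨RC.im _ e hC, ?_, ?_⟩
  · rw [V.Rou_eq]
    have h1 := HE_im _ e hC he hN
    have h2 := V.HE_of_BEq hu
    have h3 : HE (F (@lw V.datOf (V.mik A l))) (F (@lw V.datOf u)) := HE.symm h2
    rw [F_lw (V.mik A l)] at h3
    exact HE.trans h1 h3
  · exact minimal_of_fam (KLB_krs (fun r : {r // r ∈ S} => d.z r.1)) (hF'.im hC he)

end Rlz

end RC
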