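import Mathlib

/-!
# Definitions for the statement (MP_d13a5e_al)

`R = ℝ[x_0,…,x_{n-1}]`, `deg x_i = 2`. A complex of graded `R`-bimodules is encoded by its total
bimodule `⨁ X^k_t` (`k` homological degree, `t` internal degree) with a differential of
bidegree `(1,0)`.
-/

open MvPolynomial

namespace RS

/-- the polynomial ring `ℝ[x_0,…,x_{n-1}]` -/
abbrev P (n : ℕ) : Type := MvPolynomial (Fin n) ℝ

/-- data of a complex of graded `R`-bimodules: left and right actions, projections to the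
bigraded pieces, differential -/
structure Raw (n : ℕ) where
  M : Type
  [ag : AddCommGroup M]
  l : P n → M → M
  r : P n → M → M
  pr : ℤ → ℤ → M → M
  D : M → M

attribute [instance] Raw.ag

/-- `f` is additive -/
def Add {M : Type} [AddCommGroup M] (f : M → M) : Prop := ∀ a b, f (a + b) = f a + f b

/-- `a` is an action of `R` on `M` -/
def Act {n : ℕ} {M : Type} [AddCommGroup M] (a : P n → M → M) : Prop :=
  (∀ f, Add (a f)) ∧ (∀ m, a 1 m = m) ∧ (∀ f g m, a (f * g) m = a f (a g m)) ∧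
    ∀ f g m, a (f + g) m = a f m + a g m

variable {n : ℕ}

/-- `M` is a bimodule, on which the two actions of `ℝ` agree -/
def Bim (X : Raw n) : Prop :=
  Act X.l ∧ Act X.r ∧ (∀ f g m, X.l f (X.r g m) = X.r g (X.l f m)) ∧
    ∀ (c : ℝ) m, X.l (C c) m = X.r (C c) m

/-- `M = ⨁_{k,t} M^k_t`, with projections `pr k t` -/
def Grd (X : Raw n) : Prop :=
  (∀ k t, Add (X.pr k t)) ∧
    (∀ k t k' t' m, X.pr k t (X.pr k' t' m) = if k = k' ∧ t = t' then X.pr k t m else 0) ∧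
    (∀ m, {p : ℤ × ℤ | X.pr p.1 p.2 m ≠ 0}.Finite) ∧ ∀ m, (∀ k t, X.pr k t m = 0) → m = 0

/-- `x_j M^k_t ⊆ M^k_{t+2}`, `M^k_t x_j ⊆ M^k_{t+2}` -/
def Cpt (X : Raw n) : Prop :=
  (∀ k t j m, X.pr k (t + 2) (X.l (MvPolynomial.X j) m) = X.l (MvPolynomial.X j) (X.pr k t m)) ∧
    (∀ k t j m, X.pr k (t + 2) (X.r (MvPolynomial.X j) m) = X.r (MvPolynomial.X j) (X.pr k t m)) ∧
    ∀ k t (c : ℝ) m, X.pr k t (X.l (C c) m) = X.l (C c) (X.pr k t m)

/-- `D` is a bimodule endomorphism, `D² = 0`, `D M^k_t ⊆ M^{k+1}_t` -/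
def Dif (X : Raw n) : Prop :=
  Add X.D ∧ (∀ f m, X.D (X.l f m) = X.l f (X.D m)) ∧ (∀ f m, X.D (X.r f m) = X.r f (X.D m)) ∧
    (∀ m, X.D (X.D m) = 0) ∧ ∀ k t m, X.pr (k + 1) t (X.D m) = X.D (X.pr k t m)

/-- `X` is a complex of graded bimodules -/
def IsCx (X : Raw n) : Prop := Bim X ∧ Grd X ∧ Cpt X ∧ Dif X

/-- `φ` is a homomorphism of bimodules of bidegree `(p,e)`: `φ(X^k_t) ⊆ Y^{k+p}_{t+e}` -/
def Hm (X Y : Raw n) (p e : ℤ) (φ : X.M →+ Y.M) : Prop :=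
  (∀ f m, φ (X.l f m) = Y.l f (φ m)) ∧ (∀ f m, φ (X.r f m) = Y.r f (φ m)) ∧
    ∀ k t m, Y.pr (k + p) (t + e) (φ m) = φ (X.pr k t m)

/-- `φ` is a morphism of complexes -/
def Ch (X Y : Raw n) (φ : X.M →+ Y.M) : Prop := Hm X Y 0 0 φ ∧ ∀ m, Y.D (φ m) = φ (X.D m)

/-- `φ` is null-homotopic -/
def Nul (X Y : Raw n) (φ : X.M → Y.M) : Prop :=
  ∃ h : X.M →+ Y.M, Hm X Y (-1) 0 h ∧ ∀ m, φ m = Y.D (h m) + h (X.D m)

/-- `X` and `Y` are homotopy equivalent -/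
def HE (X Y : Raw n) : Prop :=
  ∃ (f : X.M →+ Y.M) (g : Y.M →+ X.M), Ch X Y f ∧ Ch Y X g ∧
    Nul X X (fun m => g (f m) - m) ∧ Nul Y Y (fun m => f (g m) - m)

/-- `X` is minimal: it has no nonzero contractible direct summand -/
def Minimal (X : Raw n) : Prop :=
  ∀ (Y : Raw n) (i : Y.M →+ X.M) (p : X.M →+ Y.M), IsCx Y → Ch Y X i → Ch X Y p →
    (∀ y, p (i y) = y) → Nul Y Y (fun m => m) → ∀ y : Y.M, y = 0

/-- an automorphism `σ` of `R` and a linear form `α` -/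
structure Rf (n : ℕ) where
  σ : P n → P n
  α : P n

/-- the invariant part `(f + σ f)/2` of `f` -/
noncomputable def pl (ρ : Rf n) (f : P n) : P n := C (1/2) * (f + ρ.σ f)

/-- `(f - σ f)/(2α)` -/
noncomputable def mi (ρ : Rf n) (f : P n) : P n :=
  Classical.epsilon (fun g => ρ.α * g = C (1/2) * (f - ρ.σ f))

/-- the first coordinate of `(a ⊗ 1 + b ⊗ α) f` -/
noncomputable def r1 (ρ : Rf n) (X : Raw n) (f : P n) (a b : X.M) : X.M :=
  X.r (pl ρ f) a + X.r (ρ.α * ρ.α * mi ρ f) b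

/-- the second coordinate of `(a ⊗ 1 + b ⊗ α) f` -/
noncomputable def r2 (ρ : Rf n) (X : Raw n) (f : P n) (a b : X.M) : X.M :=
  X.r (mi ρ f) a + X.r (pl ρ f) b

/-- `X ⊗ B_s = X ⊗_{R^s} R(1)`, elements `(a, b) = a ⊗ 1 + b ⊗ α` -/
noncomputable def Th (ρ : Rf n) (X : Raw n) : Raw n where
  M := X.M × X.M
  l f m := (X.l f m.1, X.l f m.2)
  r f m := (r1 ρ X f m.1 m.2, r2 ρ X f m.1 m.2)
  pr k t m := (X.pr k (t + 1) m.1, X.pr k (t - 1) m.2)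
  D m := (X.D m.1, X.D m.2)

/-- `X ⊗ F_s`, `F_s = (B_s → R(1))` with `B_s` in homological degree `0`; the element
`(a, b, c)` is `(a ⊗ 1 + b ⊗ α) + c`; the map `B_s → R(1)` is `f ⊗ g ↦ f g` -/
noncomputable def PF (ρ : Rf n) (X : Raw n) : Raw n where
  M := X.M × X.M × X.M
  l f m := (X.l f m.1, X.l f m.2.1, X.l f m.2.2)
  r f m := (r1 ρ X f m.1 m.2.1, r2 ρ X f m.1 m.2.1, X.r f m.2.2)
  pr k t m := (X.pr k (t + 1) m.1, X.pr k (t - 1) m.2.1, X.pr (k - 1) (t + 1) m.2.2)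
  D m := (X.D m.1, X.D m.2.1, m.1 + X.r ρ.α m.2.1 - X.D m.2.2)

/-- `X ⊗ E_s`, `E_s = (R(-1) → B_s)` with `B_s` in homological degree `0`; the element
`(a, b, c)` is `(a ⊗ 1 + b ⊗ α) + c`; the map `R(-1) → B_s` is `1 ↦ (α ⊗ 1 + 1 ⊗ α)/2` -/
noncomputable def PE (ρ : Rf n) (X : Raw n) : Raw n where
  M := X.M × X.M × X.M
  l f m := (X.l f m.1, X.l f m.2.1, X.l f m.2.2)
  r f m := (r1 ρ X f m.1 m.2.1, r2 ρ X f m.1 m.2.1, X.r f m.2.2)
  pr k t m := (X.pr k (t + 1) m.1, X.pr k (t - 1) m.2.1, X.pr (k + 1) (t - 1) m.2.2)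
  D m := (X.D m.1 + X.r (C (1/2) * ρ.α) m.2.2, X.D m.2.1 + X.r (C (1/2)) m.2.2, -X.D m.2.2)

/-- the bimodule `R` -/
noncomputable def one (n : ℕ) : Raw n where
  M := P n
  l f m := f * m
  r f m := f * m
  pr k t m := if k = 0 ∧ 0 ≤ t ∧ t % 2 = 0 then homogeneousComponent (t / 2).toNat m else 0
  D _ := 0

end RS
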