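import Mathlib
import Pool.Agent.EW.RC.SD
import Pool.Agent.EW.RC.C0

/-!
# Definitions for the statement (MP_d13a5e_al), part 2
-/

open MvPolynomial

namespace RS

/-- the graded bimodule `B` (in homological degree `0`) is a direct summand of the graded
bimodule `X(-a)` -/
def Summand {n : ℕ} (B X : Raw n) (a : ℤ) : Prop :=
  ∃ (i : B.M →+ X.M) (p : X.M →+ B.M), Hm B X 0 a i ∧ Hm X B 0 (-a) p ∧ ∀ x, p (i x) = x

variable {B W : Type} [Group W] {M : CoxeterMatrix B} {cs : CoxeterSystem M W}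

/-- the action of `s` on `R = S(V*)`, and `α_s` -/
noncomputable def rf (V : RC.Rlz cs) (s : B) : Rf V.n where
  σ f := aeval (fun i => RC.Rlz.lf (V.ρ (cs.simple s) (Pi.single i 1))) f
  α := RC.Rlz.lf (V.α s)

/-- the Bott-Samelson bimodule `B_{s_1} ⊗ ⋯ ⊗ B_{s_k}` -/
noncomputable def BS (V : RC.Rlz cs) (l : List B) : Raw V.n :=
  l.foldl (fun Y s => Th (rf V s) Y) (one V.n)

/-- the Rouquier complex of a word in the generators `𝐬, 𝐬⁻¹` of the braid group, the tensor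
product of the complexes `F_s` (for `(s, true)`) and `E_s` (for `(s, false)`) -/
noncomputable def Rou (V : RC.Rlz cs) (u : List (B × Bool)) : Raw V.n :=
  u.foldl (fun Y a => if a.2 then PF (rf V a.1) Y else PE (rf V a.1) Y) (one V.n)

/-- `X` is the indecomposable Soergel bimodule `B_w`: a nonzero indecomposable graded bimodule
which is a direct summand of `B_{s_1} ⊗ ⋯ ⊗ B_{s_k}` for each reduced expression
`w = s_1 ⋯ s_k`, and not a direct summand of any shift of `B_{t_1} ⊗ ⋯ ⊗ B_{t_j}` with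
`j < ℓ(w)`. -/
structure IsB (V : RC.Rlz cs) (w : W) (X : Raw V.n) : Prop where
  cx : IsCx X
  conc : ∀ k t m, k ≠ 0 → X.pr k t m = 0
  diff : ∀ m, X.D m = 0
  nonzero : ∃ m : X.M, m ≠ 0
  indec : ∀ e : X.M →+ X.M, Hm X X 0 0 e → (∀ m, e (e m) = e m) →
    (∀ m, e m = 0) ∨ (∀ m, e m = m)
  summand : ∀ l : List B, cs.IsReduced l → cs.wordProd l = w → Summand X (BS V l) 0
  new : ∀ l : List B, l.length < cs.length w → ∀ a, ¬ Summand X (BS V l) a

/-- the Bruhat order -/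
def Bru (cs : CoxeterSystem M W) (u v : W) : Prop :=
  Relation.ReflTransGen (fun x y => ∃ t, cs.IsReflection t ∧ cs.length x < cs.length (t * x) ∧
    y = t * x) u v

/-- `X` is, as a bigraded bimodule, the direct sum of the objects `B_{z_j}(k_j)[-k_j]`,
`j < N`, with inclusions `i_j` and projections `p_j` -/
def IsSum {n : ℕ} (Bz : W → Raw n) (X : Raw n) (N : ℕ) (z : Fin N → W) (k : Fin N → ℤ) : Prop :=
  ∃ (i : ∀ j, (Bz (z j)).M →+ X.M) (p : ∀ j, X.M →+ (Bz (z j)).M),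
    (∀ j, Hm (Bz (z j)) X (k j) (-k j) (i j)) ∧ (∀ j, Hm X (Bz (z j)) (-k j) (k j) (p j)) ∧
    (∀ j x, p j (i j x) = x) ∧ (∀ j j', j ≠ j' → ∀ x, p j' (i j x) = 0) ∧
    ∀ x, ∑ j, i j (p j x) = x

/-- the conditions (1), (2), (3): `X` is, as a bigraded bimodule, a finite direct sum of objects
`B_z(k)[-k]` with `z ≤ w` in the Bruhat order and `k ≡ ℓ(z) - ℓ(w)` modulo `2`, where `B_w`
occurs exactly once, with `k = 0` -/
def Linear {n : ℕ} (cs : CoxeterSystem M W) (Bz : W → Raw n) (w : W) (X : Raw n) : Prop :=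
  ∃ (N : ℕ) (z : Fin N → W) (k : Fin N → ℤ), IsSum Bz X N z k ∧ (∃! j, z j = w) ∧
    (∀ j, z j = w → k j = 0) ∧ (∀ j, Bru cs (z j) w) ∧
    ∀ j, (k j - ((cs.length (z j) : ℤ) - cs.length w)) % 2 = 0

end RS
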