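import Mathlib
import Pool.Agent.EW.RC.Fin5
import Pool.Agent.EW.RC.SD2

/-!
# Assembly (MP_d13a5e_al), part 7: translation to the definitions of the statement
-/

set_option linter.unusedSectionVars false

open MvPolynomial

namespace RS

variable {n : ℕ}

/-- the data of a complex -/
noncomputable def raw (X : RC.CB n) : Raw n where
  M := X.M
  l f m := X.l f m
  r f m := X.r f m
  pr k t m := X.pr k t m
  D m := X.D m

theorem raw_isCx (X : RC.CB n) : IsCx (raw X) := by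
  refine ⟨⟨⟨fun f a b => X.l_ma _ _ _, fun m => X.l_one m, fun f g m => X.l_mul f g m,
      fun f g m => X.l_add f g m⟩, ⟨fun f a b => X.r_ma _ _ _, fun m => X.r_one m,
      fun f g m => X.r_mul f g m, fun f g m => X.r_add f g m⟩, X.lr, X.lrC⟩,
    ⟨fun k t a b => X.pr_ma _ _ _ _, X.pr_pr, X.pr_fin, X.pr_ext⟩,
    ⟨X.pr_lX, X.pr_rX, X.pr_lC⟩, ⟨fun a b => X.D_ma _ _, X.D_l, X.D_r, X.D_D, X.D_pr⟩⟩

/-- a complex from its data -/
noncomputable def toCB (X : Raw n) (h : IsCx X) : RC.CB n where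
  M := X.M
  l := RC.mkAct X.l h.1.1.1 h.1.1.2.1 h.1.1.2.2.1 h.1.1.2.2.2
  r := RC.mkAct X.r h.1.2.1.1 h.1.2.1.2.1 h.1.2.1.2.2.1 h.1.2.1.2.2.2
  lr := h.1.2.2.1
  lrC := h.1.2.2.2
  pr k t := RC.mkEnd (X.pr k t) (h.2.1.1 k t)
  pr_pr := h.2.1.2.1
  pr_fin := h.2.1.2.2.1
  pr_ext := h.2.1.2.2.2
  pr_lX := h.2.2.1.1
  pr_rX := h.2.2.1.2.1
  pr_lC := h.2.2.1.2.2
  D := RC.mkEnd X.D h.2.2.2.1
  D_l := h.2.2.2.2.1
  D_r := h.2.2.2.2.2.1
  D_D := h.2.2.2.2.2.2.1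
  D_pr := h.2.2.2.2.2.2.2

theorem raw_toCB (X : Raw n) (h : IsCx X) : raw (toCB X h) = X := rfl

theorem hm_iff (X Y : RC.CB n) (p e : ℤ) (φ : X.M →+ Y.M) :
    Hm (raw X) (raw Y) p e φ ↔ RC.Hm X Y p e φ :=
  ⟨fun h => ⟨⟨h.1, h.2.1⟩, h.2.2⟩, fun h => ⟨h.1.1, h.1.2, h.2⟩⟩

theorem ch_iff (X Y : RC.CB n) (φ : X.M →+ Y.M) : Ch (raw X) (raw Y) φ ↔ RC.Ch X Y φ :=
  ⟨fun h => ⟨(hm_iff X Y 0 0 φ).1 h.1, h.2⟩, fun h => ⟨(hm_iff X Y 0 0 φ).2 h.1, h.2⟩⟩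

theorem nul_iff (X Y : RC.CB n) (φ : X.M →+ Y.M) : Nul (raw X) (raw Y) φ ↔ RC.Nul X Y φ :=
  ⟨fun ⟨h, h1, h2⟩ => ⟨h, (hm_iff X Y _ _ h).1 h1, h2⟩,
    fun ⟨h, h1, h2⟩ => ⟨h, (hm_iff X Y _ _ h).2 h1, h2⟩⟩

theorem he_iff (X Y : RC.CB n) : HE (raw X) (raw Y) ↔ RC.HE X Y := by
  constructor
  · rintro ⟨f, g, hf, hg, h1, h2⟩
    let f' : X.M →+ Y.M := f
    let g' : Y.M →+ X.M := g
    exact ⟨f, g, (ch_iff X Y f).1 hf, (ch_iff Y X g).1 hg,
      (nul_iff X X (g'.comp f' - AddMonoidHom.id _)).1 h1,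
      (nul_iff Y Y (f'.comp g' - AddMonoidHom.id _)).1 h2⟩
  · rintro ⟨f, g, hf, hg, h1, h2⟩
    exact ⟨f, g, (ch_iff X Y f).2 hf, (ch_iff Y X g).2 hg,
      (nul_iff X X (g.comp f - AddMonoidHom.id _)).2 h1,
      (nul_iff Y Y (f.comp g - AddMonoidHom.id _)).2 h2⟩

theorem min_iff (X : RC.CB n) : Minimal (raw X) ↔ RC.Minimal X := by
  constructor
  · intro h Y i p hi hp hpi hc
    exact h (raw Y) i p (raw_isCx Y) ((ch_iff Y X i).2 hi) ((ch_iff X Y p).2 hp) hpi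
      ((nul_iff Y Y (AddMonoidHom.id _)).2 hc)
  · intro h Y i p hY hi hp hpi hc
    exact h (toCB Y hY) i p ((ch_iff (toCB Y hY) X i).1 hi) ((ch_iff X (toCB Y hY) p).1 hp) hpi
      ((nul_iff (toCB Y hY) (toCB Y hY) (AddMonoidHom.id _)).1 hc)

/-- the data of a reflection -/
noncomputable def rd (ρ : RC.Refl n) : Rf n where
  σ f := ρ.σ f
  α := ρ.α

theorem mi_rd (ρ : RC.Refl n) (f : P n) : mi (rd ρ) f = ρ.mi f := by
  have h : ∃ g, (rd ρ).α * g = C (1/2) * (f - (rd ρ).σ f) := ⟨ρ.mi f, ρ.mi_spec f⟩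
  exact (ρ.mi_unique (Classical.epsilon_spec h)).symm

theorem r1_rd (ρ : RC.Refl n) (X : RC.CB n) (f : P n) (a b : X.M) :
    r1 (rd ρ) (raw X) f a b = (RC.thr ρ X f a b).1 := by
  unfold r1
  rw [mi_rd]
  rfl

theorem r2_rd (ρ : RC.Refl n) (X : RC.CB n) (f : P n) (a b : X.M) :
    r2 (rd ρ) (raw X) f a b = (RC.thr ρ X f a b).2 := by
  unfold r2
  rw [mi_rd]
  rfl

theorem raw_Th (ρ : RC.Refl n) (X : RC.CB n) : raw (RC.Th ρ X) = Th (rd ρ) (raw X) := by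
  have h : (Th (rd ρ) (raw X)) = { Th (rd ρ) (raw X) with
      r := fun f m => ((RC.thr ρ X f m.1 m.2).1, (RC.thr ρ X f m.1 m.2).2) } := by
    unfold Th
    simp only [r1_rd, r2_rd]
  rw [h]
  rfl

theorem raw_PF (ρ : RC.Refl n) (X : RC.CB n) :
    raw (RC.Phi ρ true X) = PF (rd ρ) (raw X) := by
  have h : (PF (rd ρ) (raw X)) = { PF (rd ρ) (raw X) with
      r := fun f m => ((RC.thr ρ X f m.1 m.2.1).1, (RC.thr ρ X f m.1 m.2.1).2, X.r f m.2.2) } := by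
    unfold PF
    simp only [r1_rd, r2_rd]
    rfl
  rw [h]
  rfl

theorem raw_PE (ρ : RC.Refl n) (X : RC.CB n) :
    raw (RC.Phi ρ false X) = PE (rd ρ) (raw X) := by
  have h : (PE (rd ρ) (raw X)) = { PE (rd ρ) (raw X) with
      r := fun f m => ((RC.thr ρ X f m.1 m.2.1).1, (RC.thr ρ X f m.1 m.2.1).2, X.r f m.2.2) } := by
    unfold PE
    simp only [r1_rd, r2_rd]
    rfl
  rw [h]
  have h3 : raw (RC.Phi ρ false X) = { PE (rd ρ) (raw X) with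
      r := fun f m => ((RC.thr ρ X f m.1 m.2.1).1, (RC.thr ρ X f m.1 m.2.1).2, X.r f m.2.2)
      pr := fun k t m => (X.pr k (t + 1) m.1, X.pr k (t - 1) m.2.1,
        X.pr (k - -1) (t + -1) m.2.2) } := rfl
  rw [h3]
  congr 1

theorem raw_unit : raw (RC.unit n) = one n := rfl

variable {B W : Type} [Group W] {M : CoxeterMatrix B} {cs : CoxeterSystem M W}

theorem rf_eq (V : RC.Rlz cs) (s : B) : rf V s = rd (V.rf s) := rfl

theorem raw_BSc (V : RC.Rlz cs) (l : List B) : raw (RC.BSc (l.map V.rf)) = BS V l := by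
  unfold RC.BSc BS
  rw [List.foldl_map, ← raw_unit]
  generalize RC.unit V.n = X
  induction l generalizing X with
  | nil => rfl
  | cons s l ih =>
    rw [List.foldl_cons, List.foldl_cons, ih, raw_Th]
    rfl

theorem raw_Rou (V : RC.Rlz cs) (u : List (B × Bool)) : raw (RC.Rou V u) = Rou V u := by
  unfold RC.Rou RC.F RC.Fon Rou
  rw [List.foldl_map, ← raw_unit]
  generalize RC.unit V.n = X
  induction u generalizing X with
  | nil => rfl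
  | cons a u ih =>
    rw [List.foldl_cons, List.foldl_cons, ih]
    obtain ⟨s, ε⟩ := a
    cases ε
    · rw [raw_PE]
      rfl
    · rw [raw_PF]
      rfl

theorem summand_iff (X Y : RC.CB n) (a : ℤ) : Summand (raw X) (raw Y) a ↔ RC.Summand X Y a :=
  ⟨fun ⟨i, p, hi, hp, h⟩ => ⟨i, p, (hm_iff _ _ _ _ _).1 hi, (hm_iff _ _ _ _ _).1 hp, h⟩,
    fun ⟨i, p, hi, hp, h⟩ => ⟨i, p, (hm_iff _ _ _ _ _).2 hi, (hm_iff _ _ _ _ _).2 hp, h⟩⟩

theorem raw_isB (V : RC.Rlz cs) (w : W) (X : RC.CB V.n) (h : RC.IsB V w X) :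
    IsB V w (raw X) where
  cx := raw_isCx X
  conc := h.conc
  diff := h.diff
  nonzero := h.nonzero
  indec e he h2 := h.indec e ((hm_iff _ _ _ _ _).1 he) h2
  summand l hl hw := by
    rw [← raw_BSc, summand_iff]
    exact h.summand l hl hw
  new l hl a := by
    rw [← raw_BSc, summand_iff]
    exact h.new l hl a

end RS
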